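import Pool.Agent.Lib.MP_9177b7_ag.EQ.StN

/-! Divisor bounds. -/

open Finset

namespace Pool.Agent.Lib.MP_9177b7_ag.EQ

namespace Div

theorem prod_bound (g : ℕ → ℕ → ℝ) {ε K : ℝ} (L : ℕ) (hK : 1 ≤ K) (h0 : ∀ l v, 0 ≤ g l v)
    (h1 : ∀ l v : ℕ, l.Prime → 1 ≤ v → g l v ≤ K * ((l : ℝ) ^ v) ^ ε)
    (h2 : ∀ l v : ℕ, l.Prime → L ≤ l → 1 ≤ v → g l v ≤ ((l : ℝ) ^ v) ^ ε) {m : ℕ} (hm : 1 ≤ m) :
    ∏ l ∈ m.primeFactors, g l (m.factorization l) ≤ K ^ L * (m : ℝ) ^ ε := by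
  have hm0 : m ≠ 0 := by omega
  have e1 : (m : ℝ) = ∏ l ∈ m.primeFactors, (l : ℝ) ^ m.factorization l := by
    conv_lhs => rw [← Nat.prod_factorization_pow_eq_self hm0]
    rw [Finsupp.prod, Nat.support_factorization]
    push_cast
    rfl
  have e2 : ∏ l ∈ m.primeFactors, g l (m.factorization l) ≤
      ∏ l ∈ m.primeFactors, (if l < L then K else 1) * ((l : ℝ) ^ m.factorization l) ^ ε := by
    refine prod_le_prod (fun l _ => h0 _ _) fun l hl => ?_
    have hp := Nat.prime_of_mem_primeFactors hl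
    have hv : 1 ≤ m.factorization l :=
      hp.factorization_pos_of_dvd hm0 (Nat.dvd_of_mem_primeFactors hl)
    split_ifs with h
    · exact h1 _ _ hp hv
    · rw [one_mul]; exact h2 _ _ hp (not_lt.1 h) hv
  refine e2.trans ?_
  rw [prod_mul_distrib, Real.finsetProd_rpow _ _ (fun l _ => by positivity), ← e1]
  refine mul_le_mul_of_nonneg_right ?_ (by positivity)
  rw [← prod_filter, prod_const]
  refine pow_le_pow_right₀ hK ?_
  calc #{l ∈ m.primeFactors | l < L} ≤ #(range L) :=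
        card_le_card fun l hl => mem_range.2 (mem_filter.1 hl).2
    _ = L := card_range L

theorem large {ε : ℝ} (hε : 0 < ε) (B : ℝ) : ∃ L : ℕ, ∀ l : ℕ, L ≤ l → B ≤ (l : ℝ) ^ ε := by
  have h := ((tendsto_rpow_atTop hε).comp tendsto_natCast_atTop_atTop).eventually_ge_atTop B
  exact Filter.eventually_atTop.1 h

theorem tau_bound {ε : ℝ} (hε : 0 < ε) :
    ∃ C : ℝ, 1 ≤ C ∧ ∀ m : ℕ, 1 ≤ m → (tau m : ℝ) ≤ C * (m : ℝ) ^ ε := by
  obtain ⟨L, hL⟩ := large hε 2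
  have h2 : 0 < Real.log 2 := Real.log_pos (by norm_num)
  have hK : (1 : ℝ) ≤ 1 + 1 / (ε * Real.log 2) := le_add_of_nonneg_right (by positivity)
  refine ⟨(1 + 1 / (ε * Real.log 2)) ^ L, one_le_pow₀ hK, fun m hm => ?_⟩
  have := prod_bound (fun _ v => (v : ℝ) + 1) (ε := ε) L hK (fun _ _ => by positivity)
    (fun l v hl _ => ?_) (fun l v hl h _ => ?_) hm
  · rw [tau, Nat.card_divisors (by omega)]
    push_cast
    exact this
  · have hl2 : (2 : ℝ) ≤ l := by exact_mod_cast hl.two_le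
    have h3 : 1 + v * (ε * Real.log 2) ≤ ((l : ℝ) ^ v) ^ ε := by
      calc 1 + v * (ε * Real.log 2) ≤ Real.exp (v * (ε * Real.log 2)) := by
            linarith [Real.add_one_le_exp (v * (ε * Real.log 2))]
        _ = ((2 : ℝ) ^ v) ^ ε := by
            rw [Real.rpow_def_of_pos (by positivity), Real.log_pow]; ring_nf
        _ ≤ ((l : ℝ) ^ v) ^ ε := by gcongr
    have h4 : 0 < ε * Real.log 2 := by positivity
    generalize ε * Real.log 2 = δ at *
    have h5 : (v : ℝ) + 1 ≤ (1 + 1 / δ) * (1 + v * δ) := by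
      have : (1 + 1 / δ) * (1 + v * δ) = 1 + v + (v * δ + 1 / δ) := by field_simp; ring
      rw [this]
      have : 0 ≤ v * δ + 1 / δ := by positivity
      linarith
    exact h5.trans (mul_le_mul_of_nonneg_left h3 (by linarith))
  · have h3 := hL l h
    rw [← Real.rpow_natCast, ← Real.rpow_mul (by positivity), mul_comm,
      Real.rpow_mul (by positivity), Real.rpow_natCast]
    calc (v : ℝ) + 1 ≤ 2 ^ v := by exact_mod_cast Nat.lt_two_pow_self
      _ ≤ ((l : ℝ) ^ ε) ^ v := by gcongr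

theorem omega_bound {ε : ℝ} (hε : 0 < ε) {B : ℝ} (hB : 1 ≤ B) :
    ∃ C : ℝ, 1 ≤ C ∧ ∀ m : ℕ, 1 ≤ m → B ^ #m.primeFactors ≤ C * (m : ℝ) ^ ε := by
  obtain ⟨L, hL⟩ := large hε B
  refine ⟨B ^ L, one_le_pow₀ hB, fun m hm => ?_⟩
  have := prod_bound (fun _ _ => B) (ε := ε) L hB (fun _ _ => by linarith)
    (fun l v hl _ => ?_) (fun l v hl h hv => ?_) hm
  · rwa [prod_const] at this
  · have hl2 : (1 : ℝ) ≤ l := by exact_mod_cast hl.one_lt.le
    exact le_mul_of_one_le_right (by linarith) (Real.one_le_rpow (one_le_pow₀ hl2) hε.le)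
  · have hl2 : (1 : ℝ) ≤ l := by exact_mod_cast hl.one_lt.le
    refine (hL l h).trans ?_
    gcongr
    exact le_self_pow₀ hl2 (by omega)

theorem sg_le (m : ℕ) : sg m ≤ tau m * m := by
  rw [sg, tau, ← smul_eq_mul]
  exact sum_le_card_nsmul _ _ _ fun d hd => Nat.divisor_le hd

theorem bounds (A ε : ℝ) (hε : 0 < ε) : ∃ C : ℝ, 0 < C ∧ ∀ m : ℕ, 1 ≤ m →
    (tau m : ℝ) ≤ C * (m : ℝ) ^ ε ∧
    (sg m : ℝ) ≤ C * (m : ℝ) ^ (1 + ε) ∧ |A| ^ #m.primeFactors ≤ C * (m : ℝ) ^ ε ∧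
    Real.exp (A * ∑ l ∈ m.primeFactors, 1 / (l : ℝ)) ≤ C * (m : ℝ) ^ ε := by
  obtain ⟨C₁, h₁, t₁⟩ := tau_bound hε
  have hB : 1 ≤ Real.exp |A| := Real.one_le_exp (abs_nonneg A)
  obtain ⟨C₂, h₂, t₂⟩ := omega_bound hε hB
  refine ⟨C₁ + C₂, by linarith, fun m hm => ?_⟩
  have hm0 : (0 : ℝ) < m := by exact_mod_cast hm
  have hp : 0 < (m : ℝ) ^ ε := by positivity
  have a₁ := t₁ m hm
  have a₂ := t₂ m hm
  refine ⟨by nlinarith, ?_, ?_, ?_⟩
  · have h3 : (sg m : ℝ) ≤ tau m * m := by exact_mod_cast sg_le m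
    rw [Real.rpow_add hm0, Real.rpow_one]
    have h4 := mul_le_mul_of_nonneg_right a₁ hm0.le
    have h5 : 0 ≤ C₂ * (m * (m : ℝ) ^ ε) := by positivity
    nlinarith
  · have h3 : |A| ^ #m.primeFactors ≤ Real.exp |A| ^ #m.primeFactors := by
      gcongr
      linarith [Real.add_one_le_exp |A|]
    nlinarith
  · have h3 : ∑ l ∈ m.primeFactors, 1 / (l : ℝ) ≤ #m.primeFactors := by
      have := sum_le_card_nsmul m.primeFactors (fun l => 1 / (l : ℝ)) 1 fun l hl => by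
        have : (1 : ℝ) ≤ l := by exact_mod_cast (Nat.prime_of_mem_primeFactors hl).one_lt.le
        exact (div_le_one (by linarith)).2 this
      simpa using this
    have h4 : 0 ≤ ∑ l ∈ m.primeFactors, 1 / (l : ℝ) := sum_nonneg fun l _ => by positivity
    have h5 : Real.exp (A * ∑ l ∈ m.primeFactors, 1 / (l : ℝ)) ≤
        Real.exp |A| ^ #m.primeFactors := by
      rw [← Real.exp_nat_mul]
      refine Real.exp_le_exp.2 ?_
      calc A * ∑ l ∈ m.primeFactors, 1 / (l : ℝ) ≤ |A| * ∑ l ∈ m.primeFactors, 1 / (l : ℝ) :=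
            mul_le_mul_of_nonneg_right (le_abs_self A) h4
        _ ≤ |A| * #m.primeFactors := mul_le_mul_of_nonneg_left h3 (abs_nonneg A)
        _ = _ := mul_comm _ _
    nlinarith

theorem sg_mul (a b : ℕ) : sg (a * b) ≤ sg a * sg b := by
  rw [sg, sg, sg, Nat.divisors_mul, Finset.mul_def, sum_mul_sum, ← sum_product']
  exact sum_image_le_of_nonneg (f := fun d : ℕ => d) fun _ _ => Nat.zero_le _

theorem tau_mul (a b : ℕ) : tau (a * b) ≤ tau a * tau b := by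
  rw [tau, tau, tau, Nat.divisors_mul]
  exact card_mul_le

theorem totient_sg (a : ℕ) : Nat.totient a * sg a ≤ a ^ 2 := by
  induction a using Nat.recOnPosPrimePosCoprime with
  | prime_pow p n hp hn =>
    obtain ⟨k, rfl⟩ : ∃ k, n = k + 1 := ⟨n - 1, by omega⟩
    rw [Nat.totient_prime_pow_succ hp, sg, Nat.divisors_prime_pow hp, sum_map]
    simp only [Function.Embedding.coeFn_mk]
    obtain ⟨q, rfl⟩ : ∃ q, p = q + 1 := ⟨p - 1, by have := hp.pos; omega⟩
    have h := geom_sum_mul_add q (k + 1 + 1)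
    rw [Nat.add_sub_cancel]
    calc (q + 1) ^ k * q * ∑ i ∈ range (k + 1 + 1), (q + 1) ^ i
        ≤ (q + 1) ^ k * ((∑ i ∈ range (k + 1 + 1), (q + 1) ^ i) * q + 1) := by nlinarith [Nat.zero_le ((q + 1) ^ k)]
      _ = ((q + 1) ^ (k + 1)) ^ 2 := by rw [h]; ring
  | zero => simp
  | one => simp [sg]
  | coprime a b _ _ hab ha hb =>
    rw [Nat.totient_mul hab]
    calc a.totient * b.totient * sg (a * b) ≤ a.totient * b.totient * (sg a * sg b) :=
          Nat.mul_le_mul_left _ (sg_mul a b)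
      _ = (a.totient * sg a) * (b.totient * sg b) := by ring
      _ ≤ a ^ 2 * b ^ 2 := Nat.mul_le_mul ha hb
      _ = (a * b) ^ 2 := by ring

theorem box_finite (R : ℝ) : {W : M2 | Bdd W R}.Finite := by
  refine (Set.Finite.pi' fun _ : Fin 2 => Set.Finite.pi' fun _ : Fin 2 =>
    Set.finite_Icc (-⌈R⌉) ⌈R⌉).subset fun W hW i j => ?_
  have h := (hW i j).trans (Int.le_ceil R)
  have h' : |W i j| ≤ ⌈R⌉ := by exact_mod_cast h
  exact abs_le.1 h'

end Div

end Pool.Agent.Lib.MP_9177b7_ag.EQ
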