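import Pool.Agent.Lib.MP_9177b7_ag.EQ.Div1
import Pool.Agent.Lib.MP_9177b7_ag.EQ.Div2

/-! Hermite normal form, elementary generation, and the assembly of the elementary estimates. -/

open Finset
open scoped MatrixGroups

namespace Pool.Agent.Lib.MP_9177b7_ag.EQ

namespace Div

theorem hnf_set (m : ℕ) (hm : 1 ≤ m) : {g : M2 | HNF g ∧ g.det = m} =
    ((m.divisors.sigma fun d => range d).image fun x : (Σ _ : ℕ, ℕ) =>
      (!![((m / x.1 : ℕ) : ℤ), (x.2 : ℤ); 0, (x.1 : ℤ)] : M2) : Finset M2) := by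
  ext g
  simp only [Set.mem_ofPred_eq, coe_image, Set.mem_image, mem_coe, mem_sigma, Nat.mem_divisors,
    mem_range]
  constructor
  · rintro ⟨⟨h1, h2, h3, h4, h5⟩, h6⟩
    rw [Matrix.det_fin_two, h1, mul_zero, sub_zero] at h6
    obtain ⟨a, ha⟩ := Int.eq_ofNat_of_zero_le h2.le
    obtain ⟨d, hd⟩ := Int.eq_ofNat_of_zero_le h3.le
    obtain ⟨b, hb⟩ := Int.eq_ofNat_of_zero_le h4
    rw [ha, hd] at h6
    have h7 : a * d = m := by exact_mod_cast h6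
    have hd0 : 0 < d := by omega
    refine ⟨⟨d, b⟩, ⟨⟨⟨a, by rw [← h7, mul_comm]⟩, by omega⟩, by dsimp only; omega⟩, ?_⟩
    have h8 : m / d = a := by rw [← h7, Nat.mul_div_cancel _ hd0]
    ext i j
    fin_cases i <;> fin_cases j <;> simp [h8, ha, hb, hd, h1]
  · rintro ⟨⟨d, b⟩, ⟨⟨⟨a, ha⟩, -⟩, hb⟩, rfl⟩
    dsimp only at ha hb ⊢
    have hd0 : 0 < d := by omega
    have ha0 : 0 < a := Nat.pos_of_ne_zero (by rintro rfl; omega)
    have h8 : m / d = a := by rw [ha, Nat.mul_div_cancel_left _ hd0]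
    rw [h8]
    refine ⟨⟨by simp, by simpa using ha0, by simpa using hd0, by simp, by simpa using hb⟩, ?_⟩
    rw [Matrix.det_fin_two_of, ha]
    push_cast
    ring

theorem hnf_count (m : ℕ) (hm : 1 ≤ m) : {g : M2 | HNF g ∧ g.det = m}.Finite ∧
    {g : M2 | HNF g ∧ g.det = m}.ncard = sg m := by
  rw [hnf_set m hm]
  refine ⟨finite_toSet _, ?_⟩
  rw [Set.ncard_coe_finset, card_image_of_injOn, card_sigma, sg]
  · simp
  · rintro ⟨d, b⟩ - ⟨d', b'⟩ - h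
    have h1 := congrFun (congrFun h 1) 1
    have h2 := congrFun (congrFun h 0) 1
    simp only [Matrix.of_apply, Matrix.cons_val', Matrix.cons_val_one, Matrix.cons_val_fin_one,
      Matrix.cons_val_zero, Nat.cast_inj] at h1 h2
    subst h1 h2
    rfl

theorem hnf_exists (g : M2) (hg : 0 < g.det) : ∃ k : SL(2, ℤ), HNF (k.1 * g) := by
  rw [Matrix.det_fin_two] at hg
  have h0 : 0 < Int.gcd (g 0 0) (g 1 0) := by
    refine Nat.pos_of_ne_zero fun h => ?_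
    obtain ⟨h1, h2⟩ := Int.gcd_eq_zero_iff.1 h
    simp [h1, h2] at hg
  obtain ⟨a, ha⟩ := Int.gcd_dvd_left (g 0 0) (g 1 0)
  obtain ⟨c, hc⟩ := Int.gcd_dvd_right (g 0 0) (g 1 0)
  have hb := Int.gcd_eq_gcd_ab (g 0 0) (g 1 0)
  have h0' : (0 : ℤ) < Int.gcd (g 0 0) (g 1 0) := by exact_mod_cast h0
  generalize (Int.gcd (g 0 0) (g 1 0) : ℤ) = e at *
  generalize (g 0 0).gcdA (g 1 0) = x at *
  generalize (g 0 0).gcdB (g 1 0) = y at *
  have h1 : a * x + c * y = 1 := by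
    refine mul_left_cancel₀ h0'.ne' ?_
    rw [ha, hc] at hb
    linear_combination -hb
  have hd : 0 < a * g 1 1 - c * g 0 1 := by
    refine (mul_pos_iff_of_pos_left h0').1 ?_
    rw [ha, hc] at hg
    linarith
  obtain ⟨s, hs⟩ : ∃ s, s = (x * g 0 1 + y * g 1 1) / (a * g 1 1 - c * g 0 1) := ⟨_, rfl⟩
  have e01 : (x + s * c) * g 0 1 + (y - s * a) * g 1 1 =
      (x * g 0 1 + y * g 1 1) % (a * g 1 1 - c * g 0 1) := by
    rw [Int.emod_def, ← hs]; ring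
  refine ⟨⟨!![x + s * c, y - s * a; -c, a], by
    rw [Matrix.det_fin_two_of]; linear_combination h1⟩, ?_, ?_, ?_, ?_, ?_⟩ <;>
    simp only [Matrix.mul_apply, Fin.sum_univ_two, Matrix.of_apply, Matrix.cons_val',
      Matrix.cons_val_one, Matrix.cons_val_fin_one, Matrix.cons_val_zero]
  · rw [ha, hc]; ring
  · rw [ha, hc]
    have : (x + s * c) * (e * a) + (y - s * a) * (e * c) = e := by linear_combination e * h1
    linarith
  · linarith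
  · rw [e01]; exact Int.emod_nonneg _ hd.ne'
  · rw [e01]
    have := Int.emod_lt_of_pos (x * g 0 1 + y * g 1 1) hd
    linarith

theorem hnf_unique (h : M2) (u : SL(2, ℤ)) (h1 : HNF h) (h2 : HNF (u.1 * h)) : u.1 * h = h := by
  obtain ⟨a1, a2, a3, a4, a5⟩ := h1
  obtain ⟨b1, b2, b3, b4, b5⟩ := h2
  have hd := u.2
  rw [Matrix.det_fin_two] at hd
  simp only [Matrix.mul_apply, Fin.sum_univ_two, a1, mul_zero, add_zero] at b1 b2 b3 b4 b5
  have c1 : u.1 1 0 = 0 := (mul_eq_zero.1 b1).resolve_right a2.ne'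
  rw [c1, mul_zero, sub_zero] at hd
  have c2 : 0 < u.1 0 0 := (mul_pos_iff_of_pos_right a2).1 b2
  have c3 : u.1 0 0 = 1 := Int.eq_one_of_mul_eq_one_right c2.le hd
  have c4 : u.1 1 1 = 1 := by rwa [c3, one_mul] at hd
  rw [c3] at b4
  rw [c1, c3, c4] at b5
  have c5 : u.1 0 1 = 0 := by
    rcases lt_trichotomy (u.1 0 1) 0 with h | h | h
    · nlinarith
    · exact h
    · nlinarith
  ext i j
  fin_cases i <;> fin_cases j <;>
    simp [Matrix.mul_apply, Fin.sum_univ_two, a1, c1, c3, c4, c5]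

theorem hnf (g : M2) (hg : 0 < g.det) : ∃! h : M2, HNF h ∧ ∃ k : SL(2, ℤ), h = k.1 * g := by
  obtain ⟨k, hk⟩ := hnf_exists g hg
  refine ⟨k.1 * g, ⟨hk, k, rfl⟩, ?_⟩
  rintro _ ⟨hk', k', rfl⟩
  have e : k'.1 * g = (k' * k⁻¹).1 * (k.1 * g) := by
    rw [← Matrix.mul_assoc, ← Matrix.SpecialLinearGroup.coe_mul, inv_mul_cancel_right]
  rw [e] at hk' ⊢
  exact hnf_unique _ _ hk hk'

theorem unit_shift (q : ℕ) (hq : 1 ≤ q) (a b c d : ℤ) (h : (q : ℤ) ∣ a * d - b * c - 1) :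
    ∃ x : ℤ, IsCoprime (c - d * x) q := by
  classical
  refine ⟨∏ l ∈ q.primeFactors.filter fun l : ℕ => ¬ (l : ℤ) ∣ c, ((l : ℕ) : ℤ), ?_⟩
  rw [Int.isCoprime_iff_gcd_eq_one]
  by_contra hne
  obtain ⟨l, hl, hl'⟩ := Nat.exists_prime_and_dvd hne
  have h1 : (l : ℤ) ∣ c - d * ∏ l ∈ q.primeFactors.filter fun l : ℕ => ¬ (l : ℤ) ∣ c, ((l : ℕ) : ℤ) :=
    (Int.natCast_dvd_natCast.2 hl').trans (Int.gcd_dvd_left _ _)
  have h2 : (l : ℤ) ∣ q := (Int.natCast_dvd_natCast.2 hl').trans (Int.gcd_dvd_right _ _)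
  have hp : Prime (l : ℤ) := Nat.prime_iff_prime_int.1 hl
  by_cases hc : (l : ℤ) ∣ c
  · have h3 : (l : ℤ) ∣ d * ∏ l ∈ q.primeFactors.filter fun l : ℕ => ¬ (l : ℤ) ∣ c, ((l : ℕ) : ℤ) := by
      simpa using dvd_sub hc h1
    rcases hp.dvd_or_dvd h3 with h4 | h4
    · have h5 : (l : ℤ) ∣ a * d - b * c - (a * d - b * c - 1) :=
        dvd_sub (dvd_sub (h4.mul_left a) (hc.mul_left b)) (h2.trans h)
      exact hp.not_dvd_one (by simpa using h5)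
    · obtain ⟨l', hl1, hl2⟩ := (Prime.dvd_finsetProd_iff hp _).1 h4
      obtain ⟨h5, h6⟩ := mem_filter.1 hl1
      have h7 : l = l' := (Nat.prime_dvd_prime_iff_eq hl (Nat.prime_of_mem_primeFactors h5)).1
        (Int.natCast_dvd_natCast.1 hl2)
      exact h6 (h7 ▸ hc)
  · have h3 : (l : ℤ) ∣ ∏ l ∈ q.primeFactors.filter fun l : ℕ => ¬ (l : ℤ) ∣ c, ((l : ℕ) : ℤ) :=
      dvd_prod_of_mem (fun l : ℕ => (l : ℤ)) (mem_filter.2 ⟨Nat.mem_primeFactors.2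
        ⟨hl, Int.natCast_dvd_natCast.1 h2, by omega⟩, hc⟩)
    exact hc (by simpa using dvd_add h1 (h3.mul_left d))

theorem elem_zmod (q : ℕ) (hq : 1 ≤ q) (a b c d : ZMod q) (h : a * d - b * c = 1) :
    ∃ x₀ x₁ x₂ x₃ : ZMod q, a = 1 + x₀ * x₁ + ((1 + x₀ * x₁) * x₂ + x₀) * x₃ ∧
      b = (1 + x₀ * x₁) * x₂ + x₀ ∧ c = x₁ + (x₁ * x₂ + 1) * x₃ ∧ d = x₁ * x₂ + 1 := by
  obtain ⟨a, rfl⟩ := ZMod.intCast_surjective a
  obtain ⟨b, rfl⟩ := ZMod.intCast_surjective b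
  obtain ⟨c, rfl⟩ := ZMod.intCast_surjective c
  obtain ⟨d, rfl⟩ := ZMod.intCast_surjective d
  obtain ⟨x, u, v, huv⟩ := unit_shift q hq a b c d (by
    rw [← ZMod.intCast_zmod_eq_zero_iff_dvd]
    push_cast
    linear_combination h)
  have hu : (u : ZMod q) * (c - d * x) = 1 := by
    have := congrArg (Int.cast : ℤ → ZMod q) huv
    push_cast at this
    simpa using this
  generalize (a : ZMod q) = a at *
  generalize (b : ZMod q) = b at *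
  generalize (c : ZMod q) = c at *
  generalize (d : ZMod q) = d at *
  generalize (x : ZMod q) = x at *
  generalize (u : ZMod q) = u at *
  obtain ⟨y, hy⟩ : ∃ y, y = (a - b * x - 1) * u := ⟨_, rfl⟩
  have h1 : 1 + y * (c - d * x) = a - b * x := by rw [hy]; linear_combination (a - b * x - 1) * hu
  have h2 : (c - d * x) * (b - y * d) + 1 = d := by linear_combination -h - d * h1
  have h3 : (1 + y * (c - d * x)) * (b - y * d) + y = b := by linear_combination y * h2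
  exact ⟨y, c - d * x, b - y * d, x, by rw [h3, h1]; ring, h3.symm, by rw [h2]; ring, h2.symm⟩

theorem elem_prod (x₀ x₁ x₂ x₃ : ℤ) :
    (!![1, x₀; 0, 1] * !![1, 0; x₁, 1] * !![1, x₂; 0, 1] * !![1, 0; x₃, 1] : M2) =
      !![1 + x₀ * x₁ + ((1 + x₀ * x₁) * x₂ + x₀) * x₃, (1 + x₀ * x₁) * x₂ + x₀;
        x₁ + (x₁ * x₂ + 1) * x₃, x₁ * x₂ + 1] := by
  ext i j
  fin_cases i <;> fin_cases j <;> simp [Matrix.mul_apply, Fin.sum_univ_two]

theorem elem (q : ℕ) (k : SL(2, ℤ)) (hq : 1 ≤ q) : ∃ x : Fin 4 → ℕ, (∀ i, x i < q) ∧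
    Dv q (k.1 - !![1, (x 0 : ℤ); 0, 1] * !![1, 0; (x 1 : ℤ), 1] * !![1, (x 2 : ℤ); 0, 1] *
      !![1, 0; (x 3 : ℤ), 1]) := by
  have : NeZero q := ⟨by omega⟩
  have hd := k.2
  rw [Matrix.det_fin_two] at hd
  obtain ⟨x₀, x₁, x₂, x₃, h1, h2, h3, h4⟩ := elem_zmod q hq (k.1 0 0) (k.1 0 1) (k.1 1 0) (k.1 1 1)
    (by exact_mod_cast congrArg (Int.cast : ℤ → ZMod q) hd)
  refine ⟨![x₀.val, x₁.val, x₂.val, x₃.val], fun i => ?_, fun i j => ?_⟩
  · fin_cases i <;> exact ZMod.val_lt _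
  · rw [elem_prod, ← ZMod.intCast_zmod_eq_zero_iff_dvd]
    fin_cases i <;> fin_cases j <;> simp [h1, h2, h3, h4]

theorem lift (q : ℕ) (hq : 1 ≤ q) (k : SL(2, ZMod q)) : ∃ k' : SL(2, ℤ),
    Matrix.SpecialLinearGroup.map (Int.castRingHom (ZMod q)) k' = k := by
  have hd := k.2
  rw [Matrix.det_fin_two] at hd
  obtain ⟨x₀, x₁, x₂, x₃, h1, h2, h3, h4⟩ := elem_zmod q hq (k.1 0 0) (k.1 0 1) (k.1 1 0) (k.1 1 1) hd
  obtain ⟨x₀, rfl⟩ := ZMod.intCast_surjective x₀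
  obtain ⟨x₁, rfl⟩ := ZMod.intCast_surjective x₁
  obtain ⟨x₂, rfl⟩ := ZMod.intCast_surjective x₂
  obtain ⟨x₃, rfl⟩ := ZMod.intCast_surjective x₃
  refine ⟨⟨!![1 + x₀ * x₁ + ((1 + x₀ * x₁) * x₂ + x₀) * x₃, (1 + x₀ * x₁) * x₂ + x₀;
    x₁ + (x₁ * x₂ + 1) * x₃, x₁ * x₂ + 1], by rw [Matrix.det_fin_two_of]; ring⟩, ?_⟩
  ext i j
  fin_cases i <;> fin_cases j <;> simp [h1, h2, h3, h4]

end Div

theorem div : DivStmt :=
  ⟨Div.bounds, Div.mertens, Div.box_finite,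
    fun a b => ⟨Div.sg_mul a b, Div.tau_mul a b, Div.totient_sg a⟩, Div.hnf_count, Div.hnf,
    Div.elem, Div.lift⟩

end Pool.Agent.Lib.MP_9177b7_ag.EQ
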