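import Pool.Agent.Lib.MP_9177b7_ag.EQ.K0b

/-!
Translation invariance of the box sums.
-/

open Finset

noncomputable section

namespace Pool.Agent.Lib.MP_9177b7_ag.EQ

namespace K0

lemma exists_split (n N : ℕ) (hn : 0 < n) (hN : 0 < N) : ∃ c₀ c₁ u s : ℕ, n = c₀ * c₁ ∧
    Squarefree c₁ ∧ c₁.Coprime c₀ ∧ c₁.Coprime N ∧ u ∣ N ∧ 0 < s ∧ u * s ^ 2 ∣ n ∧ c₀ ≤ u * s ^ 3 := by
  obtain ⟨b, s, hb, hs, hbs, hsf⟩ := Nat.sq_mul_squarefree_of_pos hn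
  have hsN : s * N ≠ 0 := by positivity
  have hco := Nat.coprime_div_gcd_of_squarefree hsf hsN
  have hg : Nat.gcd b (s * N) ∣ b := Nat.gcd_dvd_left _ _
  refine ⟨s ^ 2 * Nat.gcd b (s * N), b / Nat.gcd b (s * N), Nat.gcd b N, s, ?_, ?_, ?_, ?_,
    Nat.gcd_dvd_right _ _, hs, ?_, ?_⟩
  · rw [mul_assoc, Nat.mul_div_cancel' hg, hbs]
  · exact hsf.squarefree_of_dvd (Nat.div_dvd_of_dvd hg)
  · apply Nat.Coprime.mul_right
    · exact (Nat.Coprime.coprime_mul_right_right hco).pow_right 2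
    · exact Nat.Coprime.coprime_dvd_right (Nat.gcd_dvd_right _ _) hco
  · exact Nat.Coprime.coprime_mul_left_right hco
  · rw [← hbs, mul_comm]
    exact Nat.mul_dvd_mul_left _ (Nat.gcd_dvd_left _ _)
  · have h1 : Nat.gcd b (s * N) ≤ Nat.gcd b s * Nat.gcd b N :=
      Nat.le_of_dvd (by positivity) (Nat.gcd_mul_right_dvd_mul_gcd b s N)
    have h2 : Nat.gcd b s ≤ s := Nat.gcd_le_right _ hs
    calc s ^ 2 * Nat.gcd b (s * N) ≤ s ^ 2 * (s * Nat.gcd b N) := by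
          gcongr
          exact h1.trans (Nat.mul_le_mul_right _ h2)
      _ = Nat.gcd b N * s ^ 3 := by ring

/-- A majorant for the fourth root of the bad part of `n`. -/
def fw (N n : ℕ) : ℝ :=
  ∑ u ∈ N.divisors, ∑ s ∈ Icc 1 n, if u * s ^ 2 ∣ n then ((u : ℝ) * s ^ 3) ^ (1 / 4 : ℝ) else 0

lemma le_fw (N n u s : ℕ) (hN : 0 < N) (hn : 0 < n) (hu : u ∣ N) (hs : 0 < s) (h : u * s ^ 2 ∣ n) :
    ((u : ℝ) * s ^ 3) ^ (1 / 4 : ℝ) ≤ fw N n := by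
  have hsn : s ∈ Icc 1 n := by
    rw [mem_Icc]
    refine ⟨hs, Nat.le_of_dvd hn (Dvd.dvd.trans ?_ h)⟩
    exact Dvd.dvd.mul_left (dvd_pow_self s two_ne_zero) u
  have hun : u ∈ N.divisors := Nat.mem_divisors.2 ⟨hu, hN.ne'⟩
  have h1 := single_le_sum (f := fun s : ℕ =>
    if u * s ^ 2 ∣ n then ((u : ℝ) * s ^ 3) ^ (1 / 4 : ℝ) else 0)
    (fun s _ => by split_ifs <;> positivity) hsn
  have h2 := single_le_sum (f := fun u : ℕ => ∑ s ∈ Icc 1 n,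
    if u * s ^ 2 ∣ n then ((u : ℝ) * s ^ 3) ^ (1 / 4 : ℝ) else 0)
    (fun u _ => sum_nonneg fun s _ => by split_ifs <;> positivity) hun
  rw [if_pos h] at h1
  exact h1.trans h2

lemma term_le (u s x : ℕ) (hu : 0 < u) (hs : 0 < s) :
    ((x / (u * s ^ 2) : ℕ) : ℝ) * ((u : ℝ) * s ^ 3) ^ (1 / 4 : ℝ) ≤ x * (1 / (s : ℝ) ^ (5 / 4 : ℝ)) := by
  have hu' : (1 : ℝ) ≤ u := by exact_mod_cast hu
  have hs' : (0 : ℝ) < s := by exact_mod_cast hs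
  have h1 : ((x / (u * s ^ 2) : ℕ) : ℝ) ≤ x / ((u : ℝ) * s ^ 2) := by
    have := Nat.cast_div_le (α := ℝ) (m := x) (n := u * s ^ 2)
    push_cast at this
    exact this
  have h2 : ((u : ℝ) * s ^ 3) ^ (1 / 4 : ℝ) ≤ u * (s : ℝ) ^ (3 / 4 : ℝ) := by
    rw [Real.mul_rpow (by positivity) (by positivity)]
    have e : ((s : ℝ) ^ 3) ^ (1 / 4 : ℝ) = (s : ℝ) ^ (3 / 4 : ℝ) := by
      rw [← Real.rpow_natCast, ← Real.rpow_mul hs'.le]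
      norm_num
    rw [e]
    gcongr
    calc (u : ℝ) ^ (1 / 4 : ℝ) ≤ (u : ℝ) ^ (1 : ℝ) :=
          Real.rpow_le_rpow_of_exponent_le hu' (by norm_num)
      _ = u := Real.rpow_one _
  have e2 : (s : ℝ) ^ 2 = (s : ℝ) ^ (3 / 4 : ℝ) * (s : ℝ) ^ (5 / 4 : ℝ) := by
    rw [← Real.rpow_add hs', ← Real.rpow_natCast]
    norm_num
  have p1 : (0 : ℝ) < (s : ℝ) ^ (3 / 4 : ℝ) := by positivity
  have p2 : (0 : ℝ) < (s : ℝ) ^ (5 / 4 : ℝ) := by positivity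
  calc _ ≤ x / ((u : ℝ) * s ^ 2) * (u * (s : ℝ) ^ (3 / 4 : ℝ)) := by gcongr
    _ = x * (1 / (s : ℝ) ^ (5 / 4 : ℝ)) := by
        rw [e2]
        field_simp

lemma sum_fw : ∃ Z : ℝ, 0 ≤ Z ∧ ∀ N x : ℕ, ∑ n ∈ Icc 1 x, fw N n ≤ Z * tau N * x := by
  have hsum : Summable fun s : ℕ => 1 / (s : ℝ) ^ (5 / 4 : ℝ) :=
    Real.summable_one_div_nat_rpow.2 (by norm_num)
  refine ⟨∑' s : ℕ, 1 / (s : ℝ) ^ (5 / 4 : ℝ), tsum_nonneg fun s => by positivity, ?_⟩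
  intro N x
  have h1 : ∑ n ∈ Icc 1 x, fw N n ≤ ∑ n ∈ Icc 1 x, ∑ u ∈ N.divisors, ∑ s ∈ Icc 1 x,
      if u * s ^ 2 ∣ n then ((u : ℝ) * s ^ 3) ^ (1 / 4 : ℝ) else 0 := by
    refine sum_le_sum fun n hn => sum_le_sum fun u _ => ?_
    apply sum_le_sum_of_subset_of_nonneg (Icc_subset_Icc_right (mem_Icc.1 hn).2)
    intro s _ _
    split_ifs <;> positivity
  refine h1.trans ?_
  rw [sum_comm]
  have h2 : ∀ u ∈ N.divisors, (∑ n ∈ Icc 1 x, ∑ s ∈ Icc 1 x,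
      if u * s ^ 2 ∣ n then ((u : ℝ) * s ^ 3) ^ (1 / 4 : ℝ) else 0) ≤
        (∑' s : ℕ, 1 / (s : ℝ) ^ (5 / 4 : ℝ)) * x := by
    intro u hu
    rw [sum_comm]
    have h3 : ∀ s ∈ Icc 1 x, (∑ n ∈ Icc 1 x,
        if u * s ^ 2 ∣ n then ((u : ℝ) * s ^ 3) ^ (1 / 4 : ℝ) else 0) ≤
          x * (1 / (s : ℝ) ^ (5 / 4 : ℝ)) := by
      intro s hs
      rw [← sum_filter, sum_const, nsmul_eq_mul]
      have e : Icc 1 x = Ioc 0 x := rfl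
      rw [e, Nat.Ioc_filter_dvd_card_eq_div]
      exact term_le u s x (Nat.pos_of_mem_divisors hu) (mem_Icc.1 hs).1
    refine (sum_le_sum h3).trans ?_
    rw [← mul_sum, mul_comm]
    gcongr
    exact hsum.sum_le_tsum _ fun s _ => by positivity
  refine (sum_le_card_nsmul _ _ _ h2).trans ?_
  rw [nsmul_eq_mul, tau]
  apply le_of_eq
  ring

end K0

open K0 in
theorem k0 (hd : DivStmt) (hk : KLStmt) : K0Stmt := by
  intro ε hε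
  obtain ⟨C₀, hC₀⟩ := hk (ε / 2) (by positivity)
  obtain ⟨C₁, hC₁, hτ⟩ := hd.1 0 (ε / 2) (by positivity)
  obtain ⟨C₂, hC₂, hτ₂⟩ := hd.1 0 ε hε
  obtain ⟨Z, hZ, hfw⟩ := sum_fw
  set C : ℝ := max C₀ 0 with hCd
  have hC0 : 0 ≤ C := le_max_right _ _
  have hC : ∀ (c : ℕ) (m a₀ d₀ : ℤ) (L₁ L₂ : ℕ), Squarefree c → IsCoprime m c →
      L₁ ≤ c + 1 → L₂ ≤ c + 1 →
      |(#{w ∈ Ico a₀ (a₀ + L₁) ×ˢ Ico d₀ (d₀ + L₂) | (c : ℤ) ∣ w.1 * w.2 - m} : ℝ) -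
        L₁ * L₂ * Nat.totient c / (c : ℝ) ^ 2| ≤ C * (c : ℝ) ^ (3 / 4 + ε / 2) := by
    intro c m a₀ d₀ L₁ L₂ h1 h2 h3 h4
    refine (hC₀ c m a₀ d₀ L₁ L₂ h1 h2 h3 h4).trans ?_
    gcongr
    exact le_max_left _ _
  refine ⟨C₁ * (2 * C + 1) * Z * C₂, fun m q hm hq =>
    ⟨fun n => C₁ * (2 * C + 1) * (q : ℝ) ^ 2 * (n : ℝ) ^ (3 / 4 + ε) * fw (q * m) n, ?_, ?_⟩⟩
  · intro x hx
    have hx' : (0 : ℝ) < x := by exact_mod_cast hx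
    have hfw0 : ∀ n, 0 ≤ fw (q * m) n := fun n =>
      sum_nonneg fun u _ => sum_nonneg fun s _ => by split_ifs <;> positivity
    have h1 : ∑ n ∈ Icc 1 x, C₁ * (2 * C + 1) * (q : ℝ) ^ 2 * (n : ℝ) ^ (3 / 4 + ε) * fw (q * m) n ≤
        ∑ n ∈ Icc 1 x, C₁ * (2 * C + 1) * (q : ℝ) ^ 2 * (x : ℝ) ^ (3 / 4 + ε) * fw (q * m) n := by
      refine sum_le_sum fun n hn => ?_
      have : (n : ℝ) ≤ x := by exact_mod_cast (mem_Icc.1 hn).2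
      have := hfw0 n
      gcongr
    refine h1.trans ?_
    rw [← mul_sum]
    have h2 : (tau (q * m) : ℝ) ≤ q * (C₂ * (m : ℝ) ^ ε) := by
      have a1 : (tau (q * m) : ℝ) ≤ tau q * tau m := by exact_mod_cast (hd.2.2.2.1 q m).2.1
      have a2 : (tau q : ℝ) ≤ q := by exact_mod_cast Nat.card_divisors_le_self q
      have a3 := (hτ₂ m hm).1
      calc _ ≤ _ := a1
        _ ≤ _ := by gcongr
    have e : (x : ℝ) ^ (7 / 4 + ε) = (x : ℝ) ^ (3 / 4 + ε) * x := by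
      rw [← Real.rpow_add_one hx'.ne']
      congr 1
      ring
    calc _ ≤ C₁ * (2 * C + 1) * (q : ℝ) ^ 2 * (x : ℝ) ^ (3 / 4 + ε) * (Z * tau (q * m) * x) := by
          gcongr
          exact hfw _ _
      _ ≤ C₁ * (2 * C + 1) * (q : ℝ) ^ 2 * (x : ℝ) ^ (3 / 4 + ε) *
          (Z * (q * (C₂ * (m : ℝ) ^ ε)) * x) := by gcongr
      _ = _ := by rw [e]; ring
  · intro ψ hψ c a₀ a₁ d₀ L hc hL
    have hn : 0 < c.natAbs := Int.natAbs_pos.2 hc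
    obtain ⟨c₀, c₁, u, s, hcc, hsf, hco, hcN, hu, hs, hus, hc₀⟩ :=
      exists_split c.natAbs (q * m) hn (by positivity)
    have hq1 : c₁.Coprime q := Nat.Coprime.coprime_mul_right_right hcN
    have hm1 : c₁.Coprime m := Nat.Coprime.coprime_mul_left_right hcN
    have h1 := box_diff hC hC0 hq hψ m c c₀ c₁ hc hcc
      (Nat.isCoprime_iff_coprime.2 (Nat.Coprime.mul_right hco hq1).symm) hsf
      (Nat.isCoprime_iff_coprime.2 hm1.symm) a₀ a₁ d₀ L hL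
    refine h1.trans ?_
    have hc00 : 0 < c₀ := Nat.pos_of_mul_pos_right (hcc ▸ hn)
    have hc10 : 0 < c₁ := Nat.pos_of_mul_pos_left (hcc ▸ hn)
    have p0 : (1 : ℝ) ≤ c₀ := by exact_mod_cast hc00
    have p1 : (1 : ℝ) ≤ c₁ := by exact_mod_cast hc10
    have hf := le_fw (q * m) c.natAbs u s (by positivity) hn hu hs hus
    have hf' : (c₀ : ℝ) ^ (1 / 4 : ℝ) ≤ fw (q * m) c.natAbs := by
      refine le_trans ?_ hf
      have : (c₀ : ℝ) ≤ u * s ^ 3 := by exact_mod_cast hc₀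
      gcongr
    have ht : (tau c₀ : ℝ) ≤ C₁ * (c₀ : ℝ) ^ ε := by
      refine (hτ c₀ hc00).1.trans ?_
      gcongr
      linarith
    have hb : 2 * C * (c₁ : ℝ) ^ (3 / 4 + ε / 2) + 1 ≤ (2 * C + 1) * (c₁ : ℝ) ^ (3 / 4 + ε) := by
      have b1 : (c₁ : ℝ) ^ (3 / 4 + ε / 2) ≤ (c₁ : ℝ) ^ (3 / 4 + ε) := by
        gcongr
        linarith
      have b2 : (1 : ℝ) ≤ (c₁ : ℝ) ^ (3 / 4 + ε) := Real.one_le_rpow p1 (by positivity)
      nlinarith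
    have e : (c.natAbs : ℝ) ^ (3 / 4 + ε) * (c₀ : ℝ) ^ (1 / 4 : ℝ) =
        c₀ * (c₀ : ℝ) ^ ε * (c₁ : ℝ) ^ (3 / 4 + ε) := by
      rw [hcc]
      push_cast
      rw [Real.mul_rpow (by positivity) (by positivity)]
      have : (c₀ : ℝ) ^ (3 / 4 + ε) * (c₀ : ℝ) ^ (1 / 4 : ℝ) = c₀ * (c₀ : ℝ) ^ ε := by
        rw [← Real.rpow_add (by positivity), mul_comm, ← Real.rpow_add_one (by positivity)]
        congr 1
        ring
      rw [← this]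
      ring
    calc _ ≤ (q : ℝ) ^ 2 * c₀ * (C₁ * (c₀ : ℝ) ^ ε) * ((2 * C + 1) * (c₁ : ℝ) ^ (3 / 4 + ε)) := by
          gcongr
      _ = C₁ * (2 * C + 1) * (q : ℝ) ^ 2 * ((c.natAbs : ℝ) ^ (3 / 4 + ε) * (c₀ : ℝ) ^ (1 / 4 : ℝ)) := by
          rw [e]; ring
      _ ≤ C₁ * (2 * C + 1) * (q : ℝ) ^ 2 * ((c.natAbs : ℝ) ^ (3 / 4 + ε) * fw (q * m) c.natAbs) := by
          gcongr
      _ = _ := by ring

end Pool.Agent.Lib.MP_9177b7_ag.EQ
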