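import Pool.Agent.Lib.MP_9177b7_ag.EQ.StN
import Pool.Agent.Lib.MP_0820eb_co.Dens.Kloost

/-!
Points of a modular hyperbola in a box, for a squarefree modulus.
-/

open Finset

namespace Pool.Agent.Lib.MP_9177b7_ag.EQ

open Pool.Agent.Lib.MP_0820eb_co.Dens

namespace KL

variable {c : ℕ} [NeZero c]

lemma kill {a b : ℕ} (h : a.Coprime b) {x : ZMod c} (ha : a * x = 0) (hb : b * x = 0) : x = 0 := by
  obtain ⟨u, v, huv⟩ := Nat.isCoprime_iff_coprime.2 h
  have h1 : (u : ZMod c) * a + v * b = 1 := by exact_mod_cast congrArg (Int.cast : ℤ → ZMod c) huv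
  linear_combination (u : ZMod c) * ha + (v : ZMod c) * hb - x * h1

lemma split {α β γ : ZMod c} (h : α * β * γ = 0) : ∃ d : ℕ × ℕ × ℕ, d.1 * d.2.1 * d.2.2 = c ∧
    (d.2.1 * d.2.2 : ℕ) * α = 0 ∧ (d.1 * d.2.2 : ℕ) * β = 0 ∧ (d.1 * d.2.1 : ℕ) * γ = 0 := by
  have h1 : c ∣ α.val * β.val * γ.val := by
    rw [← ZMod.natCast_eq_zero_iff]
    simpa using h
  obtain ⟨e, d₃, he, h₃, h4⟩ := exists_dvd_and_dvd_of_dvd_mul h1
  obtain ⟨d₁, d₂, h₁, h₂, rfl⟩ := exists_dvd_and_dvd_of_dvd_mul he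
  have key : ∀ (x : ZMod c) (d e : ℕ), d ∣ x.val → c = d * e → (e : ZMod c) * x = 0 := by
    rintro x d e ⟨y, hy⟩ hc
    have h5 : ((d * e : ℕ) : ZMod c) = 0 := by rw [← hc, ZMod.natCast_self]
    rw [← ZMod.natCast_zmod_val x, hy]
    push_cast at h5 ⊢
    linear_combination (y : ZMod c) * h5
  exact ⟨(d₁, d₂, d₃), h4.symm, key _ _ _ h₁ (by rw [h4]; ring), key _ _ _ h₂ (by rw [h4]; ring),
    key _ _ _ h₃ (by rw [h4]; ring)⟩

lemma four (hc : Squarefree c) : ∑ p : ZMod c × ZMod c, ‖kloS p‖ ^ 4 ≤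
    (c : ℝ) ^ 2 * (c.divisors.card * c.divisors.card * (c.totient * c)) := by
  classical
  let u : (ZMod c)ˣ × (ZMod c)ˣ → ZMod c := fun q => q.1 + q.2
  let v : (ZMod c)ˣ × (ZMod c)ˣ → ZMod c := fun q => (q.1⁻¹ : (ZMod c)ˣ) + (q.2⁻¹ : (ZMod c)ˣ)
  have h : ∀ p : ZMod c × ZMod c, ‖kloS p‖ ^ 4 = ‖∑ i, kloE (p.1 * u i + p.2 * v i)‖ ^ 2 :=
    fun p => by
      rw [show (4 : ℕ) = 2 * 2 from rfl, pow_mul, ← norm_pow, sq (kloS p), kloS, sum_mul_sum,
        Fintype.sum_prod_type]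
      congr 2
      refine sum_congr rfl fun i _ => sum_congr rfl fun k _ => ?_
      rw [kloE, kloE, kloE, ← AddChar.map_add_eq_mul]
      congr 1
      simp only [u, v]
      ring
  rw [sum_congr rfl fun p _ => h p, klo_parseval]
  gcongr
  let T := ((ZMod c)ˣ × (ZMod c)ˣ) × (ZMod c)ˣ × (ZMod c)ˣ
  have ex : ∀ q : T, ∃ d : ℕ × ℕ × ℕ, u q.1 = u q.2 ∧ v q.1 = v q.2 → d.1 * d.2.1 * d.2.2 = c ∧
      (d.2.1 * d.2.2 : ℕ) * ((q.1.1 : ZMod c) + q.1.2) = 0 ∧
      (d.1 * d.2.2 : ℕ) * ((q.2.1 : ZMod c) - q.1.1) = 0 ∧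
      (d.1 * d.2.1 : ℕ) * ((q.2.1 : ZMod c) - q.1.2) = 0 := by
    rintro ⟨⟨x1, x2⟩, x3, x4⟩
    by_cases hq : u (x1, x2) = u (x3, x4) ∧ v (x1, x2) = v (x3, x4)
    · obtain ⟨H1, H2⟩ := hq
      simp only [u, v] at H1 H2
      obtain ⟨d, hd⟩ := split (α := x1.val + x2.val) (β := x3.val - x1.val)
        (γ := x3.val - x2.val) (by
        linear_combination (-(x1 * x2 * x3 * x4 : ZMod c)) * H2 + (x2 * x3 * x4 : ZMod c) * x1.mul_inv
          + (x1 * x3 * x4 : ZMod c) * x2.mul_inv - (x1 * x2 * x4 : ZMod c) * x3.mul_inv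
          - (x1 * x2 * x3 : ZMod c) * x4.mul_inv + (x1 * x2 - (x1 + x2) * x3 : ZMod c) * H1)
      exact ⟨d, fun _ => hd⟩
    · exact ⟨(0, 0, 0), fun h => absurd h hq⟩
  choose d hd using ex
  have e : c.divisors.card * c.divisors.card * (c.totient * c) =
      ((c.divisors ×ˢ c.divisors) ×ˢ ((univ : Finset (ZMod c)ˣ) ×ˢ (univ : Finset (ZMod c)))).card := by
    rw [card_product, card_product, card_product, card_univ, card_univ,
      ZMod.card_units_eq_totient, ZMod.card]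
  have tot : ({q : T | u q.1 = u q.2 ∧ v q.1 = v q.2} : Finset T).card ≤
      c.divisors.card * c.divisors.card * (c.totient * c) := by
    rw [e]
    refine card_le_card_of_injOn (fun q => (((d q).1, (d q).2.1), q.1.1,
      ((d q).1 : ZMod c) * q.1.2 + ((d q).2.1 * (d q).2.2 : ℕ) * q.2.1)) (fun q hq => ?_)
      fun q hq q' hq' e => ?_
    · have h1 := (hd q (mem_filter.1 hq).2).1
      simp only [coe_product, Set.mem_prod, mem_coe, Nat.mem_divisors, coe_univ, Set.mem_univ,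
        and_true]
      exact ⟨⟨⟨_, by rw [← h1, mul_assoc]⟩, NeZero.ne c⟩,
        ⟨(d q).1 * (d q).2.2, by rw [← h1]; ring⟩, NeZero.ne c⟩
    · have H := (mem_filter.1 hq).2
      have H' := (mem_filter.1 hq').2
      obtain ⟨a0, a1, a2, a3⟩ := hd q H
      obtain ⟨b0, b1, b2, b3⟩ := hd q' H'
      simp only [Prod.mk.injEq] at e
      obtain ⟨⟨e1, e2⟩, e3, e4⟩ := e
      rw [← e1, ← e2] at b0 e4
      rw [← e1] at b2 b3
      rw [← e2] at b1 b3
      have e0 : (d q).2.2 = (d q').2.2 := by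
        have h0 : (d q).1 * (d q).2.1 ≠ 0 := fun h => NeZero.ne c (by rw [← a0, h, zero_mul])
        exact mul_left_cancel₀ h0 (a0.trans b0.symm)
      rw [← e0] at b1 b2 e4
      generalize (d q).1 = d₁ at *
      generalize (d q).2.1 = d₂ at *
      generalize (d q).2.2 = d₃ at *
      have hs := hc
      rw [← a0] at hs
      have c1 : d₁.Coprime (d₂ * d₃) := Nat.coprime_of_squarefree_mul (by rwa [← mul_assoc])
      have c2 : d₂.Coprime d₃ := (Nat.coprime_of_squarefree_mul hs).coprime_mul_left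
      have hz : ((d₁ * d₂ * d₃ : ℕ) : ZMod c) = 0 := by rw [a0, ZMod.natCast_self]
      have e3' : (q.1.1 : ZMod c) = q'.1.1 := congrArg _ e3
      have H1 : (q.1.1 : ZMod c) + q.1.2 = q.2.1 + q.2.2 := H.1
      have H2 : (q'.1.1 : ZMod c) + q'.1.2 = q'.2.1 + q'.2.2 := H'.1
      push_cast at a1 a2 a3 b1 b2 b3 e4 hz
      have f2 : (q.1.2 : ZMod c) - q'.1.2 = 0 := kill (c1.pow_left 2)
        (by push_cast; linear_combination (d₁ : ZMod c) * e4 - ((q.2.1 : ZMod c) - q'.2.1) * hz)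
        (by push_cast; linear_combination a1 - b1 - (d₂ * d₃ : ZMod c) * e3')
      have f3 : (d₁ : ZMod c) * ((q.2.1 : ZMod c) - q'.2.1) = 0 := kill c2
        (by linear_combination a3 - b3 + (d₁ * d₂ : ZMod c) * f2)
        (by linear_combination a2 - b2 + (d₁ * d₃ : ZMod c) * e3')
      have f4 : (q.2.1 : ZMod c) - q'.2.1 = 0 := kill c1 f3
        (by push_cast; linear_combination e4 - (d₁ : ZMod c) * f2)
      exact Prod.ext (Prod.ext e3 (Units.ext (sub_eq_zero.1 f2))) (Prod.ext (Units.ext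
        (sub_eq_zero.1 f4)) (Units.ext (by linear_combination e3' + f2 - f4 - H1 + H2)))
  exact_mod_cast tot

lemma pow_le (hc : Squarefree c) (p : ZMod c × ZMod c) :
    ‖kloS p‖ ^ 4 ≤ kloG p.1 * ((c : ℝ) ^ 2 * (c.divisors.card * c.divisors.card * c)) := by
  classical
  let f : (ZMod c)ˣ → ZMod c × ZMod c := fun t =>
    (p.1 * (t : ZMod c), p.2 * ((t⁻¹ : (ZMod c)ˣ) : ZMod c))
  have h1 : (c.totient : ℝ) * ‖kloS p‖ ^ 4 = ∑ t, ‖kloS (f t)‖ ^ 4 := by
    simp only [f, kloS_unit]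
    rw [sum_const, card_univ, ZMod.card_units_eq_totient, nsmul_eq_mul]
  have h2 : ∀ b, ({t | f t = b} : Finset (ZMod c)ˣ).card ≤ kloG p.1 := fun b => by
    rcases eq_empty_or_nonempty ({t | f t = b} : Finset (ZMod c)ˣ) with h | ⟨t0, h0⟩
    · simp [h]
    refine card_le_card_of_injOn (fun t => (t : ZMod c) - t0) (fun t ht => ?_) fun t _ t' _ e => ?_
    · have e := congrArg Prod.fst ((mem_filter.1 ht).2.trans (mem_filter.1 h0).2.symm)
      simp only [coe_filter, mem_univ, true_and, Set.mem_ofPred_eq]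
      simp only [f] at e
      linear_combination e
    · exact Units.ext (sub_left_injective e)
  have h3 : ∑ t, ‖kloS (f t)‖ ^ 4 ≤ kloG p.1 * ∑ b : ZMod c × ZMod c, ‖kloS b‖ ^ 4 := by
    rw [sum_comp (fun b => ‖kloS b‖ ^ 4) f, mul_sum]
    refine (sum_le_sum fun b _ => ?_).trans
      (sum_le_sum_of_subset_of_nonneg (subset_univ _) fun _ _ _ => by positivity)
    rw [nsmul_eq_mul]
    gcongr
    exact_mod_cast h2 b
  have h4 : (0 : ℝ) < c.totient := by exact_mod_cast Nat.totient_pos.2 (NeZero.pos c)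
  refine le_of_mul_le_mul_left ?_ h4
  rw [h1]
  refine h3.trans ((mul_le_mul_of_nonneg_left (four hc) (Nat.cast_nonneg _)).trans (le_of_eq ?_))
  ring

lemma klo_le' (hc : Squarefree c) (p : ZMod c × ZMod c) :
    ‖kloS p‖ ≤ c.divisors.card * (c : ℝ) ^ (3 / 4 : ℝ) * kloG p.1 := by
  have h2 : (1 : ℝ) ≤ kloG p.1 := by exact_mod_cast kloG_pos p.1
  have h3 : (1 : ℝ) ≤ c.divisors.card := by
    exact_mod_cast card_pos.2 ⟨1, Nat.one_mem_divisors.2 (NeZero.ne c)⟩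
  refine le_of_pow_le_pow_left₀ four_ne_zero (by positivity) ((pow_le hc p).trans ?_)
  have e : ((c : ℝ) ^ (3 / 4 : ℝ)) ^ 4 = (c : ℝ) ^ 3 := by
    rw [← Real.rpow_natCast, ← Real.rpow_mul (Nat.cast_nonneg _), ← Real.rpow_natCast]
    norm_num
  rw [mul_pow, mul_pow, e]
  calc (kloG p.1 : ℝ) * ((c : ℝ) ^ 2 * (c.divisors.card * c.divisors.card * c))
      = c.divisors.card ^ 2 * (c : ℝ) ^ 3 * (kloG p.1 : ℝ) ^ 1 := by ring
    _ ≤ _ := by gcongr <;> norm_num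

/-- The Fourier transform of a set of integers. -/
noncomputable def FT (A : Finset ℤ) (h : ZMod c) : ℂ := ∑ a ∈ A, kloE (-(h * (a : ZMod c)))

lemma geom (a₀ : ℤ) (L : ℕ) (j : ZMod c) : FT (Ico a₀ (a₀ + L)) j * (kloE (-j) - 1) =
    kloE (-(j * ((a₀ + L : ℤ) : ZMod c))) - kloE (-(j * (a₀ : ZMod c))) := by
  induction L with
  | zero => simp [FT]
  | succ L ih =>
    have e : kloE (-(j * ((a₀ + L + 1 : ℤ) : ZMod c))) =
        kloE (-(j * ((a₀ + L : ℤ) : ZMod c))) * kloE (-j) := by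
      rw [kloE, kloE, kloE, ← AddChar.map_add_eq_mul]
      congr 1
      push_cast
      ring
    rw [Nat.cast_succ, ← add_assoc, ← insert_Ico_right_eq_Ico_add_one (by omega), FT,
      sum_insert (by simp), e]
    rw [FT] at ih
    linear_combination ih

lemma wsum (a₀ : ℤ) {L : ℕ} (hL : L ≤ c + 1) {u : ZMod c} (hu : IsUnit u) :
    ∑ h : ZMod c, kloW h * ‖FT (Ico a₀ (a₀ + L)) (h * u)‖ ≤
      c * (2 + 2 * (c.divisors.card * (1 + Real.log c))) := by
  classical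
  let g : ZMod c → ℝ := fun j => (kloG j : ℝ) * ((j.val : ℝ))⁻¹
  have hs : ∀ u : ZMod c, IsUnit u → ∑ h, g (h * u) ≤ c.divisors.card * (1 + Real.log c) := by
    rintro _ ⟨u, rfl⟩
    exact (Equiv.sum_comp u.mulRight g).le.trans klo_harm
  have h1 : ∀ h : ZMod c, kloW h * ‖FT (Ico a₀ (a₀ + L)) (h * u)‖ ≤
      (if h = 0 then 2 * (c : ℝ) else 0) + c * (g (h * -u) + g (h * u)) := fun h => by
    unfold kloW
    split_ifs with h0
    · have : ‖FT (Ico a₀ (a₀ + L)) (h * u)‖ ≤ 2 * c := by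
        refine (norm_sum_le _ _).trans ?_
        simp only [AddChar.norm_apply, sum_const, nsmul_eq_mul, mul_one, Int.card_Ico,
          add_sub_cancel_left, Int.toNat_natCast]
        have := NeZero.pos c
        exact_mod_cast (show L ≤ 2 * c by omega)
      simpa [g, h0] using this
    · have h2 : ‖FT (Ico a₀ (a₀ + L)) (h * u)‖ * ‖kloE (-(h * u)) - 1‖ ≤ 2 := by
        rw [← norm_mul, geom]
        refine (norm_sub_le _ _).trans ?_
        simp only [AddChar.norm_apply]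
        norm_num
      have h3 := klo_sin' (neg_ne_zero.2 (fun e => h0 (hu.mul_left_eq_zero.1 e))) (norm_nonneg _) h2
      simp only [g]
      rw [kloG_unit h hu, kloG_unit h hu.neg, mul_neg, zero_add, ← mul_add, mul_left_comm]
      rw [neg_neg] at h3
      exact mul_le_mul_of_nonneg_left h3 (Nat.cast_nonneg _)
  refine (sum_le_sum fun h _ => h1 h).trans ?_
  rw [sum_add_distrib, ← mul_sum, sum_add_distrib, sum_ite_eq' univ (0 : ZMod c),
    if_pos (mem_univ _)]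
  nlinarith [hs _ hu, hs _ hu.neg, Nat.cast_nonneg (α := ℝ) c]

lemma ident (A D : Finset ℤ) (m : ℤ) (u : ZMod c) (hu : (m : ZMod c) * u = 1) :
    ∑ p : ZMod c × ZMod c, kloS p * (FT A (p.1 * 1) * FT D (p.2 * u)) =
      (c : ℂ) ^ 2 * ({w ∈ A ×ˢ D | (c : ℤ) ∣ w.1 * w.2 - m} : Finset (ℤ × ℤ)).card := by
  have h : ∀ p : ZMod c × ZMod c, kloS p * (FT A (p.1 * 1) * FT D (p.2 * u)) =
      ∑ x ∈ A ×ˢ D, kloS p * (kloE (-(p.1 * (x.1 : ZMod c))) *
        kloE (-(p.2 * (u * (x.2 : ZMod c))))) := fun p => by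
    rw [FT, FT, sum_mul_sum, ← sum_product', mul_sum]
    simp only [mul_one, mul_assoc]
  rw [sum_congr rfl fun p _ => h p, sum_comm]
  simp only [klo_ind]
  rw [← sum_filter, sum_const, nsmul_eq_mul, mul_comm]
  congr 3
  refine filter_congr fun x _ => ?_
  rw [← ZMod.intCast_zmod_eq_zero_iff_dvd]
  push_cast
  constructor
  · intro h1
    linear_combination (m : ZMod c) * h1 - (x.1 * x.2 : ZMod c) * hu
  · intro h1
    linear_combination (u : ZMod c) * h1 + hu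

lemma err (hc : Squarefree c) {m : ℤ} (hm : IsCoprime m c) (a₀ d₀ : ℤ) {L₁ L₂ : ℕ}
    (h₁ : L₁ ≤ c + 1) (h₂ : L₂ ≤ c + 1) :
    |(({w ∈ Ico a₀ (a₀ + L₁) ×ˢ Ico d₀ (d₀ + L₂) | (c : ℤ) ∣ w.1 * w.2 - m} :
        Finset (ℤ × ℤ)).card : ℝ) - L₁ * L₂ * Nat.totient c / (c : ℝ) ^ 2| ≤
      c.divisors.card * (c : ℝ) ^ (3 / 4 : ℝ) * (2 + 2 * (c.divisors.card * (1 + Real.log c))) ^ 2 := by
  classical
  obtain ⟨u, hu⟩ : ∃ u : ZMod c, (m : ZMod c) * u = 1 := by
    obtain ⟨x, y, hxy⟩ := hm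
    have h1 : (m : ZMod c) * x = 1 := by
      have := congrArg (Int.cast : ℤ → ZMod c) hxy
      push_cast at this
      rw [ZMod.natCast_self] at this
      linear_combination this
    exact ⟨x, h1⟩
  have hu' : IsUnit u := IsUnit.of_mul_eq_one_right _ hu
  set A := Ico a₀ (a₀ + L₁) with hA
  set D := Ico d₀ (d₀ + L₂) with hD
  set K : ℝ := c.divisors.card * (c : ℝ) ^ (3 / 4 : ℝ)
  have hK : 0 ≤ K := by positivity
  have hc0 : (0 : ℝ) < (c : ℝ) ^ 2 := pow_pos (by exact_mod_cast NeZero.pos c) 2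
  have h1 := ident A D m u hu
  rw [← add_sum_erase _ _ (mem_univ 0)] at h1
  have h2 : kloS (0 : ZMod c × ZMod c) * (FT A ((0 : ZMod c × ZMod c).1 * 1) *
      FT D ((0 : ZMod c × ZMod c).2 * u)) = c.totient * (L₁ * L₂) := by
    simp [kloS, FT, ZMod.card_units_eq_totient, hA, hD]
  have h3 : ∀ p : ZMod c × ZMod c, p ≠ 0 → ‖kloS p‖ ≤ K * (kloW p.1 * kloW p.2) := by
    intro p hp
    by_cases h : p.1 = 0
    · have h' : p.2 ≠ 0 := fun e => hp (Prod.ext h e)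
      rw [← kloS_swap, kloW, kloW, if_pos h, if_neg h', one_mul]
      exact klo_le' hc _
    · refine (klo_le' hc p).trans (mul_le_mul_of_nonneg_left ?_ hK)
      rw [kloW, if_neg h]
      exact le_mul_of_one_le_right (Nat.cast_nonneg _) (kloW_ge _)
  have hW : ∀ h : ZMod c, 0 ≤ kloW h := fun h => zero_le_one.trans (kloW_ge h)
  have h4 : ‖∑ p ∈ univ.erase (0 : ZMod c × ZMod c),
      kloS p * (FT A (p.1 * 1) * FT D (p.2 * u))‖ ≤
      K * ((∑ h : ZMod c, kloW h * ‖FT A (h * 1)‖) *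
        ∑ h : ZMod c, kloW h * ‖FT D (h * u)‖) := by
    rw [sum_mul_sum, ← sum_product', mul_sum, univ_product_univ]
    refine (norm_sum_le _ _).trans ((sum_le_sum fun p hp => ?_).trans
      (sum_le_sum_of_subset_of_nonneg (subset_univ _) fun p _ _ => ?_))
    · rw [norm_mul, norm_mul]
      refine (mul_le_mul_of_nonneg_right (h3 p (ne_of_mem_erase hp)) (by positivity)).trans_eq ?_
      ring
    · have := hW p.1
      have := hW p.2
      positivity
  have h5 := mul_le_mul (wsum a₀ h₁ isUnit_one) (wsum d₀ h₂ hu')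
    (sum_nonneg fun h _ => mul_nonneg (hW h) (norm_nonneg _))
    ((sum_nonneg fun h _ => mul_nonneg (hW h) (norm_nonneg _)).trans (wsum a₀ h₁ isUnit_one))
  rw [h2, add_comm, ← eq_sub_iff_add_eq] at h1
  rw [h1] at h4
  have h6 := h4.trans (mul_le_mul_of_nonneg_left h5 hK)
  rw [← Real.norm_eq_abs, ← Complex.norm_real]
  refine le_of_mul_le_mul_left ?_ hc0
  rw [← Real.norm_of_nonneg hc0.le, ← Complex.norm_real, ← norm_mul, Complex.norm_real,
    Real.norm_of_nonneg hc0.le]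
  refine (le_of_eq ?_).trans (h6.trans (le_of_eq (by ring)))
  have : (c : ℂ) ≠ 0 := by exact_mod_cast NeZero.ne c
  congr 1
  push_cast
  field_simp

end KL

theorem kl (hd : DivStmt) (_hk : KPStmt) : KLStmt := by
  intro ε hε
  have hδ : 0 < ε / 5 := by positivity
  obtain ⟨C, hC, h⟩ := hd.1 0 _ hδ
  refine ⟨16 * C ^ 3 * (1 + (ε / 5)⁻¹) ^ 2, fun c m a₀ d₀ L₁ L₂ hc hm h₁ h₂ => ?_⟩
  have : NeZero c := ⟨hc.ne_zero⟩
  have hc1 : (1 : ℝ) ≤ c := by exact_mod_cast NeZero.pos c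
  refine (KL.err hc hm a₀ d₀ h₁ h₂).trans ?_
  have ht : (c.divisors.card : ℝ) ≤ C * (c : ℝ) ^ (ε / 5) := (h c (NeZero.pos c)).1
  have ht1 : (1 : ℝ) ≤ c.divisors.card := by
    exact_mod_cast card_pos.2 ⟨1, Nat.one_mem_divisors.2 (NeZero.ne c)⟩
  have hl0 := Real.log_nonneg hc1
  have hY : (1 : ℝ) ≤ (c : ℝ) ^ (ε / 5) := Real.one_le_rpow hc1 hδ.le
  have hl : 1 + Real.log c ≤ (1 + (ε / 5)⁻¹) * (c : ℝ) ^ (ε / 5) := by
    have := Real.log_le_rpow_div (Nat.cast_nonneg c) hδ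
    rw [div_eq_inv_mul] at this
    linarith
  have e : (c : ℝ) ^ (3 / 4 + ε) = (c : ℝ) ^ (3 / 4 : ℝ) * ((c : ℝ) ^ (ε / 5)) ^ 5 := by
    rw [← Real.rpow_natCast, ← Real.rpow_mul (Nat.cast_nonneg _), ← Real.rpow_add (by linarith)]
    congr 1
    push_cast
    ring
  have h4 : 2 + 2 * ((c.divisors.card : ℝ) * (1 + Real.log c)) ≤
      4 * (c.divisors.card * (1 + Real.log c)) := by nlinarith
  rw [e]
  calc _ ≤ C * (c : ℝ) ^ (ε / 5) * (c : ℝ) ^ (3 / 4 : ℝ) * (4 * (C * (c : ℝ) ^ (ε / 5) *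
        ((1 + (ε / 5)⁻¹) * (c : ℝ) ^ (ε / 5)))) ^ 2 := by
        gcongr
        refine h4.trans ?_
        gcongr
    _ = _ := by ring

end Pool.Agent.Lib.MP_9177b7_ag.EQ
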