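import Pool.Agent.Lib.MP_9177b7_ag.EQ.StN
import Pool.Agent.Lib.MP_0820eb_co.Dens.Kloost1

/-!
The bound of Kloosterman for a prime modulus.
-/

open Finset

namespace Pool.Agent.Lib.MP_9177b7_ag.EQ

open Pool.Agent.Lib.MP_0820eb_co.Dens

namespace KP

lemma aux (l : ℕ) [hl : Fact l.Prime] (p : ZMod l × ZMod l) (hp : p.1 ≠ 0) :
    ‖kloS p‖ ≤ 2 * (l : ℝ) ^ (3 / 4 : ℝ) := by
  have h1 : kloG p.1 ≤ 1 := card_le_one.2 fun a ha b hb => by
    simp only [mem_filter, mem_univ, true_and, mul_eq_zero, hp, false_or] at ha hb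
    rw [ha, hb]
  have key : ∀ a ∈ kloB l, a = 0 := fun a ha => by
    by_contra h0
    have h2 : l.gcd a.val = 1 := (Nat.coprime_of_lt_prime (ZMod.val_pos.2 h0).ne' (ZMod.val_lt a) hl.out)
    have h3 := (mem_filter.1 ha).2
    rw [h2] at h3
    exact absurd h3 (by simpa using hl.out.one_lt)
  have h2 : (kloB l).card ≤ 1 := card_le_one.2 fun a ha b hb => by rw [key a ha, key b hb]
  have h1' : (kloG p.1 : ℝ) ≤ 1 := by exact_mod_cast h1
  have h2' : ((kloB l).card : ℝ) ≤ 1 := by exact_mod_cast h2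
  refine le_of_pow_le_pow_left₀ four_ne_zero (by positivity) ((klo_pow_le p).trans ?_)
  have e : ((l : ℝ) ^ (3 / 4 : ℝ)) ^ 4 = (l : ℝ) ^ 3 := by
    rw [← Real.rpow_natCast, ← Real.rpow_mul (Nat.cast_nonneg _), ← Real.rpow_natCast]
    norm_num
  rw [mul_pow, e]
  calc (kloG p.1 : ℝ) * ((l : ℝ) ^ 2 * (3 * ((kloB l).card * l)))
      ≤ 1 * ((l : ℝ) ^ 2 * (16 * (1 * l))) := by gcongr; norm_num
    _ = _ := by ring

end KP

theorem kp : KPStmt := by
  intro l _ h k hk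
  rcases hk with hk | hk
  · exact KP.aux l (h, k) hk
  · have := KP.aux l (k, h) hk
    rwa [← kloS_swap] at this

end Pool.Agent.Lib.MP_9177b7_ag.EQ
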