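import Pool.Agent.Lib.MP_9177b7_ag.EQ.StN

/-!
Roots of quadratic congruences, points on conics and densities of zeros.
-/

open Finset

namespace Pool.Agent.Lib.MP_9177b7_ag.EQ

namespace Con

/-! ### One variable -/

lemma dvd_of_modEq {x y q : ℕ} (h : x ≡ y [MOD q]) : (q : ℤ) ∣ (x : ℤ) - y :=
  Nat.modEq_iff_dvd.1 h.symm

lemma eq_of_mod_div {x y q : ℕ} (h : x % q = y % q) (h' : x / q = y / q) : x = y := by
  rw [← Nat.div_add_mod x q, ← Nat.div_add_mod y q, h, h']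

lemma lin_le {q r : ℕ} {a b : ℤ} (h : IsCoprime (q : ℤ) a) :
    #{x ∈ range (q * r) | (q : ℤ) ∣ a * (x : ℕ) + b} ≤ r := by
  refine (card_le_card_of_injOn (fun x => x / q) (t := range r) ?_ ?_).trans (card_range r).le
  · intro x hx
    exact mem_coe.2 (mem_range.2 (Nat.div_lt_of_lt_mul (mem_range.1 (mem_filter.1 hx).1)))
  · intro x hx y hy hxy
    have h1 : (q : ℤ) ∣ a * ((y : ℤ) - x) :=
      (dvd_sub (mem_filter.1 hy).2 (mem_filter.1 hx).2).trans (dvd_of_eq (by ring))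
    exact eq_of_mod_div (Nat.modEq_iff_dvd.2 (h.dvd_of_dvd_mul_left h1)) hxy

lemma pow_dvd_or {l k : ℕ} (hl : l.Prime) {u v : ℤ} (h : (l : ℤ) ^ k ∣ u * v) :
    (l : ℤ) ^ ((k + 1) / 2) ∣ u ∨ (l : ℤ) ^ ((k + 1) / 2) ∣ v := by
  haveI := Fact.mk hl
  by_contra hc
  rw [not_or, padicValInt_dvd_iff, padicValInt_dvd_iff, not_or, not_or] at hc
  rw [padicValInt_dvd_iff, padicValInt.mul hc.1.1 hc.2.1] at h
  rcases h with h | h
  · exact mul_ne_zero hc.1.1 hc.2.1 h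
  · omega

lemma cop {l : ℕ} (hl : l.Prime) {a : ℤ} (h : ¬ (l : ℤ) ∣ a) (j : ℕ) :
    IsCoprime ((l ^ j : ℕ) : ℤ) a := by
  rw [Nat.cast_pow]
  exact ((Nat.prime_iff_prime_int.1 hl).irreducible.coprime_iff_not_dvd.2 h).pow_left

lemma one (l k : ℕ) (a b c : ℤ) (hl : l.Prime) (h : ¬ ((l : ℤ) ∣ a ∧ (l : ℤ) ∣ b ∧ (l : ℤ) ∣ c)) :
    #{x ∈ range (l ^ k) | (l : ℤ) ^ k ∣ a * ((x : ℕ) : ℤ) ^ 2 + b * (x : ℕ) + c} ≤
      2 * l ^ (k / 2) := by
  rcases Nat.eq_zero_or_pos k with rfl | hk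
  · exact (card_filter_le _ _).trans (by simp)
  rcases Finset.eq_empty_or_nonempty
    {x ∈ range (l ^ k) | (l : ℤ) ^ k ∣ a * ((x : ℕ) : ℤ) ^ 2 + b * (x : ℕ) + c} with h0 | ⟨x₀, hx₀⟩
  · simp [h0]
  have hk' : l ^ k = l ^ ((k + 1) / 2) * l ^ (k / 2) := by
    rw [← pow_add]
    congr 1
    omega
  have h1 : {x ∈ range (l ^ k) | (l : ℤ) ^ k ∣ a * ((x : ℕ) : ℤ) ^ 2 + b * (x : ℕ) + c} ⊆
      {x ∈ range (l ^ ((k + 1) / 2) * l ^ (k / 2)) |
        ((l ^ ((k + 1) / 2) : ℕ) : ℤ) ∣ 1 * ((x : ℕ) : ℤ) + -x₀} ∪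
      {x ∈ range (l ^ ((k + 1) / 2) * l ^ (k / 2)) |
        ((l ^ ((k + 1) / 2) : ℕ) : ℤ) ∣ a * ((x : ℕ) : ℤ) + (a * x₀ + b)} := by
    intro x hx
    have h2 : (l : ℤ) ^ k ∣ (1 * (x : ℤ) + -x₀) * (a * x + (a * x₀ + b)) :=
      (dvd_sub (mem_filter.1 hx).2 (mem_filter.1 hx₀).2).trans (dvd_of_eq (by ring))
    have h3 := (mem_filter.1 hx).1
    rw [hk'] at h3
    simp only [mem_union, mem_filter, h3, true_and, Nat.cast_pow]
    exact pow_dvd_or hl h2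
  refine (card_le_card h1).trans ((card_union_le _ _).trans ?_)
  rw [two_mul]
  refine add_le_add (lin_le isCoprime_one_right) ?_
  by_cases ha : (l : ℤ) ∣ a
  · rw [filter_false_of_mem]
    · simp
    intro x _ hx
    have h2 : (l : ℤ) ∣ a * x + (a * x₀ + b) :=
      (Int.natCast_dvd_natCast.2 (dvd_pow_self l (by omega))).trans hx
    have hb : (l : ℤ) ∣ b :=
      (dvd_add_right (ha.mul_right _)).1 ((dvd_add_right (ha.mul_right _)).1 h2)
    exact h ⟨ha, hb, (dvd_add_right (dvd_add (ha.mul_right _) (hb.mul_right _))).1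
      ((dvd_pow_self _ hk.ne').trans (mem_filter.1 hx₀).2)⟩
  · exact lin_le (cop hl ha _)

lemma quad_congr {q x y : ℕ} {b c : ℤ} (h : x ≡ y [MOD q]) (hx : (q : ℤ) ∣ (x : ℤ) ^ 2 + b * x + c) :
    (q : ℤ) ∣ (y : ℤ) ^ 2 + b * y + c :=
  (dvd_sub hx ((dvd_of_modEq h).mul_right ((x : ℤ) + y + b))).trans (dvd_of_eq (by ring))

lemma two (m : ℕ) (b c : ℤ) (hm : 1 ≤ m) :
    (#{x ∈ range m | (m : ℤ) ∣ ((x : ℕ) : ℤ) ^ 2 + b * (x : ℕ) + c} : ℝ) ≤
      2 ^ #m.primeFactors * Real.sqrt m := by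
  induction m using Nat.recOnPosPrimePosCoprime with
  | prime_pow l k hl hk =>
    have h1 := one l k 1 b c hl fun h => (Nat.prime_iff_prime_int.1 hl).not_dvd_one h.1
    simp only [one_mul] at h1
    rw [Nat.primeFactors_prime_pow hk.ne' hl, card_singleton, pow_one]
    simp only [Nat.cast_pow]
    refine (Nat.cast_le.2 h1).trans ?_
    push_cast
    refine mul_le_mul_of_nonneg_left (Real.le_sqrt_of_sq_le ?_) zero_le_two
    rw [← pow_mul]
    exact pow_le_pow_right₀ (Nat.one_le_cast.2 hl.one_le) (by omega)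
  | zero => omega
  | one => simp
  | coprime p q hp hq hpq ihp ihq =>
    have h1 : #{x ∈ range (p * q) | ((p * q : ℕ) : ℤ) ∣ ((x : ℕ) : ℤ) ^ 2 + b * (x : ℕ) + c} ≤
        #({x ∈ range p | (p : ℤ) ∣ ((x : ℕ) : ℤ) ^ 2 + b * (x : ℕ) + c} ×ˢ
          {x ∈ range q | (q : ℤ) ∣ ((x : ℕ) : ℤ) ^ 2 + b * (x : ℕ) + c}) := by
      refine card_le_card_of_injOn (fun x => (x % p, x % q)) ?_ ?_
      · intro x hx
        have h2 := (mem_filter.1 hx).2
        rw [Nat.cast_mul] at h2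
        exact mem_coe.2 (mem_product.2
          ⟨mem_filter.2 ⟨mem_range.2 (Nat.mod_lt _ (by omega)),
            quad_congr (Nat.mod_modEq x p).symm ((dvd_mul_right _ _).trans h2)⟩,
          mem_filter.2 ⟨mem_range.2 (Nat.mod_lt _ (by omega)),
            quad_congr (Nat.mod_modEq x q).symm ((dvd_mul_left _ _).trans h2)⟩⟩)
      · intro x hx y hy hxy
        exact Nat.ModEq.eq_of_lt_of_lt ((Nat.modEq_and_modEq_iff_modEq_mul hpq).1
          ⟨congrArg Prod.fst hxy, congrArg Prod.snd hxy⟩) (mem_range.1 (mem_filter.1 hx).1)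
          (mem_range.1 (mem_filter.1 hy).1)
    refine (Nat.cast_le.2 h1).trans ?_
    rw [card_product, Nat.cast_mul, hpq.primeFactors_mul,
      card_union_of_disjoint hpq.disjoint_primeFactors, pow_add, Nat.cast_mul p q,
      Real.sqrt_mul (Nat.cast_nonneg p), mul_mul_mul_comm]
    exact mul_le_mul (ihp hp.le) (ihq hq.le) (Nat.cast_nonneg _) (by positivity)

/-! ### Densities -/

/-- The zeros of `F` modulo `a` in a box. -/
def Z (F : ℤ → ℤ → ℤ) (a X Y : ℕ) : Finset (ℕ × ℕ) :=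
  {w ∈ range X ×ˢ range Y | (a : ℤ) ∣ F w.1 w.2}

variable {F : ℤ → ℤ → ℤ}

lemma mem_Z {a X Y : ℕ} {w : ℕ × ℕ} :
    w ∈ Z F a X Y ↔ (w.1 < X ∧ w.2 < Y) ∧ (a : ℤ) ∣ F w.1 w.2 := by
  simp [Z]

lemma th_eq (F : ℤ → ℤ → ℤ) (a : ℕ) : th F a = #(Z F a a a) / (a : ℝ) ^ 2 := rfl

lemma th_nonneg (F : ℤ → ℤ → ℤ) (a : ℕ) : 0 ≤ th F a := by
  rw [th_eq]
  positivity

lemma th_zero (F : ℤ → ℤ → ℤ) : th F 0 = 0 := by simp [th]

lemma th_one (F : ℤ → ℤ → ℤ) : th F 1 = 1 := by simp [th]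

lemma dvd_congr (hF : Cong F) {a x y x' y' : ℤ} (hx : a ∣ x - x') (hy : a ∣ y - y')
    (h : a ∣ F x y) : a ∣ F x' y' :=
  (dvd_sub_right h).1 (hF a x y x' y' hx hy)

lemma mod_mem (hF : Cong F) {a : ℕ} (ha : 0 < a) {w : ℕ × ℕ} (h : (a : ℤ) ∣ F w.1 w.2) :
    (w.1 % a, w.2 % a) ∈ Z F a a a :=
  mem_Z.2 ⟨⟨Nat.mod_lt _ ha, Nat.mod_lt _ ha⟩, dvd_congr hF (dvd_of_modEq (Nat.mod_modEq _ _).symm)
    (dvd_of_modEq (Nat.mod_modEq _ _).symm) h⟩

lemma upper (hF : Cong F) {a X Y r s : ℕ} (ha : 0 < a) (hX : X ≤ a * r) (hY : Y ≤ a * s) :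
    #(Z F a X Y) ≤ #(Z F a a a) * (r * s) := by
  have h1 : #(Z F a X Y) ≤ #(Z F a a a ×ˢ (range r ×ˢ range s)) := by
    refine card_le_card_of_injOn (fun w => ((w.1 % a, w.2 % a), (w.1 / a, w.2 / a))) ?_ ?_
    · intro w hw
      obtain ⟨⟨h1, h2⟩, h3⟩ := mem_Z.1 hw
      exact mem_coe.2 (mem_product.2 ⟨mod_mem hF ha h3, mem_product.2
        ⟨mem_range.2 (Nat.div_lt_of_lt_mul (h1.trans_le hX)),
          mem_range.2 (Nat.div_lt_of_lt_mul (h2.trans_le hY))⟩⟩)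
    · intro w _ w' _ h
      simp only [Prod.mk.injEq] at h
      exact Prod.ext (eq_of_mod_div h.1.1 h.2.1) (eq_of_mod_div h.1.2 h.2.2)
  simpa using h1

lemma lower (hF : Cong F) {a X Y r s : ℕ} (hX : a * r ≤ X) (hY : a * s ≤ Y) :
    #(Z F a a a) * (r * s) ≤ #(Z F a X Y) := by
  have h0 : ∀ {u i r X : ℕ}, u < a → i < r → a * r ≤ X → u + a * i < X := fun hu hi hX => by
    have := Nat.mul_le_mul_left a (Nat.succ_le_of_lt hi)
    rw [Nat.mul_succ] at this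
    omega
  have h2 : ∀ {u i u' i' : ℕ}, u < a → u' < a → u + a * i = u' + a * i' → u = u' ∧ i = i' :=
    fun {u i u' i'} hu hu' h => by
      have h3 := congrArg (· % a) h
      simp only [Nat.add_mul_mod_self_left, Nat.mod_eq_of_lt hu, Nat.mod_eq_of_lt hu'] at h3
      subst h3
      exact ⟨rfl, Nat.eq_of_mul_eq_mul_left (by omega) (Nat.add_left_cancel h)⟩
  have h1 : #(Z F a a a ×ˢ (range r ×ˢ range s)) ≤ #(Z F a X Y) := by
    refine card_le_card_of_injOn (fun z => (z.1.1 + a * z.2.1, z.1.2 + a * z.2.2)) ?_ ?_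
    · intro z hz
      obtain ⟨h3, h4⟩ := mem_product.1 hz
      obtain ⟨⟨h5, h6⟩, h7⟩ := mem_Z.1 h3
      obtain ⟨h8, h9⟩ := mem_product.1 h4
      refine mem_coe.2 (mem_Z.2 ⟨⟨h0 h5 (mem_range.1 h8) hX, h0 h6 (mem_range.1 h9) hY⟩,
        dvd_congr hF ?_ ?_ h7⟩) <;> simp
    · intro z hz z' hz' h
      simp only [Prod.mk.injEq] at h
      obtain ⟨⟨h3, h4⟩, -⟩ := mem_Z.1 (mem_product.1 hz).1
      obtain ⟨⟨h5, h6⟩, -⟩ := mem_Z.1 (mem_product.1 hz').1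
      exact Prod.ext (Prod.ext (h2 h3 h5 h.1).1 (h2 h4 h6 h.2).1)
        (Prod.ext (h2 h3 h5 h.1).2 (h2 h4 h6 h.2).2)
  simpa using h1

lemma th_mul (hF : Cong F) (a b : ℕ) (h : a.Coprime b) : th F (a * b) = th F a * th F b := by
  rcases Nat.eq_zero_or_pos a with rfl | ha
  · simp [th_zero]
  rcases Nat.eq_zero_or_pos b with rfl | hb
  · simp [th_zero]
  have h1 : #(Z F (a * b) (a * b) (a * b)) = #(Z F a a a ×ˢ Z F b b b) := by
    refine card_nbij (fun w => ((w.1 % a, w.2 % a), (w.1 % b, w.2 % b))) ?_ ?_ ?_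
    · intro w hw
      have h2 := (mem_Z.1 hw).2
      rw [Nat.cast_mul] at h2
      exact mem_coe.2 (mem_product.2 ⟨mod_mem hF ha ((dvd_mul_right _ _).trans h2),
        mod_mem hF hb ((dvd_mul_left _ _).trans h2)⟩)
    · intro w hw w' hw' e
      simp only [Prod.mk.injEq] at e
      exact Prod.ext
        (Nat.ModEq.eq_of_lt_of_lt ((Nat.modEq_and_modEq_iff_modEq_mul h).1 ⟨e.1.1, e.2.1⟩)
          (mem_Z.1 hw).1.1 (mem_Z.1 hw').1.1)
        (Nat.ModEq.eq_of_lt_of_lt ((Nat.modEq_and_modEq_iff_modEq_mul h).1 ⟨e.1.2, e.2.2⟩)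
          (mem_Z.1 hw).1.2 (mem_Z.1 hw').1.2)
    · rintro ⟨u, v⟩ hz
      obtain ⟨⟨h2, h3⟩, h4⟩ := mem_Z.1 (mem_product.1 hz).1
      obtain ⟨⟨h5, h6⟩, h7⟩ := mem_Z.1 (mem_product.1 hz).2
      obtain ⟨x, hx, hxa, hxb⟩ : ∃ x, x < a * b ∧ x ≡ u.1 [MOD a] ∧ x ≡ v.1 [MOD b] :=
        ⟨_, Nat.chineseRemainder_lt_mul h _ _ ha.ne' hb.ne', (Nat.chineseRemainder h _ _).2⟩
      obtain ⟨y, hy, hya, hyb⟩ : ∃ y, y < a * b ∧ y ≡ u.2 [MOD a] ∧ y ≡ v.2 [MOD b] :=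
        ⟨_, Nat.chineseRemainder_lt_mul h _ _ ha.ne' hb.ne', (Nat.chineseRemainder h _ _).2⟩
      refine ⟨(x, y), mem_coe.2 (mem_Z.2 ⟨⟨hx, hy⟩, ?_⟩), ?_⟩
      · rw [Nat.cast_mul]
        exact (Nat.isCoprime_iff_coprime.2 h).mul_dvd
          (dvd_congr hF (dvd_of_modEq hxa.symm) (dvd_of_modEq hya.symm) h4)
          (dvd_congr hF (dvd_of_modEq hxb.symm) (dvd_of_modEq hyb.symm) h7)
      · exact Prod.ext
          (Prod.ext (Eq.trans hxa (Nat.mod_eq_of_lt h2)) (Eq.trans hya (Nat.mod_eq_of_lt h3)))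
          (Prod.ext (Eq.trans hxb (Nat.mod_eq_of_lt h5)) (Eq.trans hyb (Nat.mod_eq_of_lt h6)))
  rw [th_eq, th_eq, th_eq, h1, card_product]
  push_cast
  ring

lemma th_anti (hF : Cong F) (a b : ℕ) (hb : 1 ≤ b) (h : a ∣ b) : th F b ≤ th F a := by
  obtain ⟨r, rfl⟩ := h
  have ha : 0 < a := Nat.pos_of_mul_pos_right hb
  have hr : 0 < r := Nat.pos_of_mul_pos_left hb
  have h1 : #(Z F (a * r) (a * r) (a * r)) ≤ #(Z F a a a) * (r * r) :=
    (card_le_card fun w hw => mem_Z.2 ⟨(mem_Z.1 hw).1,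
      (Int.natCast_dvd_natCast.2 (dvd_mul_right a r)).trans (mem_Z.1 hw).2⟩).trans
      (upper hF ha le_rfl le_rfl)
  have h2 : (#(Z F (a * r) (a * r) (a * r)) : ℝ) ≤ #(Z F a a a) * (r * r) := by exact_mod_cast h1
  rw [th_eq, th_eq, div_le_div_iff₀ (by positivity) (by positivity)]
  push_cast
  nlinarith [mul_le_mul_of_nonneg_right h2 (sq_nonneg (a : ℝ))]

lemma th_box (hF : Cong F) (a X Y : ℕ) (ha : 1 ≤ a) :
    |(#(Z F a X Y) : ℝ) - X * Y * th F a| ≤ ((X : ℝ) * a + Y * a + a ^ 2) * th F a := by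
  have ha' : (0 : ℝ) < a := Nat.cast_pos.2 ha
  have h0 : (#(Z F a a a) : ℝ) = th F a * a ^ 2 := by
    rw [th_eq]
    field_simp
  have h1 : (#(Z F a X Y) : ℝ) ≤ #(Z F a a a) * (((X / a + 1 : ℕ) : ℝ) * (Y / a + 1 : ℕ)) := by
    exact_mod_cast upper hF ha (Nat.lt_mul_div_succ X ha).le (Nat.lt_mul_div_succ Y ha).le
  have h2 : (#(Z F a a a) : ℝ) * (((X / a : ℕ) : ℝ) * (Y / a : ℕ)) ≤ #(Z F a X Y) := by
    exact_mod_cast lower hF (Nat.mul_div_le X a) (Nat.mul_div_le Y a)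
  have h3 : ∀ X : ℕ, (a : ℝ) * (X / a : ℕ) ≤ X ∧ (X : ℝ) ≤ a * (X / a : ℕ) + a := fun X =>
    ⟨by exact_mod_cast Nat.mul_div_le X a, by exact_mod_cast (Nat.lt_mul_div_succ X ha).le⟩
  obtain ⟨h4, h5⟩ := h3 X
  obtain ⟨h6, h7⟩ := h3 Y
  have ht := th_nonneg F a
  push_cast at h1
  rw [h0] at h1 h2
  set u : ℝ := a * (X / a : ℕ) with hu
  set v : ℝ := a * (Y / a : ℕ) with hv
  have hu0 : 0 ≤ u := by positivity
  have hv0 : 0 ≤ v := by positivity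
  have h8 : (#(Z F a X Y) : ℝ) ≤ (u + a) * (v + a) * th F a := h1.trans_eq (by rw [hu, hv]; ring)
  have h9 : u * v * th F a ≤ #(Z F a X Y) := le_of_eq_of_le (by rw [hu, hv]; ring) h2
  have h10 : (u + a) * (v + a) ≤ (X + a) * (Y + a) := by gcongr
  have h11 : (X : ℝ) * Y - u * v ≤ X * a + Y * a + a ^ 2 := by
    nlinarith [mul_le_mul_of_nonneg_left h7 (Nat.cast_nonneg (α := ℝ) X),
      mul_le_mul_of_nonneg_left h5 hv0, mul_le_mul_of_nonneg_left h6 ha'.le]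
  rw [abs_le]
  constructor
  · nlinarith [mul_le_mul_of_nonneg_right h11 ht]
  · nlinarith [mul_le_mul_of_nonneg_right h10 ht]

lemma card_zmod {a : ℕ} [NeZero a] (P : ZMod a × ZMod a → Prop) [DecidablePred P]
    (h : ∀ x y : ℤ, (a : ℤ) ∣ F x y ↔ P (x, y)) : #(Z F a a a) = #{z | P z} := by
  refine card_nbij (fun w => ((w.1 : ZMod a), (w.2 : ZMod a))) ?_ ?_ ?_
  · intro w hw
    simpa using (h _ _).1 (mem_Z.1 hw).2
  · intro w hw w' hw' e
    simp only [Prod.mk.injEq, ZMod.natCast_eq_natCast_iff] at e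
    exact Prod.ext (e.1.eq_of_lt_of_lt (mem_Z.1 hw).1.1 (mem_Z.1 hw').1.1)
      (e.2.eq_of_lt_of_lt (mem_Z.1 hw).1.2 (mem_Z.1 hw').1.2)
  · intro z hz
    refine ⟨(z.1.val, z.2.val), mem_coe.2 (mem_Z.2 ⟨⟨ZMod.val_lt _, ZMod.val_lt _⟩,
      (h _ _).2 ?_⟩), by simp⟩
    simpa using hz

lemma th_comp (hF : Cong F) {a : ℕ} (σ τ : ℤ → ℤ → ℤ) (e : ZMod a × ZMod a → ZMod a × ZMod a)
    (he : Function.Injective e)
    (h : ∀ x y : ℤ, e (x, y) = (((σ x y : ℤ) : ZMod a), ((τ x y : ℤ) : ZMod a))) :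
    th (fun x y => F (σ x y) (τ x y)) a = th F a := by
  classical
  rcases Nat.eq_zero_or_pos a with rfl | ha
  · rw [th_zero, th_zero]
  haveI := NeZero.of_pos ha
  have h1 : ∀ x : ℤ, (a : ℤ) ∣ x - (x : ZMod a).val := fun x => by
    rw [← ZMod.intCast_zmod_eq_zero_iff_dvd]
    simp
  have h2 : ∀ x y : ℤ, (a : ℤ) ∣ F x y ↔ (a : ℤ) ∣ F (x : ZMod a).val (y : ZMod a).val :=
    fun x y => ⟨dvd_congr hF (h1 x) (h1 y), dvd_congr hF (dvd_sub_comm.1 (h1 x))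
      (dvd_sub_comm.1 (h1 y))⟩
  rw [th_eq, th_eq, card_zmod (fun z => (a : ℤ) ∣ F z.1.val z.2.val) h2,
    card_zmod (fun z => (a : ℤ) ∣ F (e z).1.val (e z).2.val) fun x y => by rw [h]; exact h2 _ _]
  congr 2
  exact card_bijective e (Finite.injective_iff_bijective.1 he) fun z => by simp

lemma th_aff (hF : Cong F) (a : ℕ) (c x₀ y₀ : ℤ) (hc : IsCoprime c a) :
    th (fun x y => F (x₀ + c * x) (y₀ + c * y)) a = th F a := by
  have hu : IsUnit (c : ZMod a) := (ZMod.coe_int_isUnit_iff_isCoprime c a).2 hc.symm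
  refine th_comp hF _ _ (fun z => (x₀ + c * z.1, y₀ + c * z.2)) (fun z z' e => ?_) fun x y => by simp
  simp only [Prod.mk.injEq, add_right_inj] at e
  exact Prod.ext (hu.mul_left_cancel e.1) (hu.mul_left_cancel e.2)

/-! ### Conics -/

/-- The general quadratic polynomial. -/
def Q (a b c d e g : ℤ) : ℤ → ℤ → ℤ :=
  fun x y => a * x ^ 2 + b * x * y + c * y ^ 2 + d * x + e * y + g

lemma Q_cong (a b c d e g : ℤ) : Cong (Q a b c d e g) := fun _ x y x' y' hx hy =>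
  (dvd_add (hx.mul_right (a * (x + x') + b * y + d))
    (hy.mul_right (b * x' + c * (y + y') + e))).trans (dvd_of_eq (by unfold Q; ring))

lemma Q_swap (a b c d e g : ℤ) (q : ℕ) : th (Q a b c d e g) q = th (Q c b a e d g) q := by
  rw [← th_comp (Q_cong a b c d e g) (fun _ y => y) (fun x _ => x) Prod.swap Prod.swap_injective
    fun _ _ => rfl]
  congr 1
  funext x y
  unfold Q
  ring

lemma Q_shear (a b c d e g : ℤ) (q : ℕ) :
    th (Q a b c d e g) q = th (Q (a + b + c) (b + 2 * c) c (d + e) e g) q := by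
  rw [← th_comp (Q_cong a b c d e g) (fun x _ => x) (fun x y => y + x) (fun z => (z.1, z.2 + z.1))
    (fun z z' h => ?_) fun _ _ => by simp]
  · congr 1
    funext x y
    unfold Q
    ring
  · obtain ⟨h1, h2⟩ := Prod.mk.inj h
    rw [h1] at h2
    exact Prod.ext h1 (add_right_cancel h2)

lemma not_dvd_sum {l a b c : ℤ} (h : ¬ (l ∣ a ∧ l ∣ b ∧ l ∣ c)) (ha : l ∣ a) (hc : l ∣ c) :
    ¬ l ∣ a + b + c := fun h' =>
  h ⟨ha, (dvd_add_right ha).1 ((dvd_add_left hc).1 h'), hc⟩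

lemma three_unit (l k : ℕ) (a b c d e g : ℤ) (hl : l.Prime) (h : ¬ (l : ℤ) ∣ a) :
    th (Q a b c d e g) (l ^ k) ≤ 2 / (l : ℝ) ^ ((k + 1) / 2) := by
  have h1 : #(Z (Q a b c d e g) (l ^ k) (l ^ k) (l ^ k)) ≤ 2 * l ^ (k / 2) * #(range (l ^ k)) := by
    refine card_le_mul_card_image_of_maps_to (f := Prod.snd)
      (fun w hw => mem_range.2 (mem_Z.1 hw).1.2) _ fun y _ => ?_
    refine (card_le_card_of_injOn Prod.fst (fun w hw => ?_) fun w hw w' hw' e => ?_).trans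
      (one l k a (b * y + d) (c * (y : ℤ) ^ 2 + e * y + g) hl fun h' => h h'.1)
    · obtain ⟨h2, rfl⟩ := mem_filter.1 hw
      refine mem_coe.2 (mem_filter.2 ⟨mem_range.2 (mem_Z.1 h2).1.1, ?_⟩)
      rw [← Nat.cast_pow]
      exact (mem_Z.1 h2).2.trans (dvd_of_eq (by unfold Q; ring))
    · exact Prod.ext e ((mem_filter.1 hw).2.trans (mem_filter.1 hw').2.symm)
  have hl' : (0 : ℝ) < l := Nat.cast_pos.2 hl.pos
  have hk : (l : ℝ) ^ k = l ^ ((k + 1) / 2) * l ^ (k / 2) := by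
    rw [← pow_add]
    congr 1
    omega
  have h2 : (#(Z (Q a b c d e g) (l ^ k) (l ^ k) (l ^ k)) : ℝ) ≤ 2 * l ^ (k / 2) * l ^ k := by
    rw [card_range] at h1
    exact_mod_cast h1
  rw [th_eq, Nat.cast_pow, div_le_div_iff₀ (by positivity) (by positivity)]
  refine (mul_le_mul_of_nonneg_right h2 (by positivity)).trans_eq ?_
  rw [sq]
  nth_rewrite 2 [hk]
  ring

lemma three (l k : ℕ) (a b c d e g : ℤ) (hl : l.Prime)
    (h : ¬ ((l : ℤ) ∣ a ∧ (l : ℤ) ∣ b ∧ (l : ℤ) ∣ c)) :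
    th (Q a b c d e g) (l ^ k) ≤ 2 / (l : ℝ) ^ ((k + 1) / 2) := by
  by_cases ha : (l : ℤ) ∣ a
  · by_cases hc : (l : ℤ) ∣ c
    · rw [Q_shear]
      exact three_unit l k _ _ _ _ _ _ hl (not_dvd_sum h ha hc)
    · rw [Q_swap]
      exact three_unit l k _ _ _ _ _ _ hl hc
  · exact three_unit l k _ _ _ _ _ _ hl ha

section Field

variable {K : Type} [Field K] [Fintype K] [DecidableEq K]

lemma card_sq (h2 : ringChar K ≠ 2) (t : K) :
    (#{y : K | y ^ 2 = t} : ℤ) = quadraticChar K t + 1 := by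
  simpa using quadraticChar_card_sqrts h2 t

lemma sum_inj (h2 : ringChar K ≠ 2) {f : K → K} (hf : Function.Injective f) :
    ∑ t, quadraticChar K (f t) = 0 :=
  ((Finite.injective_iff_bijective.1 hf).sum_comp (fun t => quadraticChar K t)).trans
    (quadraticChar_sum_zero h2)

lemma sum_char (h2 : ringChar K ≠ 2) {D g : K} (hD : D ≠ 0) (hg : g ≠ 0) :
    ∑ y : K, quadraticChar K (D * y ^ 2 + g) = -quadraticChar K D := by
  have h1 : ∀ t : K, quadraticChar K t * quadraticChar K (D * t + g) =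
      quadraticChar K (D + g * t⁻¹) - if t = 0 then quadraticChar K D else 0 := fun t => by
    by_cases ht : t = 0
    · simp [ht]
    · rw [if_neg ht, sub_zero, ← map_mul, show t * (D * t + g) = t ^ 2 * (D + g * t⁻¹) by field_simp,
        map_mul, quadraticChar_sq_one' ht, one_mul]
  rw [← sum_fiberwise' univ (fun y : K => y ^ 2) fun t => quadraticChar K (D * t + g)]
  simp only [sum_const, nsmul_eq_mul, card_sq h2, add_mul, one_mul, h1, sum_add_distrib,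
    sum_sub_distrib]
  rw [sum_inj h2 (f := fun t => D + g * t⁻¹) fun s t h =>
      inv_injective (mul_left_cancel₀ hg (add_left_cancel h)),
    sum_inj h2 (f := fun t => D * t + g) fun s t h => mul_left_cancel₀ hD (add_right_cancel h)]
  simp

lemma card_conic (h2 : ringChar K ≠ 2) {a b c g : K} (ha : a ≠ 0) (hD : b ^ 2 - 4 * a * c ≠ 0)
    (hg : g ≠ 0) : (#{z : K × K | a * z.1 ^ 2 + b * z.1 * z.2 + c * z.2 ^ 2 - g = 0} : ℤ) =
      Fintype.card K - quadraticChar K (b ^ 2 - 4 * a * c) := by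
  have h0 : (2 : K) ≠ 0 := Ring.two_ne_zero h2
  have h4 : (4 : K) * a ≠ 0 := mul_ne_zero (by rw [show (4 : K) = 2 * 2 by norm_num]; simpa) ha
  have h1 : ∀ y : K, (#{x : K | a * x ^ 2 + b * x * y + c * y ^ 2 - g = 0} : ℤ) =
      quadraticChar K ((b ^ 2 - 4 * a * c) * y ^ 2 + 4 * a * g) + 1 := fun y => by
    rw [← card_sq h2]
    congr 1
    refine card_bijective (fun x => 2 * a * x + b * y) (Finite.injective_iff_bijective.1
      fun s t h => mul_left_cancel₀ (mul_ne_zero h0 ha) (add_right_cancel h)) fun x => ?_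
    simp only [mem_filter, mem_univ, true_and]
    exact ⟨fun h => by linear_combination 4 * a * h,
      fun h => mul_left_cancel₀ h4 (by linear_combination h)⟩
  rw [natCast_card_filter, Fintype.sum_prod_type_right]
  simp only [← natCast_card_filter, h1, sum_add_distrib, sum_char h2 hD (mul_ne_zero h4 hg)]
  simp [add_comm, sub_eq_add_neg]

end Field

lemma four_unit (l : ℕ) (a b c g : ℤ) (hl : l.Prime) (ha : ¬ (l : ℤ) ∣ a)
    (h : ¬ (l : ℤ) ∣ 2 * (b ^ 2 - 4 * a * c) * g) :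
    |th (Q a b c 0 0 (-g)) l - 1 / l| ≤ 1 / (l : ℝ) ^ 2 := by
  haveI := Fact.mk hl
  rw [← ZMod.intCast_zmod_eq_zero_iff_dvd] at h ha
  push_cast at h
  simp only [mul_eq_zero, not_or] at h
  have h2 : ringChar (ZMod l) ≠ 2 := fun e => h.1.1 (by simpa [e] using ringChar.Nat.cast_ringChar (R := ZMod l))
  have h3 := card_conic h2 ha h.1.2 h.2
  rw [← card_zmod (F := Q a b c 0 0 (-g)) _ fun x y => by
    rw [← ZMod.intCast_zmod_eq_zero_iff_dvd]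
    simp [Q, sub_eq_add_neg], ZMod.card] at h3
  have h4 : |(#(Z (Q a b c 0 0 (-g)) l l l) : ℤ) - l| ≤ 1 := by
    rw [h3]
    rcases quadraticChar_dichotomy h.1.2 with e | e <;> simp [e]
  have h5 : |(#(Z (Q a b c 0 0 (-g)) l l l) : ℝ) - l| ≤ 1 := by exact_mod_cast h4
  have hl' : (0 : ℝ) < l := Nat.cast_pos.2 hl.pos
  rw [th_eq, show (1 : ℝ) / l = l / l ^ 2 by field_simp, ← sub_div, abs_div,
    abs_of_pos (pow_pos hl' 2)]
  gcongr

lemma four (l : ℕ) (a b c g : ℤ) (hl : l.Prime) (h : ¬ (l : ℤ) ∣ 2 * (b ^ 2 - 4 * a * c) * g) :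
    |th (Q a b c 0 0 (-g)) l - 1 / l| ≤ 1 / (l : ℝ) ^ 2 := by
  have h0 : ¬ ((l : ℤ) ∣ a ∧ (l : ℤ) ∣ b ∧ (l : ℤ) ∣ c) := fun h' => h
    (((dvd_sub (dvd_pow h'.2.1 two_ne_zero) (h'.2.2.mul_left _)).mul_left _).mul_right _)
  by_cases ha : (l : ℤ) ∣ a
  · by_cases hc : (l : ℤ) ∣ c
    · rw [Q_shear, add_zero]
      exact four_unit l _ _ _ _ hl (not_dvd_sum h0 ha hc) fun h' =>
        h (h'.trans (dvd_of_eq (by ring)))
    · rw [Q_swap]
      exact four_unit l _ _ _ _ hl hc fun h' => h (h'.trans (dvd_of_eq (by ring)))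
  · exact four_unit l _ _ _ _ hl ha h

lemma eq_of_sq_dvd {l x x' : ℕ} (hl : l.Prime) (hx : x < l ^ 2) (hx' : x' < l ^ 2) {E : ℤ}
    (hE : ¬ (l : ℤ) ∣ E) (h : ((l ^ 2 : ℕ) : ℤ) ∣ E * ((x' : ℤ) - x)) : x = x' :=
  (Nat.modEq_iff_dvd.2 ((cop hl hE 2).dvd_of_dvd_mul_left h)).eq_of_lt_of_lt hx hx'

lemma lift_le (l : ℕ) (a b c g : ℤ) (hl : l.Prime) (h : ¬ (l : ℤ) ∣ 2 * g) :
    #(Z (Q a b c 0 0 (-g)) (l ^ 2) (l ^ 2) (l ^ 2)) ≤ l * #(Z (Q a b c 0 0 (-g)) l l l) := by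
  have hd : (l : ℤ) ∣ ((l ^ 2 : ℕ) : ℤ) := Int.natCast_dvd_natCast.2 (dvd_pow_self l two_ne_zero)
  have hlt : ∀ {x : ℕ}, x < l ^ 2 → x / l ∈ (range l : Set ℕ) := fun hx =>
    mem_coe.2 (mem_range.2 (Nat.div_lt_of_lt_mul (by rwa [← sq])))
  have hm : ∀ {x u : ℕ}, x % l = u → (l : ℤ) ∣ (x : ℤ) - u := fun {x u} hx =>
    dvd_of_modEq (hx ▸ (Nat.mod_modEq x l).symm)
  refine card_le_mul_card_image_of_maps_to (f := fun w => (w.1 % l, w.2 % l))
    (fun w hw => mod_mem (Q_cong _ _ _ _ _ _) hl.pos (hd.trans (mem_Z.1 hw).2)) _ fun u hu => ?_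
  have hu' := (mem_Z.1 hu).2
  by_cases hx : (l : ℤ) ∣ 2 * a * u.1 + b * u.2
  · have hy : ¬ (l : ℤ) ∣ b * u.1 + 2 * c * u.2 := fun hy => h
      ((dvd_sub (dvd_add (hx.mul_right u.1) (hy.mul_right u.2)) (hu'.mul_left 2)).trans
        (dvd_of_eq (by unfold Q; ring)))
    refine (card_le_card_of_injOn (fun w => w.1 / l) (t := range l) (fun w hw => ?_)
      fun w hw w' hw' e => ?_).trans (card_range l).le
    · exact hlt (mem_Z.1 (mem_filter.1 hw).1).1.1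
    · obtain ⟨h1, h2⟩ := mem_filter.1 hw
      obtain ⟨h3, h4⟩ := mem_filter.1 hw'
      obtain ⟨h5, h6⟩ := Prod.mk.inj (h2.trans (Prod.mk.eta (p := u)).symm)
      obtain ⟨h7, h8⟩ := Prod.mk.inj (h4.trans (Prod.mk.eta (p := u)).symm)
      have h9 : w.1 = w'.1 := eq_of_mod_div (h5.trans h7.symm) e
      refine Prod.ext h9 (eq_of_sq_dvd hl (mem_Z.1 h1).1.2 (mem_Z.1 h3).1.2
        (E := b * w.1 + c * (w.2 + w'.2)) (fun hE => hy ?_) ?_)
      · exact (dvd_sub hE (dvd_add ((hm h5).mul_left b) ((dvd_add (hm h6) (hm h8)).mul_left c))).trans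
          (dvd_of_eq (by ring))
      · exact (dvd_sub (mem_Z.1 h3).2 (mem_Z.1 h1).2).trans (dvd_of_eq (by unfold Q; rw [h9]; ring))
  · refine (card_le_card_of_injOn (fun w => w.2 / l) (t := range l) (fun w hw => ?_)
      fun w hw w' hw' e => ?_).trans (card_range l).le
    · exact hlt (mem_Z.1 (mem_filter.1 hw).1).1.2
    · obtain ⟨h1, h2⟩ := mem_filter.1 hw
      obtain ⟨h3, h4⟩ := mem_filter.1 hw'
      obtain ⟨h5, h6⟩ := Prod.mk.inj (h2.trans (Prod.mk.eta (p := u)).symm)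
      obtain ⟨h7, h8⟩ := Prod.mk.inj (h4.trans (Prod.mk.eta (p := u)).symm)
      have h9 : w.2 = w'.2 := eq_of_mod_div (h6.trans h8.symm) e
      refine Prod.ext (eq_of_sq_dvd hl (mem_Z.1 h1).1.1 (mem_Z.1 h3).1.1
        (E := a * (w.1 + w'.1) + b * w.2) (fun hE => hx ?_) ?_) h9
      · exact (dvd_sub hE (dvd_add ((dvd_add (hm h5) (hm h7)).mul_left a) ((hm h6).mul_left b))).trans
          (dvd_of_eq (by ring))
      · exact (dvd_sub (mem_Z.1 h3).2 (mem_Z.1 h1).2).trans (dvd_of_eq (by unfold Q; rw [h9]; ring))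

lemma four' (l : ℕ) (a b c g : ℤ) (hl : l.Prime) (h : ¬ (l : ℤ) ∣ 2 * (b ^ 2 - 4 * a * c) * g) :
    th (Q a b c 0 0 (-g)) (l ^ 2) ≤ 2 / (l : ℝ) ^ 2 := by
  have hl' : (1 : ℝ) ≤ l := Nat.one_le_cast.2 hl.pos
  have h1 : (#(Z (Q a b c 0 0 (-g)) (l ^ 2) (l ^ 2) (l ^ 2)) : ℝ) ≤
      l * #(Z (Q a b c 0 0 (-g)) l l l) := by
    exact_mod_cast lift_le l a b c g hl fun h' =>
      h ((h'.mul_right (b ^ 2 - 4 * a * c)).trans (dvd_of_eq (by ring)))
  have h2 := (abs_le.1 (four l a b c g hl h)).2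
  rw [th_eq, sub_le_iff_le_add, show (1 : ℝ) / l = l / l ^ 2 by field_simp, ← add_div,
    div_le_div_iff_of_pos_right (by positivity)] at h2
  rw [th_eq, Nat.cast_pow, div_le_div_iff₀ (by positivity) (by positivity)]
  have h3 : (#(Z (Q a b c 0 0 (-g)) (l ^ 2) (l ^ 2) (l ^ 2)) : ℝ) ≤ 2 * l ^ 2 := by nlinarith
  nlinarith [mul_le_mul_of_nonneg_right h3 (sq_nonneg (l : ℝ))]

lemma five (l : ℕ) (a b c : ℤ) (hl : l.Prime) (h2 : l ≠ 2) (h : (l : ℤ) ∣ b ^ 2 - 4 * a * c) :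
    1 / (l : ℝ) ≤ th (fun x y => a * x ^ 2 + b * x * y + c * y ^ 2) l := by
  haveI := Fact.mk hl
  rw [← ZMod.intCast_zmod_eq_zero_iff_dvd] at h
  push_cast at h
  have h0 : (2 : ZMod l) ≠ 0 := Ring.two_ne_zero (by rwa [ZMod.ringChar_zmod_n])
  have h1 : l ≤ #{z : ZMod l × ZMod l | a * z.1 ^ 2 + b * z.1 * z.2 + c * z.2 ^ 2 = 0} := by
    refine ((ZMod.card l).symm.trans card_univ.symm).le.trans ?_
    by_cases ha : (a : ZMod l) = 0
    · exact card_le_card_of_injOn (fun t => (t, 0)) (fun t _ => by simp [ha])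
        fun s _ t _ e => (Prod.mk.inj e).1
    · refine card_le_card_of_injOn (fun t => (-b * t, 2 * a * t)) (fun t _ => ?_)
        fun s _ t _ e => mul_left_cancel₀ (mul_ne_zero h0 ha) (Prod.mk.inj e).2
      simp only [coe_filter, mem_univ, true_and, Set.mem_setOf_eq]
      linear_combination (-a * t ^ 2) * h
  rw [← card_zmod (F := fun x y => a * x ^ 2 + b * x * y + c * y ^ 2) _ fun x y => by
    rw [← ZMod.intCast_zmod_eq_zero_iff_dvd]
    simp] at h1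
  have hl' : (0 : ℝ) < l := Nat.cast_pos.2 hl.pos
  rw [th_eq, show (1 : ℝ) / l = l / l ^ 2 by field_simp]
  gcongr

end Con

/-- Roots of quadratic congruences and points on conics. -/
theorem con : ConStmt := by
  refine ⟨Con.one, Con.two, Con.three, fun l a b c g hl h => ?_, Con.five, fun F hF =>
    ⟨Con.th_mul hF, Con.th_anti hF, Con.th_aff hF, Con.th_box hF⟩⟩
  have e : (fun x y => a * x ^ 2 + b * x * y + c * y ^ 2 - g) = Con.Q a b c 0 0 (-g) := by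
    funext x y
    unfold Con.Q
    ring
  rw [e]
  exact ⟨Con.four l a b c g hl h, Con.four' l a b c g hl h⟩

end Pool.Agent.Lib.MP_9177b7_ag.EQ
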