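import Pool.Agent.Lib.MP_9177b7_ag.CM.Defs

/-!
Equidistribution of special points in products of modular curves: the `S`-arithmetic space.
-/

open UpperHalfPlane MeasureTheory
open scoped MatrixGroups ENNReal

noncomputable section

namespace Pool.Agent.Lib.MP_9177b7_ag.EQ

open Pool.Agent.Lib.MP_9177b7_ag.CM

/-- Integer `2 × 2` matrices. -/
abbrev M2 := Matrix (Fin 2) (Fin 2) ℤ

/-! ### The `p`-adic groups -/

section Local

variable (p : ℕ) [Fact p.Prime]

/-- `SL₂(ℚ_p)`. -/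
abbrev G := SL(2, ℚ_[p])

instance : MeasurableSpace (G p) := borel _
instance : BorelSpace (G p) := ⟨rfl⟩
instance : SecondCountableTopology (G p) :=
  haveI : SecondCountableTopology (Matrix (Fin 2) (Fin 2) ℚ_[p]) :=
    inferInstanceAs (SecondCountableTopology (Fin 2 → Fin 2 → ℚ_[p]))
  Matrix.SpecialLinearGroup.isClosedEmbedding_val.isEmbedding.secondCountableTopology
instance : LocallyCompactSpace (G p) :=
  haveI : LocallyCompactSpace (Matrix (Fin 2) (Fin 2) ℚ_[p]) :=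
    inferInstanceAs (LocallyCompactSpace (Fin 2 → Fin 2 → ℚ_[p]))
  Matrix.SpecialLinearGroup.isClosedEmbedding_val.locallyCompactSpace
instance : MeasurableSpace ℤ_[p]ˣ := borel _
instance : BorelSpace ℤ_[p]ˣ := ⟨rfl⟩
instance : SecondCountableTopology ℤ_[p]ˣ :=
  Units.isEmbedding_embedProduct.secondCountableTopology

/-- `SL₂(ℤ_p)`. -/
def K : Subgroup (G p) where
  carrier := {g | ∀ i j, ‖g i j‖ ≤ 1}
  one_mem' := by
    intro i j
    fin_cases i <;> fin_cases j <;> simp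
  mul_mem' := by
    intro a b ha hb i j
    simp only [Matrix.SpecialLinearGroup.coe_mul, Matrix.mul_apply, Fin.sum_univ_two]
    refine (Padic.nonarchimedean _ _).trans (max_le ?_ ?_) <;> rw [norm_mul] <;>
      exact mul_le_one₀ (ha _ _) (norm_nonneg _) (hb _ _)
  inv_mem' := by
    intro a ha i j
    rw [Matrix.SpecialLinearGroup.SL2_inv_expl]
    fin_cases i <;> fin_cases j <;> simp [ha _ _]

theorem continuous_entry (i j : Fin 2) : Continuous fun g : G p => g i j :=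
  (continuous_apply_apply i j).comp continuous_subtype_val

theorem isCompact_K : IsCompact (K p : Set (G p)) := by
  have h : IsCompact (Set.univ.pi fun _ : Fin 2 => Set.univ.pi fun _ : Fin 2 =>
      Metric.closedBall (0 : ℚ_[p]) 1) :=
    isCompact_univ_pi fun _ => isCompact_univ_pi fun _ => isCompact_closedBall _ _
  have := (Matrix.SpecialLinearGroup.isClosedEmbedding_val (n := Fin 2)
    (R := ℚ_[p])).isCompact_preimage h
  refine this.of_isClosed_subset ?_ ?_
  · have : (K p : Set (G p)) = ⋂ i, ⋂ j, {g : G p | ‖g i j‖ ≤ 1} := by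
      ext g; simp [K]
    rw [this]
    exact isClosed_iInter fun i => isClosed_iInter fun j =>
      isClosed_le (continuous_entry p i j).norm continuous_const
  · intro g hg i _ j _
    simpa using hg i j

theorem isOpen_K : IsOpen (K p : Set (G p)) := by
  have : (K p : Set (G p)) = ⋂ i, ⋂ j, (fun g : G p => g i j) ⁻¹' Metric.closedBall 0 1 := by
    ext g; simp [K]
  rw [this]
  exact isOpen_iInter_of_finite fun i => isOpen_iInter_of_finite fun j =>
    (IsUltrametricDist.isOpen_closedBall _ one_ne_zero).preimage (continuous_entry p i j)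

/-- Haar measure on `SL₂(ℚ_p)` giving `SL₂(ℤ_p)` mass one. -/
def hG : Measure (G p) :=
  Measure.haarMeasure ⟨⟨K p, isCompact_K p⟩, by
    change (interior (K p : Set (G p))).Nonempty
    rw [(isOpen_K p).interior_eq]; exact ⟨1, (K p).one_mem⟩⟩

/-- Haar probability measure on `ℤ_pˣ`. -/
def hT : Measure ℤ_[p]ˣ := Measure.haarMeasure ⊤

variable {p}

/-- `diag (x, x⁻¹)`. -/
def dg (x : ℚ_[p]ˣ) : G p := ⟨!![(x : ℚ_[p]), 0; 0, ((x⁻¹ : ℚ_[p]ˣ) : ℚ_[p])], by
  simp [Matrix.det_fin_two]⟩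

/-- The upper unipotent matrix. -/
def uu (b : ℚ_[p]) : G p := ⟨!![1, b; 0, 1], by simp [Matrix.det_fin_two]⟩

/-- The lower unipotent matrix. -/
def lo (b : ℚ_[p]) : G p := ⟨!![1, 0; b, 1], by simp [Matrix.det_fin_two]⟩

/-- Conjugation by `diag (c, 1)`. -/
def tw (c : ℚ_[p]ˣ) (h : G p) : G p :=
  ⟨!![h 0 0, c * h 0 1; ((c⁻¹ : ℚ_[p]ˣ) : ℚ_[p]) * h 1 0, h 1 1], by
    have := h.det_coe
    rw [Matrix.det_fin_two] at this
    have e : (c : ℚ_[p]) * ((c⁻¹ : ℚ_[p]ˣ) : ℚ_[p]) = 1 := c.mul_inv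
    simp only [Matrix.det_fin_two, Matrix.of_apply, Matrix.cons_val', Matrix.cons_val_zero,
      Matrix.cons_val_one, Matrix.cons_val_fin_one]
    linear_combination this - h 0 1 * h 1 0 * e⟩

/-- A `p`-adic unit as a unit of `ℚ_p`. -/
def ut (t : ℤ_[p]ˣ) : ℚ_[p]ˣ := Units.map (PadicInt.Coe.ringHom (p := p)).toMonoidHom t

variable (p)

/-- `diag (p, p⁻¹)`. -/
def ap : G p := dg (Units.mk0 (p : ℚ_[p]) (Nat.cast_ne_zero.2 (Fact.out : p.Prime).ne_zero))

/-- The image of a rational matrix of determinant one. -/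
def toG : SL(2, ℚ) →* G p := Matrix.SpecialLinearGroup.map (algebraMap ℚ ℚ_[p])

end Local

/-! ### The space -/

section Space

variable (p q : ℕ) [Fact p.Prime] [Fact q.Prime]

/-- `SL₂(ℚ_p) × SL₂(ℚ_q)`. -/
abbrev GG := G p × G q

/-- `ℍ × SL₂(ℚ_p) × SL₂(ℚ_q)`. -/
abbrev Xt := ℍ × G p × G q

/-- `SL₂(ℤ[1/pq])`. -/
def Gam : Subgroup SL(2, ℚ) where
  carrier := {γ | ∃ k : ℕ, ∀ i j, ∃ z : ℤ, ((p : ℚ) * q) ^ k * γ i j = z}
  one_mem' := ⟨0, fun i j => by
    fin_cases i <;> fin_cases j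
    · exact ⟨1, by simp⟩
    · exact ⟨0, by simp⟩
    · exact ⟨0, by simp⟩
    · exact ⟨1, by simp⟩⟩
  mul_mem' := by
    rintro a b ⟨k, hk⟩ ⟨l, hl⟩
    refine ⟨k + l, fun i j => ?_⟩
    obtain ⟨x, hx⟩ := hk i 0
    obtain ⟨y, hy⟩ := hk i 1
    obtain ⟨z, hz⟩ := hl 0 j
    obtain ⟨w, hw⟩ := hl 1 j
    refine ⟨x * z + y * w, ?_⟩
    simp only [Matrix.SpecialLinearGroup.coe_mul, Matrix.mul_apply, Fin.sum_univ_two]
    push_cast
    rw [← hx, ← hy, ← hz, ← hw]
    ring
  inv_mem' := by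
    rintro a ⟨k, hk⟩
    refine ⟨k, fun i j => ?_⟩
    rw [Matrix.SpecialLinearGroup.SL2_inv_expl]
    fin_cases i <;> fin_cases j
    · simpa using hk 1 1
    · obtain ⟨x, hx⟩ := hk 0 1
      exact ⟨-x, by simp [← hx]⟩
    · obtain ⟨x, hx⟩ := hk 1 0
      exact ⟨-x, by simp [← hx]⟩
    · simpa using hk 0 0

instance : MulAction (Gam p q) (Xt p q) where
  smul γ x := ((γ : SL(2, ℚ)) • x.1, toG p γ * x.2.1, toG q γ * x.2.2)
  one_smul x := by
    change (((1 : Gam p q) : SL(2, ℚ)) • x.1, toG p (1 : Gam p q) * x.2.1,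
      toG q (1 : Gam p q) * x.2.2) = x
    simp
  mul_smul a b x := by
    change (((a * b : Gam p q) : SL(2, ℚ)) • x.1, toG p (a * b : Gam p q) * x.2.1,
      toG q (a * b : Gam p q) * x.2.2) = ((a : SL(2, ℚ)) • ((b : SL(2, ℚ)) • x.1),
        toG p a * (toG p b * x.2.1), toG q a * (toG q b * x.2.2))
    simp [mul_smul, mul_assoc]

instance : MulAction (GG p q) (Xt p q) where
  smul h x := (x.1, x.2.1 * h.1⁻¹, x.2.2 * h.2⁻¹)
  one_smul x := by
    change (x.1, x.2.1 * (1 : GG p q).1⁻¹, x.2.2 * (1 : GG p q).2⁻¹) = x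
    simp
  mul_smul a b x := by
    change (x.1, x.2.1 * (a * b).1⁻¹, x.2.2 * (a * b).2⁻¹) =
      (x.1, x.2.1 * b.1⁻¹ * a.1⁻¹, x.2.2 * b.2⁻¹ * a.2⁻¹)
    simp [mul_assoc]

variable {p q}

theorem gam_smul (γ : Gam p q) (x : Xt p q) :
    γ • x = ((γ : SL(2, ℚ)) • x.1, toG p γ * x.2.1, toG q γ * x.2.2) := rfl

theorem gg_smul (h : GG p q) (x : Xt p q) : h • x = (x.1, x.2.1 * h.1⁻¹, x.2.2 * h.2⁻¹) := rfl

theorem gg_gam_comm (h : GG p q) (γ : Gam p q) (x : Xt p q) : h • γ • x = γ • h • x := by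
  simp [gam_smul, gg_smul, mul_assoc]

variable (p q)

/-- The quotient `SL₂(ℤ[1/pq]) \ (ℍ × SL₂(ℚ_p) × SL₂(ℚ_q))`. -/
abbrev Xq := Quotient (MulAction.orbitRel (Gam p q) (Xt p q))

/-- Right translation on the quotient. -/
def actq (h : GG p q) : Xq p q → Xq p q :=
  Quotient.map (fun x : Xt p q => h • x) (by
    rintro x y ⟨γ, rfl⟩
    exact ⟨γ, (gg_gam_comm h γ y).symm⟩)

theorem actq_mk (h : GG p q) (x : Xt p q) :
    actq p q h (Quotient.mk _ x) = Quotient.mk _ (h • x) := rfl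

/-- The one point compactification of the quotient. -/
abbrev Xs := OnePoint (Xq p q)

instance : MeasurableSpace (Xs p q) := borel _
instance : BorelSpace (Xs p q) := ⟨rfl⟩

theorem actq_one : actq p q 1 = id :=
  funext fun x => Quotient.inductionOn x fun x => by rw [actq_mk, one_smul, id]

theorem actq_mul (a b : GG p q) : actq p q (a * b) = actq p q a ∘ actq p q b :=
  funext fun x => Quotient.inductionOn x fun x => by
    rw [Function.comp_apply, actq_mk, actq_mk, actq_mk, mul_smul]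

instance : MulAction (GG p q) (Xs p q) where
  smul h := OnePoint.map (actq p q h)
  one_smul x := (congrArg (fun f => OnePoint.map f x) (actq_one p q)).trans
    (congrFun OnePoint.map_id x)
  mul_smul a b x := (congrArg (fun f => OnePoint.map f x) (actq_mul p q a b)).trans
    (congrFun (OnePoint.map_comp _ _) x)

variable {p q}

/-- The projection. -/
def pr (x : Xt p q) : Xs p q := OnePoint.some (Quotient.mk _ x)

theorem smul_pr (h : GG p q) (x : Xt p q) : h • pr x = pr (h • x) := rfl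

theorem smul_infty (h : GG p q) : h • (OnePoint.infty : Xs p q) = OnePoint.infty := rfl

theorem pr_ne_infty (x : Xt p q) : pr x ≠ OnePoint.infty := OnePoint.coe_ne_infty _

theorem pr_eq_iff {x y : Xt p q} : pr x = pr y ↔ ∃ γ : Gam p q, γ • y = x := by
  simp only [pr, OnePoint.some_eq_iff, Quotient.eq]
  rfl

theorem pr_gam (γ : Gam p q) (x : Xt p q) : pr (γ • x) = pr x := pr_eq_iff.2 ⟨γ, rfl⟩

theorem exists_pr {z : Xs p q} (hz : z ≠ OnePoint.infty) : ∃ x, pr x = z := by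
  induction z using OnePoint.rec with
  | infty => exact absurd rfl hz
  | coe z => exact Quotient.inductionOn z fun x => ⟨x, rfl⟩

variable (p q)

/-- `ℍ × SL₂(ℤ_p) × SL₂(ℤ_q)`. -/
def X0 : Set (Xt p q) := {x | x.2.1 ∈ K p ∧ x.2.2 ∈ K q}

/-- The invariant measure upstairs. -/
def mt : Measure (Xt p q) := (volume : Measure ℍ).prod ((hG p).prod (hG q))

/-- The invariant probability measure on the quotient. -/
def mX : Measure (Xs p q) :=
  ((volume ModularGroup.fd)⁻¹ • (mt p q).restrict ({x | x.1 ∈ ModularGroup.fd} ∩ X0 p q)).map pr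

/-- The facts that make the space usable (they hold for `p ≠ q`). -/
class Good : Prop where
  ne : p ≠ q
  t2 : T2Space (Xs p q)
  sc : SecondCountableTopology (Xs p q)
  cs : ContinuousSMul (GG p q) (Xs p q)
  prob : IsProbabilityMeasure (mX p q)

instance [h : Good p q] : T2Space (Xs p q) := h.t2
instance [h : Good p q] : SecondCountableTopology (Xs p q) := h.sc
instance [h : Good p q] : ContinuousSMul (GG p q) (Xs p q) := h.cs
instance [h : Good p q] : IsProbabilityMeasure (mX p q) := h.prob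

variable {p q}

/-- Summation over the fibres of the projection. -/
def PP (φ : Xt p q → ℝ≥0∞) : Xs p q → ℝ≥0∞ := fun z =>
  z.elim 0 (Quotient.lift (fun x => ∑' γ : Gam p q, φ (γ • x)) (by
    rintro x y ⟨δ, rfl⟩
    simpa only [← mul_smul, Equiv.coe_mulRight] using (Equiv.mulRight δ).tsum_eq fun γ : Gam p q => φ (γ • y)))

/-- Summation over the fibres of the projection, for real functions. -/
def PR (φ : Xt p q → ℝ) : Xs p q → ℝ := fun z =>
  z.elim 0 (Quotient.lift (fun x => ∑' γ : Gam p q, φ (γ • x)) (by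
    rintro x y ⟨δ, rfl⟩
    simpa only [← mul_smul, Equiv.coe_mulRight] using (Equiv.mulRight δ).tsum_eq fun γ : Gam p q => φ (γ • y)))

theorem PP_pr (φ : Xt p q → ℝ≥0∞) (x : Xt p q) : PP φ (pr x) = ∑' γ : Gam p q, φ (γ • x) := rfl

theorem PR_pr (φ : Xt p q → ℝ) (x : Xt p q) : PR φ (pr x) = ∑' γ : Gam p q, φ (γ • x) := rfl

theorem PP_infty (φ : Xt p q → ℝ≥0∞) : PP φ OnePoint.infty = 0 := rfl

theorem PR_infty (φ : Xt p q → ℝ) : PR φ OnePoint.infty = 0 := rfl

/-- `ρ'` is the lift of `ρ` to the cover. -/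
def IsLift (ρ : Measure (Xs p q)) (ρ' : Measure (Xt p q)) : Prop :=
  ∀ φ : Xt p q → ℝ≥0∞, Measurable φ → ∫⁻ x, φ x ∂ρ' = ∫⁻ z, PP φ z ∂ρ

/-- The matrix `g⁻¹ γ g'`. -/
def mid (g : G p) (γ : M2) (g' : G p) : Matrix (Fin 2) (Fin 2) ℚ_[p] :=
  (g⁻¹ : G p).1 * γ.map (Int.cast : ℤ → ℚ_[p]) * g'.1

variable (p q)

/-- The exceptional set: pairs whose `p`-adic frames differ by a rational matrix up to the
diagonal torus. -/
def NN : Set (Xs p q × Xs p q) :=
  {z | ∃ (x y : Xt p q) (γ : M2), γ.det ≠ 0 ∧ z = (pr x, pr y) ∧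
    mid x.2.1 γ y.2.1 0 1 = 0 ∧ mid x.2.1 γ y.2.1 1 0 = 0}

/-- Open neighbourhoods of the pieces of the exceptional set. -/
def VV (γ : M2) (R : ℝ) (N : ℕ) : Set (Xs p q × Xs p q) :=
  {z | ∃ x ∈ X0 p q, ∃ y ∈ X0 p q, z = (pr x, pr y) ∧ dist x.1 I < R ∧ dist y.1 I < R ∧
    ‖mid x.2.1 γ y.2.1 0 1‖ ≤ ((p : ℝ) ^ N)⁻¹ ∧ ‖mid x.2.1 γ y.2.1 1 0‖ ≤ ((p : ℝ) ^ N)⁻¹}

variable {p q}

open Classical in
/-- The modular invariant on the quotient. -/
def JX (z : Xs p q) : ℂ := if h : ∃ x ∈ X0 p q, pr x = z then jH h.choose.1 else 0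

/-- The average of the point mass at `z` over the compact diagonal torus. -/
def orb (z : Xs p q) : Measure (Xs p q) :=
  ((hT p).prod (hT q)).map fun t => ((dg (ut t.1), dg (ut t.2)) : GG p q) • z

end Space

/-- The normalised invariant measure on the `j`-line. -/
def mY : Measure ℂ :=
  ((volume ModularGroup.fd)⁻¹ • (volume : Measure ℍ).restrict ModularGroup.fd).map jH

/-- The average of a family of measures over a finite set. -/
def avgM {α Z : Type} [MeasurableSpace Z] (S : Set α) (F : α → Measure Z) : Measure Z :=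
  (S.ncard : ℝ≥0∞)⁻¹ • ∑ᶠ y ∈ S, F y

/-- The orbit of a point of `ℂⁿ` under the field automorphisms of `ℂ`. -/
def Orb {n : ℕ} (x : Fin n → ℂ) : Set (Fin n → ℂ) := {y | ∃ σ : ℂ ≃+* ℂ, y = fun i => σ (x i)}

end Pool.Agent.Lib.MP_9177b7_ag.EQ
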