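import Pool.Agent.Lib.MP_9177b7_ag.EQ.Dens2

/-!
Local densities in `SL₂(ℤ/q)`.
-/

open Finset
open scoped MatrixGroups

noncomputable section

namespace Pool.Agent.Lib.MP_9177b7_ag.EQ

namespace Dens

lemma not_dvd_cont {l : ℕ} (hl : l.Prime) {W : M2} (h : cont W = 1) :
    ¬ ((l : ℤ) ∣ W 0 1 ∧ (l : ℤ) ∣ W 1 0 ∧ (l : ℤ) ∣ W 0 0 - W 1 1) := fun ⟨a, b, c⟩ => by
  have : (l : ℤ) ∣ (cont W : ℕ) := Int.dvd_coe_gcd (Int.dvd_coe_gcd a b) c
  rw [h] at this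
  exact hl.one_lt.ne' (Nat.dvd_one.1 (Int.natCast_dvd_natCast.1 this))

/-- An eigenvector modulo `p ^ (N + 1)`. -/
lemma eigen {p : ℕ} (hp : p.Prime) (N : ℕ) {B b t n : ℤ} {f : ℕ} {W : M2} (hs : SplitMod p t n)
    (hf : ¬ p ∣ f) (htr : W 0 0 + W 1 1 = f * t)
    (hdet : W 0 0 * W 1 1 - W 0 1 * W 1 0 = (f : ℤ) ^ 2 * n)
    (hB : B ∣ (b + W 0 0) * (b + W 1 1) - W 0 1 * W 1 0) :
    ∃ l x y : ℤ, ¬ (p : ℤ) ∣ W 0 0 + W 1 1 - 2 * l ∧ ((p : ℤ) ∣ B → ¬ (p : ℤ) ∣ b + l) ∧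
      ¬ ((p : ℤ) ∣ x ∧ (p : ℤ) ∣ y) ∧ (p : ℤ) ^ (N + 1) ∣ (W 0 0 - l) * x + W 0 1 * y ∧
      (p : ℤ) ^ (N + 1) ∣ W 1 0 * x + (W 1 1 - l) * y := by
  have pp := Nat.prime_iff_prime_int.1 hp
  obtain ⟨r, hr1, hr2⟩ := hs
  have hf' : ¬ (p : ℤ) ∣ f := fun h => hf (Int.natCast_dvd_natCast.1 h)
  have key : ∀ x : ℤ, (p : ℤ) ∣ x ^ 2 - f * t * x + (f : ℤ) ^ 2 * n → ¬ (p : ℤ) ∣ 2 * x - f * t := by
    intro x hx h
    have e : (f * (2 * r - t)) ^ 2 = (2 * x - f * t) * (2 * x - f * t) -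
        (x ^ 2 - f * t * x + (f : ℤ) ^ 2 * n) * 4 + (r ^ 2 - t * r + n) * (4 * f ^ 2) := by ring
    have : (p : ℤ) ∣ (f * (2 * r - t)) ^ 2 :=
      e ▸ dvd_add (dvd_sub (h.mul_right _) (hx.mul_right _)) (hr1.mul_right _)
    exact (pp.dvd_or_dvd (pp.dvd_of_dvd_pow this)).elim hf' hr2
  obtain ⟨r0, h1, h2⟩ : ∃ r0 : ℤ, (p : ℤ) ∣ r0 ^ 2 - f * t * r0 + (f : ℤ) ^ 2 * n ∧
      ((p : ℤ) ∣ B → r0 = f * t + b) := by
    by_cases c : (p : ℤ) ∣ B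
    · refine ⟨f * t + b, ?_, fun _ => rfl⟩
      have e : (f * t + b) ^ 2 - f * t * (f * t + b) + (f : ℤ) ^ 2 * n =
          (b + W 0 0) * (b + W 1 1) - W 0 1 * W 1 0 := by linear_combination -hdet - b * htr
      exact e ▸ c.trans hB
    · exact ⟨f * r, by
        rw [show (f * r) ^ 2 - f * t * (f * r) + (f : ℤ) ^ 2 * n = (r ^ 2 - t * r + n) * f ^ 2 by ring]
        exact hr1.mul_right _, fun h => absurd h c⟩
  obtain ⟨l, hl1, hl2⟩ := hensel hp (f * t) ((f : ℤ) ^ 2 * n) r0 h1 (key r0 h1) N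
  have hl3 := key l ((dvd_pow_self _ (Nat.succ_ne_zero N)).trans hl1)
  have t1 : ¬ (p : ℤ) ∣ W 0 0 + W 1 1 - 2 * l := fun h => hl3 (by
    rw [htr, ← dvd_neg, neg_sub] at h; exact h)
  have t2 : (p : ℤ) ∣ B → ¬ (p : ℤ) ∣ b + l := fun c h => key r0 h1 (by
    have := dvd_sub h hl2
    rw [h2 c] at this ⊢
    rwa [show b + l - (l - (f * t + b)) = 2 * (f * t + b) - f * t by ring] at this)
  have e : l ^ 2 - f * t * l + (f : ℤ) ^ 2 * n = (W 0 0 - l) * (W 1 1 - l) - W 0 1 * W 1 0 := by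
    linear_combination -hdet + l * htr
  rw [e] at hl1
  by_cases c : (p : ℤ) ∣ W 1 1 - l
  · refine ⟨l, -W 0 1, W 0 0 - l, t1, t2, fun h => t1 ?_, ?_, ?_⟩
    · have := dvd_add h.2 c
      rwa [show W 0 0 - l + (W 1 1 - l) = W 0 0 + W 1 1 - 2 * l by ring] at this
    · rw [show (W 0 0 - l) * -W 0 1 + W 0 1 * (W 0 0 - l) = 0 by ring]; exact dvd_zero _
    · rwa [show W 1 0 * -W 0 1 + (W 1 1 - l) * (W 0 0 - l) =
        (W 0 0 - l) * (W 1 1 - l) - W 0 1 * W 1 0 by ring]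
  · refine ⟨l, W 1 1 - l, -W 1 0, t1, t2, fun h => c h.1, ?_, ?_⟩
    · rwa [show (W 0 0 - l) * (W 1 1 - l) + W 0 1 * -W 1 0 =
        (W 0 0 - l) * (W 1 1 - l) - W 0 1 * W 1 0 by ring]
    · rw [show W 1 0 * (W 1 1 - l) + (W 1 1 - l) * -W 1 0 = 0 by ring]; exact dvd_zero _

/-- The determinant of the adapted basis. -/
def FF (B P b x y : ℤ) (W : M2) (e : Fin 6 → ℤ) : ℤ :=
  ((b + W 1 1) * e 0 - W 0 1 * e 1 + B * e 2) * (y + P * e 5) -
    (x + P * e 4) * (-W 1 0 * e 0 + (b + W 0 0) * e 1 + B * e 3)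

lemma FF_cong (B P b x y : ℤ) (W : M2) (a : ℤ) (e e' : Fin 6 → ℤ) :
    a ∣ FF B P b x y W (e + a • e') - FF B P b x y W e := by
  refine ⟨((b + W 1 1) * e' 0 - W 0 1 * e' 1 + B * e' 2) * (y + P * (e 5 + a * e' 5)) +
    ((b + W 1 1) * e 0 - W 0 1 * e 1 + B * e 2) * (P * e' 5) -
    (P * e' 4) * (-W 1 0 * e 0 + (b + W 0 0) * e 1 + B * e 3) -
    (x + P * (e 4 + a * e' 4)) * (-W 1 0 * e' 0 + (b + W 0 0) * e' 1 + B * e' 3), ?_⟩
  simp only [FF, Pi.add_apply, Pi.smul_apply, smul_eq_mul]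
  ring

lemma shift {l : ℕ} (hl : l.Prime) {P u v x y : ℤ} (hP : ¬ (l : ℤ) ∣ P)
    (h : ¬ ((l : ℤ) ∣ u ∧ (l : ℤ) ∣ v)) :
    ∃ z z' : ℤ, ¬ (l : ℤ) ∣ u * (y + P * z') - (x + P * z) * v := by
  have pp := Nat.prime_iff_prime_int.1 hl
  by_contra c
  push Not at c
  have a := dvd_sub (c 0 1) (c 0 0)
  have b := dvd_sub (c 0 0) (c 1 0)
  rw [show u * (y + P * 1) - (x + P * 0) * v - (u * (y + P * 0) - (x + P * 0) * v) = P * u by ring]
    at a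
  rw [show u * (y + P * 0) - (x + P * 0) * v - (u * (y + P * 0) - (x + P * 1) * v) = P * v by ring]
    at b
  exact h ⟨(pp.dvd_or_dvd a).resolve_left hP, (pp.dvd_or_dvd b).resolve_left hP⟩

lemma basis {B p : ℕ} (hB1 : 1 ≤ B) (hp : p.Prime) (N : ℕ) {b l x y : ℤ} {W : M2} (hc : cont W = 1)
    (h2 : (p : ℤ) ∣ B → ¬ (p : ℤ) ∣ b + l) (h3 : ¬ ((p : ℤ) ∣ x ∧ (p : ℤ) ∣ y))
    (h4 : (p : ℤ) ∣ (W 0 0 - l) * x + W 0 1 * y) (h5 : (p : ℤ) ∣ W 1 0 * x + (W 1 1 - l) * y) :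
    ∃ e, IsCoprime (FF B ((p : ℤ) ^ N) b x y W e) ((B : ℤ) * p) ∧
      IsCoprime (FF B ((p : ℤ) ^ N) b x y W e) ((B : ℤ) * (p ^ N : ℕ)) := by
  have pp := Nat.prime_iff_prime_int.1 hp
  obtain ⟨e, he⟩ := crt (FF B ((p : ℤ) ^ N) b x y W) (FF_cong _ _ _ _ _ _) (B * p).primeFactors
    fun r hr => by
      have hr' := Nat.prime_of_mem_primeFactors hr
      refine ⟨hr', ?_⟩
      by_cases e : r = p
      · subst e
        by_contra c
        push Not at c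
        by_cases d : (r : ℤ) ∣ B
        · have a := dvd_sub (c ![1, 0, 0, 0, 0, 0]) h5
          have a' := dvd_sub (dvd_neg.2 (c ![0, 1, 0, 0, 0, 0])) h4
          rw [show FF B ((r : ℤ) ^ N) b x y W ![1, 0, 0, 0, 0, 0] - (W 1 0 * x + (W 1 1 - l) * y) =
            (b + l) * y by simp [FF]; ring] at a
          rw [show -FF B ((r : ℤ) ^ N) b x y W ![0, 1, 0, 0, 0, 0] - ((W 0 0 - l) * x + W 0 1 * y) =
            (b + l) * x by simp [FF]; ring] at a'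
          exact h3 ⟨(pp.dvd_or_dvd a').resolve_left (h2 d), (pp.dvd_or_dvd a).resolve_left (h2 d)⟩
        · have a := c ![0, 0, 1, 0, 0, 0]
          have a' := dvd_neg.2 (c ![0, 0, 0, 1, 0, 0])
          rw [show FF B ((r : ℤ) ^ N) b x y W ![0, 0, 1, 0, 0, 0] = B * y by simp [FF]] at a
          rw [show -FF B ((r : ℤ) ^ N) b x y W ![0, 0, 0, 1, 0, 0] = B * x by simp [FF]; ring] at a'
          exact h3 ⟨(pp.dvd_or_dvd a').resolve_left d, (pp.dvd_or_dvd a).resolve_left d⟩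
      · have n : ¬ (r : ℤ) ∣ (p : ℤ) ^ N := fun h => e ((Nat.prime_dvd_prime_iff_eq hr' hp).1
          (Int.natCast_dvd_natCast.1 ((Nat.prime_iff_prime_int.1 hr').dvd_of_dvd_pow h)))
        by_cases d : (r : ℤ) ∣ b + W 1 1 ∧ (r : ℤ) ∣ -W 1 0
        · have d' : ¬ ((r : ℤ) ∣ -W 0 1 ∧ (r : ℤ) ∣ b + W 0 0) := fun d' =>
            not_dvd_cont hr' hc ⟨dvd_neg.1 d'.1, dvd_neg.1 d.2, by simpa using dvd_sub d'.2 d.1⟩
          obtain ⟨z, z', h⟩ := shift hr' (x := x) (y := y) n d'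
          exact ⟨![0, 1, 0, 0, z, z'], by simpa [FF] using h⟩
        · obtain ⟨z, z', h⟩ := shift hr' (x := x) (y := y) n d
          exact ⟨![1, 0, 0, 0, z, z'], by simpa [FF] using h⟩
  have c : IsCoprime (FF B ((p : ℤ) ^ N) b x y W e) ((B : ℤ) * p) := by
    rw [Int.isCoprime_iff_gcd_eq_one]
    refine Nat.coprime_of_dvd fun r hr h1 h2 => he r (Nat.mem_primeFactors.2 ⟨hr, ?_,
      Nat.mul_ne_zero (by omega) hp.ne_zero⟩) (Int.natCast_dvd.2 h1)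
    simpa [Int.natAbs_mul] using h2
  refine ⟨e, c, ?_⟩
  push_cast
  exact c.of_mul_right_left.mul_right c.of_mul_right_right.pow_right

lemma quad (hc : ConStmt) {B p N j : ℕ} (hp : p.Prime) (hj : j ≤ N) {a b c δ : ℤ}
    (h : ¬ ((p : ℤ) ∣ a ∧ (p : ℤ) ∣ b ∧ (p : ℤ) ∣ c)) (hδ : ¬ (p : ℤ) ∣ δ) (x y x' y' : ℤ)
    (hd : x * y' - x' * y = δ) :
    #{s ∈ Ico (0 : ℤ) (B * (p ^ N : ℕ)) | (p : ℤ) ^ N ∣ (p : ℤ) ^ j * (a * (x' + s * x) ^ 2 +
      b * (x' + s * x) * (y' + s * y) + c * (y' + s * y) ^ 2)} ≤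
        B * p ^ j * (2 * p ^ ((N - j) / 2)) := by
  have pp := Nat.prime_iff_prime_int.1 hp
  obtain ⟨m, rfl⟩ := Nat.exists_eq_add_of_le hj
  rw [Nat.add_sub_cancel_left]
  have k := hc.1 p m (a * x ^ 2 + b * x * y + c * y ^ 2)
    (2 * a * x * x' + b * (x * y' + x' * y) + 2 * c * y * y')
    (a * x' ^ 2 + b * x' * y' + c * y' ^ 2) hp fun ⟨h1, h2, h3⟩ => by
      have n : ∀ z : ℤ, (p : ℤ) ∣ δ ^ 2 * z → (p : ℤ) ∣ z := fun z hz =>
        (pp.dvd_or_dvd hz).resolve_left fun h => hδ (pp.dvd_of_dvd_pow h)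
      refine h ⟨n _ ?_, n _ ?_, n _ ?_⟩
      · have := dvd_add (dvd_sub (h1.mul_left (y' ^ 2)) (h2.mul_left (y * y'))) (h3.mul_left (y ^ 2))
        rw [← hd]
        exact (congrArg _ (by ring)).mp this
      · have := dvd_sub (dvd_sub (h2.mul_left (y' * x + y * x')) (h1.mul_left (2 * y' * x')))
          (h3.mul_left (2 * x * y))
        rw [← hd]
        exact (congrArg _ (by ring)).mp this
      · have := dvd_add (dvd_sub (h1.mul_left (x' ^ 2)) (h2.mul_left (x * x'))) (h3.mul_left (x ^ 2))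
        rw [← hd]
        exact (congrArg _ (by ring)).mp this
  refine le_trans ?_ ((cnt_per (p ^ m) (B * p ^ j) (Nat.one_le_pow _ _ hp.pos)
    (fun s => (p : ℤ) ^ m ∣ (a * x ^ 2 + b * x * y + c * y ^ 2) * s ^ 2 +
      (2 * a * x * x' + b * (x * y' + x' * y) + 2 * c * y * y') * s +
      (a * x' ^ 2 + b * x' * y' + c * y' ^ 2)) fun s s' hs h0 => ?_).trans
        (Nat.mul_le_mul_left _ k))
  · refine card_le_card fun s hs => ?_
    rw [mem_filter] at hs ⊢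
    refine ⟨?_, ?_⟩
    · rw [show ((p ^ m : ℕ) : ℤ) * ((B * p ^ j : ℕ) : ℤ) = B * (p ^ (j + m) : ℕ) by push_cast; ring]
      exact hs.1
    · have := hs.2
      rw [pow_add, mul_dvd_mul_iff_left (pow_ne_zero _ pp.ne_zero)] at this
      exact (congrArg _ (by ring)).mp this
  · push_cast at hs
    have := dvd_sub h0 (hs.mul_right ((a * x ^ 2 + b * x * y + c * y ^ 2) * (s + s') +
      (2 * a * x * x' + b * (x * y' + x' * y) + 2 * c * y * y')))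
    exact (congrArg _ (by ring)).mp this

lemma Dv.mul_right {a : ℤ} {X : M2} (h : Dv a X) (Y : M2) : Dv a (X * Y) := fun i j => by
  rw [Matrix.mul_apply, Fin.sum_univ_two]
  exact dvd_add ((h _ _).mul_right _) ((h _ _).mul_right _)

lemma sc_apply (b : ℤ) (i j : Fin 2) : sc b i j = if i = j then b else 0 := by
  rw [sc, Matrix.smul_apply, Matrix.one_apply, smul_eq_mul, mul_ite, mul_one, mul_zero]

lemma adj_eq (X : M2) : X.adjugate = sc (X 0 0 + X 1 1) - X := by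
  ext i j
  fin_cases i <;> fin_cases j <;> simp [Matrix.adjugate_fin_two, sc_apply]

lemma inv_mul (k : SL(2, ℤ)) : (k⁻¹).1 * k.1 = 1 := congrArg Subtype.val (inv_mul_cancel k)

lemma mul_inv' (k : SL(2, ℤ)) : k.1 * (k⁻¹).1 = 1 := congrArg Subtype.val (mul_inv_cancel k)

lemma cnd1 {B b : ℤ} {M W : M2} {k : SL(2, ℤ)}
    (h : Dv B (M * (sc b + k.1 * W * (k⁻¹).1).adjugate)) :
    Dv B (M * k.1 * (sc b + W).adjugate) := by
  have e : sc b + k.1 * W * (k⁻¹).1 = k.1 * (sc b + W) * (k⁻¹).1 := by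
    rw [mul_add, add_mul, sc, mul_smul_comm, mul_one, smul_mul_assoc, mul_inv']
  have t : (k.1 * (sc b + W) * (k⁻¹).1) 0 0 + (k.1 * (sc b + W) * (k⁻¹).1) 1 1 =
      (sc b + W) 0 0 + (sc b + W) 1 1 := by
    rw [← Matrix.trace_fin_two, ← Matrix.trace_fin_two, Matrix.trace_mul_comm, ← mul_assoc,
      inv_mul, one_mul]
  have := Dv.mul_right h k.1
  rw [e, adj_eq, t, mul_assoc, sub_mul, mul_assoc _ _ k.1, inv_mul, mul_one, sc, smul_mul_assoc,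
    one_mul] at this
  rw [adj_eq, mul_assoc, mul_sub, sc, mul_smul_comm, mul_one]
  exact this

lemma cnd2 {p : ℕ} (hp : p.Prime) {N : ℕ} {l x y : ℤ} {M W : M2}
    (h : Dv ((p : ℤ) ^ N) (W * M - M * W)) (h1 : ¬ (p : ℤ) ∣ W 0 0 + W 1 1 - 2 * l)
    (h4 : (p : ℤ) ^ N ∣ (W 0 0 - l) * x + W 0 1 * y)
    (h5 : (p : ℤ) ^ N ∣ W 1 0 * x + (W 1 1 - l) * y) :
    (p : ℤ) ^ N ∣ M 1 0 * x ^ 2 + (M 1 1 - M 0 0) * x * y - M 0 1 * y ^ 2 := by
  have c : IsCoprime ((p : ℤ) ^ N) (W 0 0 + W 1 1 - 2 * l) :=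
    ((Nat.prime_iff_prime_int.1 hp).irreducible.coprime_iff_not_dvd.2 h1).pow_left
  refine c.dvd_of_dvd_mul_left ?_
  have a0 := h 0 0
  have a1 := h 0 1
  have a2 := h 1 0
  have a3 := h 1 1
  simp only [Matrix.sub_apply, Matrix.mul_apply, Fin.sum_univ_two] at a0 a1 a2 a3
  have b0 : (p : ℤ) ^ N ∣ (W 0 0 - l) * (M 0 0 * x + M 0 1 * y) + W 0 1 * (M 1 0 * x + M 1 1 * y) :=
    (congrArg _ (by ring)).mp (dvd_add (dvd_add (a0.mul_right x) (a1.mul_right y))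
      (dvd_add (h4.mul_left (M 0 0)) (h5.mul_left (M 0 1))))
  have b1 : (p : ℤ) ^ N ∣ W 1 0 * (M 0 0 * x + M 0 1 * y) + (W 1 1 - l) * (M 1 0 * x + M 1 1 * y) :=
    (congrArg _ (by ring)).mp (dvd_add (dvd_add (a2.mul_right x) (a3.mul_right y))
      (dvd_add (h4.mul_left (M 1 0)) (h5.mul_left (M 1 1))))
  exact (congrArg _ (by ring)).mp (dvd_add
    (dvd_sub (h4.mul_right (M 1 0 * x + M 1 1 * y)) (b0.mul_right y))
    (dvd_sub (b1.mul_right x) (h5.mul_right (M 0 0 * x + M 0 1 * y))))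

lemma final {B P : ℕ} (hB : 1 ≤ B) (hP : 1 ≤ P) {T F S : ℕ} {n₀ : ℤ} {r : ℝ}
    (h : T ≤ F * (n₀.natAbs ^ 2 * P ^ 2 * Nat.totient B)) (hS : ((B * P : ℕ) : ℝ) ^ 3 ≤ 2 * S)
    (hr : (F : ℝ) ≤ r * (B * P)) : (T : ℝ) ≤ 2 * (n₀ : ℝ) ^ 2 / sg B * r * S := by
  have b0 : (0 : ℝ) < B := by exact_mod_cast hB
  have p0 : (0 : ℝ) < P := by exact_mod_cast hP
  have s0 : (0 : ℝ) < sg B := by
    have : B ≤ sg B := single_le_sum (f := fun d => d) (fun _ _ => Nat.zero_le _)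
      (Nat.mem_divisors_self B (by omega))
    exact lt_of_lt_of_le b0 (by exact_mod_cast this)
  have r0 : 0 ≤ r := by
    by_contra c
    push Not at c
    nlinarith [mul_pos b0 p0, Nat.cast_nonneg (α := ℝ) F]
  have t : (Nat.totient B : ℝ) ≤ (B : ℝ) ^ 2 / sg B := by
    rw [le_div_iff₀ s0]; exact_mod_cast tot_sg B
  have h' : (T : ℝ) ≤ F * ((n₀ : ℝ) ^ 2 * P ^ 2 * Nat.totient B) := by
    have : (T : ℝ) ≤ ((F * (n₀.natAbs ^ 2 * P ^ 2 * Nat.totient B) : ℕ) : ℝ) := Nat.cast_le.2 h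
    push_cast at this
    rwa [Nat.cast_natAbs, Int.cast_abs, sq_abs] at this
  push_cast at hS
  calc (T : ℝ) ≤ r * (B * P) * ((n₀ : ℝ) ^ 2 * P ^ 2 * ((B : ℝ) ^ 2 / sg B)) := by
        refine h'.trans ?_
        gcongr
    _ = (n₀ : ℝ) ^ 2 / sg B * r * ((B : ℝ) * P) ^ 3 := by ring
    _ ≤ (n₀ : ℝ) ^ 2 / sg B * r * (2 * S) := by gcongr
    _ = _ := by ring

end Dens

open Dens in
theorem dens (hd : DivStmt) (hc : ConStmt) : DensStmt := by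
  classical
  intro B p N hB hp
  have hP : 1 ≤ p ^ N := Nat.one_le_pow _ _ hp.pos
  have hq : 1 ≤ B * p ^ N := Nat.mul_pos hB hP
  obtain ⟨S, hS, hinj⟩ := exists_S hd (B * p ^ N) hq
  refine ⟨S, ?_, fun t n f b n₀ W M hs hf hW hBd hn hM => ?_⟩
  · rw [← card_pos]
    have : (0 : ℝ) < ((B * p ^ N : ℕ) : ℝ) ^ 3 := by positivity
    exact_mod_cast (by linarith : (0 : ℝ) < #S)
  obtain ⟨htr, hdet, -, hcont⟩ := hW
  rw [Matrix.trace_fin_two] at htr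
  rw [Matrix.det_fin_two] at hdet
  obtain ⟨l, x, y, h1, h2, h3, h4, h5⟩ := eigen hp N (B := B) (b := b) hs hf htr hdet
    (by simpa [Matrix.det_fin_two, sc_apply] using hBd)
  obtain ⟨e, c1, c2⟩ := basis hB hp N hcont h2 h3
    ((dvd_pow_self _ (Nat.succ_ne_zero N)).trans h4) ((dvd_pow_self _ (Nat.succ_ne_zero N)).trans h5)
  replace h4 := (pow_dvd_pow _ (Nat.le_succ N)).trans h4
  replace h5 := (pow_dvd_pow _ (Nat.le_succ N)).trans h5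
  obtain ⟨U, hU⟩ : ∃ U : M2, U = !![(b + W 1 1) * e 0 - W 0 1 * e 1 + B * e 2, x + (p : ℤ) ^ N * e 4;
    -W 1 0 * e 0 + (b + W 0 0) * e 1 + B * e 3, y + (p : ℤ) ^ N * e 5] := ⟨_, rfl⟩
  have dU : U.det = FF B ((p : ℤ) ^ N) b x y W e := by rw [hU, Matrix.det_fin_two_of, FF]
  have main : ∀ (F : ℕ) (R : ℤ → ℤ → Prop) [∀ x y, Decidable (R x y)],
      (∀ x y, (p : ℤ) ^ N ∣ M 1 0 * x ^ 2 + (M 1 1 - M 0 0) * x * y - M 0 1 * y ^ 2 → R x y) →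
      (∀ x y x' y', (B * (p ^ N : ℕ) : ℤ) ∣ x - x' → (B * (p ^ N : ℕ) : ℤ) ∣ y - y' →
        R x y → R x' y') →
      (∀ x₀ y₀ x' y', x₀ * y' - x' * y₀ = FF B ((p : ℤ) ^ N) b x y W e →
        #{s ∈ Ico (0 : ℤ) (B * (p ^ N : ℕ)) | R (x' + s * x₀) (y' + s * y₀)} ≤ F) →
      #{k ∈ S | Cnd B b p N M (k.1 * W * (k⁻¹).1)} ≤
        F * (n₀.natAbs ^ 2 * (p ^ N) ^ 2 * Nat.totient B) := fun F R _ r1 r2 r3 => by
    refine count B (p ^ N) hB hP _ c2 M n₀ hn hM _ (fun k : SL(2, ℤ) => k.1 * U) (fun k _ => ?_)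
      (fun k hk k' hk' h => ?_) (fun k hk i => ?_) F R (fun k hk => r1 _ _ ?_) r2 r3
    · rw [← Matrix.det_fin_two, Matrix.det_mul, k.det_coe, one_mul, dU]
    · refine hinj k (mem_filter.1 hk).1 k' (mem_filter.1 hk').1 fun i j => ?_
      have := Dv.mul_right h U.adjugate i j
      rw [← sub_mul, mul_assoc, Matrix.mul_adjugate, mul_smul_comm, mul_one, dU,
        Matrix.smul_apply, smul_eq_mul] at this
      exact_mod_cast c2.symm.dvd_of_dvd_mul_left this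
    · have := cnd1 (mem_filter.1 hk).2.1
      have a0 := this i 0
      have a1 := this i 1
      simp only [Matrix.mul_apply, Fin.sum_univ_two, Matrix.adjugate_fin_two, sc, Matrix.add_apply,
        Matrix.smul_apply, Matrix.one_apply, Matrix.of_apply, Matrix.cons_val', Matrix.cons_val_zero,
        Matrix.cons_val_one, Matrix.cons_val_fin_one, smul_eq_mul, if_true, mul_one,
        zero_ne_one, one_ne_zero, if_false, mul_zero, zero_add] at a0 a1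
      simp only [hU, Matrix.mul_apply, Fin.sum_univ_two, Matrix.of_apply, Matrix.cons_val',
        Matrix.cons_val_zero, Matrix.cons_val_one, Matrix.cons_val_fin_one]
      exact (congrArg _ (by ring)).mp (dvd_add (dvd_add (a0.mul_right (e 0)) (a1.mul_right (e 1)))
        (dvd_mul_right (B : ℤ) ((M i 0 * k.1 0 0 + M i 1 * k.1 1 0) * e 2 +
          (M i 0 * k.1 0 1 + M i 1 * k.1 1 1) * e 3)))
    · have t : (k.1 * W * (k⁻¹).1) 0 0 + (k.1 * W * (k⁻¹).1) 1 1 = W 0 0 + W 1 1 := by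
        rw [← Matrix.trace_fin_two, ← Matrix.trace_fin_two, Matrix.trace_mul_comm, ← mul_assoc,
          inv_mul, one_mul]
      have e1 : k.1 * W * (k⁻¹).1 * (k.1 * U) = k.1 * (W * U) := by
        rw [mul_assoc (k.1 * W), ← mul_assoc (k⁻¹).1, inv_mul, one_mul, mul_assoc]
      have u4 : (p : ℤ) ^ N ∣ (W 0 0 - l) * U 0 1 + W 0 1 * U 1 1 := by
        rw [hU]
        exact (congrArg _ (by simp; ring)).mp
          (dvd_add h4 (dvd_mul_right _ ((W 0 0 - l) * e 4 + W 0 1 * e 5)))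
      have u5 : (p : ℤ) ^ N ∣ W 1 0 * U 0 1 + (W 1 1 - l) * U 1 1 := by
        rw [hU]
        exact (congrArg _ (by simp; ring)).mp
          (dvd_add h5 (dvd_mul_right _ (W 1 0 * e 4 + (W 1 1 - l) * e 5)))
      have f0 := congrFun (congrFun e1 0) 1
      have f1 := congrFun (congrFun e1 1) 1
      rw [Matrix.mul_apply, Fin.sum_univ_two] at f0 f1
      refine cnd2 hp (l := l) (mem_filter.1 hk).2.2 (t ▸ h1) ?_ ?_
      · rw [sub_mul, sub_add_eq_add_sub, f0]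
        simp only [Matrix.mul_apply, Fin.sum_univ_two]
        exact (congrArg _ (by ring)).mp (dvd_add (u4.mul_left (k.1 0 0)) (u5.mul_left (k.1 0 1)))
      · rw [sub_mul, ← add_sub_assoc, f1]
        simp only [Matrix.mul_apply, Fin.sum_univ_two]
        exact (congrArg _ (by ring)).mp (dvd_add (u4.mul_left (k.1 1 0)) (u5.mul_left (k.1 1 1)))
  refine ⟨?_, fun i hi => ?_⟩
  · have := final hB hP (r := 1) (main (B * p ^ N) (fun _ _ => True) (fun _ _ _ => trivial)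
      (fun _ _ _ _ _ _ _ => trivial) fun _ _ _ _ _ => (card_filter_le _ _).trans (by
        rw [Int.card_Ico, sub_zero, ← Nat.cast_mul, Int.toNat_natCast])) hS (by push_cast; linarith)
    simpa using this
  have p1 : (1 : ℝ) ≤ p := by exact_mod_cast hp.one_le
  by_cases hN : N ≤ i
  · refine final hB hP (main (B * p ^ N) (fun _ _ => True) (fun _ _ _ => trivial)
      (fun _ _ _ _ _ _ _ => trivial) fun _ _ _ _ _ => (card_filter_le _ _).trans (by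
        rw [Int.card_Ico, sub_zero, ← Nat.cast_mul, Int.toNat_natCast])) hS ?_
    have a : (p : ℝ) ^ N ≤ Real.sqrt ((p : ℝ) ^ (N + i)) := Real.le_sqrt_of_sq_le (by
      rw [← pow_mul]; exact pow_le_pow_right₀ p1 (by omega))
    have b : 1 ≤ 2 * Real.sqrt ((p : ℝ) ^ (N + i)) / (p : ℝ) ^ N := by
      rw [le_div_iff₀ (by positivity)]; linarith [Real.sqrt_nonneg ((p : ℝ) ^ (N + i))]
    push_cast
    exact le_mul_of_one_le_left (by positivity) b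
  have c0 : cont M ≠ 0 := fun e => hi (e ▸ dvd_zero _)
  obtain ⟨j, m, hm, hj⟩ := Nat.exists_eq_pow_mul_and_not_dvd c0 p hp.one_lt.ne'
  have ji : j ≤ i := by
    by_contra c
    exact hi ((pow_dvd_pow p (by omega)).trans ⟨m, hj⟩)
  have d0 : (p : ℤ) ^ j ∣ (cont M : ℕ) := ⟨m, by rw [hj]; push_cast; rfl⟩
  obtain ⟨a1, ha1⟩ : (p : ℤ) ^ j ∣ M 0 1 :=
    d0.trans ((Int.gcd_dvd_left _ _).trans (Int.gcd_dvd_left _ _))
  obtain ⟨a2, ha2⟩ : (p : ℤ) ^ j ∣ M 1 0 :=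
    d0.trans ((Int.gcd_dvd_left _ _).trans (Int.gcd_dvd_right _ _))
  obtain ⟨a3, ha3⟩ : (p : ℤ) ^ j ∣ M 0 0 - M 1 1 := d0.trans (Int.gcd_dvd_right _ _)
  have np : ¬ ((p : ℤ) ∣ a2 ∧ (p : ℤ) ∣ -a3 ∧ (p : ℤ) ∣ -a1) := fun ⟨u, v, w⟩ => hm (by
    have : (p : ℤ) ^ j * p ∣ (cont M : ℕ) := Int.dvd_coe_gcd (Int.dvd_coe_gcd
      (ha1 ▸ mul_dvd_mul_left _ (dvd_neg.1 w)) (ha2 ▸ mul_dvd_mul_left _ u))
      (ha3 ▸ mul_dvd_mul_left _ (dvd_neg.1 v))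
    rw [hj] at this
    push_cast at this
    exact Int.natCast_dvd_natCast.1 ((mul_dvd_mul_iff_left
      (pow_ne_zero _ (Nat.cast_ne_zero.2 hp.ne_zero))).1 this))
  have nδ : ¬ (p : ℤ) ∣ FF B ((p : ℤ) ^ N) b x y W e :=
    (Nat.prime_iff_prime_int.1 hp).irreducible.coprime_iff_not_dvd.1 c1.of_mul_right_right.symm
  refine final hB hP (main (B * p ^ j * (2 * p ^ ((N - j) / 2)))
    (fun x y => (p : ℤ) ^ N ∣ (p : ℤ) ^ j * (a2 * x ^ 2 + -a3 * x * y + -a1 * y ^ 2))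
    (fun x y h => (congrArg _ (by linear_combination x ^ 2 * ha2 - x * y * ha3 - y ^ 2 * ha1)).mp h)
    (fun x y x' y' hx hy h => ?_)
    fun x₀ y₀ x' y' h => quad hc hp (N := N) (by omega) np nδ x₀ y₀ x' y' h) hS ?_
  · have k : (p : ℤ) ^ N ∣ B * (p ^ N : ℕ) := by push_cast; exact dvd_mul_left _ _
    exact (congrArg _ (by ring)).mp (dvd_sub (dvd_sub h ((k.trans hx).mul_right
      ((p : ℤ) ^ j * (a2 * (x + x') - a3 * y)))) ((k.trans hy).mul_right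
        ((p : ℤ) ^ j * (-a3 * x' - a1 * (y + y')))))
  · have a : (p : ℝ) ^ j * (p : ℝ) ^ ((N - j) / 2) ≤ Real.sqrt ((p : ℝ) ^ (N + i)) :=
      Real.le_sqrt_of_sq_le (by
        rw [← pow_add, ← pow_mul]; exact pow_le_pow_right₀ p1 (by omega))
    push_cast
    rw [show 2 * Real.sqrt ((p : ℝ) ^ (N + i)) / (p : ℝ) ^ N * (B * (p : ℝ) ^ N) =
      2 * B * Real.sqrt ((p : ℝ) ^ (N + i)) by field_simp]
    nlinarith [Nat.cast_nonneg (α := ℝ) B]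

end Pool.Agent.Lib.MP_9177b7_ag.EQ
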