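import Pool.Agent.Lib.MP_9177b7_ag.EQ.StN

/-!
Local densities in `SL₂(ℤ/q)`: counting lemmas.
-/

open Finset
open scoped MatrixGroups

noncomputable section

namespace Pool.Agent.Lib.MP_9177b7_ag.EQ.Dens

lemma mod_mem {q : ℤ} (hq : 0 < q) (x : ℤ) : x % q ∈ Ico (0 : ℤ) q :=
  mem_Ico.2 ⟨Int.emod_nonneg _ hq.ne', Int.emod_lt_of_pos _ hq⟩

lemma dvd_sub_mod (q x : ℤ) : q ∣ x - x % q := Int.dvd_self_sub_emod

lemma eq_of_dvd {q x y : ℤ} (hx : x ∈ Ico (0 : ℤ) q) (hy : y ∈ Ico (0 : ℤ) q) (h : q ∣ x - y) :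
    x = y := by
  rw [mem_Ico] at hx hy
  have := Int.eq_zero_of_abs_lt_dvd h (abs_lt.2 ⟨by omega, by omega⟩)
  omega

lemma dvd_of_mod_eq {q x y : ℤ} (h : x % q = y % q) : q ∣ x - y :=
  (Int.ModEq.dvd h.symm)

lemma cnt_per (m r : ℕ) (hm : 1 ≤ m) (P : ℤ → Prop) [DecidablePred P]
    (hP : ∀ x y, (m : ℤ) ∣ x - y → P x → P y) :
    #{x ∈ Ico (0 : ℤ) (m * r) | P x} ≤ r * #{x ∈ range m | P ((x : ℕ) : ℤ)} := by
  have hm' : (0 : ℤ) < m := by exact_mod_cast hm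
  have : #{x ∈ Ico (0 : ℤ) (m * r) | P x} ≤
      #(range r ×ˢ {x ∈ range m | P ((x : ℕ) : ℤ)}) := by
    refine card_le_card_of_injOn (fun x => ((x / m).toNat, (x % m).toNat)) (fun x hx => ?_) ?_
    · simp only [coe_filter, mem_Ico, Set.mem_ofPred_eq] at hx
      have h0 := Int.emod_nonneg x hm'.ne'
      have h1 := Int.emod_lt_of_pos x hm'
      have h2 : x / m < r := Int.ediv_lt_of_lt_mul hm' (by linarith [hx.1.2])
      have h3 : 0 ≤ x / m := Int.ediv_nonneg hx.1.1 hm'.le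
      simp only [coe_product, coe_range, coe_filter, Set.mem_prod, Set.mem_Iio, mem_range,
        Set.mem_ofPred_eq]
      refine ⟨by omega, by omega, ?_⟩
      rw [Int.toNat_of_nonneg h0]
      exact hP _ _ (dvd_sub_mod _ _) hx.2
    · intro x hx y hy e
      simp only [coe_filter, mem_Ico, Set.mem_ofPred_eq] at hx hy
      simp only [Prod.mk.injEq] at e
      have h0 := Int.emod_nonneg x hm'.ne'
      have h0' := Int.emod_nonneg y hm'.ne'
      have h3 : 0 ≤ x / m := Int.ediv_nonneg hx.1.1 hm'.le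
      have h3' : 0 ≤ y / m := Int.ediv_nonneg hy.1.1 hm'.le
      have e1 : x / m = y / m := by omega
      have e2 : x % m = y % m := by omega
      rw [← Int.mul_ediv_add_emod x m, ← Int.mul_ediv_add_emod y m, e1, e2]
  rwa [card_product, card_range] at this

lemma cnt_dvd (m r : ℕ) (hm : 1 ≤ m) : #{x ∈ Ico (0 : ℤ) (m * r) | (m : ℤ) ∣ x} ≤ r := by
  refine (cnt_per m r hm (fun x => (m : ℤ) ∣ x) fun x y h hx => by
    simpa using dvd_sub hx h).trans ?_
  have : #{x ∈ range m | (m : ℤ) ∣ ((x : ℕ) : ℤ)} ≤ 1 := by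
    refine card_le_one.2 fun a ha b hb => ?_
    simp only [mem_filter, mem_range, Int.natCast_dvd_natCast] at ha hb
    rw [Nat.eq_zero_of_dvd_of_lt ha.2 ha.1, Nat.eq_zero_of_dvd_of_lt hb.2 hb.1]
  simpa using Nat.mul_le_mul_left r this

open Classical in
lemma cnt_cop (m r : ℕ) (hm : 1 ≤ m) :
    #{x ∈ Ico (0 : ℤ) (m * r) | IsCoprime x (m : ℤ)} ≤ r * Nat.totient m := by
  refine (cnt_per m r hm (fun x => IsCoprime x (m : ℤ)) fun x y h hx => ?_).trans ?_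
  · obtain ⟨c, hc⟩ := h
    have : y = x + m * (-c) := by linarith
    rw [this]; exact hx.add_mul_left_left _
  · refine Nat.mul_le_mul_left r (le_of_eq ?_)
    rw [Nat.totient_eq_card_coprime]
    refine congrArg _ (filter_congr fun x _ => ?_)
    rw [Nat.isCoprime_iff_coprime, Nat.coprime_comm]

lemma dvd_cont0 {a x : ℤ} {M : M2} (h : ∀ i j, a ∣ x * M i j) : a ∣ x * cont0 M := by
  have k : ∀ u v : ℤ, a ∣ x * u → a ∣ x * v → a ∣ x * (Int.gcd u v : ℤ) := fun u v hu hv => by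
    rw [Int.gcd_eq_gcd_ab, mul_add, ← mul_assoc, ← mul_assoc]
    exact dvd_add (hu.mul_right _) (hv.mul_right _)
  exact k _ _ (k _ _ (h 0 0) (h 0 1)) (k _ _ (h 1 0) (h 1 1))

open Classical in
/-- The main count: matrices of fixed determinant, with a condition on each column. -/
lemma count (B P : ℕ) (hB : 1 ≤ B) (hP : 1 ≤ P) (δ : ℤ) (hδ : IsCoprime δ (B * P : ℤ)) (M : M2)
    (n₀ : ℤ) (hn : n₀ ≠ 0) (hM : cont0 M ∣ n₀.natAbs) {ι : Type} (T : Finset ι) (H : ι → M2)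
    (hdet : ∀ k ∈ T, H k 0 0 * H k 1 1 - H k 0 1 * H k 1 0 = δ)
    (hinj : ∀ k ∈ T, ∀ k' ∈ T, Dv (B * P) (H k - H k') → k = k')
    (h1 : ∀ k ∈ T, ∀ i, (B : ℤ) ∣ M i 0 * H k 0 0 + M i 1 * H k 1 0) (F : ℕ) (R : ℤ → ℤ → Prop)
    [∀ x y, Decidable (R x y)] (hR : ∀ k ∈ T, R (H k 0 1) (H k 1 1))
    (hper : ∀ x y x' y', (B * P : ℤ) ∣ x - x' → (B * P : ℤ) ∣ y - y' → R x y → R x' y')
    (hF : ∀ x y x' y', x * y' - x' * y = δ →
      #{s ∈ Ico (0 : ℤ) (B * P) | R (x' + s * x) (y' + s * y)} ≤ F) :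
    #T ≤ F * (n₀.natAbs ^ 2 * P ^ 2 * Nat.totient B) := by
  rcases T.eq_empty_or_nonempty with rfl | ⟨k0, hk0⟩
  · simp
  have hq : (0 : ℤ) < B * P := by positivity
  obtain ⟨g, hg⟩ : ∃ g, g = Nat.gcd B n₀.natAbs := ⟨_, rfl⟩
  have hg0 : 0 < g := hg ▸ Nat.gcd_pos_of_pos_left _ hB
  obtain ⟨B', hB'⟩ : g ∣ B := hg ▸ Nat.gcd_dvd_left _ _
  obtain ⟨n', hn'⟩ : g ∣ n₀.natAbs := hg ▸ Nat.gcd_dvd_right _ _
  have hB0 : 1 ≤ B' := Nat.pos_of_ne_zero fun e => by simp [e] at hB'; omega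
  have cop : Nat.Coprime B' n' := by
    have := Nat.gcd_mul_left g B' n'
    rw [← hB', ← hn', ← hg] at this
    exact (Nat.mul_left_cancel hg0 (by rw [← this, mul_one])).symm
  have eq : (B * P : ℤ) = (B' : ℤ) * (g * P : ℕ) := by rw [hB']; push_cast; ring
  have hBq : (B' : ℤ) ∣ B * P := ⟨_, eq⟩
  obtain ⟨δ', c, hδ'⟩ := hδ
  let α : ι → ℤ := fun k => H k 0 0 * H k0 1 1 - H k0 0 1 * H k 1 0
  let β : ι → ℤ := fun k => H k0 0 0 * H k 1 0 - H k 0 0 * H k0 1 0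
  have hβ : ∀ k ∈ T, (B' : ℤ) ∣ β k := fun k hk => by
    have a : (B : ℤ) ∣ β k * cont0 M := dvd_cont0 fun i j => by
      have u := h1 k hk i
      have v := h1 k0 hk0 i
      fin_cases j
      · have : β k * M i 0 = (M i 0 * H k0 0 0 + M i 1 * H k0 1 0) * H k 1 0 -
          (M i 0 * H k 0 0 + M i 1 * H k 1 0) * H k0 1 0 := by simp only [β]; ring
        exact this ▸ dvd_sub (v.mul_right _) (u.mul_right _)
      · have : β k * M i 1 = (M i 0 * H k 0 0 + M i 1 * H k 1 0) * H k0 0 0 -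
          (M i 0 * H k0 0 0 + M i 1 * H k0 1 0) * H k 0 0 := by simp only [β]; ring
        exact this ▸ dvd_sub (u.mul_right _) (v.mul_right _)
    have b : (B : ℤ) ∣ β k * (n₀.natAbs : ℕ) :=
      a.trans (mul_dvd_mul_left _ (Int.natCast_dvd_natCast.2 hM))
    rw [hB', hn'] at b
    push_cast at b
    rw [mul_left_comm] at b
    exact (Nat.isCoprime_iff_coprime.2 cop).dvd_of_dvd_mul_right
      ((mul_dvd_mul_iff_left (by exact_mod_cast hg0.ne')).1 b)
  have hα : ∀ k ∈ T, IsCoprime (α k) (B' : ℤ) := fun k hk => by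
    obtain ⟨e, he⟩ := hβ k hk
    have c1 : IsCoprime (δ * δ) (B' : ℤ) :=
      ((IsCoprime.of_isCoprime_of_dvd_right ⟨δ', c, hδ'⟩ hBq)).mul_left
        (IsCoprime.of_isCoprime_of_dvd_right ⟨δ', c, hδ'⟩ hBq)
    have e1 : δ * δ = α k * (H k0 0 0 * H k 1 1 - H k 0 1 * H k0 1 0) +
        B' * (e * (H k0 0 1 * H k 1 1 - H k 0 1 * H k0 1 1)) := by
      rw [← mul_assoc, ← he]
      nth_rewrite 1 [← hdet k hk]
      rw [← hdet k0 hk0]
      simp only [α, β]; ring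
    rw [e1] at c1
    exact c1.of_add_mul_left_left.of_mul_left_left
  refine (card_le_mul_card_image_of_maps_to (f := fun k => (α k % (B * P), β k % (B * P)))
    (t := {x ∈ Ico (0 : ℤ) (B * P) | IsCoprime x (B' : ℤ)} ×ˢ {x ∈ Ico (0 : ℤ) (B * P) | (B' : ℤ) ∣ x})
    (fun k hk => ?_) F (fun z _ => ?_)).trans (Nat.mul_le_mul_left _ ?_)
  · simp only [mem_product, mem_filter]
    refine ⟨⟨mod_mem hq _, ?_⟩, mod_mem hq _, ?_⟩
    · obtain ⟨e, he⟩ := hBq.trans (dvd_sub_mod (B * P) (α k))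
      have : α k % (B * P) = α k + B' * (-e) := by linarith
      rw [this]; exact (hα k hk).add_mul_left_left _
    · have := dvd_sub (hβ k hk) (hBq.trans (dvd_sub_mod (B * P) (β k)))
      simpa using this
  · rcases ({k ∈ T | (α k % (B * P), β k % (B * P)) = z} : Finset ι).eq_empty_or_nonempty with
      e | ⟨k1, hk1⟩
    · rw [e]; simp
    have col : ∀ k ∈ ({k ∈ T | (α k % (B * P), β k % (B * P)) = z} : Finset ι), ∀ i,
        (B * P : ℤ) ∣ H k i 0 - H k1 i 0 := fun k hk i => by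
      rw [mem_filter] at hk hk1
      have e := hk.2.trans hk1.2.symm
      simp only [Prod.mk.injEq] at e
      have a := dvd_of_mod_eq e.1
      have b := dvd_of_mod_eq e.2
      have d0 := hdet k0 hk0
      have : H k i 0 - H k1 i 0 = δ' * ((α k - α k1) * H k0 i 0 + (β k - β k1) * H k0 i 1) +
          B * P * (c * (H k i 0 - H k1 i 0)) := by
        fin_cases i
        · simp only [α, β, Fin.zero_eta]
          linear_combination (-(H k 0 0 - H k1 0 0)) * hδ' - δ' * (H k 0 0 - H k1 0 0) * d0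
        · simp only [α, β, Fin.mk_one]
          linear_combination (-(H k 1 0 - H k1 1 0)) * hδ' - δ' * (H k 1 0 - H k1 1 0) * d0
      rw [this]
      exact dvd_add ((dvd_add (a.mul_right _) (b.mul_right _)).mul_left _) (dvd_mul_right _ _)
    let s : ι → ℤ := fun k => (δ' * (H k 0 1 * H k1 1 1 - H k1 0 1 * H k 1 1)) % (B * P)
    have col2 : ∀ k ∈ ({k ∈ T | (α k % (B * P), β k % (B * P)) = z} : Finset ι), ∀ i,
        (B * P : ℤ) ∣ H k i 1 - (H k1 i 1 + s k * H k1 i 0) := fun k hk i => by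
      obtain ⟨a0, ha0⟩ := col k hk 0
      obtain ⟨a1, ha1⟩ := col k hk 1
      obtain ⟨e, he⟩ := dvd_sub_mod (B * P) (δ' * (H k 0 1 * H k1 1 1 - H k1 0 1 * H k 1 1))
      have d1 := hdet k1 (mem_filter.1 hk1).1
      have d := hdet k (mem_filter.1 hk).1
      refine ⟨c * (H k i 1 - H k1 i 1) + e * H k1 i 0 +
        δ' * (H k 0 1 * a1 - a0 * H k 1 1) * H k1 i 1, ?_⟩
      fin_cases i
      · simp only [s, Fin.zero_eta]
        linear_combination (-(H k 0 1 - H k1 0 1)) * hδ' - δ' * H k 0 1 * d1 + δ' * H k1 0 1 * d +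
          H k1 0 0 * he + δ' * H k 0 1 * H k1 0 1 * ha1 - δ' * H k 1 1 * H k1 0 1 * ha0
      · simp only [s, Fin.mk_one]
        linear_combination (-(H k 1 1 - H k1 1 1)) * hδ' - δ' * H k 1 1 * d1 + δ' * H k1 1 1 * d +
          H k1 1 0 * he + δ' * H k 0 1 * H k1 1 1 * ha1 - δ' * H k 1 1 * H k1 1 1 * ha0
    refine le_trans (card_le_card_of_injOn s (fun k hk => ?_) ?_)
      (hF (H k1 0 0) (H k1 1 0) (H k1 0 1) (H k1 1 1) (hdet k1 (mem_filter.1 hk1).1))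
    · rw [mem_coe] at hk
      exact mem_coe.2 (mem_filter.2 ⟨mod_mem hq _,
        hper _ _ _ _ (col2 k hk 0) (col2 k hk 1) (hR k (mem_filter.1 hk).1)⟩)
    · intro k hk k' hk' e
      rw [mem_coe] at hk hk'
      refine hinj k (mem_filter.1 hk).1 k' (mem_filter.1 hk').1 fun i j => ?_
      fin_cases j
      · simpa using dvd_sub (col k hk i) (col k' hk' i)
      · have := dvd_sub (col2 k hk i) (col2 k' hk' i)
        rw [e] at this
        simpa using this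
  · rw [card_product, eq]
    refine (Nat.mul_le_mul (cnt_cop B' (g * P) hB0) (cnt_dvd B' (g * P) hB0)).trans ?_
    have a : g ≤ n₀.natAbs := Nat.le_of_dvd (Int.natAbs_pos.2 hn) ⟨_, hn'⟩
    have b : Nat.totient B' ≤ Nat.totient B :=
      Nat.le_of_dvd (Nat.totient_pos.2 hB) (Nat.totient_dvd_of_dvd ⟨g, by rw [hB', mul_comm]⟩)
    calc g * P * Nat.totient B' * (g * P) = g ^ 2 * P ^ 2 * Nat.totient B' := by ring
      _ ≤ _ := by gcongr

end Pool.Agent.Lib.MP_9177b7_ag.EQ.Dens
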