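import Pool.Agent.Lib.MP_9177b7_ag.EQ.Dens1

/-!
Local densities in `SL₂(ℤ/q)`: the system of representatives, the adapted basis.
-/

open Finset
open scoped MatrixGroups

noncomputable section

namespace Pool.Agent.Lib.MP_9177b7_ag.EQ.Dens

lemma tot_mul_le (d e : ℕ) : Nat.totient (e * d) ≤ e * Nat.totient d := by
  induction e using induction_on_primes with
  | zero => simp
  | one => simp
  | prime_mul l a hl ih =>
    rw [mul_assoc, mul_assoc]
    refine le_trans ?_ (Nat.mul_le_mul_left l ih)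
    by_cases h : l ∣ a * d
    · rw [Nat.totient_mul_of_prime_of_dvd hl h]
    · rw [Nat.totient_mul_of_prime_of_not_dvd hl h]
      exact Nat.mul_le_mul_right _ (Nat.sub_le _ _)

lemma tot_sg (B : ℕ) : Nat.totient B * sg B ≤ B ^ 2 := by
  calc Nat.totient B * sg B = ∑ d ∈ B.divisors, Nat.totient B * d := by rw [sg, mul_sum]
    _ ≤ ∑ d ∈ B.divisors, B * Nat.totient d := sum_le_sum fun d hd => by
        obtain ⟨e, he⟩ := Nat.dvd_of_mem_divisors hd
        calc Nat.totient B * d ≤ e * Nat.totient d * d := by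
              rw [he, mul_comm d e]; exact Nat.mul_le_mul_right _ (tot_mul_le d e)
          _ = B * Nat.totient d := by rw [he]; ring
    _ = B ^ 2 := by rw [← mul_sum, Nat.sum_totient, sq]

lemma odd_sum (n : ℕ) :
    ∑ j ∈ range n, 1 / ((2 * j + 3 : ℕ) : ℝ) ^ 2 ≤ 1 / 4 - 1 / (4 * ((n : ℝ) + 1)) := by
  induction n with
  | zero => simp
  | succ n ih =>
    rw [sum_range_succ]
    have : 1 / ((2 * n + 3 : ℕ) : ℝ) ^ 2 ≤ 1 / (4 * ((n : ℝ) + 1)) - 1 / (4 * ((n : ℝ) + 1 + 1)) := by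
      rw [div_sub_div _ _ (by positivity) (by positivity), div_le_div_iff₀ (by positivity)
        (by positivity)]
      push_cast
      nlinarith [Nat.cast_nonneg (α := ℝ) n]
    push_cast at this ih ⊢
    linarith

lemma prime_sum (q : ℕ) : ∑ l ∈ q.primeFactors, 1 / (l : ℝ) ^ 2 ≤ 1 / 2 := by
  have h : q.primeFactors ⊆ insert 2 ((range q).image fun j => 2 * j + 3) := fun l hl => by
    have hp := Nat.prime_of_mem_primeFactors hl
    have hq := Nat.le_of_mem_primeFactors hl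
    rcases hp.eq_two_or_odd' with rfl | ⟨j, hj⟩
    · exact mem_insert_self _ _
    · have := hp.two_le
      exact mem_insert_of_mem (mem_image.2 ⟨j - 1, mem_range.2 (by omega), by omega⟩)
  refine (sum_le_sum_of_subset_of_nonneg h fun _ _ _ => by positivity).trans ?_
  rw [sum_insert (by simp only [mem_image]; rintro ⟨j, -, hj⟩; omega),
    sum_image fun a _ b _ e => by omega]
  have := odd_sum q
  have : (0 : ℝ) ≤ 1 / (4 * ((q : ℝ) + 1)) := by positivity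
  push_cast at *
  linarith

/-- Primitive vectors modulo `q`. -/
def prim (q : ℕ) : Finset (ℤ × ℤ) :=
  {w ∈ Ico (0 : ℤ) q ×ˢ Ico (0 : ℤ) q | ∀ l ∈ q.primeFactors, ¬ ((l : ℤ) ∣ w.1 ∧ (l : ℤ) ∣ w.2)}

lemma card_prim (q : ℕ) : (q : ℝ) ^ 2 ≤ 2 * #(prim q) := by
  have h : Ico (0 : ℤ) q ×ˢ Ico (0 : ℤ) q ⊆ prim q ∪ q.primeFactors.biUnion fun l =>
      {x ∈ Ico (0 : ℤ) q | (l : ℤ) ∣ x} ×ˢ {x ∈ Ico (0 : ℤ) q | (l : ℤ) ∣ x} := fun w hw => by
    by_cases c : w ∈ prim q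
    · exact mem_union_left _ c
    · simp only [prim, mem_filter, hw, true_and, not_forall, not_not] at c
      obtain ⟨l, hl, h1, h2⟩ := c
      rw [mem_product] at hw
      exact mem_union_right _ (mem_biUnion.2 ⟨l, hl, mem_product.2
        ⟨mem_filter.2 ⟨hw.1, h1⟩, mem_filter.2 ⟨hw.2, h2⟩⟩⟩)
  have h2 := (card_le_card h).trans ((card_union_le _ _).trans
    (Nat.add_le_add_left card_biUnion_le _))
  have h3 : (q : ℝ) ^ 2 ≤ #(prim q) + ∑ l ∈ q.primeFactors, (q : ℝ) ^ 2 * (1 / (l : ℝ) ^ 2) := by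
    simp only [card_product, Int.card_Ico, sub_zero, Int.toNat_natCast] at h2
    have h4 : ((q * q : ℕ) : ℝ) ≤ _ := Nat.cast_le.2 h2
    push_cast at h4
    rw [sq]
    refine h4.trans (add_le_add_right (sum_le_sum fun l hl => ?_) _)
    have hp := Nat.prime_of_mem_primeFactors hl
    obtain ⟨r, hr⟩ := Nat.dvd_of_mem_primeFactors hl
    have a := cnt_dvd l r hp.one_le
    rw [← Nat.cast_mul, ← hr] at a
    have a' : ((#{x ∈ Ico (0 : ℤ) q | (l : ℤ) ∣ x} : ℕ) : ℝ) ≤ r := Nat.cast_le.2 a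
    have l0 : (l : ℝ) ≠ 0 := Nat.cast_ne_zero.2 hp.ne_zero
    calc _ ≤ (r : ℝ) * r := mul_le_mul a' a' (Nat.cast_nonneg _) (Nat.cast_nonneg _)
      _ = _ := by rw [hr]; push_cast; field_simp
  rw [← mul_sum] at h3
  nlinarith [prime_sum q, sq_nonneg (q : ℝ)]

lemma lift (hd : DivStmt) (q : ℕ) (hq : 1 ≤ q) (w : ℤ × ℤ) (hw : w ∈ prim q) :
    ∃ k : SL(2, ℤ), (q : ℤ) ∣ k 0 0 - w.1 ∧ (q : ℤ) ∣ k 1 0 - w.2 := by
  have c : Nat.Coprime (Int.gcd w.1 w.2) q := Nat.coprime_of_dvd fun l hl h1 h2 =>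
    (mem_filter.1 hw).2 l (Nat.mem_primeFactors.2 ⟨hl, h2, by omega⟩)
      ⟨(Int.natCast_dvd_natCast.2 h1).trans (Int.gcd_dvd_left _ _),
        (Int.natCast_dvd_natCast.2 h1).trans (Int.gcd_dvd_right _ _)⟩
  obtain ⟨u, v, h⟩ := Nat.isCoprime_iff_coprime.2 c
  rw [Int.gcd_eq_gcd_ab] at h
  have h' := congrArg (Int.cast : ℤ → ZMod q) h
  push_cast at h'
  rw [ZMod.natCast_self, mul_zero, add_zero] at h'
  obtain ⟨k, hk⟩ := hd.2.2.2.2.2.2.2 q hq ⟨!![(w.1 : ZMod q), -(u * Int.gcdB w.1 w.2 : ℤ);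
    (w.2 : ZMod q), (u * Int.gcdA w.1 w.2 : ℤ)], by
      rw [Matrix.det_fin_two_of]; push_cast; linear_combination h'⟩
  refine ⟨k, ?_, ?_⟩
  · have := congrArg (fun g : SL(2, ZMod q) => g 0 0) hk
    exact (ZMod.intCast_eq_intCast_iff_dvd_sub _ _ _).1 (by simpa using this.symm)
  · have := congrArg (fun g : SL(2, ZMod q) => g 1 0) hk
    exact (ZMod.intCast_eq_intCast_iff_dvd_sub _ _ _).1 (by simpa using this.symm)

lemma det_one (k : SL(2, ℤ)) : k 0 0 * k 1 1 - k 0 1 * k 1 0 = 1 := by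
  rw [← Matrix.det_fin_two]; exact k.det_coe

lemma exists_S (hd : DivStmt) (q : ℕ) (hq : 1 ≤ q) : ∃ S : Finset SL(2, ℤ),
    (q : ℝ) ^ 3 ≤ 2 * #S ∧ ∀ k ∈ S, ∀ k' ∈ S, Dv q (k.1 - k'.1) → k = k' := by
  classical
  choose! K hK using lift hd q hq
  let G : (ℤ × ℤ) × ℤ → SL(2, ℤ) := fun z =>
    ⟨!![K z.1 0 0, K z.1 0 1 + z.2 * K z.1 0 0; K z.1 1 0, K z.1 1 1 + z.2 * K z.1 1 0], by
      rw [Matrix.det_fin_two_of]; linear_combination det_one (K z.1)⟩
  have inj : ∀ z ∈ prim q ×ˢ Ico (0 : ℤ) q, ∀ z' ∈ prim q ×ˢ Ico (0 : ℤ) q,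
      Dv q ((G z).1 - (G z').1) → z = z' := by
    rintro ⟨w, s⟩ hz ⟨w', s'⟩ hz' h
    rw [mem_product] at hz hz'
    have a0 : (q : ℤ) ∣ K w 0 0 - K w' 0 0 := h 0 0
    have a1 : (q : ℤ) ∣ K w 1 0 - K w' 1 0 := h 1 0
    have m := mem_product.1 (mem_filter.1 hz.1).1
    have m' := mem_product.1 (mem_filter.1 hz'.1).1
    have e : w = w' := Prod.ext
      (eq_of_dvd m.1 m'.1 (by
        have := dvd_add (dvd_sub a0 (hK w hz.1).1) (hK w' hz'.1).1
        rwa [show K w 0 0 - K w' 0 0 - (K w 0 0 - w.1) + (K w' 0 0 - w'.1) = w.1 - w'.1 by ring]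
          at this))
      (eq_of_dvd m.2 m'.2 (by
        have := dvd_add (dvd_sub a1 (hK w hz.1).2) (hK w' hz'.1).2
        rwa [show K w 1 0 - K w' 1 0 - (K w 1 0 - w.2) + (K w' 1 0 - w'.2) = w.2 - w'.2 by ring]
          at this))
    subst e
    have b0 : (q : ℤ) ∣ K w 0 1 + s * K w 0 0 - (K w 0 1 + s' * K w 0 0) := h 0 1
    have b1 : (q : ℤ) ∣ K w 1 1 + s * K w 1 0 - (K w 1 1 + s' * K w 1 0) := h 1 1
    refine Prod.ext rfl (eq_of_dvd hz.2 hz'.2 ?_)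
    have e : s - s' = (K w 0 1 + s * K w 0 0 - (K w 0 1 + s' * K w 0 0)) * K w 1 1 -
        (K w 1 1 + s * K w 1 0 - (K w 1 1 + s' * K w 1 0)) * K w 0 1 := by
      linear_combination (s' - s) * det_one (K w)
    show (q : ℤ) ∣ s - s'
    rw [e]
    exact dvd_sub (b0.mul_right _) (b1.mul_right _)
  refine ⟨(prim q ×ˢ Ico (0 : ℤ) q).image G, ?_, fun k hk k' hk' h => ?_⟩
  · rw [card_image_of_injOn fun z hz z' hz' e => inj z hz z' hz' (by
      rw [e, sub_self]; exact fun _ _ => dvd_zero _), card_product, Int.card_Ico, sub_zero,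
      Int.toNat_natCast]
    push_cast
    nlinarith [card_prim q, Nat.cast_nonneg (α := ℝ) q]
  · obtain ⟨z, hz, rfl⟩ := mem_image.1 hk
    obtain ⟨z', hz', rfl⟩ := mem_image.1 hk'
    rw [inj z hz z' hz' h]

lemma crt {V : Type} [AddCommGroup V] (F : V → ℤ) (hF : ∀ (a : ℤ) x y, a ∣ F (x + a • y) - F x)
    (P : Finset ℕ) (hP : ∀ l ∈ P, l.Prime ∧ ∃ x, ¬ (l : ℤ) ∣ F x) :
    ∃ x, ∀ l ∈ P, ¬ (l : ℤ) ∣ F x := by
  induction P using Finset.induction_on with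
  | empty => exact ⟨0, by simp⟩
  | insert l P hl ih =>
    obtain ⟨x, hx⟩ := ih fun l' h => hP l' (mem_insert_of_mem h)
    obtain ⟨hp, y, hy⟩ := hP l (mem_insert_self _ _)
    have c : Nat.Coprime (∏ l' ∈ P, l') l := Nat.Coprime.prod_left fun l' h =>
      (Nat.coprime_primes (hP l' (mem_insert_of_mem h)).1 hp).2 fun e => hl (e ▸ h)
    obtain ⟨u, v, h⟩ := Nat.isCoprime_iff_coprime.2 c
    refine ⟨x + (u * (∏ l' ∈ P, l' : ℕ)) • (y - x), fun l' h' => ?_⟩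
    rcases mem_insert.1 h' with rfl | h'
    · have e : x + (u * (∏ l' ∈ P, l' : ℕ)) • (y - x) = y + (v * l') • (x - y) := by
        rw [show v * (l' : ℤ) = 1 - u * (∏ l' ∈ P, l' : ℕ) by linarith]
        module
      rw [e]
      intro d
      exact hy (by simpa using dvd_sub d ((dvd_mul_left _ _).trans (hF (v * l') y (x - y))))
    · intro d
      have : (l' : ℤ) ∣ u * (∏ l' ∈ P, l' : ℕ) :=
        (Int.natCast_dvd_natCast.2 (dvd_prod_of_mem _ h')).mul_left _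
      exact hx l' h' (by simpa using dvd_sub d (this.trans (hF _ x (y - x))))

lemma hensel {p : ℕ} (hp : p.Prime) (T D r : ℤ) (h1 : (p : ℤ) ∣ r ^ 2 - T * r + D)
    (h2 : ¬ (p : ℤ) ∣ 2 * r - T) (N : ℕ) :
    ∃ x : ℤ, (p : ℤ) ^ (N + 1) ∣ x ^ 2 - T * x + D ∧ (p : ℤ) ∣ x - r := by
  induction N with
  | zero => exact ⟨r, by simpa using h1, by simp⟩
  | succ N ih =>
    obtain ⟨x, ⟨e, he⟩, hx⟩ := ih
    have n : ¬ (p : ℤ) ∣ 2 * x - T := fun d => h2 (by
      have := dvd_sub d (hx.mul_left 2)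
      rwa [show 2 * x - T - 2 * (x - r) = 2 * r - T by ring] at this)
    obtain ⟨u, v, h⟩ := (Nat.prime_iff_prime_int.1 hp).irreducible.coprime_iff_not_dvd.2 n
    refine ⟨x - (p : ℤ) ^ (N + 1) * (e * v), ⟨e * u + (p : ℤ) ^ N * (e * v) ^ 2, ?_⟩, ?_⟩
    · linear_combination he - (p : ℤ) ^ (N + 1) * e * h
    · have := dvd_sub hx ((dvd_pow_self (p : ℤ) (Nat.succ_ne_zero N)).mul_right (e * v))
      rwa [show x - r - (p : ℤ) ^ N.succ * (e * v) = x - (p : ℤ) ^ (N + 1) * (e * v) - r by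
        rw [Nat.succ_eq_add_one]; ring] at this

end Pool.Agent.Lib.MP_9177b7_ag.EQ.Dens
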