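import Pool.Agent.Lib.MP_9177b7_ag.EQ.StN

/-!
Few special points are close to the graph of a rational matrix: small isogeny degree.
-/

open UpperHalfPlane Finset Filter Topology
open scoped MatrixGroups

noncomputable section

namespace Pool.Agent.Lib.MP_9177b7_ag.EQ

open Pool.Agent.Lib.MP_9177b7_ag.CM

namespace ES

lemma dv_mul_left {a : ℤ} {X : M2} (h : Dv a X) (Y : M2) : Dv a (Y * X) := fun i j => by
  rw [Matrix.mul_apply]
  exact dvd_sum fun c _ => (h c j).mul_left _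

lemma dv_mul_right {a : ℤ} {X : M2} (h : Dv a X) (Y : M2) : Dv a (X * Y) := fun i j => by
  rw [Matrix.mul_apply]
  exact dvd_sum fun c _ => (h i c).mul_right _

lemma dv_sub {a : ℤ} {X Y : M2} (h : Dv a X) (h' : Dv a Y) : Dv a (X - Y) := fun i j =>
  (h i j).sub (h' i j)

lemma dv_smul (a : ℤ) (X : M2) : Dv a (a • X) := fun _ _ => Dvd.intro _ rfl

lemma sc_eq (b : ℤ) : sc b = !![b, 0; 0, b] := by
  ext i j
  fin_cases i <;> fin_cases j <;> simp [sc, -zsmul_eq_mul]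

lemma dv_adj {a b : ℤ} {X Y : M2} (h : Dv a (X - Y)) :
    Dv a ((sc b + X).adjugate - (sc b + Y).adjugate) := by
  intro i j
  have h00 := h 0 0
  have h01 := (h 0 1).neg_right
  have h10 := (h 1 0).neg_right
  have h11 := h 1 1
  fin_cases i <;> fin_cases j <;> simp [Matrix.adjugate_fin_two, sc_eq] at *
  · exact h11
  · rwa [neg_add_eq_sub]
  · rwa [neg_add_eq_sub]
  · exact h00

lemma cnd_congr {B p N : ℕ} {b : ℤ} {M W W' : M2} (h : Dv (B * p ^ N : ℕ) (W - W'))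
    (h' : Cnd B b p N M W) : Cnd B b p N M W' := by
  have h1 : Dv B (W - W') := fun i j => Dvd.dvd.trans ⟨(p : ℤ) ^ N, by push_cast; ring⟩ (h i j)
  have h2 : Dv ((p : ℤ) ^ N) (W - W') := fun i j =>
    Dvd.dvd.trans ⟨(B : ℤ), by push_cast; ring⟩ (h i j)
  constructor
  · have := dv_sub h'.1 (dv_mul_left (dv_adj (b := b) h1) M)
    rwa [Matrix.mul_sub, sub_sub_cancel] at this
  · have := dv_sub h'.2 (dv_sub (dv_mul_right h2 M) (dv_mul_left h2 M))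
    convert this using 1
    noncomm_ring

open Classical in
lemma per_cnd (B p N : ℕ) (b : ℤ) (M : M2) :
    Per (B * p ^ N) fun W => if Cnd B b p N M W then 1 else 0 := by
  refine ⟨fun g => by dsimp only; split_ifs <;> simp,
    fun g g' h => if_congr ⟨cnd_congr h, cnd_congr ?_⟩ rfl rfl⟩
  intro i j
  have := (h i j).neg_right
  rwa [Matrix.sub_apply, neg_sub] at this

lemma det_sc {t n : ℤ} {f : ℕ} {W : M2} (hW : W ∈ WW t n f) (b : ℤ) :
    (sc b + W).det = b ^ 2 + b * (f * t) + (f : ℤ) ^ 2 * n := by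
  rw [← hW.1, ← hW.2.1]
  simp [Matrix.det_fin_two, Matrix.trace_fin_two, sc_eq]
  ring

lemma dv_cont0 (M : M2) : Dv (cont0 M) M := by
  intro i j
  have h1 : ((cont0 M : ℕ) : ℤ) ∣ Int.gcd (M 0 0) (M 0 1) := Int.gcd_dvd_left _ _
  have h2 : ((cont0 M : ℕ) : ℤ) ∣ Int.gcd (M 1 0) (M 1 1) := Int.gcd_dvd_right _ _
  fin_cases i <;> fin_cases j
  · exact h1.trans (Int.gcd_dvd_left _ _)
  · exact h1.trans (Int.gcd_dvd_right _ _)
  · exact h2.trans (Int.gcd_dvd_left _ _)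
  · exact h2.trans (Int.gcd_dvd_right _ _)

lemma dvd_of_cont {d a b : ℤ} {W : M2} (hW : cont W = 1) (h : Dv d (a • (sc b + W))) : d ∣ a := by
  have h01 : d ∣ a * W 0 1 := by simpa [sc_eq, -zsmul_eq_mul] using h 0 1
  have h10 : d ∣ a * W 1 0 := by simpa [sc_eq, -zsmul_eq_mul] using h 1 0
  have h2 : d ∣ a * (W 0 0 - W 1 1) := by
    have := (h 0 0).sub (h 1 1)
    simp [sc_eq, -zsmul_eq_mul] at this
    exact this.trans (dvd_of_eq (by ring))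
  have e1 := Int.gcd_eq_gcd_ab (W 0 1) (W 1 0)
  have e2 := Int.gcd_eq_gcd_ab (Int.gcd (W 0 1) (W 1 0) : ℤ) (W 0 0 - W 1 1)
  rw [show Int.gcd (Int.gcd (W 0 1) (W 1 0) : ℤ) (W 0 0 - W 1 1) = 1 from hW] at e2
  have h3 : d ∣ a * Int.gcd (W 0 1) (W 1 0) := by
    rw [e1, mul_add, ← mul_assoc, ← mul_assoc]
    exact (h01.mul_right _).add (h10.mul_right _)
  have e3 := congrArg (a * ·) e2
  simp only [Nat.cast_one, mul_one, mul_add, ← mul_assoc] at e3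
  rw [e3]
  exact (h3.mul_right _).add (h2.mul_right _)

lemma bad_M (hw : WStmt) {t n : ℤ} (hD : t ^ 2 - 4 * n < 0) {γ : M2} (hγ : γ.det ≠ 0) (R : ℝ) :
    ∃ r R₁ : ℝ, 0 < r ∧ 0 < R₁ ∧ ∀ (f p N : ℕ) (B b : ℤ), 1 ≤ f → 0 < B →
      ∀ W ∈ BadW t n f B b p N γ R, W ∈ WW t n f ∧ dist (rt W) I ≤ r ∧ B ∣ (sc b + W).det ∧
        ∃ M : M2, M.det = γ.det * B ∧ Bdd M (R₁ * Real.sqrt |((γ.det * B : ℤ) : ℝ)|) ∧
          cont0 M ∣ γ.det.natAbs ∧ Cnd B b p N M W := by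
  obtain ⟨-, h2, -, -, h5, -, -, -, h9⟩ := hw t n hD
  obtain ⟨Ω, hΩ, h5⟩ := h5 R
  obtain ⟨R', hR', h9⟩ := h9 Ω Ω hΩ hΩ
  obtain ⟨r, hr, hrΩ⟩ := hΩ.isBounded.subset_closedBall_lt 0 I
  have hΓ : 0 ≤ ∑ i, ∑ j, |(γ i j : ℝ)| := by positivity
  refine ⟨r, (∑ i, ∑ j, |(γ i j : ℝ)| + 1) * R', hr, by positivity, ?_⟩
  rintro f p N B b hf hB W ⟨hW, hb, W₂, hW₂, hb₂, ⟨g, h, hg, e1, e2⟩, hp⟩
  have hg0 : g ≠ 0 := by
    rintro rfl
    rw [Matrix.det_zero] at hg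
    omega
  obtain ⟨h3, h4⟩ := (h2 f hf W hW).2.2.2.2.2.2.1 W₂ hW₂ g hg0 e1
  have h6 := h9 g h3 _ (h5 f hf W hW hb) (h4 ▸ h5 f hf W₂ hW₂ hb₂)
  refine ⟨hW, hrΩ (h5 f hf W hW hb), ?_, γ * g, by rw [Matrix.det_mul, hg], ?_, ?_, ?_, ?_⟩
  · rw [← e2, Matrix.det_mul, hg]
    exact Dvd.intro_left _ rfl
  · intro i j
    have h7 : Real.sqrt g.det ≤ Real.sqrt |((γ.det * B : ℤ) : ℝ)| := by
      refine Real.sqrt_le_sqrt ?_
      rw [hg, ← Int.cast_abs, Int.cast_le, abs_mul, abs_of_pos hB]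
      exact le_mul_of_one_le_left hB.le (Int.one_le_abs hγ)
    have h8 : ∑ j, |(γ i j : ℝ)| ≤ ∑ i, ∑ j, |(γ i j : ℝ)| + 1 :=
      (single_le_sum (f := fun i => ∑ j, |(γ i j : ℝ)|) (fun _ _ => by positivity)
        (mem_univ i)).trans (by linarith)
    rw [Matrix.mul_apply, Int.cast_sum]
    simp only [Int.cast_mul (γ i _)]
    refine (abs_sum_le_sum_abs _ _).trans ?_
    calc ∑ c, |(γ i c : ℝ) * g c j| ≤ ∑ c, |(γ i c : ℝ)| * (R' * Real.sqrt g.det) :=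
          sum_le_sum fun c _ => by
            rw [abs_mul]
            exact mul_le_mul_of_nonneg_left (h6 c j) (abs_nonneg _)
      _ ≤ _ := by
          rw [← sum_mul, mul_assoc]
          gcongr
  · rw [← Int.natCast_dvd]
    refine dvd_of_cont (b := b) hW.2.2.2 ?_
    have := dv_mul_left (dv_cont0 (γ * g)) (h * γ.adjugate)
    rwa [Matrix.mul_assoc, ← Matrix.mul_assoc γ.adjugate, Matrix.adjugate_mul, Matrix.smul_mul,
      Matrix.one_mul, Matrix.mul_smul, e2] at this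
  · rw [← e2, Matrix.adjugate_mul_distrib, Matrix.mul_assoc, ← Matrix.mul_assoc g,
      Matrix.mul_adjugate, hg, Matrix.smul_mul, Matrix.mul_smul]
    exact dv_smul _ _
  · have := dv_mul_right hp g
    rwa [Matrix.sub_mul, Matrix.mul_assoc γ W₂, e1, Matrix.mul_assoc, ← Matrix.mul_assoc γ] at this

lemma tsum_fin {s : Set M2} {T : Finset M2} {F : M2 → ℝ} (h1 : ∀ W ∈ T, W ∈ s)
    (h2 : ∀ W ∈ s, W ∉ T → F W = 0) : ∑' W : s, F W = ∑ W ∈ T, F W := by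
  rw [tsum_subtype s F, tsum_eq_sum (s := T)]
  · exact sum_congr rfl fun W hW => Set.indicator_of_mem (h1 W hW) _
  · intro W hW
    by_cases h : W ∈ s
    · rw [Set.indicator_of_mem h, h2 W h hW]
    · exact Set.indicator_of_notMem h _

lemma avg {α κ : Type} {T : Finset α} {S : Finset κ} (hS : S.Nonempty) {φ ψ : α → ℝ}
    {P : κ → α → Prop} [∀ k W, Decidable (P k W)] {δ E : ℝ} (hφ : ∀ W, 0 ≤ φ W)
    (h1 : ∀ k, |∑ W ∈ T, φ W * ((if P k W then 1 else 0) - ψ W)| ≤ E)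
    (h2 : ∀ W ∈ T, (#{k ∈ S | P k W} : ℝ) ≤ δ * #S) :
    ∑ W ∈ T, φ W * ψ W ≤ δ * ∑ W ∈ T, φ W + E := by
  have hc : (0 : ℝ) < #S := Nat.cast_pos.2 hS.card_pos
  refine le_of_mul_le_mul_left ?_ hc
  calc #S * ∑ W ∈ T, φ W * ψ W = ∑ _k ∈ S, ∑ W ∈ T, φ W * ψ W := by rw [sum_const, nsmul_eq_mul]
    _ ≤ ∑ k ∈ S, (∑ W ∈ T, φ W * (if P k W then 1 else 0) + E) := sum_le_sum fun k _ => by
        have := (abs_le.1 (h1 k)).1
        simp only [mul_sub, sum_sub_distrib] at this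
        linarith
    _ = ∑ W ∈ T, φ W * #{k ∈ S | P k W} + #S * E := by
        rw [sum_add_distrib, sum_comm, sum_const, nsmul_eq_mul]
        simp only [← mul_sum, sum_boole]
    _ ≤ ∑ W ∈ T, φ W * (δ * #S) + #S * E := by
        gcongr with W hW
        · exact hφ W
        · exact h2 W hW
    _ = _ := by rw [← sum_mul]; ring

/-- The cut-off function. -/
def cut (r : ℝ) (τ : ℍ) : ℝ := max 0 (r + 1 - dist τ I)

lemma cut_lip (r : ℝ) : LipschitzWith 1 (cut r) := by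
  refine LipschitzWith.const_max (LipschitzWith.of_dist_le_mul fun x y => ?_) 0
  rw [Real.dist_eq, NNReal.coe_one, one_mul, show r + 1 - dist x I - (r + 1 - dist y I) =
    -(dist x I - dist y I) by ring, abs_neg]
  exact abs_dist_sub_le _ _ _

lemma cut_zero {r : ℝ} {τ : ℍ} (h : τ ∉ Metric.closedBall I (r + 1)) : cut r τ = 0 :=
  max_eq_left (by rw [Metric.mem_closedBall, not_le] at h; linarith)

lemma cut_supp (r : ℝ) : HasCompactSupport (cut r) :=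
  HasCompactSupport.intro (isCompact_closedBall I (r + 1)) fun _ => cut_zero

lemma le_sg {m : ℕ} (hm : 1 ≤ m) : m ≤ sg m :=
  single_le_sum (f := fun d => d) (fun _ _ => Nat.zero_le _) (Nat.mem_divisors_self m (by omega))

lemma sg_le (m : ℕ) : sg m ≤ m ^ 2 := by
  refine (sum_le_card_nsmul _ _ m fun d hd => Nat.divisor_le hd).trans ?_
  rw [smul_eq_mul, sq]
  exact Nat.mul_le_mul_right _ (Nat.card_divisors_le_self m)

lemma ev_i {p : ℕ} (hp : p.Prime) {ε : ℝ} (hε : 0 < ε) :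
    ∃ i : ℕ, ((i + 1 : ℕ) + 2) / (p : ℝ) ^ (i + 1) ≤ ε := by
  have hp1 : (1 : ℝ) < p := by exact_mod_cast hp.one_lt
  have h := (tendsto_pow_const_div_const_pow_of_one_lt 1 hp1).const_mul 3
  rw [mul_zero] at h
  obtain ⟨i, hi⟩ := eventually_atTop.1 (h.eventually_le_const hε)
  refine ⟨i, le_trans ?_ (hi (i + 1) i.le_succ)⟩
  rw [← mul_div_assoc, pow_one]
  gcongr
  push_cast
  have : (0 : ℝ) ≤ i := i.cast_nonneg
  linarith

lemma ev_N {p : ℕ} (hp : p.Prime) (i : ℕ) {ε : ℝ} (hε : 0 < ε) :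
    ∃ N₀ : ℕ, ∀ N, N₀ ≤ N → 2 * Real.sqrt ((p : ℝ) ^ (N + i)) / (p : ℝ) ^ N ≤ ε := by
  have hp1 : (1 : ℝ) < p := by exact_mod_cast hp.one_lt
  have hs : 1 < Real.sqrt p := by rwa [Real.lt_sqrt zero_le_one, one_pow]
  have h := (tendsto_pow_atTop_nhds_zero_of_lt_one (inv_nonneg.2 (by linarith))
    (inv_lt_one_of_one_lt₀ hs)).const_mul (2 * Real.sqrt p ^ i)
  rw [mul_zero] at h
  obtain ⟨N₀, hN⟩ := eventually_atTop.1 (h.eventually_le_const hε)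
  refine ⟨N₀, fun N h => le_trans (le_of_eq ?_) (hN N h)⟩
  have e : (p : ℝ) = Real.sqrt p ^ 2 := (Real.sq_sqrt (by linarith)).symm
  generalize Real.sqrt p = s at hs e
  rw [e, ← pow_mul, mul_comm 2 (N + i), pow_mul, Real.sqrt_sq (by positivity), ← pow_mul, inv_pow]
  field_simp
  ring

lemma ev_B (hd : DivStmt) {ε : ℝ} (hε : 0 < ε) :
    ∃ B₀ : ℕ, 1 ≤ B₀ ∧ ∀ B : ℕ, B₀ ≤ B → tau B * Real.sqrt B ≤ ε * sg B := by
  obtain ⟨C, hC, h⟩ := hd.1 1 (1 / 4) (by norm_num)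
  have h1 := ((tendsto_rpow_neg_atTop (y := 1 / 4) (by norm_num)).comp
    tendsto_natCast_atTop_atTop).const_mul C
  rw [mul_zero] at h1
  obtain ⟨B₀, hB⟩ := eventually_atTop.1 (h1.eventually_le_const hε)
  refine ⟨max 1 B₀, le_max_left _ _, fun B hB' => ?_⟩
  have h2 : 1 ≤ B := le_of_max_le_left hB'
  have h3 : (0 : ℝ) < B := Nat.cast_pos.2 h2
  calc tau B * Real.sqrt B ≤ C * (B : ℝ) ^ (1 / 4 : ℝ) * Real.sqrt B := by
        gcongr
        exact (h B h2).1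
    _ = C * (B : ℝ) ^ (-(1 / 4) : ℝ) * B := by
        rw [Real.sqrt_eq_rpow, mul_assoc, mul_assoc, ← Real.rpow_add h3, ← Real.rpow_add_one h3.ne']
        norm_num
    _ ≤ ε * sg B := by
        gcongr
        · exact hB B (le_of_max_le_right hB')
        · exact le_sg h2

lemma ev_f {κ C ε : ℝ} (hκ : 0 < κ) (hε : 0 < ε) :
    ∃ f₀ : ℕ, 1 ≤ f₀ ∧ ∀ f : ℕ, f₀ ≤ f →
      C * (f : ℝ) ^ (1 - κ / 2) ≤ ε * (f : ℝ) ^ (1 - κ / 4) := by
  have h1 := ((tendsto_rpow_neg_atTop (y := κ / 4) (by positivity)).comp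
    tendsto_natCast_atTop_atTop).const_mul C
  rw [mul_zero] at h1
  obtain ⟨f₀, hf⟩ := eventually_atTop.1 (h1.eventually_le_const hε)
  refine ⟨max 1 f₀, le_max_left _ _, fun f hf' => ?_⟩
  have h3 : (0 : ℝ) < f := Nat.cast_pos.2 (le_of_max_le_left hf')
  rw [show 1 - κ / 2 = -(κ / 4) + (1 - κ / 4) by ring, Real.rpow_add h3, ← mul_assoc]
  gcongr
  exact hf f (le_of_max_le_right hf')

open Classical in
/-- The count for one conductor and one ideal. -/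
lemma count {t n : ℤ} {f p N B : ℕ} {b n₀ : ℤ} {r E : ℝ} (he : DensStmt) (hp : p.Prime)
    (hs : SplitMod p t n) (hpf : ¬ p ∣ f) (hB : 1 ≤ B) (hn : n₀ ≠ 0) (i : ℕ) (T 𝓜 Z : Finset M2)
    (hT : ∀ W ∈ T, W ∈ WW t n f ∧ (B : ℤ) ∣ (sc b + W).det)
    (hM : ∀ M ∈ 𝓜, cont0 M ∣ n₀.natAbs)
    (hZ : ∀ W ∈ Z, W ∈ T ∧ dist (rt W) I ≤ r ∧ ∃ M ∈ 𝓜, Cnd B b p N M W)
    (hE : ∀ M, ∀ k : SL(2, ℤ), |∑ W ∈ T, cut r (rt W) *
      ((if Cnd B b p N M (k.1 * W * (k⁻¹).1) then 1 else 0) -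
        if Cnd B b p N M W then 1 else 0)| ≤ E) :
    (#Z : ℝ) ≤ 2 * (n₀ : ℝ) ^ 2 / sg B * (#{M ∈ 𝓜 | (p : ℤ) ^ (i + 1) ∣ M 0 1} +
      #𝓜 * (2 * Real.sqrt ((p : ℝ) ^ (N + i)) / (p : ℝ) ^ N)) * ∑ W ∈ T, cut r (rt W) +
      #𝓜 * E := by
  obtain ⟨S, hS, h⟩ := he B p N hB hp
  have h0 : ∀ W, 0 ≤ cut r (rt W) := fun W => le_max_left _ _
  calc (#Z : ℝ) = ∑ W ∈ Z, 1 := by rw [sum_const, nsmul_eq_mul, mul_one]
    _ ≤ ∑ W ∈ Z, cut r (rt W) * ∑ M ∈ 𝓜, if Cnd B b p N M W then 1 else 0 := by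
        refine sum_le_sum fun W hW => ?_
        obtain ⟨-, h1, M, hM, h2⟩ := hZ W hW
        refine one_le_mul_of_one_le_of_one_le (le_max_of_le_right (by linarith)) ?_
        refine le_trans ?_ (single_le_sum (fun _ _ => by split_ifs <;> norm_num) hM)
        rw [if_pos h2]
    _ ≤ ∑ W ∈ T, cut r (rt W) * ∑ M ∈ 𝓜, if Cnd B b p N M W then 1 else 0 :=
        sum_le_sum_of_subset_of_nonneg (fun W hW => (hZ W hW).1) fun W _ _ =>
          mul_nonneg (h0 W) (sum_nonneg fun _ _ => by split_ifs <;> norm_num)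
    _ = ∑ M ∈ 𝓜, ∑ W ∈ T, cut r (rt W) * if Cnd B b p N M W then 1 else 0 := by
        simp only [mul_sum]
        rw [sum_comm]
    _ ≤ ∑ M ∈ 𝓜, (2 * (n₀ : ℝ) ^ 2 / sg B * ((if (p : ℤ) ^ (i + 1) ∣ M 0 1 then 1 else 0) +
          2 * Real.sqrt ((p : ℝ) ^ (N + i)) / (p : ℝ) ^ N) * ∑ W ∈ T, cut r (rt W) + E) := by
        refine sum_le_sum fun M hM' => avg hS h0 (hE M) fun W hW => ?_
        obtain ⟨h1, h2⟩ := h t n f b n₀ W M hs hpf (hT W hW).1 (hT W hW).2 hn (hM M hM')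
        split_ifs with h3
        · refine h1.trans ?_
          gcongr
          refine le_mul_of_one_le_right (by positivity) (le_add_of_nonneg_right (by positivity))
        · rw [zero_add]
          refine h2 i fun h4 => h3 ?_
          have h5 : ((p ^ (i + 1) : ℕ) : ℤ) ∣ cont M := Int.natCast_dvd_natCast.2 h4
          push_cast at h5
          exact h5.trans ((Int.gcd_dvd_left _ _).trans (Int.gcd_dvd_left _ _))
    _ = _ := by
        rw [sum_add_distrib, ← sum_mul, ← mul_sum, sum_add_distrib, sum_boole, sum_const,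
          sum_const, nsmul_eq_mul, nsmul_eq_mul]

end ES

open ES in
theorem es (hd : DivStmt) (hw : WStmt) (hm : MCStmt) (hj : JLowStmt) (hk : K2Stmt)
    (he : DensStmt) : ESStmt := by
  classical
  obtain ⟨κ, A, hκ, hk⟩ := hk
  refine ⟨κ / (2 * (A + 2)), by positivity, fun t n p γ R ε hF hp hs hγ _ hε => ?_⟩
  obtain ⟨r, R₁, hr, hR₁, hbad⟩ := bad_M hw hF.1 hγ R
  obtain ⟨C₁, hk⟩ := hk t n hF (fun τ => cut r τ) 1 (cut_lip r) (cut_supp r)
  obtain ⟨R₂, hR₂, h4⟩ := (hw t n hF.1).2.2.2.1 _ (isCompact_closedBall I (r + 1))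
  obtain ⟨C₃, hm⟩ := hm R₁ hR₁
  obtain ⟨⟨c₁, hc₁, hj1⟩, hj2⟩ := hj t n hF
  obtain ⟨c₂, hc₂, hj2⟩ := hj2 (κ / 4) (by positivity)
  have hn0 : (0 : ℝ) < |(γ.det : ℝ)| := abs_pos.2 (Int.cast_ne_zero.2 hγ)
  have hn1 : 1 ≤ γ.det.natAbs := Int.natAbs_pos.2 hγ
  have hsg : (0 : ℝ) < sg γ.det.natAbs := Nat.cast_pos.2 (hn1.trans (le_sg hn1))
  have hC₃ : 0 ≤ C₃ := nonneg_of_mul_nonneg_left ((Nat.cast_nonneg _).trans (hm _ hγ).1) hsg
  set D : ℝ := 2 * (γ.det : ℝ) ^ 2 * (C₃ + 1) * ((r + 1) * R₂) *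
    (sg γ.det.natAbs + tau γ.det.natAbs * Real.sqrt |(γ.det : ℝ)|) with hD
  have hD0 : 0 < D := by
    have : 0 < (γ.det : ℝ) ^ 2 := by rw [← sq_abs]; positivity
    positivity
  obtain ⟨i, hi⟩ := ev_i hp (ε := ε / (4 * D)) (by positivity)
  obtain ⟨N₀, hN⟩ := ev_N hp i (ε := ε / (4 * D)) (by positivity)
  refine ⟨N₀, fun N hN' => ?_⟩
  obtain ⟨B₀, hB₀, hB⟩ := ev_B hd (ε := ε / (4 * D)) (by positivity)
  obtain ⟨f₀, hf₀, hf⟩ := ev_f (C := C₃ * sg γ.det.natAbs * (|C₁| * ((p : ℝ) ^ N) ^ A))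
    (ε := ε / 4 * (c₁ * c₂)) hκ (by positivity)
  refine ⟨B₀, f₀, fun f hf' hpf B b hB1 hB2 => ?_⟩
  lift B to ℕ using by omega
  have hB3 : B₀ ≤ B := by exact_mod_cast hB1
  have hB4 : 1 ≤ B := hB₀.trans hB3
  have hB5 : (0 : ℝ) < B := Nat.cast_pos.2 hB4
  have hf1 : 1 ≤ f := hf₀.trans hf'
  have hf2 : (0 : ℝ) < f := Nat.cast_pos.2 hf1
  rcases (BadW t n f B b p N γ R).eq_empty_or_nonempty with h0 | ⟨W₀, hW₀⟩
  · rw [h0, Set.ncard_empty, Nat.cast_zero]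
    positivity
  replace hbad := hbad f p N B b hf1 (by exact_mod_cast hB4)
  have hTf : {W | W ∈ WW t n f ∧ rt W ∈ Metric.closedBall I (r + 1)}.Finite :=
    (hd.2.2.1 (R₂ * f)).subset fun W hW => (h4 f hf1).1 W hW.1 hW.2
  have hZT : BadW t n f B b p N γ R ⊆ {W | W ∈ WW t n f ∧ rt W ∈ Metric.closedBall I (r + 1)} :=
    fun W hW => ⟨(hbad W hW).1, (hbad W hW).2.1.trans (by linarith)⟩
  have hZf := hTf.subset hZT
  have hMf : {M : M2 | M.det = γ.det * B ∧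
      Bdd M (R₁ * Real.sqrt |((γ.det * B : ℤ) : ℝ)|)}.Finite :=
    (hd.2.2.1 _).subset fun M hM => hM.2
  have hm0 : γ.det * B ≠ 0 := mul_ne_zero hγ (by omega)
  obtain ⟨hm1, hm2⟩ := hm _ hm0
  replace hm2 := hm2 p (i + 1) hp
  have hq : 1 ≤ B * p ^ N := Nat.mul_pos hB4 (pow_pos hp.pos N)
  have key := count (r := r) (E := |C₁| * ((B * p ^ N : ℕ) : ℝ) ^ A * (f : ℝ) ^ (1 - κ)) he hp hs
    hpf hB4 hγ i hTf.toFinset (hMf.toFinset.filter fun M => cont0 M ∣ γ.det.natAbs) hZf.toFinset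
    (fun W hW => by
      have h1 := (hTf.mem_toFinset.1 hW).1
      refine ⟨h1, ?_⟩
      rw [det_sc h1, ← det_sc (hbad W₀ hW₀).1]
      exact (hbad W₀ hW₀).2.2.1)
    (fun M hM => (mem_filter.1 hM).2)
    (fun W hW => by
      have h1 := hZf.mem_toFinset.1 hW
      obtain ⟨-, h2, -, M, h3, h5, h6, h7⟩ := hbad W h1
      exact ⟨hTf.mem_toFinset.2 (hZT h1), h2, M,
        mem_filter.2 ⟨hMf.mem_toFinset.2 ⟨h3, h5⟩, h6⟩, h7⟩)
    (fun M k => by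
      have h1 := (hk f _ hf1 hq _ (per_cnd B p N b M)).2 k
      rw [tsum_fin (T := hTf.toFinset) (F := fun W => cut r (rt W) *
        ((if Cnd B b p N M (k.1 * W * (k⁻¹).1) then 1 else 0) - if Cnd B b p N M W then 1 else 0))
        (fun W hW => (hTf.mem_toFinset.1 hW).1) fun W hW hW' => by
          rw [cut_zero fun h => hW' (hTf.mem_toFinset.2 ⟨hW, h⟩), zero_mul]] at h1
      refine h1.trans ?_
      gcongr
      exact le_abs_self _)
  rw [← Set.ncard_eq_toFinset_card _ hZf] at key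
  have e1 : (γ.det * B).natAbs = γ.det.natAbs * B := by rw [Int.natAbs_mul, Int.natAbs_natCast]
  have hs1 : (sg (γ.det * B).natAbs : ℝ) ≤ sg γ.det.natAbs * sg B := by
    rw [e1]; exact_mod_cast (hd.2.2.2.1 _ _).1
  have ht1 : (tau (γ.det * B).natAbs : ℝ) ≤ tau γ.det.natAbs * tau B := by
    rw [e1]; exact_mod_cast (hd.2.2.2.1 _ _).2.1
  have e2 : Real.sqrt |((γ.det * B : ℤ) : ℝ)| = Real.sqrt |(γ.det : ℝ)| * Real.sqrt B := by
    rw [Int.cast_mul, abs_mul, Real.sqrt_mul (abs_nonneg _), Int.cast_natCast, abs_of_pos hB5]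
  have hsB : (0 : ℝ) < sg B := Nat.cast_pos.2 (hB4.trans (le_sg hB4))
  have a1 : (#(hMf.toFinset.filter fun M => cont0 M ∣ γ.det.natAbs) : ℝ) ≤
      C₃ * (sg γ.det.natAbs * sg B) := by
    refine le_trans ?_ (hm1.trans (by gcongr))
    rw [Set.ncard_eq_toFinset_card _ hMf]
    exact_mod_cast card_filter_le _ _
  have a2 : (#{M ∈ hMf.toFinset.filter fun M => cont0 M ∣ γ.det.natAbs |
      (p : ℤ) ^ (i + 1) ∣ M 0 1} : ℝ) ≤ C₃ * (ε / (4 * D) * (sg γ.det.natAbs * sg B) +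
        tau γ.det.natAbs * Real.sqrt |(γ.det : ℝ)| * (ε / (4 * D) * sg B)) := by
    refine le_trans ?_ (hm2.trans ?_)
    · rw [← Set.ncard_coe_finset, Nat.cast_le]
      refine Set.ncard_le_ncard (fun M hM => ?_) (hMf.subset fun M hM => ⟨hM.1, hM.2.1⟩)
      obtain ⟨h1, h2⟩ := mem_filter.1 hM
      have h3 := hMf.mem_toFinset.1 (mem_filter.1 h1).1
      exact ⟨h3.1, h3.2, h2⟩
    · refine mul_le_mul_of_nonneg_left (add_le_add ?_ ?_) hC₃
      · rw [mul_div_right_comm]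
        gcongr
      · rw [e2]
        refine (mul_le_mul_of_nonneg_right ht1 (by positivity)).trans ?_
        rw [mul_mul_mul_comm]
        exact mul_le_mul_of_nonneg_left (hB B hB3) (by positivity)
  have a3 : ∑ W ∈ hTf.toFinset, cut r (rt W) ≤ (r + 1) * R₂ * (JJ t n f).ncard := by
    refine (sum_le_card_nsmul _ _ (r + 1) fun W _ =>
      max_le (by linarith) (by linarith [dist_nonneg (x := rt W) (y := I)])).trans ?_
    rw [nsmul_eq_mul, ← Set.ncard_eq_toFinset_card _ hTf, mul_comm, mul_assoc]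
    gcongr
    exact (h4 f hf1).2.2
  have a4 : (sg B : ℝ) * (B : ℝ) ^ A ≤ (f : ℝ) ^ (κ / 2) := by
    have h1 : (sg B : ℝ) ≤ (B : ℝ) ^ 2 := by exact_mod_cast sg_le B
    calc (sg B : ℝ) * (B : ℝ) ^ A ≤ (B : ℝ) ^ (A + 2) := by rw [pow_add, mul_comm]; gcongr
      _ ≤ ((f : ℝ) ^ (κ / (2 * (A + 2)))) ^ (A + 2) := by gcongr; exact_mod_cast hB2
      _ = _ := by
        rw [← Real.rpow_natCast, ← Real.rpow_mul hf2.le]
        congr 1
        push_cast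
        field_simp
  have a5 : c₁ * c₂ * (f : ℝ) ^ (1 - κ / 4) ≤ (JJ t n f).ncard := by
    refine le_trans ?_ (hj1 f hf1)
    rw [mul_assoc]
    gcongr
    exact hj2 f hf1
  have a6 : C₃ * (sg γ.det.natAbs * sg B) * (|C₁| * ((B * p ^ N : ℕ) : ℝ) ^ A * (f : ℝ) ^ (1 - κ))
      ≤ ε / 4 * (JJ t n f).ncard := by
    calc _ = C₃ * sg γ.det.natAbs * (|C₁| * ((p : ℝ) ^ N) ^ A) *
          (sg B * (B : ℝ) ^ A * (f : ℝ) ^ (1 - κ)) := by push_cast; ring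
      _ ≤ C₃ * sg γ.det.natAbs * (|C₁| * ((p : ℝ) ^ N) ^ A) *
          ((f : ℝ) ^ (κ / 2) * (f : ℝ) ^ (1 - κ)) := by gcongr
      _ ≤ ε / 4 * (c₁ * c₂) * (f : ℝ) ^ (1 - κ / 4) := by
          rw [← Real.rpow_add hf2, show κ / 2 + (1 - κ) = 1 - κ / 2 by ring]
          exact hf f hf'
      _ ≤ _ := by rw [mul_assoc]; gcongr
  have a7 : 0 ≤ ∑ W ∈ hTf.toFinset, cut r (rt W) := sum_nonneg fun _ _ => le_max_left _ _
  refine key.trans (le_trans (add_le_add ?_ (le_trans (by gcongr) a6))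
    (show 3 * ε / 4 * (JJ t n f).ncard + _ ≤ _ from le_of_eq (by ring)))
  calc _ ≤ 2 * (γ.det : ℝ) ^ 2 / sg B * (C₃ * (ε / (4 * D) * (sg γ.det.natAbs * sg B) +
        tau γ.det.natAbs * Real.sqrt |(γ.det : ℝ)| * (ε / (4 * D) * sg B)) +
        C₃ * (sg γ.det.natAbs * sg B) * (ε / (4 * D))) * ((r + 1) * R₂ * (JJ t n f).ncard) := by
        have := hN N hN'
        gcongr
    _ = ε / (4 * D) * (2 * (γ.det : ℝ) ^ 2 * C₃ * ((r + 1) * R₂) * (2 * sg γ.det.natAbs +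
        tau γ.det.natAbs * Real.sqrt |(γ.det : ℝ)|)) * (JJ t n f).ncard := by
        field_simp
        ring
    _ ≤ ε / (4 * D) * (3 * D) * (JJ t n f).ncard := by
        refine mul_le_mul_of_nonneg_right (mul_le_mul_of_nonneg_left ?_ (by positivity))
          (Nat.cast_nonneg _)
        rw [hD]
        calc _ ≤ 2 * (γ.det : ℝ) ^ 2 * (C₃ + 1) * ((r + 1) * R₂) * (3 * (sg γ.det.natAbs +
            tau γ.det.natAbs * Real.sqrt |(γ.det : ℝ)|)) := by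
              gcongr
              · linarith
              · have : 0 ≤ tau γ.det.natAbs * Real.sqrt |(γ.det : ℝ)| := by positivity
                linarith
          _ = _ := by ring
    _ = _ := by field_simp

end Pool.Agent.Lib.MP_9177b7_ag.EQ
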