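import Pool.Agent.Lib.MP_9177b7_ag.EQ.StN

/-!
Translation invariance of the box sums: residue classes in intervals and the count in one class.
-/

open Finset

noncomputable section

namespace Pool.Agent.Lib.MP_9177b7_ag.EQ

namespace K0

/-- The ceiling of `x / Q`. -/
def lo (Q x : ℤ) : ℤ := -((-x) / Q)

lemma lo_le_iff {Q : ℤ} (hQ : 0 < Q) (x a : ℤ) : lo Q x ≤ a ↔ x ≤ a * Q := by
  unfold lo
  rw [neg_le, Int.le_ediv_iff_mul_le hQ]
  constructor <;> intro h <;> linarith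

lemma le_lo_mul {Q : ℤ} (hQ : 0 < Q) (x : ℤ) : x ≤ lo Q x * Q := (lo_le_iff hQ x _).1 le_rfl

lemma lo_mul_lt {Q : ℤ} (hQ : 0 < Q) (x : ℤ) : lo Q x * Q < x + Q := by
  have h : ¬ lo Q x ≤ lo Q x - 1 := by omega
  rw [lo_le_iff hQ] at h
  push Not at h
  linarith

/-- The number of elements of a residue class in an interval. -/
def len (Q r a : ℤ) (L : ℕ) : ℕ := (lo Q (a + L - r) - lo Q (a - r)).toNat

lemma len_cast {Q : ℤ} (hQ : 0 < Q) (r a : ℤ) (L : ℕ) :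
    (len Q r a L : ℤ) = lo Q (a + L - r) - lo Q (a - r) := by
  unfold len
  apply Int.toNat_of_nonneg
  have h : lo Q (a - r) ≤ lo Q (a + L - r) := by
    rw [lo_le_iff hQ]
    have := le_lo_mul hQ (a + L - r)
    have h0 : (0 : ℤ) ≤ L := Int.natCast_nonneg L
    linarith
  linarith

lemma len_mul_lt {Q : ℤ} (hQ : 0 < Q) (r a : ℤ) (L : ℕ) : (len Q r a L : ℤ) * Q < L + Q := by
  rw [len_cast hQ]
  have h1 := lo_mul_lt hQ (a + L - r)
  have h2 := le_lo_mul hQ (a - r)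
  linarith

lemma lt_len_mul {Q : ℤ} (hQ : 0 < Q) (r a : ℤ) (L : ℕ) : (L : ℤ) - Q < (len Q r a L : ℤ) * Q := by
  rw [len_cast hQ]
  have h1 := le_lo_mul hQ (a + L - r)
  have h2 := lo_mul_lt hQ (a - r)
  linarith

lemma len_le {Q : ℤ} (hQ : 0 < Q) (r a : ℤ) (L k : ℕ) (hL : (L : ℤ) ≤ k * Q) : len Q r a L ≤ k := by
  have h1 := len_mul_lt hQ r a L
  have h2 : (len Q r a L : ℤ) * Q < (k + 1) * Q := by linarith
  have h3 := lt_of_mul_lt_mul_right h2 hQ.le
  omega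

lemma len_sub_le {Q : ℤ} (hQ : 0 < Q) (r a a' : ℤ) (L : ℕ) :
    (len Q r a L : ℤ) - len Q r a' L ≤ 1 := by
  have h1 := len_mul_lt hQ r a L
  have h2 := lt_len_mul hQ r a' L
  have h3 : ((len Q r a L : ℤ) - len Q r a' L) * Q < 2 * Q := by linarith
  have h4 := lt_of_mul_lt_mul_right h3 hQ.le
  omega

lemma mem_iff {Q : ℤ} (hQ : 0 < Q) (r a : ℤ) (L : ℕ) (y : ℤ) :
    y ∈ Ico (lo Q (a - r)) (lo Q (a - r) + len Q r a L) ↔ r + Q * y ∈ Ico a (a + L) := by
  rw [len_cast hQ, mem_Ico, mem_Ico, lo_le_iff hQ]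
  have : y < lo Q (a - r) + (lo Q (a + L - r) - lo Q (a - r)) ↔ ¬ lo Q (a + L - r) ≤ y := by omega
  rw [this, lo_le_iff hQ]
  constructor
  · rintro ⟨h1, h2⟩
    push Not at h2
    constructor <;> linarith
  · rintro ⟨h1, h2⟩
    refine ⟨by linarith, ?_⟩
    push Not
    linarith

lemma card_class {Q : ℤ} (hQ : 0 < Q) (r a : ℤ) (L : ℕ) :
    #{x ∈ Ico a (a + L) | Q ∣ x - r} = len Q r a L := by
  have h : {x ∈ Ico a (a + L) | Q ∣ x - r} =
      (Ico (lo Q (a - r)) (lo Q (a - r) + len Q r a L)).image (fun y => r + Q * y) := by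
    ext x
    rw [mem_filter, mem_image]
    constructor
    · rintro ⟨hx, y, hy⟩
      refine ⟨y, (mem_iff hQ r a L y).2 ?_, by linarith⟩
      have : r + Q * y = x := by linarith
      rwa [this]
    · rintro ⟨y, hy, rfl⟩
      exact ⟨(mem_iff hQ r a L y).1 hy, y, by ring⟩
  rw [h, card_image_of_injective, Int.card_Ico]
  · simp
  · intro y y' hy
    have : Q * y = Q * y' := by
      have := hy
      simp only at this
      linarith
    exact mul_left_cancel₀ hQ.ne' this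

/-- The points of the modular hyperbola in a box and in a residue class. -/
def cls (Q : ℤ) (c₁ : ℕ) (m r t a d : ℤ) (L : ℕ) : Finset (ℤ × ℤ) :=
  {w ∈ Ico a (a + L) ×ˢ Ico d (d + L) | Q ∣ w.1 - r ∧ Q ∣ w.2 - t ∧ (c₁ : ℤ) ∣ w.1 * w.2 - m}

lemma card_cls {Q : ℤ} (hQ : 0 < Q) (c₁ : ℕ) (m r t a d : ℤ) (L : ℕ) (u v : ℤ)
    (huv : u * Q + v * c₁ = 1) :
    #(cls Q c₁ m r t a d L) =
      #{w ∈ Ico (lo Q (a - r) + r * u) (lo Q (a - r) + r * u + len Q r a L) ×ˢ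
        Ico (lo Q (d - t) + t * u) (lo Q (d - t) + t * u + len Q t d L) |
          (c₁ : ℤ) ∣ w.1 * w.2 - m * u ^ 2} := by
  symm
  apply card_bij (fun w _ => (r + Q * (w.1 - r * u), t + Q * (w.2 - t * u)))
  · rintro ⟨x, y⟩ hw
    simp only [mem_filter, mem_product] at hw
    obtain ⟨⟨hx, hy⟩, hd⟩ := hw
    simp only [cls, mem_filter, mem_product]
    refine ⟨⟨(mem_iff hQ r a L _).1 ?_, (mem_iff hQ t d L _).1 ?_⟩, ⟨x - r * u, by ring⟩,
      ⟨y - t * u, by ring⟩, ?_⟩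
    · rw [mem_Ico] at hx ⊢
      constructor <;> linarith [hx.1, hx.2]
    · rw [mem_Ico] at hy ⊢
      constructor <;> linarith [hy.1, hy.2]
    · obtain ⟨k, hk⟩ := hd
      have e1 : r + Q * (x - r * u) = Q * x + r * v * c₁ := by linear_combination (-r) * huv
      have e2 : t + Q * (y - t * u) = Q * y + t * v * c₁ := by linear_combination (-t) * huv
      rw [e1, e2]
      refine ⟨Q ^ 2 * k + Q * x * t * v + Q * y * r * v + r * v * t * v * c₁ -
        m * v * (1 + u * Q), ?_⟩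
      linear_combination Q ^ 2 * hk + m * (1 + u * Q) * huv
  · rintro ⟨x, y⟩ _ ⟨x', y'⟩ _ h
    simp only [Prod.mk.injEq] at h
    obtain ⟨h1, h2⟩ := h
    have e1 : Q * x = Q * x' := by linarith
    have e2 : Q * y = Q * y' := by linarith
    rw [mul_left_cancel₀ hQ.ne' e1, mul_left_cancel₀ hQ.ne' e2]
  · rintro ⟨x, y⟩ hw
    simp only [cls, mem_filter, mem_product] at hw
    obtain ⟨⟨hx, hy⟩, ⟨x', hx'⟩, ⟨y', hy'⟩, k, hk⟩ := hw
    have ex : x = r + Q * x' := by linarith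
    have ey : y = t + Q * y' := by linarith
    subst ex ey
    refine ⟨(x' + r * u, y' + t * u), ?_, ?_⟩
    · simp only [mem_filter, mem_product]
      have h1 := (mem_iff hQ r a L _).2 hx
      have h2 := (mem_iff hQ t d L _).2 hy
      rw [mem_Ico] at h1 h2
      refine ⟨⟨?_, ?_⟩, ?_⟩
      · rw [mem_Ico]
        constructor <;> linarith [h1.1, h1.2]
      · rw [mem_Ico]
        constructor <;> linarith [h2.1, h2.2]
      · have e1 : x' + r * u = u * (r + Q * x') + x' * v * c₁ := by linear_combination (-x') * huv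
        have e2 : y' + t * u = u * (t + Q * y') + y' * v * c₁ := by linear_combination (-y') * huv
        rw [e1, e2]
        refine ⟨u ^ 2 * k + u * (r + Q * x') * y' * v + u * (t + Q * y') * x' * v +
          x' * v * y' * v * c₁, ?_⟩
        linear_combination u ^ 2 * hk
    · simp

lemma cls_diff {C e : ℝ}
    (hC : ∀ (c : ℕ) (m a₀ d₀ : ℤ) (L₁ L₂ : ℕ), Squarefree c → IsCoprime m c →
      L₁ ≤ c + 1 → L₂ ≤ c + 1 →
      |(#{w ∈ Ico a₀ (a₀ + L₁) ×ˢ Ico d₀ (d₀ + L₂) | (c : ℤ) ∣ w.1 * w.2 - m} : ℝ) -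
        L₁ * L₂ * Nat.totient c / (c : ℝ) ^ 2| ≤ C * (c : ℝ) ^ e)
    {Q : ℤ} (hQ : 0 < Q) (c₁ : ℕ) (hsf : Squarefree c₁) (m : ℤ) (hm : IsCoprime m c₁)
    (hQc : IsCoprime Q c₁) (r t a a' d : ℤ) (L : ℕ) (hL : (L : ℤ) ≤ c₁ * Q) :
    |(#(cls Q c₁ m r t a d L) : ℝ) - #(cls Q c₁ m r t a' d L)| ≤ 2 * C * (c₁ : ℝ) ^ e + 1 := by
  obtain ⟨u, v, huv⟩ := hQc
  have hu : IsCoprime u (c₁ : ℤ) := ⟨Q, v, by linarith⟩
  have hmu : IsCoprime (m * u ^ 2) (c₁ : ℤ) := hm.mul_left hu.pow_left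
  have l1 := len_le hQ r a L c₁ hL
  have l2 := len_le hQ r a' L c₁ hL
  have l3 := len_le hQ t d L c₁ hL
  have h1 := hC c₁ (m * u ^ 2) (lo Q (a - r) + r * u) (lo Q (d - t) + t * u) (len Q r a L)
    (len Q t d L) hsf hmu (by omega) (by omega)
  have h2 := hC c₁ (m * u ^ 2) (lo Q (a' - r) + r * u) (lo Q (d - t) + t * u) (len Q r a' L)
    (len Q t d L) hsf hmu (by omega) (by omega)
  rw [← card_cls hQ c₁ m r t a d L u v huv] at h1
  rw [← card_cls hQ c₁ m r t a' d L u v huv] at h2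
  have hc : (0 : ℝ) < c₁ := by
    have := hsf.ne_zero
    positivity
  set z : ℝ := (len Q t d L : ℝ) * Nat.totient c₁ / (c₁ : ℝ) ^ 2 with hz
  have hz0 : 0 ≤ z := by positivity
  have hz1 : z ≤ 1 := by
    rw [hz, div_le_one (by positivity), sq]
    have a1 : (len Q t d L : ℝ) ≤ c₁ := by exact_mod_cast l3
    have a2 : (Nat.totient c₁ : ℝ) ≤ c₁ := by exact_mod_cast Nat.totient_le c₁
    gcongr
  have d1 : (len Q r a L : ℝ) - len Q r a' L ≤ 1 := by exact_mod_cast len_sub_le hQ r a a' L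
  have d2 : (len Q r a' L : ℝ) - len Q r a L ≤ 1 := by exact_mod_cast len_sub_le hQ r a' a L
  have e1 : (len Q r a L : ℝ) * len Q t d L * Nat.totient c₁ / (c₁ : ℝ) ^ 2 = len Q r a L * z := by
    rw [hz]; ring
  have e2 : (len Q r a' L : ℝ) * len Q t d L * Nat.totient c₁ / (c₁ : ℝ) ^ 2 = len Q r a' L * z := by
    rw [hz]; ring
  rw [e1] at h1
  rw [e2] at h2
  rw [abs_le] at h1 h2 ⊢
  constructor <;> nlinarith [h1.1, h1.2, h2.1, h2.2]

end K0

end Pool.Agent.Lib.MP_9177b7_ag.EQ
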