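import Pool.Agent.Lib.MP_9177b7_ag.EQ.K0a

/-!
Translation invariance of the box sums: decomposition into residue classes.
-/

open Finset

noncomputable section

namespace Pool.Agent.Lib.MP_9177b7_ag.EQ

namespace K0

/-- The admissible residue classes. -/
def adm (c₀ q : ℕ) (m : ℤ) : Finset (ℤ × ℤ) :=
  {z ∈ Ico (0 : ℤ) (c₀ * q : ℕ) ×ˢ Ico (0 : ℤ) (c₀ * q : ℕ) | (c₀ : ℤ) ∣ z.1 * z.2 - m}

lemma card_class_le {e : ℤ} (he : 0 < e) (r : ℤ) (k L : ℕ) (hL : (L : ℤ) ≤ k * e) :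
    #{x ∈ Ico (0 : ℤ) L | e ∣ x - r} ≤ k := by
  have h := card_class he r 0 L
  rw [zero_add] at h
  rw [h]
  exact len_le he r 0 L k hL

lemma card_lin (c₀ q : ℕ) (hc : 0 < c₀) (m r : ℤ) :
    #{t ∈ Ico (0 : ℤ) (c₀ * q : ℕ) | (c₀ : ℤ) ∣ r * t - m} ≤ q * Int.gcd r c₀ := by
  rcases eq_empty_or_nonempty {t ∈ Ico (0 : ℤ) (c₀ * q : ℕ) | (c₀ : ℤ) ∣ r * t - m} with h | ⟨t₀, ht₀⟩
  · rw [h]; simp
  · rw [mem_filter] at ht₀
    have hg : 0 < Int.gcd r c₀ := Int.gcd_pos_of_ne_zero_right _ (by exact_mod_cast hc.ne')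
    obtain ⟨r', c', hco, hr, hcc⟩ := Int.exists_gcd_one hg
    set g : ℕ := Int.gcd r c₀ with hgd
    have hg' : (0 : ℤ) < g := by exact_mod_cast hg
    have hc' : 0 < c' := by
      have h0 : (0 : ℤ) < c' * g := by rw [← hcc]; exact_mod_cast hc
      exact (mul_pos_iff_of_pos_right hg').1 h0
    refine le_trans (card_le_card ?_) (card_class_le hc' t₀ (q * g) (c₀ * q) ?_)
    · intro t ht
      rw [mem_filter] at ht ⊢
      refine ⟨ht.1, ?_⟩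
      have h1 : (c₀ : ℤ) ∣ r * (t - t₀) := by
        have := dvd_sub ht.2 ht₀.2
        have e : r * t - m - (r * t₀ - m) = r * (t - t₀) := by ring
        rwa [e] at this
      have h2 : c' * g ∣ (r' * (t - t₀)) * g := by
        have e : (r' * (t - t₀)) * g = r * (t - t₀) := by rw [hr]; ring
        rw [e, ← hcc]
        exact h1
      have h3 : c' ∣ r' * (t - t₀) := (mul_dvd_mul_iff_right hg'.ne').1 h2
      have h4 : IsCoprime c' r' := (Int.isCoprime_iff_gcd_eq_one.2 hco).symm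
      exact h4.dvd_of_dvd_mul_left h3
    · push_cast
      rw [hcc]
      apply le_of_eq
      ring

lemma sum_gcd (c₀ q : ℕ) (hc : 0 < c₀) :
    ∑ r ∈ Ico (0 : ℤ) (c₀ * q : ℕ), Int.gcd r c₀ ≤ c₀ * q * tau c₀ := by
  have h1 : ∀ r ∈ Ico (0 : ℤ) (c₀ * q : ℕ), Int.gcd r c₀ ≤
      ∑ g ∈ c₀.divisors, if (g : ℤ) ∣ r - 0 then g else 0 := by
    intro r _
    have hm : Int.gcd r c₀ ∈ c₀.divisors := by
      rw [Nat.mem_divisors]
      exact ⟨by exact_mod_cast Int.gcd_dvd_right r c₀, hc.ne'⟩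
    have := single_le_sum (f := fun g : ℕ => if (g : ℤ) ∣ r - 0 then g else 0)
      (fun _ _ => Nat.zero_le _) hm
    rwa [if_pos (by rw [sub_zero]; exact Int.gcd_dvd_left r c₀)] at this
  refine le_trans (sum_le_sum h1) ?_
  rw [sum_comm, tau, mul_comm (c₀ * q), ← smul_eq_mul (#c₀.divisors)]
  apply sum_le_card_nsmul
  intro g hg
  rw [← sum_filter, sum_const, smul_eq_mul]
  obtain ⟨k, hk⟩ := Nat.dvd_of_mem_divisors hg
  have hg0 : 0 < g := Nat.pos_of_mem_divisors hg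
  have := card_class_le (e := g) (by exact_mod_cast hg0) 0 (k * q) (c₀ * q)
    (by rw [hk]; push_cast; apply le_of_eq; ring)
  calc _ ≤ k * q * g := Nat.mul_le_mul_right _ this
    _ = c₀ * q := by rw [hk]; ring

lemma card_adm (c₀ q : ℕ) (hc : 0 < c₀) (m : ℤ) : #(adm c₀ q m) ≤ q ^ 2 * c₀ * tau c₀ := by
  have h : #(adm c₀ q m) = ∑ r ∈ Ico (0 : ℤ) (c₀ * q : ℕ),
      #{t ∈ Ico (0 : ℤ) (c₀ * q : ℕ) | (c₀ : ℤ) ∣ r * t - m} := by
    rw [adm, card_filter, sum_product]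
    apply sum_congr rfl
    intro r _
    rw [card_filter]
  rw [h]
  calc _ ≤ ∑ r ∈ Ico (0 : ℤ) (c₀ * q : ℕ), q * Int.gcd r c₀ :=
        sum_le_sum fun r _ => card_lin c₀ q hc m r
    _ = q * ∑ r ∈ Ico (0 : ℤ) (c₀ * q : ℕ), Int.gcd r c₀ := by rw [mul_sum]
    _ ≤ q * (c₀ * q * tau c₀) := Nat.mul_le_mul_left _ (sum_gcd c₀ q hc)
    _ = q ^ 2 * c₀ * tau c₀ := by ring

/-- The matrix attached to a point of the hyperbola. -/
def mat (m c : ℤ) (w : ℤ × ℤ) : M2 := !![w.1, (w.1 * w.2 - m) / c; c, w.2]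

lemma per_mat {q : ℕ} {ψ : M2 → ℝ} (hψ : Per q ψ) (m c : ℤ) (c₀ c₁ : ℕ) (hc : c ≠ 0)
    (hcc : c.natAbs = c₀ * c₁) (hco : IsCoprime ((c₀ * q : ℕ) : ℤ) c₁) (w w' : ℤ × ℤ)
    (h1 : ((c₀ * q : ℕ) : ℤ) ∣ w.1 - w'.1) (h2 : ((c₀ * q : ℕ) : ℤ) ∣ w.2 - w'.2)
    (hw : c ∣ w.1 * w.2 - m) (hw' : c ∣ w'.1 * w'.2 - m) : ψ (mat m c w) = ψ (mat m c w') := by
  apply hψ.2
  have hq : (q : ℤ) ∣ ((c₀ * q : ℕ) : ℤ) := by push_cast; exact Dvd.intro_left _ rfl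
  obtain ⟨k, hk⟩ := hw
  obtain ⟨k', hk'⟩ := hw'
  have hcabs : ((c₀ * c₁ : ℕ) : ℤ) = |c| := by rw [← hcc]; simp
  have hb : (q : ℤ) ∣ k - k' := by
    have a1 : ((c₀ * q : ℕ) : ℤ) ∣ c * (k - k') := by
      have e : c * (k - k') = (w.1 - w'.1) * w.2 + w'.1 * (w.2 - w'.2) := by
        linear_combination hk' - hk
      rw [e]
      exact dvd_add (h1.mul_right _) (h2.mul_left _)
    have a2 : (c₁ : ℤ) ∣ c * (k - k') := by
      apply Dvd.dvd.mul_right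
      rw [← dvd_abs, ← hcabs]
      push_cast
      exact Dvd.intro_left _ rfl
    have a3 := hco.mul_dvd a1 a2
    have a4 : |c| * q ∣ |c| * (k - k') := by
      have e : ((c₀ * q : ℕ) : ℤ) * c₁ = |c| * q := by rw [← hcabs]; push_cast; ring
      rw [e] at a3
      rcases abs_choice c with h | h
      · rwa [h] at a3 ⊢
      · rw [h] at a3 ⊢
        have e2 : -c * (k - k') = -(c * (k - k')) := by ring
        rw [e2, dvd_neg]
        exact a3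
    exact (mul_dvd_mul_iff_left (abs_pos.2 hc).ne').1 a4
  intro i j
  fin_cases i <;> fin_cases j
  · simpa [mat] using hq.trans h1
  · simp only [mat, hk, hk', Int.mul_ediv_cancel_left _ hc]
    simpa using hb
  · simp [mat]
  · simpa [mat] using hq.trans h2

open Classical in
/-- The common value of `ψ` on a residue class. -/
def val (ψ : M2 → ℝ) (m c Q : ℤ) (z : ℤ × ℤ) : ℝ :=
  if h : ∃ w : ℤ × ℤ, Q ∣ w.1 - z.1 ∧ Q ∣ w.2 - z.2 ∧ c ∣ w.1 * w.2 - m then ψ (mat m c h.choose)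
  else 0

lemma abs_val_le {q : ℕ} {ψ : M2 → ℝ} (hψ : Per q ψ) (m c Q : ℤ) (z : ℤ × ℤ) :
    |val ψ m c Q z| ≤ 1 := by
  unfold val
  split_ifs
  · exact hψ.1 _
  · simp

lemma box_eq {q : ℕ} (hq : 0 < q) {ψ : M2 → ℝ} (hψ : Per q ψ) (m c : ℤ) (c₀ c₁ : ℕ) (hc : c ≠ 0)
    (hcc : c.natAbs = c₀ * c₁) (hco : IsCoprime ((c₀ * q : ℕ) : ℤ) c₁) (a d : ℤ) (L : ℕ) :
    boxSum ψ m c a d L = ∑ z ∈ adm c₀ q m,
      val ψ m c (c₀ * q : ℕ) z * #(cls (c₀ * q : ℕ) c₁ m z.1 z.2 a d L) := by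
  have hc0 : 0 < c₀ := by
    rcases Nat.eq_zero_or_pos c₀ with h | h
    · rw [h, zero_mul, Int.natAbs_eq_zero] at hcc
      exact absurd hcc hc
    · exact h
  set Q : ℤ := ((c₀ * q : ℕ) : ℤ) with hQd
  have hQ : 0 < Q := by rw [hQd]; positivity
  have hcabs : ((c₀ * c₁ : ℕ) : ℤ) = |c| := by rw [← hcc]; simp
  have hc0Q : (c₀ : ℤ) ∣ Q := by rw [hQd]; push_cast; exact Dvd.intro _ rfl
  have hc0c : (c₀ : ℤ) ∣ c := by
    rw [← dvd_abs, ← hcabs]; push_cast; exact Dvd.intro _ rfl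
  have hc1c : (c₁ : ℤ) ∣ c := by
    rw [← dvd_abs, ← hcabs]; push_cast; exact Dvd.intro_left _ rfl
  have hco01 : IsCoprime (c₀ : ℤ) c₁ := hco.of_isCoprime_of_dvd_left hc0Q
  have key : ∀ w z : ℤ × ℤ, Q ∣ w.1 - z.1 → Q ∣ w.2 - z.2 →
      (c₀ : ℤ) ∣ (w.1 * w.2 - m) - (z.1 * z.2 - m) := by
    intro w z h1 h2
    have e : (w.1 * w.2 - m) - (z.1 * z.2 - m) = (w.1 - z.1) * w.2 + z.1 * (w.2 - z.2) := by ring
    rw [e]
    exact dvd_add ((hc0Q.trans h1).mul_right _) ((hc0Q.trans h2).mul_left _)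
  have hmod : ∀ x : ℤ, Q ∣ x - x % Q := fun x => Int.dvd_self_sub_emod
  unfold boxSum
  rw [← sum_fiberwise_of_maps_to (t := adm c₀ q m) (g := fun w : ℤ × ℤ => (w.1 % Q, w.2 % Q))]
  · apply sum_congr rfl
    intro z hz
    rw [adm, mem_filter, mem_product, mem_Ico, mem_Ico] at hz
    have hset : ({w ∈ Ico a (a + L) ×ˢ Ico d (d + L) | c ∣ w.1 * w.2 - m}.filter
        fun w : ℤ × ℤ => (w.1 % Q, w.2 % Q) = z) = cls Q c₁ m z.1 z.2 a d L := by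
      ext w
      rw [cls, mem_filter, mem_filter, mem_filter, and_assoc]
      refine and_congr_right fun _ => ?_
      constructor
      · rintro ⟨h1, rfl⟩
        exact ⟨hmod _, hmod _, hc1c.trans h1⟩
      · rintro ⟨h1, h2, h3⟩
        refine ⟨?_, ?_⟩
        · have h4 : (c₀ : ℤ) ∣ w.1 * w.2 - m := by
            have := dvd_add (key w z h1 h2) hz.2
            simpa using this
          rw [← abs_dvd, ← hcabs]
          push_cast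
          exact hco01.mul_dvd h4 h3
        · have e1 : w.1 % Q = z.1 := by
            rw [← Int.emod_eq_of_lt hz.1.1.1 hz.1.1.2]
            exact Int.emod_eq_emod_iff_emod_sub_eq_zero.2 (Int.emod_eq_zero_of_dvd h1)
          have e2 : w.2 % Q = z.2 := by
            rw [← Int.emod_eq_of_lt hz.1.2.1 hz.1.2.2]
            exact Int.emod_eq_emod_iff_emod_sub_eq_zero.2 (Int.emod_eq_zero_of_dvd h2)
          rw [e1, e2]
    rw [hset, mul_comm, ← nsmul_eq_mul, ← sum_const]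
    apply sum_congr rfl
    intro w hw
    rw [← hset, mem_filter, mem_filter] at hw
    obtain ⟨⟨_, hw2⟩, hw3⟩ := hw
    have h1 : Q ∣ w.1 - z.1 := by rw [← hw3]; exact hmod _
    have h2 : Q ∣ w.2 - z.2 := by rw [← hw3]; exact hmod _
    have hex : ∃ w : ℤ × ℤ, Q ∣ w.1 - z.1 ∧ Q ∣ w.2 - z.2 ∧ c ∣ w.1 * w.2 - m := ⟨w, h1, h2, hw2⟩
    rw [val, dif_pos hex]
    obtain ⟨b1, b2, b3⟩ := hex.choose_spec
    refine per_mat hψ m c c₀ c₁ hc hcc hco w hex.choose ?_ ?_ hw2 b3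
    · have := dvd_sub h1 b1
      rwa [sub_sub_sub_cancel_right] at this
    · have := dvd_sub h2 b2
      rwa [sub_sub_sub_cancel_right] at this
  · intro w hw
    rw [mem_filter] at hw
    rw [adm, mem_filter, mem_product, mem_Ico, mem_Ico]
    refine ⟨⟨⟨Int.emod_nonneg _ hQ.ne', Int.emod_lt_of_pos _ hQ⟩,
      ⟨Int.emod_nonneg _ hQ.ne', Int.emod_lt_of_pos _ hQ⟩⟩, ?_⟩
    have := dvd_sub (hc0c.trans hw.2) (key w (w.1 % Q, w.2 % Q) (hmod _) (hmod _))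
    simpa using this

lemma box_diff {C e : ℝ}
    (hC : ∀ (c : ℕ) (m a₀ d₀ : ℤ) (L₁ L₂ : ℕ), Squarefree c → IsCoprime m c →
      L₁ ≤ c + 1 → L₂ ≤ c + 1 →
      |(#{w ∈ Ico a₀ (a₀ + L₁) ×ˢ Ico d₀ (d₀ + L₂) | (c : ℤ) ∣ w.1 * w.2 - m} : ℝ) -
        L₁ * L₂ * Nat.totient c / (c : ℝ) ^ 2| ≤ C * (c : ℝ) ^ e) (hC0 : 0 ≤ C)
    {q : ℕ} (hq : 0 < q) {ψ : M2 → ℝ} (hψ : Per q ψ) (m c : ℤ) (c₀ c₁ : ℕ) (hc : c ≠ 0)
    (hcc : c.natAbs = c₀ * c₁) (hco : IsCoprime ((c₀ * q : ℕ) : ℤ) c₁) (hsf : Squarefree c₁)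
    (hm : IsCoprime m c₁) (a a' d : ℤ) (L : ℕ) (hL : L ≤ c.natAbs) :
    |boxSum ψ m c a d L - boxSum ψ m c a' d L| ≤
      (q : ℝ) ^ 2 * c₀ * tau c₀ * (2 * C * (c₁ : ℝ) ^ e + 1) := by
  have hc0 : 0 < c₀ := by
    rcases Nat.eq_zero_or_pos c₀ with h | h
    · rw [h, zero_mul, Int.natAbs_eq_zero] at hcc
      exact absurd hcc hc
    · exact h
  have hQ : (0 : ℤ) < ((c₀ * q : ℕ) : ℤ) := by positivity
  have hL' : (L : ℤ) ≤ c₁ * ((c₀ * q : ℕ) : ℤ) := by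
    have : L ≤ c₁ * (c₀ * q) := by
      calc L ≤ c₀ * c₁ := hcc ▸ hL
        _ = c₁ * (c₀ * 1) := by ring
        _ ≤ c₁ * (c₀ * q) := by gcongr; exact hq
    exact_mod_cast this
  rw [box_eq hq hψ m c c₀ c₁ hc hcc hco, box_eq hq hψ m c c₀ c₁ hc hcc hco, ← sum_sub_distrib]
  refine le_trans (abs_sum_le_sum_abs _ _) ?_
  refine le_trans (sum_le_card_nsmul _ _ (2 * C * (c₁ : ℝ) ^ e + 1) ?_) ?_
  · intro z _
    rw [← mul_sub, abs_mul]
    have h1 := abs_val_le hψ m c (c₀ * q : ℕ) z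
    have h2 := cls_diff hC hQ c₁ hsf m hm hco z.1 z.2 a a' d L hL'
    calc _ ≤ 1 * (2 * C * (c₁ : ℝ) ^ e + 1) := mul_le_mul h1 h2 (abs_nonneg _) zero_le_one
      _ = _ := one_mul _
  · rw [nsmul_eq_mul]
    have h : (#(adm c₀ q m) : ℝ) ≤ (q : ℝ) ^ 2 * c₀ * tau c₀ := by
      exact_mod_cast card_adm c₀ q hc0 m
    gcongr

end K0

end Pool.Agent.Lib.MP_9177b7_ag.EQ
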