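import Pool.Agent.Lib.MP_9177b7_ag.EQ.Rho2

/-!
Roots of the minimal polynomial of `ω`: the average over primes.
-/

open Finset

noncomputable section

namespace Pool.Agent.Lib.MP_9177b7_ag.EQ

namespace Rho

theorem geo {δ : ℝ} (h0 : 0 < δ) (h2 : δ ≤ 2) (J : ℕ) :
    ∑ j ∈ range J, ((2 : ℝ) ^ (-δ)) ^ j ≤ 4 / δ := by
  have hl1 := Real.log_two_gt_d9
  have hl2 := Real.log_two_lt_d9
  have hq0 : 0 < (2 : ℝ) ^ (-δ) := by positivity
  have hq : (2 : ℝ) ^ (-δ) ≤ 1 - δ / 4 := by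
    rw [Real.rpow_neg (by norm_num), Real.rpow_def_of_pos (by norm_num)]
    have h1 := Real.add_one_le_exp (Real.log 2 * δ)
    have h3 : 0 < Real.log 2 * δ + 1 := by positivity
    refine (inv_anti₀ h3 h1).trans ?_
    rw [inv_eq_one_div, div_le_iff₀ h3]
    have : 0 ≤ δ * (4 * Real.log 2 - 1 - δ * Real.log 2) := mul_nonneg h0.le (by nlinarith)
    nlinarith
  have hq1 : (2 : ℝ) ^ (-δ) < 1 := by linarith
  refine ((summable_geometric_of_lt_one hq0.le hq1).sum_le_tsum _ fun _ _ => by positivity).trans ?_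
  rw [tsum_geometric_of_lt_one hq0.le hq1, ← inv_div]
  exact inv_anti₀ (by positivity) (by linarith)

theorem dir {ρ : ℕ → ℕ} {K : ℕ} (hK : ∀ T : ℕ, ∑ m ∈ Icc 1 T, ρ m ≤ K * T) {δ : ℝ} (h0 : 0 < δ)
    (h2 : δ ≤ 2) (M : Finset ℕ) (hM : ∀ m ∈ M, 1 ≤ m) :
    ∑ m ∈ M, (ρ m : ℝ) * (m : ℝ) ^ (-(1 + δ)) ≤ 8 * K / δ := by
  rw [← sum_fiberwise_of_maps_to (g := Nat.log 2) (t := range (M.sup (Nat.log 2) + 1))
    (fun m hm => mem_range.2 (Nat.lt_succ_of_le (le_sup (f := Nat.log 2) hm)))]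
  have hj : ∀ j : ℕ, ∑ m ∈ M with Nat.log 2 m = j, (ρ m : ℝ) * (m : ℝ) ^ (-(1 + δ)) ≤
      2 * K * ((2 : ℝ) ^ (-δ)) ^ j := by
    intro j
    have hp : (0 : ℝ) < 2 ^ j := by positivity
    calc ∑ m ∈ M with Nat.log 2 m = j, (ρ m : ℝ) * (m : ℝ) ^ (-(1 + δ))
        ≤ ∑ m ∈ M with Nat.log 2 m = j, (ρ m : ℝ) * ((2 : ℝ) ^ j) ^ (-(1 + δ)) := by
          refine sum_le_sum fun m hm => mul_le_mul_of_nonneg_left ?_ (Nat.cast_nonneg _)
          rw [mem_filter] at hm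
          have h1 : 2 ^ j ≤ m := by
            rw [← hm.2]; exact Nat.pow_log_le_self 2 (by have := hM m hm.1; omega)
          exact Real.rpow_le_rpow_of_nonpos hp (by exact_mod_cast h1) (by linarith)
      _ ≤ ∑ m ∈ Icc 1 (2 ^ (j + 1)), (ρ m : ℝ) * ((2 : ℝ) ^ j) ^ (-(1 + δ)) := by
          refine sum_le_sum_of_subset_of_nonneg (fun m hm => ?_) fun _ _ _ => by positivity
          rw [mem_filter] at hm
          refine mem_Icc.2 ⟨hM m hm.1, ?_⟩
          rw [← hm.2]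
          exact (Nat.lt_pow_succ_log_self (by norm_num) m).le
      _ ≤ (K * 2 ^ (j + 1) : ℝ) * ((2 : ℝ) ^ j) ^ (-(1 + δ)) := by
          rw [← sum_mul]
          refine mul_le_mul_of_nonneg_right ?_ (by positivity)
          exact_mod_cast hK (2 ^ (j + 1))
      _ = 2 * K * ((2 : ℝ) ^ (-δ)) ^ j := by
          rw [neg_add, Real.rpow_add hp, Real.rpow_neg_one, ← Real.rpow_pow_comm (by norm_num),
            pow_succ]
          field_simp
  refine (sum_le_sum fun j _ => hj j).trans ?_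
  rw [← mul_sum]
  have := geo h0 h2 (M.sup (Nat.log 2) + 1)
  calc _ ≤ 2 * K * (4 / δ) := mul_le_mul_of_nonneg_left this (by positivity)
    _ = 8 * K / δ := by ring

theorem euler {t n : ℤ} {K : ℕ} (hK : ∀ T : ℕ, ∑ m ∈ Icc 1 T, rho t n m ≤ K * T) {δ : ℝ}
    (h0 : 0 < δ) (h2 : δ ≤ 2) (P : Finset ℕ) (hP : ∀ l ∈ P, l.Prime) :
    ∏ l ∈ P, (1 + (rho t n l : ℝ) * (l : ℝ) ^ (-(1 + δ))) ≤ 8 * K / δ := by
  classical
  rw [prod_one_add]
  have hinj : Set.InjOn (fun S : Finset ℕ => ∏ l ∈ S, l) P.powerset := by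
    intro S hS S' hS' h
    rw [mem_coe, mem_powerset] at hS hS'
    rw [← Nat.primeFactors_prod fun l hl => hP l (hS hl),
      ← Nat.primeFactors_prod fun l hl => hP l (hS' hl)]
    exact congrArg Nat.primeFactors h
  refine le_trans (le_of_eq ?_) (dir hK h0 h2 (P.powerset.image fun S => ∏ l ∈ S, l) ?_)
  · rw [sum_image hinj]
    refine sum_congr rfl fun S hS => ?_
    rw [mem_powerset] at hS
    have := (rA_mult t n).map_prod_of_prime S fun l hl => hP l (hS hl)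
    simp only [rA_apply] at this
    rw [this, prod_mul_distrib, Nat.cast_prod, Nat.cast_prod,
      Real.finsetProd_rpow _ _ fun _ _ => Nat.cast_nonneg _]
  · intro m hm
    obtain ⟨S, hS, rfl⟩ := mem_image.1 hm
    rw [mem_powerset] at hS
    exact prod_pos fun l hl => (hP l (hS hl)).pos

theorem log_ge {u : ℝ} (hu : 0 ≤ u) : u - u ^ 2 ≤ Real.log (1 + u) := by
  have h : 0 < 1 + u := by linarith
  refine le_trans ?_ (Real.one_sub_inv_le_log_of_pos h)
  have : (1 + u)⁻¹ ≤ 1 - u + u ^ 2 := by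
    rw [inv_eq_one_div, div_le_iff₀ h]
    nlinarith [pow_nonneg hu 3]
  linarith

theorem term_le {r : ℝ} (hr0 : 0 ≤ r) (hr2 : r ≤ 2) {l : ℕ} (hl : 1 ≤ l) {δ : ℝ} (h0 : 0 < δ) :
    r / l ≤ Real.log (1 + r * (l : ℝ) ^ (-(1 + δ))) + 4 * (1 / (l : ℝ) ^ 2) +
      2 * δ * (Real.log l / l) := by
  have hl0 : (0 : ℝ) < l := by exact_mod_cast hl
  have hl1 : (1 : ℝ) ≤ l := by exact_mod_cast hl
  have hlog := Real.log_nonneg hl1
  set v := (l : ℝ) ^ (-δ) with hv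
  have hv0 : 0 < v := by positivity
  have hv1 : v ≤ 1 := Real.rpow_le_one_of_one_le_of_nonpos hl1 (by linarith)
  have hv2 : 1 - δ * Real.log l ≤ v := by
    rw [hv, Real.rpow_def_of_pos hl0]
    have := Real.add_one_le_exp (Real.log l * -δ)
    linarith
  have e : (l : ℝ) ^ (-(1 + δ)) = (l : ℝ)⁻¹ * v := by
    rw [neg_add, Real.rpow_add hl0, Real.rpow_neg_one]
  rw [e]
  set w := (l : ℝ)⁻¹ with hw
  have hw0 : 0 < w := by positivity
  have h1 := log_ge (u := r * (w * v)) (by positivity)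
  have h2 : (r * (w * v)) ^ 2 ≤ 4 * w ^ 2 := by
    have : r * (w * v) ≤ 2 * w := by
      have : r * v ≤ 2 := by nlinarith
      nlinarith
    calc _ ≤ (2 * w) ^ 2 := pow_le_pow_left₀ (by positivity) this 2
      _ = _ := by ring
  have h3 : r * w - r * (w * v) ≤ 2 * δ * (Real.log l * w) := by
    have a : r * (1 - v) ≤ 2 * (δ * Real.log l) :=
      mul_le_mul hr2 (by linarith) (by linarith) (by norm_num)
    nlinarith
  rw [div_eq_mul_inv, div_eq_mul_inv (Real.log l), one_div, ← inv_pow, ← hw]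
  linarith

theorem prime_sum (hd : DivStmt) (hw : WStmt) {t n : ℤ} (hF : Fund t n) :
    ∃ C : ℝ, ∀ x : ℝ, ∑ l ∈ Pr x, ((rho t n l : ℝ) - 1) / l ≤ C := by
  obtain ⟨K, hK⟩ := sum_rho_le hw hF
  obtain ⟨-, ⟨C, hC⟩, -⟩ := hd
  have hK1 : 1 ≤ K := by simpa [rho_one] using hK 1
  have hK0 : (0 : ℝ) < K := by exact_mod_cast hK1
  have hs : Summable fun l : ℕ => 1 / (l : ℝ) ^ 2 := Real.summable_one_div_nat_pow.2 one_lt_two
  refine ⟨max 0 (Real.log (8 * K) + 4 * (∑' l : ℕ, 1 / (l : ℝ) ^ 2) + (2 + 4 * |C|) + C),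
    fun x => ?_⟩
  rcases lt_or_ge x 2 with hx | hx
  · have : Pr x = ∅ := by
      refine filter_eq_empty_iff.2 fun l hl hp => ?_
      have h1 : ⌊x⌋₊ < 2 := by
        rcases lt_or_ge x 0 with h | h
        · rw [Nat.floor_of_nonpos h.le]; norm_num
        · exact (Nat.floor_lt h).2 (by exact_mod_cast hx)
      have := hp.two_le
      have := mem_range.1 hl
      omega
    simp [this]
  refine le_trans ?_ (le_max_right _ _)
  obtain ⟨c1, c2, -⟩ := hC x hx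
  have hP : ∀ l ∈ Pr x, l.Prime := fun l hl => (mem_filter.1 hl).2
  have hlx : 1 / 2 < Real.log x := by
    have := Real.log_two_gt_d9
    have := Real.log_le_log (by norm_num) hx
    linarith
  have hlx0 : 0 < Real.log x := by linarith
  set δ := (Real.log x)⁻¹ with hδ
  have h0 : 0 < δ := by positivity
  have h2 : δ ≤ 2 := by
    rw [hδ, inv_le_comm₀ hlx0 (by norm_num)]; linarith
  have hδ1 : δ * Real.log x = 1 := inv_mul_cancel₀ hlx0.ne'
  have h1 : ∑ l ∈ Pr x, (rho t n l : ℝ) / l ≤ ∑ l ∈ Pr x,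
      (Real.log (1 + (rho t n l : ℝ) * (l : ℝ) ^ (-(1 + δ))) + 4 * (1 / (l : ℝ) ^ 2) +
        2 * δ * (Real.log l / l)) := by
    refine sum_le_sum fun l hl => term_le (Nat.cast_nonneg _) ?_ (hP l hl).one_le h0
    have := rho_le_two hF l 1 (hP l hl)
    rw [pow_one] at this
    exact_mod_cast this
  rw [sum_add_distrib, sum_add_distrib, ← mul_sum, ← mul_sum,
    ← Real.log_prod fun l _ => by positivity] at h1
  have h3 : Real.log (∏ l ∈ Pr x, (1 + (rho t n l : ℝ) * (l : ℝ) ^ (-(1 + δ)))) ≤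
      Real.log (8 * K) + Real.log (Real.log x) := by
    rw [← Real.log_mul (by positivity) hlx0.ne']
    refine Real.log_le_log (prod_pos fun l _ => by positivity) ?_
    have := euler hK h0 h2 (Pr x) hP
    rwa [hδ, div_inv_eq_mul] at this
  have h4 : ∑ l ∈ Pr x, 1 / (l : ℝ) ^ 2 ≤ ∑' l : ℕ, 1 / (l : ℝ) ^ 2 :=
    hs.sum_le_tsum _ fun _ _ => by positivity
  have h5 : 2 * δ * ∑ l ∈ Pr x, Real.log l / (l : ℝ) ≤ 2 + 4 * |C| := by
    have a : ∑ l ∈ Pr x, Real.log l / (l : ℝ) ≤ Real.log x + |C| := by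
      have := (abs_le.1 c2).2
      have := le_abs_self C
      linarith
    have b := mul_le_mul_of_nonneg_left a (by positivity : 0 ≤ 2 * δ)
    have c : δ * |C| ≤ 2 * |C| := mul_le_mul_of_nonneg_right h2 (abs_nonneg C)
    nlinarith
  have h6 := (abs_le.1 c1).1
  simp only [sub_div]
  rw [sum_sub_distrib]
  linarith

end Rho

theorem rho_all (hd : DivStmt) (hw : WStmt) : RhoStmt := by
  intro t n hF
  refine ⟨Rho.rho_mul t n, fun l k hl => Rho.rho_le_two hF l k hl, Rho.prime_sum hd hw hF,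
    fun V hV m hm => ⟨Rho.rep_finite hF.1 hV m, ?_⟩⟩
  have h1 := Rho.rep_le hw hF.1 hV hm
  have h2 := Rho.conv_le_wt hF hm
  have h3 : (({r : ℤ × ℤ | Qw V r = m}.ncard : ℕ) : ℝ) ≤ 6 * (((Rho.rA t n * Rho.sA) m : ℕ) : ℝ) := by
    exact_mod_cast h1
  linarith

end Pool.Agent.Lib.MP_9177b7_ag.EQ
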