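import Pool.Agent.Lib.MP_9177b7_ag.EQ.StN
import Pool.Agent.Shared.BrunSieve

/-!
Roots of the minimal polynomial of `ω`: local counts.
-/

open Finset

noncomputable section

namespace Pool.Agent.Lib.MP_9177b7_ag.EQ.Rho

theorem rho_zero (t n : ℤ) : rho t n 0 = 0 := by simp [rho]

theorem rho_one (t n : ℤ) : rho t n 1 = 1 := by simp [rho]

theorem per (t n : ℤ) (a : ℕ) :
    Function.Periodic (fun x : ℕ => (a : ℤ) ∣ (x : ℤ) ^ 2 - t * x + n) a := by
  intro x
  have e : (((x + a : ℕ) : ℤ)) ^ 2 - t * ((x + a : ℕ) : ℤ) + n =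
      ((x : ℤ) ^ 2 - t * x + n) + a * (2 * x + a - t) := by push_cast; ring
  simp only [eq_iff_iff]
  rw [e]
  exact dvd_add_left (dvd_mul_right _ _)

theorem rho_mul (t n : ℤ) (a b : ℕ) (h : a.Coprime b) :
    rho t n (a * b) = rho t n a * rho t n b := by
  rcases Nat.eq_zero_or_pos a with rfl | ha
  · simp [rho_zero]
  rcases Nat.eq_zero_or_pos b with rfl | hb
  · simp [rho_zero]
  have := Pool.Agent.Shared.BrunSieve.count_mul_coprime ha hb h _ _ (per t n a) (per t n b)
  unfold rho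
  rw [← this]
  congr 1
  refine filter_congr fun x _ => ?_
  push_cast
  constructor
  · intro hx
    exact ⟨(dvd_mul_right _ _).trans hx, (dvd_mul_left _ _).trans hx⟩
  · rintro ⟨h1, h2⟩
    exact (Nat.isCoprime_iff_coprime.2 h).mul_dvd h1 h2

theorem roots_two {t n : ℤ} (hF : Fund t n) {l k : ℕ} (hl : l.Prime) {x y : ℤ}
    (hx : (l : ℤ) ^ k ∣ x ^ 2 - t * x + n) (hy : (l : ℤ) ^ k ∣ y ^ 2 - t * y + n) :
    (l : ℤ) ^ k ∣ y - x ∨ (l : ℤ) ^ k ∣ y - (t - x) := by
  have hp : Prime (l : ℤ) := Nat.prime_iff_prime_int.1 hl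
  have hm : (l : ℤ) ^ k ∣ (y - x) * (y - (t - x)) := by
    have := dvd_sub hy hx
    rwa [show y ^ 2 - t * y + n - (x ^ 2 - t * x + n) = (y - x) * (y - (t - x)) by ring] at this
  rcases Nat.lt_or_ge k 2 with hk | hk
  · interval_cases k
    · simp
    · simpa using hp.dvd_or_dvd (by simpa using hm)
  by_cases h1 : (l : ℤ) ∣ y - x
  · by_cases h2 : (l : ℤ) ∣ y - (t - x)
    · exfalso
      obtain ⟨e, he⟩ : (l : ℤ) ∣ 2 * x - t := by
        have := dvd_sub h2 h1
        rwa [show y - (t - x) - (y - x) = 2 * x - t by ring] at this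
      obtain ⟨c, hc⟩ : (l : ℤ) ^ 2 ∣ x ^ 2 - t * x + n := (pow_dvd_pow _ hk).trans hx
      have := hF.2 l e c (by linear_combination (2 * x - t + l * e) * he - 4 * hc)
      have h2 : (2 : ℤ) ≤ l := by exact_mod_cast hl.two_le
      nlinarith
    · left
      exact (hp.coprime_iff_not_dvd.2 h2).pow_left.dvd_of_dvd_mul_right hm
  · right
    exact (hp.coprime_iff_not_dvd.2 h1).pow_left.dvd_of_dvd_mul_left hm

theorem rho_le_two {t n : ℤ} (hF : Fund t n) (l k : ℕ) (hl : l.Prime) : rho t n (l ^ k) ≤ 2 := by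
  unfold rho
  set S := {x ∈ range (l ^ k) | ((l ^ k : ℕ) : ℤ) ∣ ((x : ℕ) : ℤ) ^ 2 - t * (x : ℕ) + n} with hS
  rcases S.eq_empty_or_nonempty with h | ⟨x, hx⟩
  · simp [h]
  have hq : (0 : ℤ) < (l : ℤ) ^ k := pow_pos (by exact_mod_cast hl.pos) k
  have key : ∀ u v : ℕ, u ∈ S → v ∈ S → (l : ℤ) ^ k ∣ (u : ℤ) - v → u = v := by
    intro u v hu hv h
    simp only [hS, mem_filter, mem_range] at hu hv
    have hu1 : (u : ℤ) < (l : ℤ) ^ k := by exact_mod_cast hu.1
    have hv1 : (v : ℤ) < (l : ℤ) ^ k := by exact_mod_cast hv.1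
    have := Int.eq_zero_of_abs_lt_dvd h (by rw [abs_lt]; constructor <;> omega)
    omega
  have hsub : S ⊆ S.filter (fun y : ℕ => (l : ℤ) ^ k ∣ (y : ℤ) - x) ∪
      S.filter (fun y : ℕ => (l : ℤ) ^ k ∣ (y : ℤ) - (t - x)) := by
    intro y hy
    have hx' := (mem_filter.1 hx).2
    have hy' := (mem_filter.1 hy).2
    push_cast at hx' hy'
    rcases roots_two hF hl hx' hy' with h | h
    · exact mem_union_left _ (mem_filter.2 ⟨hy, h⟩)
    · exact mem_union_right _ (mem_filter.2 ⟨hy, h⟩)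
  have h1 : ∀ c : ℤ, #(S.filter (fun y : ℕ => (l : ℤ) ^ k ∣ (y : ℤ) - c)) ≤ 1 := by
    intro c
    refine card_le_one.2 fun u hu v hv => ?_
    rw [mem_filter] at hu hv
    refine key u v hu.1 hv.1 ?_
    have := dvd_sub hu.2 hv.2
    rwa [show (u : ℤ) - c - (v - c) = u - v by ring] at this
  refine (card_le_card hsub).trans ((card_union_le _ _).trans ?_)
  have := h1 x
  have := h1 (t - x)
  omega

/-- `rho` as an arithmetic function. -/
def rA (t n : ℤ) : ArithmeticFunction ℕ := ⟨rho t n, rho_zero t n⟩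

theorem rA_apply (t n : ℤ) (m : ℕ) : rA t n m = rho t n m := rfl

theorem rA_mult (t n : ℤ) : (rA t n).IsMultiplicative :=
  ⟨rho_one t n, fun h => rho_mul t n _ _ h⟩

open Classical in
/-- The indicator function of the positive squares. -/
def sA : ArithmeticFunction ℕ := ⟨fun b => if b ≠ 0 ∧ IsSquare b then 1 else 0, by simp⟩

open Classical in
theorem sA_apply (b : ℕ) : sA b = if b ≠ 0 ∧ IsSquare b then 1 else 0 := rfl

theorem sA_mult : sA.IsMultiplicative := by
  rw [ArithmeticFunction.IsMultiplicative.iff_ne_zero]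
  refine ⟨by simp [sA_apply], fun {a b} ha hb h => ?_⟩
  have e : IsSquare (a * b) ↔ IsSquare a ∧ IsSquare b := by
    constructor
    · rintro ⟨c, hc⟩
      have hc' : a * b = c ^ 2 := by rw [hc, sq]
      obtain ⟨d, hd⟩ := exists_eq_pow_of_mul_eq_pow (a := a) (b := b)
        (by rw [gcd_eq_nat_gcd, h.gcd_eq_one]; exact isUnit_one) hc'
      obtain ⟨d', hd'⟩ := exists_eq_pow_of_mul_eq_pow (a := b) (b := a)
        (by rw [gcd_eq_nat_gcd, h.symm.gcd_eq_one]; exact isUnit_one) ((mul_comm b a).trans hc')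
      exact ⟨⟨d, by rw [hd, sq]⟩, ⟨d', by rw [hd', sq]⟩⟩
    · rintro ⟨h1, h2⟩
      exact h1.mul h2
  simp only [sA_apply, e, ne_eq, mul_eq_zero, ha, hb, or_self, not_false_eq_true, true_and]
  by_cases h1 : IsSquare a <;> by_cases h2 : IsSquare b <;> simp [h1, h2]

theorem sA_pow {l : ℕ} (hl : l.Prime) (j : ℕ) : sA (l ^ j) = if Even j then 1 else 0 := by
  have e : IsSquare (l ^ j) ↔ Even j := by
    constructor
    · rintro ⟨c, hc⟩
      have hc0 : c ≠ 0 := by
        rintro rfl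
        exact (pow_pos hl.pos j).ne' (by simpa using hc)
      have := congrArg (fun m => m.factorization l) hc
      simp only [Nat.factorization_mul hc0 hc0, Finsupp.add_apply, hl.factorization_pow,
        Finsupp.single_eq_same] at this
      exact ⟨_, this⟩
    · rintro ⟨i, rfl⟩
      exact ⟨l ^ i, pow_add _ _ _⟩
  simp [sA_apply, e, hl.ne_zero]

theorem conv_pow (t n : ℤ) {l : ℕ} (hl : l.Prime) (k : ℕ) :
    (rA t n * sA) (l ^ k) = ∑ j ∈ range (k + 1), if Even j then rho t n (l ^ (k - j)) else 0 := by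
  rw [ArithmeticFunction.mul_apply, Nat.sum_divisorsAntidiagonal' (fun a b => rA t n a * sA b),
    Nat.sum_divisors_prime_pow hl]
  refine sum_congr rfl fun j hj => ?_
  rw [sA_pow hl, rA_apply, Nat.pow_div (by simpa [Nat.lt_succ_iff] using hj) hl.pos]
  split_ifs <;> simp

theorem conv_le {t n : ℤ} (hF : Fund t n) {l : ℕ} (hl : l.Prime) (k : ℕ) :
    (rA t n * sA) (l ^ k) ≤ k + 1 := by
  rw [conv_pow t n hl]
  induction k using Nat.twoStepInduction with
  | zero =>
    simp only [zero_add, sum_range_one]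
    simp [rho_one]
  | one =>
    have := rho_le_two hF l 1 hl
    simp [sum_range_succ] at this ⊢
    exact this
  | more k ih _ =>
    rw [sum_range_succ', sum_range_succ']
    have h2 := rho_le_two hF l (k + 2) hl
    have e : ∑ j ∈ range (k + 1), (if Even (j + 1 + 1) then rho t n (l ^ (k + 2 - (j + 1 + 1))) else 0) =
        ∑ j ∈ range (k + 1), if Even j then rho t n (l ^ (k - j)) else 0 := by
      refine sum_congr rfl fun j _ => ?_
      have e1 : k + 2 - (j + 1 + 1) = k - j := by omega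
      have e2 : Even (j + 1 + 1) ↔ Even j := by simp [Nat.even_add_one]
      simp only [e1, e2]
    rw [e]
    simp only [zero_add, Nat.not_even_one, if_false, Even.zero, if_true, Nat.sub_zero]
    omega

theorem conv_le_wt {t n : ℤ} (hF : Fund t n) {m : ℕ} (hm : 1 ≤ m) :
    (((rA t n * sA) m : ℕ) : ℝ) ≤ wt (fun l k => if k = 1 then rho t n l else k + 1) m := by
  rw [ArithmeticFunction.IsMultiplicative.multiplicative_factorization _
    ((rA_mult t n).mul sA_mult) (by omega)]
  unfold wt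
  rw [Finsupp.prod, Nat.support_factorization, Nat.cast_prod]
  refine prod_le_prod (fun _ _ => Nat.cast_nonneg _) fun l hl => ?_
  have hp := Nat.prime_of_mem_primeFactors hl
  by_cases h : m.factorization l = 1
  · rw [h, conv_pow t n hp]
    simp [sum_range_succ]
  · simp only [h, if_false]
    exact_mod_cast conv_le hF hp _

end Pool.Agent.Lib.MP_9177b7_ag.EQ.Rho
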