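import Pool.Agent.Lib.MP_9177b7_ag.EQ.Rho1

/-!
Roots of the minimal polynomial of `ω`: representations by binary quadratic forms.
-/

open Finset UpperHalfPlane
open scoped MatrixGroups

noncomputable section

namespace Pool.Agent.Lib.MP_9177b7_ag.EQ.Rho

theorem e10 (g V : M2) : (g * V * g.adjugate) 1 0 = Qw V (g 1 0, g 1 1) := by
  simp [Matrix.mul_apply, Fin.sum_univ_two, Matrix.adjugate_fin_two, Qw]
  ring

theorem e11 (g V : M2) : (g * V * g.adjugate) 1 1 =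
    g 0 0 * (g 1 0 * V 0 1 + g 1 1 * V 1 1) - g 0 1 * (g 1 0 * V 0 0 + g 1 1 * V 1 0) := by
  simp [Matrix.mul_apply, Fin.sum_univ_two, Matrix.adjugate_fin_two]
  ring

theorem e11_diff (g g' V : M2) (hg : g.det = 1) (hg' : g'.det = 1) (h0 : g' 1 0 = g 1 0)
    (h1 : g' 1 1 = g 1 1) :
    Qw V (g 1 0, g 1 1) ∣ (g * V * g.adjugate) 1 1 - (g' * V * g'.adjugate) 1 1 := by
  rw [e11, e11, h0, h1]
  rw [Matrix.det_fin_two] at hg hg'
  rw [h0, h1] at hg'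
  set j := g 0 0 * (g 0 1 - g' 0 1) - g 0 1 * (g 0 0 - g' 0 0) with hj
  have ha : g 0 0 - g' 0 0 = g 1 0 * j := by
    rw [hj]; linear_combination (-(g 0 0 - g' 0 0)) * hg + g 0 0 * (hg - hg')
  have hb : g 0 1 - g' 0 1 = g 1 1 * j := by
    rw [hj]; linear_combination (-(g 0 1 - g' 0 1)) * hg + g 0 1 * (hg - hg')
  refine ⟨-j, ?_⟩
  simp only [Qw]
  linear_combination (g 1 0 * V 0 1 + g 1 1 * V 1 1) * ha - (g 1 0 * V 0 0 + g 1 1 * V 1 0) * hb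

theorem mem_W {t n : ℤ} {V : M2} (hV : V ∈ WW t n 1) :
    V 0 0 + V 1 1 = t ∧ V 0 0 * V 1 1 - V 0 1 * V 1 0 = n ∧ 0 < V 1 0 := by
  obtain ⟨h1, h2, h3, -⟩ := hV
  rw [Matrix.trace_fin_two] at h1
  rw [Matrix.det_fin_two] at h2
  exact ⟨by simpa using h1, by simpa using h2, h3⟩

theorem box {t n : ℤ} (hD : t ^ 2 - 4 * n < 0) {V : M2} (hV : V ∈ WW t n 1) {K T : ℤ}
    (h1 : V 1 0 ≤ K) (h2 : -V 0 1 ≤ K) {r : ℤ × ℤ} (hr : Qw V r ≤ T) :
    r.1 ^ 2 ≤ 4 * K * T ∧ r.2 ^ 2 ≤ 4 * K * T := by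
  obtain ⟨ht, hn, hA⟩ := mem_W hV
  have hd : (V 0 0 - V 1 1) ^ 2 + 4 * V 0 1 * V 1 0 = t ^ 2 - 4 * n := by
    rw [← ht, ← hn]; ring
  have hC : 0 < -V 0 1 := by
    by_contra h
    have : 0 ≤ V 0 1 * V 1 0 := mul_nonneg (by omega) hA.le
    nlinarith [sq_nonneg (V 0 0 - V 1 1)]
  have e1 : 4 * V 1 0 * Qw V r = (2 * V 1 0 * r.2 + (V 0 0 - V 1 1) * r.1) ^ 2 -
      (t ^ 2 - 4 * n) * r.1 ^ 2 := by
    rw [← hd, Qw]; ring
  have e2 : 4 * (-V 0 1) * Qw V r = (2 * (-V 0 1) * r.1 + (V 0 0 - V 1 1) * r.2) ^ 2 -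
      (t ^ 2 - 4 * n) * r.2 ^ 2 := by
    rw [← hd, Qw]; ring
  have f1 : r.1 ^ 2 ≤ 4 * V 1 0 * Qw V r := by
    rw [e1]; nlinarith [sq_nonneg r.1, sq_nonneg (2 * V 1 0 * r.2 + (V 0 0 - V 1 1) * r.1)]
  have f2 : r.2 ^ 2 ≤ 4 * (-V 0 1) * Qw V r := by
    rw [e2]; nlinarith [sq_nonneg r.2, sq_nonneg (2 * (-V 0 1) * r.1 + (V 0 0 - V 1 1) * r.2)]
  have hQ : 0 ≤ Qw V r := by
    by_contra h
    have : V 1 0 * Qw V r < 0 := mul_neg_of_pos_of_neg hA (by omega)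
    nlinarith [sq_nonneg r.1]
  constructor
  · have : V 1 0 * Qw V r ≤ K * T := mul_le_mul h1 hr hQ (by omega)
    linarith
  · have : (-V 0 1) * Qw V r ≤ K * T := mul_le_mul h2 hr hQ (by omega)
    linarith

theorem mem_Icc_sqrt {x : ℤ} {N : ℕ} (h : x ^ 2 ≤ N) :
    x ∈ Icc (-(Nat.sqrt N : ℤ)) (Nat.sqrt N) := by
  have : x.natAbs ≤ Nat.sqrt N := by
    rw [Nat.le_sqrt']
    have e : ((x.natAbs ^ 2 : ℕ) : ℤ) = x ^ 2 := by push_cast; exact sq_abs x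
    exact_mod_cast e.le.trans h
  rw [mem_Icc]
  omega

theorem rep_finite {t n : ℤ} (hD : t ^ 2 - 4 * n < 0) {V : M2} (hV : V ∈ WW t n 1) (m : ℤ) :
    {r : ℤ × ℤ | Qw V r = m}.Finite := by
  set N := (4 * max (V 1 0) (-V 0 1) * m).toNat
  refine (finite_toSet (Icc (-(Nat.sqrt N : ℤ)) (Nat.sqrt N) ×ˢ
    Icc (-(Nat.sqrt N : ℤ)) (Nat.sqrt N))).subset fun r hr => ?_
  obtain ⟨h1, h2⟩ := box hD hV (le_max_left _ _) (le_max_right _ _) (le_of_eq hr)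
  exact mem_coe.2 (mem_product.2 ⟨mem_Icc_sqrt (h1.trans (Int.self_le_toNat _)),
    mem_Icc_sqrt (h2.trans (Int.self_le_toNat _))⟩)

theorem exists_k (V : M2) {m : ℕ} (hm : 1 ≤ m) {r : ℤ × ℤ} (hr : Qw V r = m)
    (hc : IsCoprime r.1 r.2) : ∃ k : SL(2, ℤ), k 1 0 = r.1 ∧ k 1 1 = r.2 ∧
      ∃ x : ℕ, x < m ∧ (k.1 * V * k.1.adjugate) 1 1 = x := by
  obtain ⟨g, h0, h1⟩ := hc.exists_SL2_row 1
  set y := (g.1 * V * g.1.adjugate) 1 1 with hy
  have hg := g.det_coe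
  rw [Matrix.det_fin_two] at hg
  have hm0 : (0 : ℤ) < m := by exact_mod_cast hm
  refine ⟨⟨!![g 0 0 + (y / m) * g 1 0, g 0 1 + (y / m) * g 1 1; g 1 0, g 1 1], ?_⟩, h0, h1,
    (y % m).toNat, ?_, ?_⟩
  · rw [Matrix.det_fin_two_of]; linear_combination hg
  · have := Int.emod_lt_of_pos y hm0
    omega
  · rw [e11, Int.toNat_of_nonneg (Int.emod_nonneg y hm0.ne'), Int.emod_def]
    have e := e11 g.1 V
    rw [← hy] at e
    have hq : Qw V (g 1 0, g 1 1) = m := by rw [h0, h1]; exact hr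
    simp only [Qw] at hq
    simp only [Matrix.of_apply, Matrix.cons_val', Matrix.cons_val_zero, Matrix.cons_val_one,
      Matrix.cons_val_fin_one]
    linear_combination -e - (y / m) * hq

theorem prim_le (hw : WStmt) {t n : ℤ} (hD : t ^ 2 - 4 * n < 0) {V : M2} (hV : V ∈ WW t n 1)
    {m : ℕ} (hm : 1 ≤ m) (S : Finset (ℤ × ℤ)) (hS : ∀ r ∈ S, Qw V r = m ∧ IsCoprime r.1 r.2) :
    #S ≤ 6 * rho t n m := by
  classical
  obtain ⟨-, h2, -⟩ := hw t n hD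
  obtain ⟨-, -, -, -, hk, -, -, -, hst, -⟩ := h2 1 le_rfl V hV
  have hex : ∀ r : ℤ × ℤ, ∃ k : SL(2, ℤ), ∃ x : ℕ, r ∈ S → k 1 0 = r.1 ∧ k 1 1 = r.2 ∧
      x < m ∧ (k.1 * V * (k⁻¹).1) 1 1 = x := by
    intro r
    by_cases hr : r ∈ S
    · obtain ⟨k, a, b, x, c, d⟩ := exists_k V hm (hS r hr).1 (hS r hr).2
      exact ⟨k, x, fun _ => ⟨a, b, c, by rw [Matrix.SpecialLinearGroup.coe_inv]; exact d⟩⟩
    · exact ⟨1, 0, fun h => absurd h hr⟩
  choose k x hkx using hex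
  have h10 : ∀ r ∈ S, ((k r).1 * V * ((k r)⁻¹).1) 1 0 = m := by
    intro r hr
    rw [Matrix.SpecialLinearGroup.coe_inv, e10, ← (hS r hr).1]
    obtain ⟨a, b, -⟩ := hkx r hr
    exact congrArg (Qw V) (Prod.ext a b)
  unfold rho
  refine card_le_mul_card_image_of_maps_to (f := x) (fun r hr => ?_) 6 fun y _ => ?_
  · obtain ⟨-, -, c, d⟩ := hkx r hr
    obtain ⟨e1, e2, -⟩ := mem_W (hk (k r)).1
    rw [h10 r hr] at e2
    rw [d] at e1 e2
    refine mem_filter.2 ⟨mem_range.2 c, -((k r).1 * V * ((k r)⁻¹).1) 0 1, ?_⟩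
    linear_combination (x r : ℤ) * e1 - e2
  · rcases (S.filter fun r => x r = y).eq_empty_or_nonempty with h | ⟨r₀, hr₀⟩
    · simp [h]
    rw [mem_filter] at hr₀
    have hcard : #(hst.1.toFinset) ≤ 6 := by
      rw [← Set.ncard_eq_toFinset_card _ hst.1]; exact hst.2
    refine le_trans (card_le_card_of_injOn (fun r => (k r₀)⁻¹ * k r) ?_ ?_) hcard
    · intro r hr
      rw [mem_coe, mem_filter] at hr
      have hW : (k r).1 * V * ((k r)⁻¹).1 = (k r₀).1 * V * ((k r₀)⁻¹).1 := by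
        obtain ⟨e1, e2, -⟩ := mem_W (hk (k r)).1
        obtain ⟨f1, f2, -⟩ := mem_W (hk (k r₀)).1
        have a10 := (h10 r hr.1).trans (h10 r₀ hr₀.1).symm
        have a11 : ((k r).1 * V * ((k r)⁻¹).1) 1 1 = ((k r₀).1 * V * ((k r₀)⁻¹).1) 1 1 := by
          rw [(hkx r hr.1).2.2.2, (hkx r₀ hr₀.1).2.2.2, hr.2, hr₀.2]
        have a00 : ((k r).1 * V * ((k r)⁻¹).1) 0 0 = ((k r₀).1 * V * ((k r₀)⁻¹).1) 0 0 := by
          linarith
        have a01 : ((k r).1 * V * ((k r)⁻¹).1) 0 1 = ((k r₀).1 * V * ((k r₀)⁻¹).1) 0 1 := by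
          rw [a00, a11, h10 r hr.1] at e2
          rw [h10 r₀ hr₀.1] at f2
          have hm0 : (m : ℤ) ≠ 0 := by exact_mod_cast (by omega : m ≠ 0)
          exact mul_right_cancel₀ hm0 (by linarith)
        ext i j
        fin_cases i <;> fin_cases j
        exacts [a00, a01, a10, a11]
      have := (hk (k r)).2
      rw [hW, (hk (k r₀)).2] at this
      simp only [Set.Finite.coe_toFinset, Set.mem_ofPred_eq]
      rw [mul_smul, ← this, inv_smul_smul]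
    · intro r hr r' hr' h
      rw [mem_coe, mem_filter] at hr hr'
      have e : k r = k r' := mul_left_cancel h
      obtain ⟨a, b, -⟩ := hkx r hr.1
      obtain ⟨a', b', -⟩ := hkx r' hr'.1
      exact Prod.ext (by rw [← a, ← a', e]) (by rw [← b, ← b', e])

theorem rep_le (hw : WStmt) {t n : ℤ} (hD : t ^ 2 - 4 * n < 0) {V : M2} (hV : V ∈ WW t n 1)
    {m : ℕ} (hm : 1 ≤ m) : {r : ℤ × ℤ | Qw V r = m}.ncard ≤ 6 * (rA t n * sA) m := by
  classical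
  have hfin := rep_finite hD hV
  rw [Set.ncard_eq_toFinset_card _ (hfin m), ArithmeticFunction.mul_apply, mul_sum]
  have hdec : ∀ r : ℤ × ℤ, Qw V r = m → 0 < Int.gcd r.1 r.2 ∧ ∃ r' : ℤ × ℤ, IsCoprime r'.1 r'.2 ∧
      r = (r'.1 * Int.gcd r.1 r.2, r'.2 * Int.gcd r.1 r.2) ∧
      Qw V r' = (m / Int.gcd r.1 r.2 ^ 2 : ℕ) ∧
      m / Int.gcd r.1 r.2 ^ 2 * Int.gcd r.1 r.2 ^ 2 = m := by
    intro r hr
    have hg : 0 < Int.gcd r.1 r.2 := by
      rw [Int.gcd_pos_iff]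
      by_contra h
      push Not at h
      simp only [Qw, h.1, h.2] at hr
      omega
    obtain ⟨a, b, hab, ha, hb⟩ := Int.exists_gcd_one hg
    generalize Int.gcd r.1 r.2 = g at hg ha hb ⊢
    have hq : Qw V (a, b) * (g : ℤ) ^ 2 = m := by
      rw [← hr]; simp only [Qw]; rw [ha, hb]; ring
    have hdv : g ^ 2 ∣ m := by
      have : ((g ^ 2 : ℕ) : ℤ) ∣ (m : ℤ) := ⟨Qw V (a, b), by push_cast; linarith⟩
      exact_mod_cast this
    have e := Nat.div_mul_cancel hdv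
    refine ⟨hg, (a, b), Int.isCoprime_iff_gcd_eq_one.2 hab, Prod.ext ha hb, ?_, e⟩
    have hg2 : ((g : ℤ)) ^ 2 ≠ 0 := pow_ne_zero 2 (by exact_mod_cast hg.ne')
    refine mul_right_cancel₀ hg2 ?_
    rw [hq]
    exact_mod_cast e.symm
  rw [card_eq_sum_card_fiberwise (f := fun r : ℤ × ℤ => (m / Int.gcd r.1 r.2 ^ 2, Int.gcd r.1 r.2 ^ 2))
    (t := m.divisorsAntidiagonal)]
  · refine sum_le_sum fun z hz => ?_
    rcases ((hfin m).toFinset.filter fun r : ℤ × ℤ =>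
      (m / Int.gcd r.1 r.2 ^ 2, Int.gcd r.1 r.2 ^ 2) = z).eq_empty_or_nonempty with h | ⟨r₀, hr₀⟩
    · simp [h]
    rw [mem_filter, Set.Finite.mem_toFinset] at hr₀
    obtain ⟨hg0, -⟩ := hdec r₀ hr₀.1
    set g := Int.gcd r₀.1 r₀.2 with hgd
    have hz2 : z.2 = g ^ 2 := by rw [← hr₀.2]
    have hs : sA z.2 = 1 := by
      rw [sA_apply, if_pos]
      exact ⟨by rw [hz2]; positivity, g, by rw [hz2, sq]⟩
    have hz1 : 1 ≤ z.1 := by
      have := (Nat.mem_divisorsAntidiagonal.1 hz).1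
      rcases Nat.eq_zero_or_pos z.1 with h | h
      · rw [h] at this; omega
      · exact h
    rw [hs, mul_one, rA_apply]
    refine le_trans ?_ (prim_le hw hD hV hz1
      ((hfin z.1).toFinset.filter fun r => IsCoprime r.1 r.2) fun r hr => ?_)
    · refine le_trans (card_le_card ?_) (card_image_le (f := fun r : ℤ × ℤ => (r.1 * g, r.2 * g)))
      intro r hr
      rw [mem_filter, Set.Finite.mem_toFinset] at hr
      obtain ⟨-, r', c1, c2, c3, -⟩ := hdec r hr.1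
      have e2 : Int.gcd r.1 r.2 ^ 2 = g ^ 2 := by rw [← hz2, ← hr.2]
      have e3 : Int.gcd r.1 r.2 = g := Nat.pow_left_injective (by norm_num) e2
      refine mem_image.2 ⟨r', mem_filter.2 ⟨(Set.Finite.mem_toFinset _).2 ?_, c1⟩, ?_⟩
      · rw [Set.mem_ofPred_eq, c3, ← hr.2]
      · rw [← e3]; exact c2.symm
    · rw [mem_filter, Set.Finite.mem_toFinset] at hr
      exact hr
  · intro r hr
    rw [mem_coe, Set.Finite.mem_toFinset] at hr
    obtain ⟨-, r', -, -, -, c4⟩ := hdec r hr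
    exact mem_coe.2 (Nat.mem_divisorsAntidiagonal.2 ⟨c4, by omega⟩)

theorem root_mem {t n : ℤ} (hF : Fund t n) {m : ℕ} (hm : 1 ≤ m) {x c : ℤ}
    (hc : x ^ 2 - t * x + n = m * c) : (!![t - x, -c; m, x] : M2) ∈ WW t n 1 := by
  refine ⟨by simp [Matrix.trace_fin_two], ?_, by simpa using (show 0 < m from hm), ?_⟩
  · rw [Matrix.det_fin_two_of]; push_cast; linear_combination -hc
  · unfold cont
    simp only [Matrix.of_apply, Matrix.cons_val', Matrix.cons_val_zero, Matrix.cons_val_one,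
      Matrix.cons_val_fin_one]
    set e := Int.gcd (Int.gcd (-c) m) (t - x - x) with he
    obtain ⟨u, hu⟩ : (e : ℤ) ∣ t - x - x := Int.gcd_dvd_right _ _
    obtain ⟨c', hc'⟩ : (e : ℤ) ∣ -c := (Int.gcd_dvd_left _ _).trans (Int.gcd_dvd_left _ _)
    obtain ⟨m', hm'⟩ : (e : ℤ) ∣ m := (Int.gcd_dvd_left _ _).trans (Int.gcd_dvd_right _ _)
    have := hF.2 e u (-(m' * c')) (by
      linear_combination (t - x - x + e * u) * hu - 4 * hc + 4 * (m : ℤ) * hc' + 4 * e * c' * hm')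
    have h1 : e ^ 2 = 1 := by exact_mod_cast this
    exact (pow_eq_one_iff.1 h1).resolve_right (by norm_num)

theorem sum_rho_le (hw : WStmt) {t n : ℤ} (hF : Fund t n) :
    ∃ K : ℕ, ∀ T : ℕ, ∑ m ∈ Icc 1 T, rho t n m ≤ K * T := by
  classical
  obtain ⟨-, -, -, -, -, -, h7, h8, -⟩ := hw t n hF.1
  obtain ⟨K, hK⟩ : ∃ K : ℕ, ∀ V ∈ h8.toFinset, V 1 0 ≤ K ∧ -V 0 1 ≤ K := by
    refine ⟨h8.toFinset.sup fun V => (V 1 0).toNat + (-V 0 1).toNat, fun V hV => ?_⟩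
    have : (V 1 0).toNat + (-V 0 1).toNat ≤ h8.toFinset.sup fun V => (V 1 0).toNat + (-V 0 1).toNat :=
      le_sup (f := fun V : M2 => (V 1 0).toNat + (-V 0 1).toNat) hV
    omega
  refine ⟨#(h8.toFinset) * (32 * K + 2), fun T => ?_⟩
  rcases Nat.eq_zero_or_pos T with rfl | hT
  · simp
  set M := Nat.sqrt (4 * K * T) with hM
  have hex : ∀ z : (Σ _ : ℕ, ℕ), ∃ V g : M2, 1 ≤ z.1 → (z.1 : ℤ) ∣ (z.2 : ℤ) ^ 2 - t * z.2 + n →
      V ∈ h8.toFinset ∧ g.det = 1 ∧ (g * V * g.adjugate) 1 0 = z.1 ∧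
        (g * V * g.adjugate) 1 1 = z.2 := by
    intro z
    by_cases h : 1 ≤ z.1 ∧ (z.1 : ℤ) ∣ (z.2 : ℤ) ^ 2 - t * z.2 + n
    · obtain ⟨h1, c, hc⟩ := h
      obtain ⟨V, hV, g, -, -, a, b, d, -⟩ := h7 1 le_rfl hF _ (root_mem hF h1 hc)
      refine ⟨V, g, fun _ _ => ⟨(Set.Finite.mem_toFinset _).2 ⟨hV, d⟩, by simpa using a, ?_, ?_⟩⟩
      · rw [← b]; simp
      · rw [← b]; simp
    · exact ⟨0, 0, fun a b => absurd ⟨a, b⟩ h⟩
  choose V g hVg using hex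
  unfold rho
  rw [← card_sigma]
  have hb : #(h8.toFinset ×ˢ (Icc (-(M : ℤ)) M ×ˢ Icc (-(M : ℤ)) M)) ≤
      #(h8.toFinset) * (32 * K + 2) * T := by
    rw [card_product, card_product, Int.card_Icc, mul_assoc]
    refine Nat.mul_le_mul_left _ ?_
    have e : ((M : ℤ) + 1 - -(M : ℤ)).toNat = 2 * M + 1 := by omega
    rw [e]
    have h1 : M * M ≤ 4 * K * T := Nat.sqrt_le _
    have h2 : (2 * M + 1) * (2 * M + 1) ≤ 8 * (M * M) + 2 := by
      zify; nlinarith [sq_nonneg (2 * (M : ℤ) - 1)]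
    nlinarith
  refine le_trans (card_le_card_of_injOn (fun z => (V z, (g z 1 0, g z 1 1))) ?_ ?_) hb
  · intro z hz
    rw [mem_coe, mem_sigma, mem_Icc, mem_filter] at hz
    obtain ⟨a, -, c, -⟩ := hVg z hz.1.1 hz.2.2
    rw [e10] at c
    have hV := ((Set.Finite.mem_toFinset _).1 a).1
    have hq : Qw (V z) (g z 1 0, g z 1 1) ≤ (T : ℤ) := by rw [c]; exact_mod_cast hz.1.2
    obtain ⟨h1, h2⟩ := box hF.1 hV (hK _ a).1 (hK _ a).2 hq
    exact mem_coe.2 (mem_product.2 ⟨a, mem_product.2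
      ⟨mem_Icc_sqrt (by exact_mod_cast h1), mem_Icc_sqrt (by exact_mod_cast h2)⟩⟩)
  · rintro ⟨m, x⟩ hz ⟨m', x'⟩ hz' h
    rw [mem_coe, mem_sigma, mem_Icc, mem_filter, mem_range] at hz hz'
    obtain ⟨-, b, c, d⟩ := hVg _ hz.1.1 hz.2.2
    obtain ⟨-, b', c', d'⟩ := hVg _ hz'.1.1 hz'.2.2
    simp only [Prod.mk.injEq] at h
    obtain ⟨hV, h0, h1⟩ := h
    rw [e10] at c c'
    have hd := e11_diff _ _ (V ⟨m, x⟩) b b' h0.symm h1.symm
    rw [← hV, ← h0, ← h1, c] at c'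
    rw [← hV] at d'
    rw [c, d, d'] at hd
    simp only at hz hz' c' hd
    have em : m = m' := by exact_mod_cast c'
    subst em
    have := Int.eq_zero_of_abs_lt_dvd hd (by rw [abs_lt]; constructor <;> omega)
    have ex : x = x' := by omega
    rw [ex]

end Pool.Agent.Lib.MP_9177b7_ag.EQ.Rho
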