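import Pool.Agent.Lib.MP_9177b7_ag.EQ.SV1c

/-!
The two-dimensional Shiu bound.
-/

open Finset

noncomputable section

namespace Pool.Agent.Lib.MP_9177b7_ag.EQ

namespace SV1

theorem split {F : ℤ → ℤ → ℤ} {g : ℕ → ℕ → ℝ} {X Y : ℕ} {z Z τ : ℝ}
    (h0 : ∀ l k, 0 ≤ g l k ∧ g l k ≤ k + 1) (hz : 2 ≤ z)
    (hZ : ∀ x < X, ∀ y < Y, |(F x y : ℝ)| ≤ Z) (hτ0 : 0 ≤ τ)
    (hτ : ∀ m : ℕ, 1 ≤ m → (m : ℝ) ≤ Z → (tau m : ℝ) ≤ τ) :
    ∑ w ∈ range X ×ˢ range Y with F w.1 w.2 ≠ 0, wt g (F w.1 w.2).natAbs ≤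
      Real.exp (Real.log Z / Real.log z) *
          ∑ a ∈ Sm (Pr z) ⌊z ^ 2⌋₊, wt g a * Nn F X Y a {l ∈ Pr z | ¬ l ∣ a} +
        ∑ p ∈ Pr z, min (Real.exp (Real.log Z / Real.log p)) τ *
          ∑ x ∈ Bp z p, wt g x.1 * Nn F X Y (x.1 * p ^ x.2) {l ∈ Pl p | ¬ l ∣ x.1} := by
  have hz0 : 0 < z := by linarith
  have hzz : z ≤ z ^ 2 := by nlinarith
  set S := {w ∈ range X ×ˢ range Y | F w.1 w.2 ≠ 0} with hS
  have hSm : ∀ w ∈ S, (F w.1 w.2).natAbs ≠ 0 ∧ ((F w.1 w.2).natAbs : ℝ) ≤ Z ∧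
      Real.log (F w.1 w.2).natAbs ≤ Real.log Z := by
    intro w hw
    obtain ⟨hw1, hw2⟩ := mem_filter.1 hw
    have a1 : (F w.1 w.2).natAbs ≠ 0 := Int.natAbs_ne_zero.2 hw2
    have a2 : ((F w.1 w.2).natAbs : ℝ) ≤ Z := by
      rw [Nat.cast_natAbs, Int.cast_abs]
      exact hZ _ (mem_range.1 (mem_product.1 hw1).1) _ (mem_range.1 (mem_product.1 hw1).2)
    exact ⟨a1, a2, Real.log_le_log (by exact_mod_cast Nat.pos_of_ne_zero a1) a2⟩
  rw [← sum_filter_add_sum_filter_not S fun w => (lo (F w.1 w.2).natAbs (⌊z⌋₊ + 1) : ℝ) ≤ z]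
  refine add_le_add ?_ ?_
  · refine (cover _ (range X ×ˢ range Y) ((filter_subset _ _).trans (filter_subset _ _))
      (Sm (Pr z) ⌊z ^ 2⌋₊) _ (fun a => wt g a * Real.exp (Real.log Z / Real.log z))
      (fun (a : ℕ) w => (a : ℤ) ∣ F w.1 w.2 ∧
        ∀ l ∈ {l ∈ Pr z | ¬ l ∣ a}, ¬ (l : ℤ) ∣ F w.1 w.2)
      (fun a _ => mul_nonneg (wt_nonneg h0 a) (Real.exp_pos _).le) fun w hw => ?_).trans
      (le_of_eq ?_)
    · obtain ⟨hw1, hw2⟩ := mem_filter.1 hw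
      obtain ⟨a1, a2, a3⟩ := hSm w hw1
      set m := (F w.1 w.2).natAbs with hm
      refine ⟨lo m (⌊z⌋₊ + 1), mem_Sm.2 ⟨lo_ne _ _, lo_sub _ _, Nat.le_floor (hw2.trans hzz)⟩,
        ⟨Int.natCast_dvd.2 (lo_dvd a1 _), fun l hl h => ?_⟩, ?_⟩
      · obtain ⟨hl1, hl2⟩ := mem_filter.1 hl
        obtain ⟨hl3, hl4⟩ := mem_Pl.1 hl1
        exact lo_not_dvd a1 hl4 hl3 hl2 (Int.natCast_dvd.1 h)
      · rw [wt_lo g m (⌊z⌋₊ + 1)]
        refine mul_le_mul_of_nonneg_left (prod_le_exp h0 _ (filter_subset _ _)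
          (Real.log_pos (by linarith)) (fun l hl => ?_) a3) (wt_nonneg h0 _)
        refine Real.log_le_log hz0 ((Nat.lt_floor_add_one z).le.trans ?_)
        exact_mod_cast not_lt.1 (mem_filter.1 hl).2
    · rw [mul_sum]
      refine sum_congr rfl fun a _ => ?_
      unfold Nn
      ring
  · refine (cover _ (range X ×ˢ range Y) ((filter_subset _ _).trans (filter_subset _ _))
      ((Pr z).sigma (Bp z)) _ (fun i => wt g i.2.1 * min (Real.exp (Real.log Z / Real.log i.1)) τ)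
      (fun (i : Σ _ : ℕ, ℕ × ℕ) w => ((i.2.1 * i.1 ^ i.2.2 : ℕ) : ℤ) ∣ F w.1 w.2 ∧
        ∀ l ∈ {l ∈ Pl i.1 | ¬ l ∣ i.2.1}, ¬ (l : ℤ) ∣ F w.1 w.2)
      (fun i _ => mul_nonneg (wt_nonneg h0 _) (le_min (Real.exp_pos _).le hτ0))
      fun w hw => ?_).trans (le_of_eq ?_)
    · obtain ⟨hw1, hw2⟩ := mem_filter.1 hw
      obtain ⟨a1, a2, a3⟩ := hSm w hw1
      set m := (F w.1 w.2).natAbs with hm
      obtain ⟨p, hp, j, hj1, hj2, hj3, hj4⟩ :=
        (decomp a1 (show 1 ≤ z by linarith) (⌊z⌋₊ + 1)).resolve_left hw2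
      obtain ⟨hp1, hp2⟩ := (mem_Pr hz0.le).1 hp
      have b1 : ((lo m p * p ^ j : ℕ) : ℝ) ≤ z ^ 2 :=
        hj3.trans (by rw [sq]; exact mul_le_mul_of_nonneg_left hp2 hz0.le)
      have b2 : lo m p * p ^ j ≤ ⌊z ^ 2⌋₊ := Nat.le_floor b1
      have b3 : 1 ≤ lo m p := Nat.one_le_iff_ne_zero.2 (lo_ne _ _)
      have b4 : j < p ^ j := Nat.lt_pow_self hp1.one_lt
      have b5 : lo m p ≤ lo m p * p ^ j := Nat.le_mul_of_pos_right _ (by omega)
      have b6 : p ^ j ≤ lo m p * p ^ j := Nat.le_mul_of_pos_left _ b3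
      refine ⟨⟨p, (lo m p, j)⟩, mem_sigma.2 ⟨hp, mem_filter.2 ⟨mem_product.2
        ⟨mem_Sm.2 ⟨lo_ne _ _, lo_sub _ _, b5.trans b2⟩, mem_Icc.2 ⟨hj1, by
          show j ≤ _
          omega⟩⟩, hj2, b1⟩⟩,
        ⟨Int.natCast_dvd.2 hj4, fun l hl h => ?_⟩, ?_⟩
      · obtain ⟨hl1, hl2⟩ := mem_filter.1 hl
        obtain ⟨hl3, hl4⟩ := mem_Pl.1 hl1
        exact lo_not_dvd a1 hl4 hl3 hl2 (Int.natCast_dvd.1 h)
      · rw [wt_lo g m p]
        refine mul_le_mul_of_nonneg_left (le_min (prod_le_exp h0 _ (filter_subset _ _)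
          (Real.log_pos (by exact_mod_cast hp1.one_lt)) (fun l hl => ?_) a3)
          ((prod_le_tau h0 a1 _ (filter_subset _ _)).trans
            (hτ m (Nat.one_le_iff_ne_zero.2 a1) a2))) (wt_nonneg h0 _)
        refine Real.log_le_log (by exact_mod_cast hp1.pos) ?_
        exact_mod_cast not_lt.1 (mem_filter.1 hl).2
    · rw [sum_sigma]
      refine sum_congr rfl fun p _ => ?_
      rw [mul_sum]
      refine sum_congr rfl fun x _ => ?_
      unfold Nn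
      ring

theorem Pr_mono {x y : ℝ} (h : x ≤ y) : Pr x ⊆ Pr y :=
  filter_subset_filter _ (range_subset_range.2 (Nat.succ_le_succ (Nat.floor_le_floor h)))

theorem half_le_log {x : ℝ} (hx : 2 ≤ x) : 1 / 2 ≤ Real.log x := by
  have h1 := Real.log_two_gt_d9
  have h2 := Real.log_le_log (by norm_num) hx
  linarith

theorem sum_Pr_nat {p : ℕ} (hp : p.Prime) (f : ℕ → ℝ) :
    ∑ l ∈ Pr p, f l = ∑ l ∈ Pl p, f l + f p := by
  unfold Pr Pl
  rw [Nat.floor_natCast, range_add_one, filter_insert, if_pos hp, sum_insert (by simp), add_comm]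

/-- The contribution of one prime. -/
theorem termB {C₁ CM K CK W Z z τT Q σ δ : ℝ} {F : ℤ → ℤ → ℤ} {g : ℕ → ℕ → ℝ} (hC : 1 ≤ C₁)
    (h0 : ∀ l k, 0 ≤ g l k ∧ g l k ≤ k + 1)
    (h1 : ∀ l k : ℕ, l.Prime → 1 ≤ k → th F (l ^ k) ≤ C₁ / (l : ℝ) ^ ((k + 1) / 2))
    (hM : ∀ x : ℝ, 2 ≤ x → |∑ l ∈ Pr x, 1 / (l : ℝ) - Real.log (Real.log x)| ≤ CM ∧
      |∑ l ∈ Pr x, Real.log l / (l : ℝ) - Real.log x| ≤ CM)
    {p : ℕ} (hp : p.Prime) (hpZ : (p : ℝ) ≤ Z) (hW : 0 ≤ W) (hσ0 : 0 ≤ σ)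
    (hlz : Real.log z = δ * Real.log Z) (hσ2 : σ * (Real.log p + CM) ≤ K * (1 + 2 * CM))
    (hσ3 : W * Real.exp (-(σ * (δ * Real.log Z))) *
      Real.exp (C₁ * Real.log (Real.log Z / Real.log p)) ≤ CK * (Real.log p / Real.log Z)) :
    W * (Real.exp (-(σ * Real.log z)) * (Real.exp (∑ l ∈ Pl p, (g l 1 - 1) * th F l +
        6 * C₁ * Real.exp K * σ * ∑ l ∈ Pl p, Real.log l / l +
        9 * C₁ * Real.exp K ^ 2 * τT + 133 * C₁ ^ 2 * Q) * (42 * C₁ * Real.exp K ^ 2 / p))) ≤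
      (CK * Real.exp (6 * C₁ * Real.exp K * (K * (1 + 2 * CM)) + 133 * C₁ ^ 2 * Q +
        C₁ * (2 * CM + 1)) * (42 * C₁ * Real.exp K ^ 2) / Real.log Z *
        Real.exp (∑ l ∈ Pr Z, (g l 1 - 1) * th F l + 9 * C₁ * Real.exp K ^ 2 * τT)) *
        (Real.log p / p) := by
  have hp2 : (2 : ℝ) ≤ p := by exact_mod_cast hp.two_le
  have hZ2 : 2 ≤ Z := hp2.trans hpZ
  have hy := half_le_log hp2
  have ht := half_le_log hZ2
  have a1 := tail_main h0 h1 (P := Pl p) (P' := Pr Z)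
    (fun l hl => (mem_Pr (by linarith)).2 ⟨(mem_Pl.1 hl).2,
      le_trans (by exact_mod_cast (mem_Pl.1 hl).1.le) hpZ⟩)
    fun l hl => ((mem_Pr (by linarith)).1 hl).1
  have a2 := abs_le.1 (hM Z hZ2).1
  have a3 := abs_le.1 (hM p hp2).1
  have a4 := abs_le.1 (hM p hp2).2
  rw [sum_Pr_nat hp] at a3 a4
  have a5 : 1 / (p : ℝ) ≤ 1 := by rw [div_le_one (by linarith)]; linarith
  have a6 : 0 ≤ Real.log p / p := div_nonneg (by linarith) (by linarith)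
  have a7 : Real.log (Real.log Z / Real.log p) =
      Real.log (Real.log Z) - Real.log (Real.log p) := Real.log_div (by linarith) (by linarith)
  have a8 : C₁ * (∑ l ∈ Pr Z, 1 / (l : ℝ) - ∑ l ∈ Pl p, 1 / (l : ℝ)) ≤
      C₁ * (Real.log (Real.log Z / Real.log p) + (2 * CM + 1)) :=
    mul_le_mul_of_nonneg_left (by linarith) (by linarith)
  have a9 : 6 * C₁ * Real.exp K * (σ * ∑ l ∈ Pl p, Real.log l / l) ≤
      6 * C₁ * Real.exp K * (K * (1 + 2 * CM)) :=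
    mul_le_mul_of_nonneg_left
      ((mul_le_mul_of_nonneg_left (by linarith) hσ0).trans hσ2) (by positivity)
  have b1 : Real.exp (∑ l ∈ Pl p, (g l 1 - 1) * th F l +
        6 * C₁ * Real.exp K * σ * ∑ l ∈ Pl p, Real.log l / l +
        9 * C₁ * Real.exp K ^ 2 * τT + 133 * C₁ ^ 2 * Q) ≤
      Real.exp (C₁ * Real.log (Real.log Z / Real.log p)) *
        (Real.exp (6 * C₁ * Real.exp K * (K * (1 + 2 * CM)) + 133 * C₁ ^ 2 * Q +
          C₁ * (2 * CM + 1)) *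
        Real.exp (∑ l ∈ Pr Z, (g l 1 - 1) * th F l + 9 * C₁ * Real.exp K ^ 2 * τT)) := by
    rw [← Real.exp_add, ← Real.exp_add, Real.exp_le_exp]
    linarith
  rw [hlz]
  set E1 := Real.exp (6 * C₁ * Real.exp K * (K * (1 + 2 * CM)) + 133 * C₁ ^ 2 * Q +
    C₁ * (2 * CM + 1)) with hE1
  set E2 := Real.exp (∑ l ∈ Pr Z, (g l 1 - 1) * th F l + 9 * C₁ * Real.exp K ^ 2 * τT) with hE2
  have hE1' : 0 < E1 := Real.exp_pos _
  have hE2' : 0 < E2 := Real.exp_pos _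
  have c0 : 0 ≤ 42 * C₁ * Real.exp K ^ 2 / p := by positivity
  calc _ ≤ W * (Real.exp (-(σ * (δ * Real.log Z))) *
        (Real.exp (C₁ * Real.log (Real.log Z / Real.log p)) * (E1 * E2) *
          (42 * C₁ * Real.exp K ^ 2 / p))) := by gcongr
    _ = W * Real.exp (-(σ * (δ * Real.log Z))) *
        Real.exp (C₁ * Real.log (Real.log Z / Real.log p)) *
          (E1 * E2 * (42 * C₁ * Real.exp K ^ 2 / p)) := by ring
    _ ≤ CK * (Real.log p / Real.log Z) * (E1 * E2 * (42 * C₁ * Real.exp K ^ 2 / p)) :=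
        mul_le_mul_of_nonneg_right hσ3 (by positivity)
    _ = _ := by ring

theorem fin_aux {S N E E' e c1 c2 c3 c4 C : ℝ} (hN : 0 ≤ N) (hE : 0 ≤ E) (hEE : E ≤ E')
    (he : 0 ≤ e) (h1 : 0 ≤ c1) (h2 : 0 ≤ c2) (h3 : 0 ≤ c3) (h4 : 0 ≤ c4)
    (hC : c1 + c2 + c3 + c4 ≤ C) (hS : S ≤ N * ((c1 + c2) * E + (c3 + c4) * e)) :
    S ≤ C * N * (E' + e) := by
  have a1 : (c1 + c2) * E ≤ C * E' := mul_le_mul (by linarith) hEE hE (by linarith)
  have a2 : (c3 + c4) * e ≤ C * e := mul_le_mul_of_nonneg_right (by linarith) he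
  have a3 := mul_le_mul_of_nonneg_left (add_le_add a1 a2) hN
  linarith

end SV1

open SV1 in
/-- The two-dimensional Shiu bound. -/
theorem sv1 (hd : DivStmt) (hc : ConStmt) (hs : SelStmt) : SV1Stmt := by
  intro η C₁ hη hC
  obtain ⟨Cs, u, hCs, hu, Hs⟩ := sieve hc hs hC
  obtain ⟨CM, hM⟩ := hd.2.1
  have hM0 : 0 ≤ CM := (abs_nonneg _).trans (hM 2 le_rfl).1
  obtain ⟨Q, hQ0, hQ⟩ := exists_Q
  have hu' : (1 : ℝ) ≤ u := by exact_mod_cast hu
  have hη0 : 0 < min η 1 := lt_min hη one_pos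
  obtain ⟨δ, hδ, hδ1, hδu⟩ : ∃ δ : ℝ, 0 < δ ∧ δ ≤ 1 ∧ δ * ((24 * u : ℕ) : ℝ) ≤ η := by
    refine ⟨min η 1 / (24 * u), by positivity, ?_, ?_⟩
    · rw [div_le_one (by positivity)]
      have := min_le_right η 1
      linarith
    · push_cast
      rw [div_mul_cancel₀ _ (by positivity)]
      exact min_le_left _ _
  obtain ⟨Ce, hCe, hτ⟩ := hd.1 0 (δ / 24) (by positivity)
  obtain ⟨K, CK, hK, hCK, Hk⟩ := key hC hδ hδ1 hM0 hCe
  have hC0 : 0 < C₁ := by linarith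
  set L := Real.exp K with hL
  have hL1 : 1 ≤ L := Real.one_le_exp hK.le
  set c1 := Real.exp (1 / δ) * Cs * Real.exp (C₁ * (-Real.log δ + 2 * CM) + 133 * C₁ ^ 2 * Q)
    with hc1
  set c2 := Cs * (CK * Real.exp (6 * C₁ * L * (K * (1 + 2 * CM)) + 133 * C₁ ^ 2 * Q +
    C₁ * (2 * CM + 1)) * (42 * C₁ * L ^ 2)) * (1 + 2 * CM) with hc2
  set c3 := 3 * Real.exp (1 / δ) + 2 * Real.exp (1 / δ) with hc3
  set c4 := 6 * Ce with hc4
  have h1' : 0 ≤ c1 := by positivity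
  have h2' : 0 ≤ c2 := by positivity
  have h3' : 0 ≤ c3 := by positivity
  have h4' : 0 < c4 := by positivity
  have h5' : 0 ≤ 9 * C₁ * L ^ 2 := by positivity
  refine ⟨c1 + c2 + c3 + c4 + 9 * C₁ * L ^ 2, δ, by positivity, hδ, ?_⟩
  rintro Z X Y F g T ⟨hZ2, hX, hY, hF, hZ, h0, h1, h2⟩
  have hZ0 : 0 < Z := by linarith
  have hZ1 : 1 ≤ Z := by linarith
  have ht := half_le_log hZ2
  set z := Z ^ δ with hz
  have hz1 : 1 ≤ z := Real.one_le_rpow hZ1 hδ.le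
  have hz0 : 0 < z := by linarith
  have hlz : Real.log z = δ * Real.log Z := Real.log_rpow hZ0 δ
  have hzZ : z ≤ Z := by
    have := Real.rpow_le_rpow_of_exponent_le hZ1 hδ1
    rwa [Real.rpow_one] at this
  have hneg : Z ^ (-δ) = 1 / z := by rw [Real.rpow_neg hZ0.le, one_div]
  set τT := ∑ l ∈ T, 1 / (l : ℝ) with hτT
  have hτT0 : 0 ≤ τT := sum_nonneg fun l _ => by positivity
  set mn := ∑ l ∈ Pr Z, (g l 1 - 1) * th F l with hmn
  rw [hneg, mul_assoc _ (X : ℝ) Y]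
  refine fin_aux (E := Real.exp (mn + 9 * C₁ * L ^ 2 * τT)) (by positivity) (Real.exp_pos _).le
    (Real.exp_le_exp.2 (by nlinarith)) (by positivity) h1' h2' h3' h4'.le (by linarith) ?_
  have hE : 0 < Real.exp (mn + 9 * C₁ * L ^ 2 * τT) := Real.exp_pos _
  have hXY : (0 : ℝ) ≤ X * Y := by positivity
  by_cases hz2 : 2 ≤ z
  · have hzu : z ^ (24 * u) ≤ Z ^ η := by
      rw [hz, ← Real.rpow_natCast, ← Real.rpow_mul hZ0.le]
      exact Real.rpow_le_rpow_of_exponent_le hZ1 hδu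
    have hsv := Hs z X Y F hz2 (hzu.trans hX) (hzu.trans hY) hF fun l hl => th_prime h1 hl
    have hm := (hc.2.2.2.2.2 F hF).1
    have hτ0 : 0 ≤ Ce * Real.exp (δ * Real.log Z / 24) := by positivity
    have hτz : Ce * Real.exp (δ * Real.log Z / 24) ≤ Ce * z := by
      refine mul_le_mul_of_nonneg_left ?_ hCe.le
      rw [← Real.exp_log hz0, hlz, Real.exp_le_exp]
      have : 0 ≤ δ * Real.log Z := by positivity
      linarith
    refine (split h0 hz2 hZ hτ0 fun m hm1 hmZ => ?_).trans ?_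
    · refine (hτ m hm1).1.trans (mul_le_mul_of_nonneg_left ?_ hCe.le)
      refine (Real.rpow_le_rpow (by positivity) hmZ (by positivity)).trans (le_of_eq ?_)
      rw [Real.rpow_def_of_pos hZ0]; congr 1; ring
    have eA : Real.log Z / Real.log z = 1 / δ := by
      rw [hlz]; have : Real.log Z ≠ 0 := by linarith
      field_simp
    have sA := sumA hC h0 h1 h2 hm hQ hz1 hCs hsv
    have a1 := tail_main h0 h1 (Pr_mono hzZ) fun l hl => ((mem_Pr hZ0.le).1 hl).1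
    have a2 := abs_le.1 (hM Z hZ2).1
    have a3 := abs_le.1 (hM z hz2).1
    rw [hlz, Real.log_mul hδ.ne' (by linarith)] at a3
    have a4 : C₁ * (∑ l ∈ Pr Z, 1 / (l : ℝ) - ∑ l ∈ Pr z, 1 / (l : ℝ)) ≤
        C₁ * (-Real.log δ + 2 * CM) := mul_le_mul_of_nonneg_left (by linarith) hC0.le
    have a5 : 9 * C₁ * τT ≤ 9 * C₁ * L ^ 2 * τT := by
      have : 1 ≤ L ^ 2 := one_le_pow₀ hL1
      have := mul_le_mul_of_nonneg_left this (show 0 ≤ 9 * C₁ * τT by positivity)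
      linarith
    have a6 : Real.exp (∑ l ∈ Pr z, (g l 1 - 1) * th F l + 9 * C₁ * τT + 133 * C₁ ^ 2 * Q) ≤
        Real.exp (C₁ * (-Real.log δ + 2 * CM) + 133 * C₁ ^ 2 * Q) *
          Real.exp (mn + 9 * C₁ * L ^ 2 * τT) := by
      rw [← Real.exp_add, Real.exp_le_exp]; linarith
    have a7 : 3 * (X : ℝ) * Y / z ^ 16 ≤ 3 * X * Y / z :=
      div_le_div_of_nonneg_left (by positivity) hz0 (le_self_pow₀ hz1 (by norm_num))
    have a8 := mul_le_mul_of_nonneg_left a6 (show 0 ≤ Cs * X * Y by positivity)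
    have hA : Real.exp (Real.log Z / Real.log z) *
        ∑ a ∈ Sm (Pr z) ⌊z ^ 2⌋₊, wt g a * Nn F X Y a {l ∈ Pr z | ¬ l ∣ a} ≤
        X * Y * (c1 * Real.exp (mn + 9 * C₁ * L ^ 2 * τT) + 3 * Real.exp (1 / δ) * (1 / z)) := by
      rw [eA]
      refine (mul_le_mul_of_nonneg_left (sA.trans (add_le_add a8 a7))
        (Real.exp_pos _).le).trans (le_of_eq ?_)
      rw [hc1]; ring
    set G := CK * Real.exp (6 * C₁ * L * (K * (1 + 2 * CM)) + 133 * C₁ ^ 2 * Q +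
      C₁ * (2 * CM + 1)) * (42 * C₁ * L ^ 2) with hG
    have hG0 : 0 ≤ G := by positivity
    have hB1 : ∀ p ∈ Pr z, min (Real.exp (Real.log Z / Real.log p))
        (Ce * Real.exp (δ * Real.log Z / 24)) *
          ∑ x ∈ Bp z p, wt g x.1 * Nn F X Y (x.1 * p ^ x.2) {l ∈ Pl p | ¬ l ∣ x.1} ≤
        Cs * X * Y * (G / Real.log Z * Real.exp (mn + 9 * C₁ * L ^ 2 * τT)) * (Real.log p / p) +
          Ce * z * (3 * X * Y / z ^ 14) := by
      intro p hp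
      obtain ⟨hp1, hp2⟩ := (mem_Pr hz0.le).1 hp
      have hp0 : (0 : ℝ) < p := by exact_mod_cast hp1.pos
      obtain ⟨σ, s0, s1, s2, s3, s4⟩ := Hk (Real.log Z) (Real.log p) (by linarith)
        (half_le_log (by exact_mod_cast hp1.two_le))
      have hW : 0 ≤ min (Real.exp (Real.log Z / Real.log p))
        (Ce * Real.exp (δ * Real.log Z / 24)) := le_min (Real.exp_pos _).le hτ0
      have sB := sumB hC h0 h1 h2 hm hQ hz1 hCs hsv hp1 hp2 s0 s1 hL1 (by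
        rw [Real.rpow_def_of_pos hp0, hL, Real.exp_le_exp]; linarith)
      have tB := termB (τT := τT) (Q := Q) hC h0 h1 (fun x hx => ⟨(hM x hx).1, (hM x hx).2.1⟩)
        hp1 (hp2.trans hzZ) hW s0 hlz s3 s4
      have b1 := mul_le_mul_of_nonneg_left tB (show 0 ≤ Cs * X * Y by positivity)
      have b2 := mul_le_mul_of_nonneg_right ((min_le_right (Real.exp (Real.log Z / Real.log p))
        _).trans hτz) (show 0 ≤ 3 * (X : ℝ) * Y / z ^ 14 by positivity)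
      refine (mul_le_mul_of_nonneg_left sB hW).trans ?_
      rw [mul_add, mul_left_comm, mul_assoc (Cs * X * Y)]
      exact add_le_add b1 b2
    have hB2 := sum_le_sum hB1
    rw [sum_add_distrib, ← mul_sum, sum_const, nsmul_eq_mul] at hB2
    have b3 : ∑ p ∈ Pr z, Real.log p / p ≤ Real.log Z * (1 + 2 * CM) := by
      have c1 := (abs_le.1 (hM z hz2).2.1).2
      have c2 := Real.log_le_log hz0 hzZ
      nlinarith
    have b4 : (#(Pr z) : ℝ) ≤ 2 * z := by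
      have c1 : #(Pr z) ≤ ⌊z⌋₊ + 1 := (card_filter_le _ _).trans (by simp)
      have c2 : (#(Pr z) : ℝ) ≤ ⌊z⌋₊ + 1 := by exact_mod_cast c1
      have c3 := Nat.floor_le hz0.le
      linarith
    have b5 := mul_le_mul_of_nonneg_left b3 (show 0 ≤ Cs * X * Y *
      (G / Real.log Z * Real.exp (mn + 9 * C₁ * L ^ 2 * τT)) by positivity)
    have b6 : Cs * X * Y * (G / Real.log Z * Real.exp (mn + 9 * C₁ * L ^ 2 * τT)) *
        (Real.log Z * (1 + 2 * CM)) = X * Y * (c2 * Real.exp (mn + 9 * C₁ * L ^ 2 * τT)) := by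
      have : Real.log Z ≠ 0 := by linarith
      rw [hc2]; field_simp
    have b7 := mul_le_mul_of_nonneg_right b4
      (show 0 ≤ Ce * z * (3 * (X : ℝ) * Y / z ^ 14) by positivity)
    have b8 : 2 * z * (Ce * z * (3 * (X : ℝ) * Y / z ^ 14)) ≤ X * Y * (c4 * (1 / z)) := by
      have c1 : 2 * z * (Ce * z * (3 * (X : ℝ) * Y / z ^ 14)) = X * Y * (c4 * (1 / z ^ 12)) := by
        rw [hc4]; field_simp; ring
      rw [c1]
      gcongr
      exact le_self_pow₀ hz1 (by norm_num)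
    have b9 : 0 ≤ (X : ℝ) * Y * (2 * Real.exp (1 / δ) * (1 / z)) := by positivity
    rw [hc3]
    linarith
  · have hz2' : z < 2 := not_le.1 hz2
    have hZδ : Z ≤ Real.exp (1 / δ) := by
      rw [← Real.exp_log hZ0, Real.exp_le_exp, le_div_iff₀ hδ, mul_comm, ← hlz]
      have := Real.log_le_sub_one_of_pos hz0
      linarith
    have b1 : ∑ w ∈ range X ×ˢ range Y with F w.1 w.2 ≠ 0, wt g (F w.1 w.2).natAbs ≤
        #{w ∈ range X ×ˢ range Y | F w.1 w.2 ≠ 0} • Real.exp (1 / δ) := by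
      refine sum_le_card_nsmul _ _ _ fun w hw => ?_
      obtain ⟨hw1, hw2⟩ := mem_filter.1 hw
      refine (wt_le_self h0 (Int.natAbs_ne_zero.2 hw2)).trans (le_trans ?_ hZδ)
      rw [Nat.cast_natAbs, Int.cast_abs]
      exact hZ _ (mem_range.1 (mem_product.1 hw1).1) _ (mem_range.1 (mem_product.1 hw1).2)
    have b2 : #{w ∈ range X ×ˢ range Y | F w.1 w.2 ≠ 0} ≤ X * Y :=
      (card_filter_le _ _).trans (by simp)
    have b3 : (#{w ∈ range X ×ˢ range Y | F w.1 w.2 ≠ 0} : ℝ) ≤ X * Y := by exact_mod_cast b2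
    rw [nsmul_eq_mul] at b1
    refine b1.trans ((mul_le_mul_of_nonneg_right b3 (Real.exp_pos _).le).trans
      (mul_le_mul_of_nonneg_left ?_ hXY))
    have b4 : 1 / 2 ≤ 1 / z := one_div_le_one_div_of_le hz0 hz2'.le
    have b5 : 0 ≤ (c1 + c2) * Real.exp (mn + 9 * C₁ * L ^ 2 * τT) := by positivity
    have b6 : 2 * Real.exp (1 / δ) * (1 / 2) ≤ (c3 + c4) * (1 / z) := by
      refine mul_le_mul ?_ b4 (by norm_num) (by positivity)
      have := Real.exp_pos (1 / δ)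
      rw [hc3]; linarith
    linarith

end Pool.Agent.Lib.MP_9177b7_ag.EQ
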