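import Pool.Agent.Lib.MP_9177b7_ag.EQ.StN

/-!
The two-dimensional Shiu bound, first part: elementary lemmas.
-/

open Finset

noncomputable section

namespace Pool.Agent.Lib.MP_9177b7_ag.EQ

namespace SV1

theorem th_nonneg (F : ℤ → ℤ → ℤ) (a : ℕ) : 0 ≤ th F a := by
  unfold th; positivity

theorem th_le_one (F : ℤ → ℤ → ℤ) (a : ℕ) : th F a ≤ 1 := by
  unfold th
  apply div_le_one_of_le₀ _ (by positivity)
  have h := card_filter_le (range a ×ˢ range a) (fun w : ℕ × ℕ => (a : ℤ) ∣ F w.1 w.2)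
  rw [card_product, card_range] at h
  have h' : ((#{w ∈ range a ×ˢ range a | (a : ℤ) ∣ F w.1 w.2} : ℕ) : ℝ) ≤ ((a * a : ℕ) : ℝ) := by
    exact_mod_cast h
  push_cast at h'
  nlinarith [h']

theorem th_one (F : ℤ → ℤ → ℤ) : th F 1 = 1 := by
  unfold th; simp

theorem th_eq_prod (F : ℤ → ℤ → ℤ) (hm : ∀ a b : ℕ, a.Coprime b → th F (a * b) = th F a * th F b)
    {a : ℕ} (ha : a ≠ 0) : th F a = ∏ l ∈ a.primeFactors, th F (l ^ a.factorization l) := by
  rw [Nat.multiplicative_factorization (th F) hm (th_one F) ha]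
  rfl

theorem wt_nonneg {g : ℕ → ℕ → ℝ} (h0 : ∀ l k, 0 ≤ g l k ∧ g l k ≤ k + 1) (m : ℕ) :
    0 ≤ wt g m := prod_nonneg fun l _ => (h0 l _).1

theorem prod_le_tau {g : ℕ → ℕ → ℝ} (h0 : ∀ l k, 0 ≤ g l k ∧ g l k ≤ k + 1) {m : ℕ} (hm : m ≠ 0)
    (s : Finset ℕ) (hs : s ⊆ m.primeFactors) :
    ∏ l ∈ s, g l (m.factorization l) ≤ tau m := by
  have h1 : ∏ l ∈ s, g l (m.factorization l) ≤ ∏ l ∈ s, ((m.factorization l : ℝ) + 1) :=
    prod_le_prod (fun l _ => (h0 l _).1) fun l _ => (h0 l _).2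
  have h2 : ∏ l ∈ s, (m.factorization l + 1) ≤ ∏ l ∈ m.primeFactors, (m.factorization l + 1) :=
    prod_le_prod_of_subset_of_one_le' hs fun l _ _ => by omega
  have h3 : tau m = ∏ l ∈ m.primeFactors, (m.factorization l + 1) := Nat.card_divisors hm
  rw [h3]
  refine h1.trans ?_
  exact_mod_cast h2

theorem wt_le_self {g : ℕ → ℕ → ℝ} (h0 : ∀ l k, 0 ≤ g l k ∧ g l k ≤ k + 1) {m : ℕ} (hm : m ≠ 0) :
    wt g m ≤ m := by
  refine (prod_le_tau h0 hm _ subset_rfl).trans ?_
  exact_mod_cast Nat.card_divisors_le_self m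

theorem prod_le_exp {g : ℕ → ℕ → ℝ} (h0 : ∀ l k, 0 ≤ g l k ∧ g l k ≤ k + 1) {m : ℕ}
    (s : Finset ℕ) (hs : s ⊆ m.primeFactors) {y t : ℝ} (hy : 0 < y)
    (hl : ∀ l ∈ s, y ≤ Real.log l) (ht : Real.log m ≤ t) :
    ∏ l ∈ s, g l (m.factorization l) ≤ Real.exp (t / y) := by
  have h1 : ∏ l ∈ s, g l (m.factorization l) ≤ ∏ l ∈ s, Real.exp (m.factorization l : ℝ) :=
    prod_le_prod (fun l _ => (h0 l _).1) fun l _ => (h0 l _).2.trans (Real.add_one_le_exp _)
  refine h1.trans ?_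
  rw [← Real.exp_sum, Real.exp_le_exp, le_div_iff₀ hy, sum_mul]
  refine le_trans ?_ ht
  rw [Real.log_nat_eq_sum_factorization]
  calc ∑ l ∈ s, (m.factorization l : ℝ) * y ≤ ∑ l ∈ s, (m.factorization l : ℝ) * Real.log l :=
        sum_le_sum fun l h => mul_le_mul_of_nonneg_left (hl l h) (by positivity)
    _ ≤ ∑ l ∈ m.primeFactors, (m.factorization l : ℝ) * Real.log l :=
        sum_le_sum_of_subset_of_nonneg hs fun l _ _ =>
          mul_nonneg (by positivity) (Real.log_natCast_nonneg l)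
    _ = _ := rfl

theorem rpow_eq_prod {a : ℕ} (ha : a ≠ 0) (σ : ℝ) :
    (a : ℝ) ^ σ = ∏ l ∈ a.primeFactors, ((l : ℝ) ^ σ) ^ a.factorization l := by
  have h : (a : ℝ) = ∏ l ∈ a.primeFactors, (l : ℝ) ^ a.factorization l := by
    conv_lhs => rw [← Nat.prod_factorization_pow_eq_self ha]
    rw [Finsupp.prod]; push_cast; rfl
  conv_lhs => rw [h]
  rw [← Real.finsetProd_rpow _ _ (fun l _ => by positivity)]
  exact prod_congr rfl fun l _ => (Real.rpow_pow_comm (by positivity) _ _).symm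

/-- A finite Euler product dominates the sum over smooth numbers. -/
theorem euler (P : Finset ℕ) (J : ℕ) (h : ℕ → ℕ → ℝ) (hh : ∀ l k, 0 ≤ h l k) (A : Finset ℕ)
    (hA : ∀ a ∈ A, a ≠ 0 ∧ a.primeFactors ⊆ P ∧ a ≤ J) :
    ∑ a ∈ A, ∏ l ∈ a.primeFactors, h l (a.factorization l) ≤
      ∏ l ∈ P, (1 + ∑ k ∈ Icc 1 J, h l k) := by
  classical
  set h' : ℕ → ℕ → ℝ := fun l k => if k = 0 then 1 else h l k with hh'
  have h'0 : ∀ l k, 0 ≤ h' l k := fun l k => by
    simp only [hh']; split_ifs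
    · exact zero_le_one
    · exact hh l k
  have e1 : ∀ l, 1 + ∑ k ∈ Icc 1 J, h l k = ∑ k ∈ range (J + 1), h' l k := fun l => by
    rw [range_eq_Ico, sum_eq_sum_Ico_succ_bot (by omega)]
    congr 1
    refine sum_congr (by ext k; simp only [mem_Icc, mem_Ico]; omega) fun k hk => ?_
    have : k ≠ 0 := by have := (mem_Ico.1 hk).1; omega
    simp [hh', this]
  simp only [e1]
  rw [← prod_coe_sort P, prod_univ_sum]
  set ψ : ℕ → (P → ℕ) := fun a i => a.factorization i with hψ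
  have hinj : Set.InjOn ψ A := by
    intro a ha b hb hab
    obtain ⟨ha0, haP, -⟩ := hA a ha
    obtain ⟨hb0, hbP, -⟩ := hA b hb
    refine Nat.eq_of_factorization_eq ha0 hb0 fun p => ?_
    by_cases hp : p ∈ P
    · exact congrFun hab ⟨p, hp⟩
    · have h1 : a.factorization p = 0 := by
        rw [← Finsupp.notMem_support_iff]; exact fun h => hp (haP h)
      have h2 : b.factorization p = 0 := by
        rw [← Finsupp.notMem_support_iff]; exact fun h => hp (hbP h)
      rw [h1, h2]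
  have e2 : ∀ a ∈ A, ∏ l ∈ a.primeFactors, h l (a.factorization l) =
      ∏ i : P, h' i (ψ a i) := fun a ha => by
    obtain ⟨ha0, haP, -⟩ := hA a ha
    rw [prod_coe_sort P (fun l => h' l (a.factorization l))]
    symm
    refine (prod_subset haP fun l _ hl => ?_).symm.trans (prod_congr rfl fun l hl => ?_)
    · have h1 : a.factorization l = 0 := by
        rw [← Finsupp.notMem_support_iff]; exact hl
      simp [hh', h1]
    · have h1 : a.factorization l ≠ 0 := by
        rw [← Finsupp.mem_support_iff]; exact hl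
      simp [hh', h1]
  rw [sum_congr rfl e2, ← sum_image (f := fun φ : P → ℕ => ∏ i : P, h' i (φ i)) hinj]
  refine sum_le_sum_of_subset_of_nonneg ?_ fun φ _ _ => prod_nonneg fun i _ => h'0 _ _
  intro φ hφ
  obtain ⟨a, ha, rfl⟩ := mem_image.1 hφ
  obtain ⟨ha0, -, haJ⟩ := hA a ha
  rw [Fintype.mem_piFinset]
  intro i
  have := Nat.factorization_lt (i : ℕ) ha0
  simp only [hψ, mem_range]; omega

/-- Double counting. -/
theorem cover {α ι : Type*} (S S' : Finset α) (hS : S ⊆ S') (I : Finset ι) (f : α → ℝ) (c : ι → ℝ)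
    (q : ι → α → Prop) [∀ i, DecidablePred (q i)] (hc : ∀ i ∈ I, 0 ≤ c i)
    (h : ∀ w ∈ S, ∃ i ∈ I, q i w ∧ f w ≤ c i) :
    ∑ w ∈ S, f w ≤ ∑ i ∈ I, c i * #{w ∈ S' | q i w} := by
  have h1 : ∑ w ∈ S, f w ≤ ∑ w ∈ S, ∑ i ∈ I, (if q i w then c i else 0) := by
    refine sum_le_sum fun w hw => ?_
    obtain ⟨i, hi, hq, hf⟩ := h w hw
    refine hf.trans (le_trans ?_ (single_le_sum (f := fun i => if q i w then c i else 0)
      (fun j hj => by split_ifs; exacts [hc j hj, le_rfl]) hi))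
    simp [hq]
  have h2 : ∑ w ∈ S, ∑ i ∈ I, (if q i w then c i else 0) ≤
      ∑ w ∈ S', ∑ i ∈ I, (if q i w then c i else 0) :=
    sum_le_sum_of_subset_of_nonneg hS fun w _ _ =>
      sum_nonneg fun j hj => by split_ifs; exacts [hc j hj, le_rfl]
  refine h1.trans (h2.trans (le_of_eq ?_))
  rw [sum_comm]
  refine sum_congr rfl fun i _ => ?_
  rw [← sum_filter, sum_const, nsmul_eq_mul, mul_comm]

/-- The part of `m` made of the primes below `n`. -/
def lo (m n : ℕ) : ℕ := (m.factorization.filter (· < n)).prod (· ^ ·)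

theorem lo_fact (m n : ℕ) : (lo m n).factorization = m.factorization.filter (· < n) := by
  refine Nat.prod_pow_factorization_eq_self fun p hp => ?_
  rw [Finsupp.support_filter] at hp
  exact Nat.prime_of_mem_primeFactors (mem_filter.1 hp).1

theorem lo_pf (m n : ℕ) : (lo m n).primeFactors = m.primeFactors.filter (· < n) := by
  rw [← Nat.support_factorization, lo_fact, Finsupp.support_filter, Nat.support_factorization]

theorem lo_eq (m n : ℕ) :
    lo m n = ∏ l ∈ m.primeFactors.filter (· < n), l ^ m.factorization l := by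
  unfold lo
  rw [Finsupp.prod, Finsupp.support_filter, Nat.support_factorization]
  refine prod_congr rfl fun l hl => ?_
  rw [Finsupp.filter_apply, if_pos (mem_filter.1 hl).2]

theorem lo_ne (m n : ℕ) : lo m n ≠ 0 := by
  rw [lo_eq]
  exact prod_ne_zero_iff.2 fun l hl =>
    pow_ne_zero _ (Nat.prime_of_mem_primeFactors (mem_filter.1 hl).1).ne_zero

theorem lo_dvd {m : ℕ} (hm : m ≠ 0) (n : ℕ) : lo m n ∣ m := by
  rw [← Nat.factorization_le_iff_dvd (lo_ne m n) hm, lo_fact]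
  intro l
  rw [Finsupp.filter_apply]; split_ifs <;> simp

theorem lo_zero (m : ℕ) : lo m 0 = 1 := by rw [lo_eq]; simp

theorem lo_succ (m n : ℕ) : lo m (n + 1) = lo m n * n ^ m.factorization n := by
  rw [lo_eq, lo_eq]
  by_cases h : n ∈ m.primeFactors
  · have : m.primeFactors.filter (· < n + 1) = insert n (m.primeFactors.filter (· < n)) := by
      ext l; simp only [mem_filter, mem_insert]
      constructor
      · rintro ⟨h1, h2⟩
        by_cases hl : l = n
        · exact Or.inl hl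
        · exact Or.inr ⟨h1, by omega⟩
      · rintro (rfl | ⟨h1, h2⟩)
        · exact ⟨h, by omega⟩
        · exact ⟨h1, by omega⟩
    rw [this, prod_insert (by simp), mul_comm]
  · have h1 : m.factorization n = 0 := by
      rw [← Finsupp.notMem_support_iff]; exact h
    rw [h1, pow_zero, mul_one]
    refine prod_congr ?_ fun _ _ => rfl
    ext l; simp only [mem_filter]
    constructor
    · rintro ⟨h1, h2⟩
      have : l ≠ n := fun e => h (e ▸ h1)
      exact ⟨h1, by omega⟩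
    · rintro ⟨h1, h2⟩
      exact ⟨h1, by omega⟩

theorem lo_not_dvd {m : ℕ} (hm : m ≠ 0) {n l : ℕ} (hl : l.Prime) (hn : l < n) (h : ¬ l ∣ lo m n) :
    ¬ l ∣ m := fun h' => h <| Nat.dvd_of_mem_primeFactors <| by
  rw [lo_pf]; exact mem_filter.2 ⟨Nat.mem_primeFactors.2 ⟨hl, h', hm⟩, hn⟩

theorem wt_lo (g : ℕ → ℕ → ℝ) (m n : ℕ) : wt g m = wt g (lo m n) *
    ∏ l ∈ m.primeFactors.filter (fun l => ¬ l < n), g l (m.factorization l) := by
  unfold wt
  rw [← prod_filter_mul_prod_filter_not m.primeFactors (· < n), lo_pf, lo_fact]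
  congr 1
  refine prod_congr rfl fun l hl => ?_
  rw [Finsupp.filter_apply, if_pos (mem_filter.1 hl).2]

/-- The primes below `p`. -/
def Pl (p : ℕ) : Finset ℕ := (range p).filter Nat.Prime

theorem lo_sub (m n : ℕ) : (lo m n).primeFactors ⊆ Pl n := by
  rw [lo_pf]
  intro l hl
  exact mem_filter.2 ⟨mem_range.2 (mem_filter.1 hl).2,
    Nat.prime_of_mem_primeFactors (mem_filter.1 hl).1⟩

/-- Shiu's decomposition. -/
theorem decomp {m : ℕ} (hm : m ≠ 0) {V : ℝ} (hV : 1 ≤ V) (N : ℕ) :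
    (lo m N : ℝ) ≤ V ∨ ∃ p ∈ Pl N, ∃ j, 1 ≤ j ∧ V < ((lo m p * p ^ j : ℕ) : ℝ) ∧
      ((lo m p * p ^ j : ℕ) : ℝ) ≤ V * p ∧ lo m p * p ^ j ∣ m := by
  classical
  by_cases hN : (lo m N : ℝ) ≤ V
  · exact Or.inl hN
  right
  have hex : ∃ n, V < (lo m n : ℝ) := ⟨N, not_le.1 hN⟩
  have hn := Nat.find_spec hex
  have hnN : Nat.find hex ≤ N := Nat.find_min' hex (not_le.1 hN)
  have hn0 : Nat.find hex ≠ 0 := by
    intro h; rw [h, lo_zero] at hn; push_cast at hn; linarith
  obtain ⟨p, hp⟩ := Nat.exists_eq_succ_of_ne_zero hn0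
  have hp1 : (lo m p : ℝ) ≤ V := not_lt.1 (Nat.find_min hex (by omega))
  rw [hp, Nat.succ_eq_add_one, lo_succ] at hn
  have hv : m.factorization p ≠ 0 := by
    intro h; rw [h, pow_zero, mul_one] at hn; linarith
  have hpp : p.Prime := Nat.prime_of_mem_primeFactors (Finsupp.mem_support_iff.2 hv)
  have hex2 : ∃ j, V < ((lo m p * p ^ j : ℕ) : ℝ) := ⟨_, hn⟩
  have hj := Nat.find_spec hex2
  have hjv : Nat.find hex2 ≤ m.factorization p := Nat.find_min' hex2 hn
  have hj0 : Nat.find hex2 ≠ 0 := by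
    intro h; rw [h, pow_zero, mul_one] at hj; linarith
  obtain ⟨i, hi⟩ := Nat.exists_eq_succ_of_ne_zero hj0
  have hi1 : ((lo m p * p ^ i : ℕ) : ℝ) ≤ V := not_lt.1 (Nat.find_min hex2 (by omega))
  refine ⟨p, mem_filter.2 ⟨mem_range.2 (by omega), hpp⟩, Nat.find hex2, by omega, hj, ?_, ?_⟩
  · rw [hi, Nat.succ_eq_add_one, pow_succ, ← mul_assoc, Nat.cast_mul]
    exact mul_le_mul_of_nonneg_right hi1 (by positivity)
  · refine dvd_trans ?_ (lo_dvd hm (p + 1))
    rw [lo_succ]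
    exact Nat.mul_dvd_mul_left _ (pow_dvd_pow _ hjv)

end SV1

end Pool.Agent.Lib.MP_9177b7_ag.EQ
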