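import Pool.Agent.Lib.MP_9177b7_ag.EQ.SV1a

/-!
The two-dimensional Shiu bound, second part: local factors and Rankin's trick.
-/

open Finset

noncomputable section

namespace Pool.Agent.Lib.MP_9177b7_ag.EQ

namespace SV1

/-- The twelfth root. -/
def xr (l : ℕ) : ℝ := (l : ℝ) ^ (1 / 12 : ℝ)

theorem xr_pow (l : ℕ) : xr l ^ 12 = l := by
  unfold xr
  rw [← Real.rpow_natCast, ← Real.rpow_mul (by positivity)]
  norm_num

theorem one_le_xr {l : ℕ} (hl : 1 ≤ l) : 1 ≤ xr l :=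
  Real.one_le_rpow (by exact_mod_cast hl) (by norm_num)

theorem xr_five {l : ℕ} (hl : 2 ≤ l) : 5 / 4 ≤ xr l ^ 5 := by
  by_contra h
  have h1 : xr l ^ 5 < 5 / 4 := not_le.1 h
  have h0 : 0 ≤ xr l ^ 5 := pow_nonneg (le_trans zero_le_one (one_le_xr (by omega))) _
  have h2 : (xr l ^ 5) ^ 12 ≤ (5 / 4 : ℝ) ^ 12 := pow_le_pow_left₀ h0 h1.le _
  have h3 : (xr l ^ 5) ^ 12 = (l : ℝ) ^ 5 := by rw [← pow_mul, mul_comm, pow_mul, xr_pow]
  have h4 : (2 : ℝ) ^ 5 ≤ (l : ℝ) ^ 5 := pow_le_pow_left₀ (by norm_num) (by exact_mod_cast hl) _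
  rw [h3] at h2
  norm_num at h2 h4
  linarith

theorem exists_Q : ∃ Q : ℝ, 0 ≤ Q ∧ ∀ P : Finset ℕ, ∑ l ∈ P, 1 / xr l ^ 15 ≤ Q := by
  have e : ∀ l : ℕ, 1 / xr l ^ 15 = 1 / (l : ℝ) ^ (5 / 4 : ℝ) := fun l => by
    unfold xr
    rw [← Real.rpow_natCast, ← Real.rpow_mul (by positivity)]
    norm_num
  have hs : Summable fun l : ℕ => 1 / (l : ℝ) ^ (5 / 4 : ℝ) :=
    Real.summable_one_div_nat_rpow.2 (by norm_num)
  refine ⟨∑' l : ℕ, 1 / (l : ℝ) ^ (5 / 4 : ℝ), tsum_nonneg fun l => by positivity, fun P => ?_⟩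
  simp only [e]
  exact hs.sum_le_tsum P fun l _ => by positivity

theorem geo (n : ℕ) : ∑ i ∈ range n, ((i : ℝ) + 4) * (4 / 5) ^ i ≤ 40 := by
  have h : ∑ i ∈ range n, ((i : ℝ) + 4) * (4 / 5) ^ i = 40 - (5 * n + 40) * (4 / 5) ^ n := by
    induction n with
    | zero => simp
    | succ n ih => rw [sum_range_succ, ih]; push_cast; ring
  rw [h]
  have : 0 ≤ (5 * (n : ℝ) + 40) * (4 / 5) ^ n := by positivity
  linarith

theorem sum_split (u : ℕ → ℝ) (hu : ∀ k, 0 ≤ u k) (J : ℕ) :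
    ∑ k ∈ Icc 1 J, u k ≤ u 1 + u 2 + ∑ i ∈ range J, u (i + 3) := by
  have h1 : ∑ k ∈ Icc 1 J, u k ≤ ∑ k ∈ Ico 1 (J + 3), u k :=
    sum_le_sum_of_subset_of_nonneg (fun k hk => by
      simp only [mem_Icc, mem_Ico] at hk ⊢; omega) fun k _ _ => hu k
  refine h1.trans (le_of_eq ?_)
  rw [sum_eq_sum_Ico_succ_bot (by omega), sum_eq_sum_Ico_succ_bot (by omega), range_eq_Ico,
    sum_Ico_add' u 0 J 3]
  simp only [add_assoc, Nat.reduceAdd, zero_add]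

section loc

variable {C₁ : ℝ} {F : ℤ → ℤ → ℤ} {g : ℕ → ℕ → ℝ} {T : Finset ℕ}

theorem rpow_le_xr {l : ℕ} (hl : 1 ≤ l) {σ : ℝ} (hσ : σ ≤ 1 / 12) : (l : ℝ) ^ σ ≤ xr l :=
  Real.rpow_le_rpow_of_exponent_le (by exact_mod_cast hl) hσ

theorem tail_term (hC : 1 ≤ C₁)
    (h1 : ∀ l k : ℕ, l.Prime → 1 ≤ k → th F (l ^ k) ≤ C₁ / (l : ℝ) ^ ((k + 1) / 2))
    {l : ℕ} (hl : l.Prime) {σ : ℝ} (hσ : σ ≤ 1 / 12) (i : ℕ) :
    th F (l ^ (i + 3)) * ((l : ℝ) ^ σ) ^ (i + 3) ≤ C₁ / xr l ^ 15 * (4 / 5) ^ i := by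
  have hx := one_le_xr hl.one_le
  have hx0 : 0 < xr l := by linarith
  have a1 : th F (l ^ (i + 3)) ≤ C₁ / xr l ^ (6 * (i + 3)) := by
    refine (h1 l _ hl (by omega)).trans ?_
    refine div_le_div_of_nonneg_left (by linarith) (by positivity) ?_
    rw [← xr_pow l, ← pow_mul]
    exact pow_le_pow_right₀ hx (by omega)
  have a2 : ((l : ℝ) ^ σ) ^ (i + 3) ≤ xr l ^ (i + 3) :=
    pow_le_pow_left₀ (by positivity) (rpow_le_xr hl.one_le hσ) _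
  have a3 : (1 / xr l ^ 5) ^ i ≤ (4 / 5 : ℝ) ^ i := by
    refine pow_le_pow_left₀ (by positivity) ?_ _
    rw [div_le_iff₀ (by positivity)]
    have := xr_five hl.two_le
    linarith
  calc th F (l ^ (i + 3)) * ((l : ℝ) ^ σ) ^ (i + 3)
      ≤ C₁ / xr l ^ (6 * (i + 3)) * xr l ^ (i + 3) :=
        mul_le_mul a1 a2 (by positivity) (by positivity)
    _ = C₁ / xr l ^ 15 * (1 / xr l ^ 5) ^ i := by
        rw [div_pow, one_pow, ← pow_mul]; field_simp; ring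
    _ ≤ _ := mul_le_mul_of_nonneg_left a3 (by positivity)

theorem tail_sum (hC : 1 ≤ C₁)
    (h1 : ∀ l k : ℕ, l.Prime → 1 ≤ k → th F (l ^ k) ≤ C₁ / (l : ℝ) ^ ((k + 1) / 2))
    {l : ℕ} (hl : l.Prime) {σ : ℝ} (hσ : σ ≤ 1 / 12) (J : ℕ) (c : ℕ → ℝ)
    (hc : ∀ k, c k ≤ k + 1) :
    ∑ i ∈ range J, c (i + 3) * (th F (l ^ (i + 3)) * ((l : ℝ) ^ σ) ^ (i + 3)) ≤
      40 * C₁ / xr l ^ 15 := by
  have hx := one_le_xr hl.one_le
  have hx0 : 0 < xr l := by linarith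
  calc _ ≤ ∑ i ∈ range J, C₁ / xr l ^ 15 * (((i : ℝ) + 4) * (4 / 5) ^ i) := by
        refine sum_le_sum fun i _ => ?_
        have a1 := tail_term hC h1 hl hσ i
        have a2 : c (i + 3) ≤ (i : ℝ) + 4 := by have := hc (i + 3); push_cast at this; linarith
        have a3 : 0 ≤ th F (l ^ (i + 3)) * ((l : ℝ) ^ σ) ^ (i + 3) :=
          mul_nonneg (th_nonneg _ _) (by positivity)
        calc _ ≤ ((i : ℝ) + 4) * (C₁ / xr l ^ 15 * (4 / 5) ^ i) :=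
              mul_le_mul a2 a1 a3 (by positivity)
          _ = _ := by ring
    _ ≤ C₁ / xr l ^ 15 * 40 := by
        rw [← mul_sum]
        exact mul_le_mul_of_nonneg_left (geo J) (by positivity)
    _ = _ := by ring

theorem th_prime
    (h1 : ∀ l k : ℕ, l.Prime → 1 ≤ k → th F (l ^ k) ≤ C₁ / (l : ℝ) ^ ((k + 1) / 2))
    {l : ℕ} (hl : l.Prime) : th F l ≤ C₁ / l := by
  simpa using h1 l 1 hl le_rfl

/-- The factor of the largest prime. -/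
theorem pfac (hC : 1 ≤ C₁)
    (h1 : ∀ l k : ℕ, l.Prime → 1 ≤ k → th F (l ^ k) ≤ C₁ / (l : ℝ) ^ ((k + 1) / 2))
    {p : ℕ} (hp : p.Prime) {σ L : ℝ} (hσ : σ ≤ 1 / 12) (hL : 1 ≤ L) (hpL : (p : ℝ) ^ σ ≤ L)
    (J : ℕ) : ∑ j ∈ Icc 1 J, th F (p ^ j) * ((p : ℝ) ^ σ) ^ j ≤ 42 * C₁ * L ^ 2 / p := by
  have hx := one_le_xr hp.one_le
  have hp0 : (0 : ℝ) < p := by exact_mod_cast hp.pos
  have hr0 : 0 ≤ (p : ℝ) ^ σ := by positivity
  refine (sum_split (fun j => th F (p ^ j) * ((p : ℝ) ^ σ) ^ j)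
    (fun j => mul_nonneg (th_nonneg _ _) (by positivity)) J).trans ?_
  have a3 := tail_sum hC h1 hp hσ J (fun _ => 1) (fun k => by
    have : (0 : ℝ) ≤ k := by positivity
    linarith)
  simp only [one_mul] at a3
  have a1 : th F (p ^ 1) * ((p : ℝ) ^ σ) ^ 1 ≤ C₁ / p * L ^ 2 := by
    refine mul_le_mul (by simpa using h1 p 1 hp le_rfl) ?_ (by positivity) (by positivity)
    nlinarith
  have a2 : th F (p ^ 2) * ((p : ℝ) ^ σ) ^ 2 ≤ C₁ / p * L ^ 2 :=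
    mul_le_mul (by simpa using h1 p 2 hp (by norm_num)) (pow_le_pow_left₀ hr0 hpL _)
      (by positivity) (by positivity)
  have a4 : 40 * C₁ / xr p ^ 15 ≤ 40 * (C₁ / p * L ^ 2) := by
    have b1 : (p : ℝ) ≤ xr p ^ 15 := by
      rw [← xr_pow p]
      nth_rewrite 2 [show xr p = xr p from rfl]
      exact pow_le_pow_right₀ hx (by norm_num)
    have b2 : 40 * C₁ / xr p ^ 15 ≤ 40 * C₁ / p :=
      div_le_div_of_nonneg_left (by linarith) hp0 b1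
    have b3 : 1 ≤ L ^ 2 := one_le_pow₀ hL
    have b4 : 0 ≤ C₁ / p := by positivity
    have b5 : 40 * C₁ / p = 40 * (C₁ / p) := by ring
    nlinarith
  have e : 42 * C₁ * L ^ 2 / p = 42 * (C₁ / p * L ^ 2) := by ring
  linarith

theorem exp_le_two {θ : ℝ} (hθ0 : 0 ≤ θ) (hθ1 : θ ≤ 1) : Real.exp θ ≤ 1 + 2 * θ := by
  have := Real.abs_exp_sub_one_le (x := θ) (by rw [abs_of_nonneg hθ0]; exact hθ1)
  rw [abs_of_nonneg hθ0] at this
  have := le_abs_self (Real.exp θ - 1)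
  linarith

theorem one_aux {θ c y L γ : ℝ} (hθ0 : 0 ≤ θ) (hθ1 : θ ≤ 1) (hθ2 : θ ≤ c) (hy : 0 ≤ y)
    (hL : Real.exp y ≤ L) (g0 : 0 ≤ γ) (g1 : γ ≤ 2) :
    Real.exp θ * (γ * (θ * Real.exp y)) ≤ γ * θ + 6 * c * (y * L) + 4 * c ^ 2 := by
  have he2 := exp_le_two hθ0 hθ1
  have hr1 : 1 ≤ Real.exp y := Real.one_le_exp hy
  have he1 : 1 ≤ Real.exp θ := Real.one_le_exp hθ0
  have b1 : Real.exp y - 1 ≤ y * L := by
    have c2 : 1 - y ≤ Real.exp (-y) := by have := Real.add_one_le_exp (-y); linarith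
    have c3 : Real.exp (-y) * Real.exp y = 1 := by rw [← Real.exp_add]; simp
    have c4 := mul_le_mul_of_nonneg_right c2 (Real.exp_pos y).le
    have c5 := mul_le_mul_of_nonneg_left hL hy
    linarith
  have b2 : Real.exp θ * Real.exp y - 1 ≤ 3 * (y * L) + 2 * c := by
    have c1 : Real.exp θ * (Real.exp y - 1) ≤ 3 * (y * L) :=
      mul_le_mul (by linarith) b1 (by linarith) (by norm_num)
    linarith
  have b3 : γ * θ ≤ 2 * c := mul_le_mul g1 hθ2 hθ0 (by norm_num)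
  have b4 : 0 ≤ Real.exp θ * Real.exp y - 1 := by
    have := mul_le_mul he1 hr1 zero_le_one (by linarith)
    linarith
  have b5 : γ * θ * (Real.exp θ * Real.exp y - 1) ≤ 2 * c * (3 * (y * L) + 2 * c) :=
    mul_le_mul b3 b2 b4 (by linarith)
  linarith

theorem loc_one (hC : 1 ≤ C₁) (h0 : ∀ l k, 0 ≤ g l k ∧ g l k ≤ k + 1)
    (h1 : ∀ l k : ℕ, l.Prime → 1 ≤ k → th F (l ^ k) ≤ C₁ / (l : ℝ) ^ ((k + 1) / 2))
    {l : ℕ} (hl : l.Prime) {σ L : ℝ} (hσ0 : 0 ≤ σ) (hlL : (l : ℝ) ^ σ ≤ L) :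
    Real.exp (th F l) * (g l 1 * (th F (l ^ 1) * ((l : ℝ) ^ σ) ^ 1)) ≤
      g l 1 * th F l + 6 * C₁ * L * σ * (Real.log l / l) + 4 * C₁ ^ 2 * (1 / xr l ^ 15) := by
  have hx := one_le_xr hl.one_le
  have hx0 : 0 < xr l := by linarith
  have hl0 : (0 : ℝ) < l := by exact_mod_cast hl.pos
  have c1 : (l : ℝ) ^ σ = Real.exp (σ * Real.log l) := by
    rw [Real.rpow_def_of_pos hl0, mul_comm]
  rw [pow_one, pow_one, c1]
  rw [c1] at hlL
  have g1 : g l 1 ≤ 2 := by have := (h0 l 1).2; norm_num at this; exact this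
  have b := one_aux (th_nonneg F l) (th_le_one F l) (th_prime h1 hl)
    (mul_nonneg hσ0 (Real.log_natCast_nonneg l)) hlL (h0 l 1).1 g1
  have b6 : (C₁ / l) ^ 2 = C₁ ^ 2 * (1 / xr l ^ 24) := by
    have : xr l ^ 24 = (l : ℝ) ^ 2 := by rw [← xr_pow l]; ring
    rw [this]; ring
  have b7 : 1 / xr l ^ 24 ≤ 1 / xr l ^ 15 :=
    one_div_le_one_div_of_le (by positivity) (pow_le_pow_right₀ hx (by norm_num))
  have b8 := mul_le_mul_of_nonneg_left b7 (sq_nonneg C₁)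
  have b9 : 6 * (C₁ / l) * (σ * Real.log l * L) = 6 * C₁ * L * σ * (Real.log l / l) := by ring
  linarith

theorem loc_two (hC : 1 ≤ C₁) (h0 : ∀ l k, 0 ≤ g l k ∧ g l k ≤ k + 1)
    (h1 : ∀ l k : ℕ, l.Prime → 1 ≤ k → th F (l ^ k) ≤ C₁ / (l : ℝ) ^ ((k + 1) / 2))
    (h2 : ∀ l : ℕ, l.Prime → l ∉ T → (∀ k, 2 ≤ k → g l k = 0) ∨ th F (l ^ 2) ≤ C₁ / (l : ℝ) ^ 2)
    {l : ℕ} (hl : l.Prime) {σ L : ℝ} (hσ : σ ≤ 1 / 12) (hlL : (l : ℝ) ^ σ ≤ L) :
    g l 2 * (th F (l ^ 2) * ((l : ℝ) ^ σ) ^ 2) ≤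
      3 * C₁ * L ^ 2 * (if l ∈ T then 1 / (l : ℝ) else 0) + 3 * C₁ * (1 / xr l ^ 15) := by
  have hx := one_le_xr hl.one_le
  have hx0 : 0 < xr l := by linarith
  have hl0 : (0 : ℝ) < l := by exact_mod_cast hl.pos
  have hC0 : 0 < C₁ := by linarith
  have hr0 : 0 ≤ (l : ℝ) ^ σ := by positivity
  have g2 : g l 2 ≤ 3 := by have := (h0 l 2).2; norm_num at this; exact this
  have hrr : ((l : ℝ) ^ σ) ^ 2 ≤ L ^ 2 := pow_le_pow_left₀ hr0 hlL _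
  by_cases hT : l ∈ T
  · rw [if_pos hT]
    have b1 : th F (l ^ 2) ≤ C₁ / l := by simpa using h1 l 2 hl (by norm_num)
    have b2 : g l 2 * (th F (l ^ 2) * ((l : ℝ) ^ σ) ^ 2) ≤ 3 * (C₁ / l * L ^ 2) :=
      mul_le_mul g2 (mul_le_mul b1 hrr (by positivity) (by positivity))
        (mul_nonneg (th_nonneg _ _) (by positivity)) (by norm_num)
    have b3 : 3 * (C₁ / l * L ^ 2) = 3 * C₁ * L ^ 2 * (1 / l) := by ring
    have b4 : 0 ≤ 3 * C₁ * (1 / xr l ^ 15) := by positivity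
    linarith
  · rw [if_neg hT, mul_zero, zero_add]
    rcases h2 l hl hT with h | h
    · rw [h 2 le_rfl, zero_mul]; positivity
    · have b1 : ((l : ℝ) ^ σ) ^ 2 ≤ xr l ^ 2 := pow_le_pow_left₀ hr0 (rpow_le_xr hl.one_le hσ) _
      have b2 : g l 2 * (th F (l ^ 2) * ((l : ℝ) ^ σ) ^ 2) ≤ 3 * (C₁ / (l : ℝ) ^ 2 * xr l ^ 2) :=
        mul_le_mul g2 (mul_le_mul h b1 (by positivity) (by positivity))
          (mul_nonneg (th_nonneg _ _) (by positivity)) (by norm_num)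
      refine b2.trans ?_
      have b3 : C₁ / (l : ℝ) ^ 2 * xr l ^ 2 = C₁ * (1 / xr l ^ 22) := by
        have : (l : ℝ) ^ 2 = xr l ^ 24 := by rw [← xr_pow l]; ring
        rw [this]; field_simp
      have b4 : 1 / xr l ^ 22 ≤ 1 / xr l ^ 15 :=
        one_div_le_one_div_of_le (by positivity) (pow_le_pow_right₀ hx (by norm_num))
      have b5 := mul_le_mul_of_nonneg_left b4 hC0.le
      rw [b3]
      linarith

/-- The local factor. -/
theorem loc (hC : 1 ≤ C₁) (h0 : ∀ l k, 0 ≤ g l k ∧ g l k ≤ k + 1)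
    (h1 : ∀ l k : ℕ, l.Prime → 1 ≤ k → th F (l ^ k) ≤ C₁ / (l : ℝ) ^ ((k + 1) / 2))
    (h2 : ∀ l : ℕ, l.Prime → l ∉ T → (∀ k, 2 ≤ k → g l k = 0) ∨ th F (l ^ 2) ≤ C₁ / (l : ℝ) ^ 2)
    {l : ℕ} (hl : l.Prime) {σ L : ℝ} (hσ0 : 0 ≤ σ) (hσ : σ ≤ 1 / 12)
    (hlL : (l : ℝ) ^ σ ≤ L) (J : ℕ) :
    ∑ k ∈ Icc 1 J, Real.exp (th F l) * (g l k * (th F (l ^ k) * ((l : ℝ) ^ σ) ^ k)) ≤
      g l 1 * th F l + 6 * C₁ * L * σ * (Real.log l / l) +
        9 * C₁ * L ^ 2 * (if l ∈ T then 1 / (l : ℝ) else 0) + 133 * C₁ ^ 2 * (1 / xr l ^ 15) := by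
  have hx0 : 0 < xr l := lt_of_lt_of_le one_pos (one_le_xr hl.one_le)
  have he3 : Real.exp (th F l) ≤ 3 := by
    have := exp_le_two (th_nonneg F l) (th_le_one F l)
    have := th_le_one F l
    linarith
  have he0 : 0 < Real.exp (th F l) := Real.exp_pos _
  have hq0 : 0 ≤ 1 / xr l ^ 15 := by positivity
  rw [← mul_sum]
  have hs := sum_split (fun k => g l k * (th F (l ^ k) * ((l : ℝ) ^ σ) ^ k))
    (fun k => mul_nonneg (h0 l k).1 (mul_nonneg (th_nonneg _ _) (by positivity))) J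
  have a3 := tail_sum hC h1 hl hσ J (g l) (fun k => (h0 l k).2)
  have a3' : 40 * C₁ / xr l ^ 15 = 40 * C₁ * (1 / xr l ^ 15) := by ring
  rw [a3'] at a3
  have a2 := loc_two hC h0 h1 h2 hl hσ hlL
  have a1 := loc_one hC h0 h1 hl hσ0 hlL
  have hA : 0 ≤ g l 2 * (th F (l ^ 2) * ((l : ℝ) ^ σ) ^ 2) :=
    mul_nonneg (h0 l 2).1 (mul_nonneg (th_nonneg _ _) (by positivity))
  have hB : 0 ≤ ∑ i ∈ range J, g l (i + 3) * (th F (l ^ (i + 3)) * ((l : ℝ) ^ σ) ^ (i + 3)) :=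
    sum_nonneg fun i _ => mul_nonneg (h0 l _).1 (mul_nonneg (th_nonneg _ _) (by positivity))
  have f1 := mul_le_mul_of_nonneg_left hs he0.le
  have f2 := mul_le_mul he3 a2 hA (by norm_num)
  have f3 := mul_le_mul he3 a3 hB (by norm_num)
  have f4 : C₁ * (1 / xr l ^ 15) ≤ C₁ ^ 2 * (1 / xr l ^ 15) :=
    mul_le_mul_of_nonneg_right (by nlinarith) hq0
  rw [mul_add, mul_add] at f1
  linarith

/-- Rankin's trick for the smooth part. -/
theorem blk (hC : 1 ≤ C₁) (h0 : ∀ l k, 0 ≤ g l k ∧ g l k ≤ k + 1)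
    (h1 : ∀ l k : ℕ, l.Prime → 1 ≤ k → th F (l ^ k) ≤ C₁ / (l : ℝ) ^ ((k + 1) / 2))
    (h2 : ∀ l : ℕ, l.Prime → l ∉ T → (∀ k, 2 ≤ k → g l k = 0) ∨ th F (l ^ 2) ≤ C₁ / (l : ℝ) ^ 2)
    (hm : ∀ a b : ℕ, a.Coprime b → th F (a * b) = th F a * th F b)
    {Q : ℝ} (hQ : ∀ P : Finset ℕ, ∑ l ∈ P, 1 / xr l ^ 15 ≤ Q)
    {σ L : ℝ} (hσ0 : 0 ≤ σ) (hσ : σ ≤ 1 / 12) (hL : 1 ≤ L) (P : Finset ℕ)
    (hP : ∀ l ∈ P, l.Prime ∧ (l : ℝ) ^ σ ≤ L) (J : ℕ) (A : Finset ℕ)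
    (hA : ∀ a ∈ A, a ≠ 0 ∧ a.primeFactors ⊆ P ∧ a ≤ J) :
    ∑ a ∈ A, wt g a * (th F a * (a : ℝ) ^ σ * Real.exp (-∑ l ∈ P with ¬ l ∣ a, th F l)) ≤
      Real.exp (∑ l ∈ P, (g l 1 - 1) * th F l + 6 * C₁ * L * σ * ∑ l ∈ P, Real.log l / l +
        9 * C₁ * L ^ 2 * ∑ l ∈ T, 1 / (l : ℝ) + 133 * C₁ ^ 2 * Q) := by
  set h : ℕ → ℕ → ℝ := fun l k =>
    Real.exp (th F l) * (g l k * (th F (l ^ k) * ((l : ℝ) ^ σ) ^ k)) with hh
  have hh0 : ∀ l k, 0 ≤ h l k := fun l k =>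
    mul_nonneg (Real.exp_pos _).le (mul_nonneg (h0 l k).1
      (mul_nonneg (th_nonneg _ _) (by positivity)))
  have e1 : ∀ a ∈ A, wt g a * (th F a * (a : ℝ) ^ σ * Real.exp (-∑ l ∈ P with ¬ l ∣ a, th F l)) =
      Real.exp (-∑ l ∈ P, th F l) * ∏ l ∈ a.primeFactors, h l (a.factorization l) := by
    intro a ha
    obtain ⟨ha0, haP, -⟩ := hA a ha
    have b1 : P.filter (fun l => l ∣ a) = a.primeFactors := by
      ext l; simp only [mem_filter, Nat.mem_primeFactors]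
      exact ⟨fun h => ⟨(hP l h.1).1, h.2, ha0⟩,
        fun h => ⟨haP (Nat.mem_primeFactors.2 h), h.2.1⟩⟩
    have b2 : -∑ l ∈ P with ¬ l ∣ a, th F l =
        -∑ l ∈ P, th F l + ∑ l ∈ a.primeFactors, th F l := by
      rw [← sum_filter_add_sum_filter_not P (fun l => l ∣ a), b1]; ring
    rw [b2, Real.exp_add, Real.exp_sum, th_eq_prod F hm ha0, rpow_eq_prod ha0]
    simp only [hh, prod_mul_distrib, wt]
    ring
  rw [sum_congr rfl e1, ← mul_sum]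
  have e2 := euler P J h hh0 A hA
  have e3 : ∏ l ∈ P, (1 + ∑ k ∈ Icc 1 J, h l k) ≤ Real.exp (∑ l ∈ P, ∑ k ∈ Icc 1 J, h l k) := by
    rw [Real.exp_sum]
    exact prod_le_prod (fun l _ => add_nonneg zero_le_one (sum_nonneg fun k _ => hh0 l k))
      fun l _ => by rw [add_comm]; exact Real.add_one_le_exp _
  refine (mul_le_mul_of_nonneg_left (e2.trans e3) (Real.exp_pos _).le).trans ?_
  rw [← Real.exp_add, Real.exp_le_exp]
  have e4 := sum_le_sum fun l (hl : l ∈ P) =>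
    loc hC h0 h1 h2 (hP l hl).1 hσ0 hσ (hP l hl).2 J
  simp only [sum_add_distrib, ← mul_sum] at e4
  have e5 : ∑ l ∈ P, (if l ∈ T then 1 / (l : ℝ) else 0) ≤ ∑ l ∈ T, 1 / (l : ℝ) := by
    rw [← sum_filter]
    exact sum_le_sum_of_subset_of_nonneg (fun l hl => (mem_filter.1 hl).2)
      fun l _ _ => by positivity
  have e6 := mul_le_mul_of_nonneg_left e5 (show 0 ≤ 9 * C₁ * L ^ 2 by positivity)
  have e7 := mul_le_mul_of_nonneg_left (hQ P) (show 0 ≤ 133 * C₁ ^ 2 by positivity)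
  have e8 : ∑ l ∈ P, (g l 1 - 1) * th F l = ∑ l ∈ P, g l 1 * th F l - ∑ l ∈ P, th F l := by
    rw [← sum_sub_distrib]; exact sum_congr rfl fun l _ => by ring
  have e9 : ∑ l ∈ P, ∑ k ∈ Icc 1 J, h l k = ∑ l ∈ P, Real.exp (th F l) *
      ∑ k ∈ Icc 1 J, g l k * (th F (l ^ k) * ((l : ℝ) ^ σ) ^ k) :=
    sum_congr rfl fun l _ => by rw [mul_sum]
  linarith

theorem tail_main (h0 : ∀ l k, 0 ≤ g l k ∧ g l k ≤ k + 1)
    (h1 : ∀ l k : ℕ, l.Prime → 1 ≤ k → th F (l ^ k) ≤ C₁ / (l : ℝ) ^ ((k + 1) / 2))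
    {P P' : Finset ℕ} (hP : P ⊆ P') (hP' : ∀ l ∈ P', l.Prime) :
    ∑ l ∈ P, (g l 1 - 1) * th F l ≤ ∑ l ∈ P', (g l 1 - 1) * th F l +
      C₁ * (∑ l ∈ P', 1 / (l : ℝ) - ∑ l ∈ P, 1 / (l : ℝ)) := by
  rw [← sum_sdiff hP, ← sum_sdiff (f := fun l : ℕ => 1 / (l : ℝ)) hP, add_sub_cancel_right, mul_sum]
  have : ∑ l ∈ P' \ P, (-(C₁ * (1 / (l : ℝ)))) ≤ ∑ l ∈ P' \ P, (g l 1 - 1) * th F l := by
    refine sum_le_sum fun l hl => ?_
    have a1 := th_prime h1 (hP' l (mem_sdiff.1 hl).1)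
    have a2 := mul_nonneg (h0 l 1).1 (th_nonneg F l)
    have a3 : C₁ / (l : ℝ) = C₁ * (1 / l) := by ring
    linarith
  rw [sum_neg_distrib] at this
  linarith

end loc

/-- The choice of the Rankin exponent. -/
theorem key {C₁ δ CM Ce : ℝ} (hC : 1 ≤ C₁) (hδ : 0 < δ) (hδ1 : δ ≤ 1) (hM : 0 ≤ CM) (he : 0 < Ce) :
    ∃ K CK : ℝ, 0 < K ∧ 0 < CK ∧ ∀ t y : ℝ, 0 < t → 1 / 2 ≤ y → ∃ σ : ℝ, 0 ≤ σ ∧ σ ≤ 1 / 12 ∧
      σ * y ≤ K ∧ σ * (y + CM) ≤ K * (1 + 2 * CM) ∧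
      min (Real.exp (t / y)) (Ce * Real.exp (δ * t / 24)) * Real.exp (-(σ * (δ * t))) *
        Real.exp (C₁ * Real.log (t / y)) ≤ CK * (y / t) := by
  set K := (C₁ + 2) / δ with hK
  have hKδ : K * δ = C₁ + 2 := by rw [hK]; field_simp
  have hK1 : 1 ≤ K := by rw [hK, le_div_iff₀ hδ]; linarith
  set κ := δ / (48 * (C₁ + 1)) with hκ
  have hκ0 : 0 < κ := by positivity
  have hκ1 : (C₁ + 1) * κ = δ / 48 := by rw [hκ]; field_simp
  refine ⟨K, 1 + Ce * Real.exp (-((C₁ + 1) * Real.log κ)), by linarith, by positivity,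
    fun t y ht hy => ?_⟩
  have hy0 : 0 < y := by linarith
  set s := t / y with hs
  have hs0 : 0 < s := by positivity
  have hyt : y / t = 1 / s := by rw [hs]; field_simp
  have hE : 0 < Ce * Real.exp (-((C₁ + 1) * Real.log κ)) := by positivity
  by_cases hc : 12 * K ≤ y
  · refine ⟨K / y, by positivity, by rw [div_le_iff₀ hy0]; linarith, by field_simp; exact le_rfl,
      ?_, ?_⟩
    · have : K / y * (y + CM) = K * (1 + CM / y) := by field_simp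
      rw [this]
      refine mul_le_mul_of_nonneg_left ?_ (by linarith)
      have : CM / y ≤ 2 * CM := by rw [div_le_iff₀ hy0]; nlinarith
      linarith
    · have a1 : K / y * (δ * t) = (C₁ + 2) * s := by rw [hs, ← hKδ]; field_simp
      have a2 : Real.log s ≤ s := (Real.log_le_sub_one_of_pos hs0).trans (by linarith)
      have a3 : Real.exp s * Real.exp (-((C₁ + 2) * s)) * Real.exp (C₁ * Real.log s) ≤
          Real.exp (-s) := by
        rw [← Real.exp_add, ← Real.exp_add, Real.exp_le_exp]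
        nlinarith
      have a4 : Real.exp (-s) ≤ 1 / s := by
        rw [Real.exp_neg, ← one_div]
        refine one_div_le_one_div_of_le hs0 ?_
        have := Real.add_one_le_exp s
        linarith
      rw [a1, hyt]
      calc _ ≤ Real.exp s * Real.exp (-((C₁ + 2) * s)) * Real.exp (C₁ * Real.log s) := by
            gcongr; exact min_le_left _ _
        _ ≤ 1 / s := a3.trans a4
        _ ≤ _ := le_mul_of_one_le_left (by positivity) (by linarith)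
  · have hc' : y < 12 * K := not_le.1 hc
    refine ⟨1 / 12, by norm_num, le_rfl, by linarith, by nlinarith, ?_⟩
    have a1 : s ≤ 2 * t := by rw [hs, div_le_iff₀ hy0]; nlinarith
    have a2 : Real.log s ≤ κ * s - Real.log κ := by
      have := Real.log_le_sub_one_of_pos (mul_pos hκ0 hs0)
      rw [Real.log_mul hκ0.ne' hs0.ne'] at this
      linarith
    have a3 : (C₁ + 1) * Real.log s ≤ δ * t / 24 - (C₁ + 1) * Real.log κ := by
      have b1 := mul_le_mul_of_nonneg_left a2 (show 0 ≤ C₁ + 1 by linarith)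
      have b2 : (C₁ + 1) * (κ * s - Real.log κ) = δ / 48 * s - (C₁ + 1) * Real.log κ := by
        rw [← hκ1]; ring
      have b3 : δ / 48 * s ≤ δ / 48 * (2 * t) := mul_le_mul_of_nonneg_left a1 (by positivity)
      linarith
    have a4 : Real.exp (δ * t / 24) * Real.exp (-(1 / 12 * (δ * t))) *
        Real.exp (C₁ * Real.log s) ≤ Real.exp (-((C₁ + 1) * Real.log κ)) * (1 / s) := by
      have : 1 / s = Real.exp (-Real.log s) := by rw [Real.exp_neg, Real.exp_log hs0, one_div]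
      rw [this, ← Real.exp_add, ← Real.exp_add, ← Real.exp_add, Real.exp_le_exp]
      linarith
    rw [hyt]
    calc _ ≤ Ce * Real.exp (δ * t / 24) * Real.exp (-(1 / 12 * (δ * t))) *
          Real.exp (C₁ * Real.log s) := by
          gcongr; exact min_le_right _ _
      _ = Ce * (Real.exp (δ * t / 24) * Real.exp (-(1 / 12 * (δ * t))) *
          Real.exp (C₁ * Real.log s)) := by ring
      _ ≤ Ce * (Real.exp (-((C₁ + 1) * Real.log κ)) * (1 / s)) :=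
          mul_le_mul_of_nonneg_left a4 he.le
      _ ≤ _ := by
          have : 0 < 1 / s := by positivity
          nlinarith

end SV1

end Pool.Agent.Lib.MP_9177b7_ag.EQ
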