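import Pool.Agent.Lib.MP_9177b7_ag.EQ.SV1b

/-!
The two-dimensional Shiu bound, third part: the sieve and the two types of values.
-/

open Finset

noncomputable section

namespace Pool.Agent.Lib.MP_9177b7_ag.EQ

namespace SV1

/-- The sifting function. -/
def Nn (F : ℤ → ℤ → ℤ) (X Y d : ℕ) (P : Finset ℕ) : ℝ :=
  #{w ∈ range X ×ˢ range Y | (d : ℤ) ∣ F w.1 w.2 ∧ ∀ l ∈ P, ¬ (l : ℤ) ∣ F w.1 w.2}

theorem prod_aux {F : ℤ → ℤ → ℤ} (hm : ∀ a b : ℕ, a.Coprime b → th F (a * b) = th F a * th F b)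
    {d : ℕ} (T : Finset ℕ) (hT : ∀ l ∈ T, l.Prime ∧ ¬ l ∣ d) :
    th F (d * ∏ l ∈ T, l) = th F d * ∏ l ∈ T, th F l ∧
      ∀ n : ℤ, ((d * ∏ l ∈ T, l : ℕ) : ℤ) ∣ n ↔ (d : ℤ) ∣ n ∧ ∀ l ∈ T, (l : ℤ) ∣ n := by
  induction T using Finset.induction_on with
  | empty => simp
  | insert l T hl ih =>
    obtain ⟨ih1, ih2⟩ := ih fun l' h => hT l' (mem_insert_of_mem h)
    obtain ⟨hp, hd⟩ := hT l (mem_insert_self _ _)
    have hco : l.Coprime (d * ∏ l ∈ T, l) :=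
      Nat.Coprime.mul_right ((Nat.Prime.coprime_iff_not_dvd hp).2 hd)
        (Nat.Coprime.prod_right fun l' h => (Nat.coprime_primes hp
          (hT l' (mem_insert_of_mem h)).1).2 fun e => hl (e ▸ h))
    rw [prod_insert hl, prod_insert hl, mul_left_comm, hm _ _ hco, ih1]
    refine ⟨by ring, fun n => ?_⟩
    rw [forall_mem_insert, Nat.cast_mul]
    constructor
    · intro h
      have h2 := (ih2 n).1 (dvd_trans (Dvd.intro_left _ rfl) h)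
      exact ⟨h2.1, dvd_trans (Dvd.intro _ rfl) h, h2.2⟩
    · rintro ⟨h1, h2, h3⟩
      exact IsCoprime.mul_dvd (Nat.isCoprime_iff_coprime.2 hco) h2 ((ih2 n).2 ⟨h1, h3⟩)

/-- The conclusion of the sieve. -/
def Sv (Cs z : ℝ) (F : ℤ → ℤ → ℤ) (X Y : ℕ) : Prop :=
  ∀ (d : ℕ) (P : Finset ℕ), d ≠ 0 → (d : ℝ) ≤ z ^ 2 → (∀ l ∈ P, l.Prime ∧ (l : ℝ) ≤ z ∧ ¬ l ∣ d) →
    Nn F X Y d P ≤ Cs * (X * Y * th F d) * Real.exp (-∑ l ∈ P, th F l) + 3 * X * Y / z ^ 20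

theorem err_bound {z X Y a : ℝ} {u : ℕ} (hu : 1 ≤ u) (hz : 1 ≤ z) (hX : z ^ (24 * u) ≤ X)
    (hY : z ^ (24 * u) ≤ Y) (ha : a = z ^ (2 + u)) :
    (X * a + Y * a + a ^ 2) * z ^ u ≤ 3 * X * Y / z ^ 20 := by
  have hz0 : 0 < z := by linarith
  have h0 : 1 ≤ z ^ (24 * u) := one_le_pow₀ hz
  have h1 : a * z ^ u * z ^ 20 ≤ z ^ (24 * u) := by
    rw [ha, ← pow_add, ← pow_add]; exact pow_le_pow_right₀ hz (by omega)
  have h2 : a ≤ z ^ (24 * u) := by rw [ha]; exact pow_le_pow_right₀ hz (by omega)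
  have ha0 : 0 ≤ a := by rw [ha]; positivity
  rw [le_div_iff₀ (by positivity)]
  set b := a * z ^ u * z ^ 20 with hb
  have hb0 : 0 ≤ b := by positivity
  have e : (X * a + Y * a + a ^ 2) * z ^ u * z ^ 20 = X * b + Y * b + a * b := by rw [hb]; ring
  rw [e]
  have c1 : X * b ≤ X * Y := mul_le_mul_of_nonneg_left (h1.trans hY) (by linarith)
  have c2 : Y * b ≤ Y * X := mul_le_mul_of_nonneg_left (h1.trans hX) (by linarith)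
  have c3 : a * b ≤ X * Y := mul_le_mul (h2.trans hX) (h1.trans hY) hb0 (by linarith)
  linarith

theorem sieve (hc : ConStmt) (hs : SelStmt) {C₁ : ℝ} (hC : 1 ≤ C₁) :
    ∃ (Cs : ℝ) (u : ℕ), 0 < Cs ∧ 1 ≤ u ∧ ∀ (z : ℝ) (X Y : ℕ) (F : ℤ → ℤ → ℤ), 2 ≤ z →
      z ^ (24 * u) ≤ X → z ^ (24 * u) ≤ Y → Cong F → (∀ l : ℕ, l.Prime → th F l ≤ C₁ / l) →
      Sv Cs z F X Y := by
  classical
  obtain ⟨Cs, u, hCs, hu, H⟩ := hs C₁ (by linarith)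
  refine ⟨Cs, u, hCs, hu, fun z X Y F hz hX hY hF h1 d P hd hdz hP => ?_⟩
  obtain ⟨hm, -, -, hcnt⟩ := hc.2.2.2.2.2 F hF
  have hz1 : 1 ≤ z := by linarith
  set a : ℝ := z ^ (2 + u) with ha
  have ha0 : 0 ≤ a := by positivity
  have key := H (ℕ × ℕ) {w ∈ range X ×ˢ range Y | (d : ℤ) ∣ F w.1 w.2} P
    (fun l w => (l : ℤ) ∣ F w.1 w.2) (th F) (X * Y * th F d) (X * a + Y * a + a ^ 2) z hz
    (fun l hl => ⟨(hP l hl).1, (hP l hl).2.1, th_nonneg _ _, h1 l (hP l hl).1⟩)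
    (mul_nonneg (by positivity) (th_nonneg _ _)) (by positivity) (fun T hT hTz => by
      obtain ⟨e1, e2⟩ := prod_aux hm T fun l hl => ⟨(hP l (hT hl)).1, (hP l (hT hl)).2.2⟩
      have hn : 1 ≤ d * ∏ l ∈ T, l := Nat.one_le_iff_ne_zero.2 (mul_ne_zero hd
        (prod_ne_zero_iff.2 fun l hl => (hP l (hT hl)).1.ne_zero))
      have b := hcnt (d * ∏ l ∈ T, l) X Y hn
      have hna : ((d * ∏ l ∈ T, l : ℕ) : ℝ) ≤ a := by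
        rw [ha, pow_add]; push_cast
        exact mul_le_mul hdz hTz (prod_nonneg fun l _ => by positivity) (by positivity)
      rw [filter_filter, mul_assoc, ← e1]
      set n := d * ∏ l ∈ T, l with hndef
      have b2 : ((X : ℝ) * n + Y * n + (n : ℝ) ^ 2) * th F n ≤ X * a + Y * a + a ^ 2 := by
        refine (mul_le_of_le_one_right (by positivity) (th_le_one _ _)).trans ?_
        gcongr
      refine le_trans (le_of_eq ?_) (b.trans b2)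
      congr 4
      ext w
      simp only [mem_filter, e2])
  rw [filter_filter] at key
  have e := err_bound hu hz1 hX hY ha
  unfold Nn
  refine le_trans (le_of_eq ?_) (key.trans (by linarith))
  congr

section sums

variable {C₁ Cs z Q : ℝ} {F : ℤ → ℤ → ℤ} {g : ℕ → ℕ → ℝ} {T : Finset ℕ} {X Y : ℕ}

/-- Smooth numbers up to `J`. -/
def Sm (P : Finset ℕ) (J : ℕ) : Finset ℕ := (Icc 1 J).filter fun a => a.primeFactors ⊆ P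

theorem mem_Sm {P : Finset ℕ} {J a : ℕ} : a ∈ Sm P J ↔ a ≠ 0 ∧ a.primeFactors ⊆ P ∧ a ≤ J := by
  simp only [Sm, mem_filter, mem_Icc]
  constructor
  · rintro ⟨⟨h1, h2⟩, h3⟩; exact ⟨by omega, h3, h2⟩
  · rintro ⟨h1, h2, h3⟩; exact ⟨⟨by omega, h3⟩, h2⟩

theorem sum_wt_le (h0 : ∀ l k, 0 ≤ g l k ∧ g l k ≤ k + 1) (hz : 0 ≤ z) (P : Finset ℕ) :
    ∑ a ∈ Sm P ⌊z ^ 2⌋₊, wt g a ≤ z ^ 4 := by
  have hJ : (⌊z ^ 2⌋₊ : ℝ) ≤ z ^ 2 := Nat.floor_le (by positivity)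
  have h1 : ∑ a ∈ Sm P ⌊z ^ 2⌋₊, wt g a ≤ #(Sm P ⌊z ^ 2⌋₊) • z ^ 2 :=
    sum_le_card_nsmul _ _ _ fun a ha => (wt_le_self h0 (mem_Sm.1 ha).1).trans
      (le_trans (by exact_mod_cast (mem_Sm.1 ha).2.2) hJ)
  have h2 : #(Sm P ⌊z ^ 2⌋₊) ≤ ⌊z ^ 2⌋₊ := (card_filter_le _ _).trans (by simp)
  have h3 : (#(Sm P ⌊z ^ 2⌋₊) : ℝ) ≤ z ^ 2 := le_trans (by exact_mod_cast h2) hJ
  rw [nsmul_eq_mul] at h1
  have h4 := mul_le_mul_of_nonneg_right h3 (sq_nonneg z)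
  calc _ ≤ _ := h1
    _ ≤ z ^ 2 * z ^ 2 := h4
    _ = _ := by ring

theorem mem_Pr {x : ℝ} (hx : 0 ≤ x) {l : ℕ} : l ∈ Pr x ↔ l.Prime ∧ (l : ℝ) ≤ x := by
  simp only [Pr, mem_filter, mem_range, Nat.lt_succ_iff, Nat.le_floor_iff hx]
  exact and_comm

theorem sumA (hC : 1 ≤ C₁) (h0 : ∀ l k, 0 ≤ g l k ∧ g l k ≤ k + 1)
    (h1 : ∀ l k : ℕ, l.Prime → 1 ≤ k → th F (l ^ k) ≤ C₁ / (l : ℝ) ^ ((k + 1) / 2))
    (h2 : ∀ l : ℕ, l.Prime → l ∉ T → (∀ k, 2 ≤ k → g l k = 0) ∨ th F (l ^ 2) ≤ C₁ / (l : ℝ) ^ 2)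
    (hm : ∀ a b : ℕ, a.Coprime b → th F (a * b) = th F a * th F b)
    (hQ : ∀ P : Finset ℕ, ∑ l ∈ P, 1 / xr l ^ 15 ≤ Q) (hz : 1 ≤ z) (hCs : 0 < Cs)
    (hsv : Sv Cs z F X Y) :
    ∑ a ∈ Sm (Pr z) ⌊z ^ 2⌋₊, wt g a * Nn F X Y a {l ∈ Pr z | ¬ l ∣ a} ≤
      Cs * X * Y * Real.exp (∑ l ∈ Pr z, (g l 1 - 1) * th F l +
        9 * C₁ * ∑ l ∈ T, 1 / (l : ℝ) + 133 * C₁ ^ 2 * Q) + 3 * X * Y / z ^ 16 := by
  have hz0 : 0 < z := by linarith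
  have hJ : (⌊z ^ 2⌋₊ : ℝ) ≤ z ^ 2 := Nat.floor_le (by positivity)
  have b := blk hC h0 h1 h2 hm hQ (σ := 0) (L := 1) le_rfl (by norm_num) le_rfl (Pr z)
    (fun l hl => ⟨((mem_Pr hz0.le).1 hl).1, by simp⟩) ⌊z ^ 2⌋₊ (Sm (Pr z) ⌊z ^ 2⌋₊)
    (fun a ha => mem_Sm.1 ha)
  simp only [Real.rpow_zero, mul_one, mul_zero, zero_mul, add_zero, one_pow] at b
  have c : ∑ a ∈ Sm (Pr z) ⌊z ^ 2⌋₊, wt g a * Nn F X Y a {l ∈ Pr z | ¬ l ∣ a} ≤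
      ∑ a ∈ Sm (Pr z) ⌊z ^ 2⌋₊, (Cs * X * Y * (wt g a * (th F a *
        Real.exp (-∑ l ∈ Pr z with ¬ l ∣ a, th F l))) + 3 * X * Y / z ^ 20 * wt g a) := by
    refine sum_le_sum fun a ha => ?_
    obtain ⟨ha0, -, haJ⟩ := mem_Sm.1 ha
    have := hsv a {l ∈ Pr z | ¬ l ∣ a} ha0 (le_trans (by exact_mod_cast haJ) hJ) fun l hl =>
      ⟨((mem_Pr hz0.le).1 (mem_filter.1 hl).1).1, ((mem_Pr hz0.le).1 (mem_filter.1 hl).1).2,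
        (mem_filter.1 hl).2⟩
    refine (mul_le_mul_of_nonneg_left this (wt_nonneg h0 a)).trans (le_of_eq ?_)
    ring
  rw [sum_add_distrib, ← mul_sum, ← mul_sum] at c
  have d1 := mul_le_mul_of_nonneg_left b (show 0 ≤ Cs * X * Y by positivity)
  have d2 := mul_le_mul_of_nonneg_left (sum_wt_le h0 hz0.le (Pr z))
    (show 0 ≤ 3 * (X : ℝ) * Y / z ^ 20 by positivity)
  have d3 : 3 * (X : ℝ) * Y / z ^ 20 * z ^ 4 = 3 * X * Y / z ^ 16 := by field_simp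
  linarith

/-- The index set for values with a large smooth part. -/
def Bp (z : ℝ) (p : ℕ) : Finset (ℕ × ℕ) :=
  (Sm (Pl p) ⌊z ^ 2⌋₊ ×ˢ Icc 1 ⌊z ^ 2⌋₊).filter fun x =>
    z < ((x.1 * p ^ x.2 : ℕ) : ℝ) ∧ ((x.1 * p ^ x.2 : ℕ) : ℝ) ≤ z ^ 2

theorem mem_Pl {p l : ℕ} : l ∈ Pl p ↔ l < p ∧ l.Prime := by simp [Pl]

theorem sumB (hC : 1 ≤ C₁) (h0 : ∀ l k, 0 ≤ g l k ∧ g l k ≤ k + 1)
    (h1 : ∀ l k : ℕ, l.Prime → 1 ≤ k → th F (l ^ k) ≤ C₁ / (l : ℝ) ^ ((k + 1) / 2))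
    (h2 : ∀ l : ℕ, l.Prime → l ∉ T → (∀ k, 2 ≤ k → g l k = 0) ∨ th F (l ^ 2) ≤ C₁ / (l : ℝ) ^ 2)
    (hm : ∀ a b : ℕ, a.Coprime b → th F (a * b) = th F a * th F b)
    (hQ : ∀ P : Finset ℕ, ∑ l ∈ P, 1 / xr l ^ 15 ≤ Q) (hz : 1 ≤ z) (hCs : 0 < Cs)
    (hsv : Sv Cs z F X Y) {p : ℕ} (hp : p.Prime) (hpz : (p : ℝ) ≤ z) {σ L : ℝ} (hσ0 : 0 ≤ σ)
    (hσ : σ ≤ 1 / 12) (hL : 1 ≤ L) (hpL : (p : ℝ) ^ σ ≤ L) :
    ∑ x ∈ Bp z p, wt g x.1 * Nn F X Y (x.1 * p ^ x.2) {l ∈ Pl p | ¬ l ∣ x.1} ≤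
      Cs * X * Y * (Real.exp (-(σ * Real.log z)) * (Real.exp (∑ l ∈ Pl p, (g l 1 - 1) * th F l +
        6 * C₁ * L * σ * ∑ l ∈ Pl p, Real.log l / l +
        9 * C₁ * L ^ 2 * ∑ l ∈ T, 1 / (l : ℝ) + 133 * C₁ ^ 2 * Q) * (42 * C₁ * L ^ 2 / p))) +
        3 * X * Y / z ^ 14 := by
  have hz0 : 0 < z := by linarith
  have hJ : (⌊z ^ 2⌋₊ : ℝ) ≤ z ^ 2 := Nat.floor_le (by positivity)
  have b := blk hC h0 h1 h2 hm hQ hσ0 hσ hL (Pl p)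
    (fun l hl => ⟨(mem_Pl.1 hl).2, le_trans (Real.rpow_le_rpow (by positivity)
      (by exact_mod_cast (mem_Pl.1 hl).1.le) hσ0) hpL⟩) ⌊z ^ 2⌋₊ (Sm (Pl p) ⌊z ^ 2⌋₊)
    (fun a ha => mem_Sm.1 ha)
  have b' := pfac hC h1 hp hσ hL hpL ⌊z ^ 2⌋₊
  set fa : ℕ → ℝ := fun a =>
    wt g a * (th F a * (a : ℝ) ^ σ * Real.exp (-∑ l ∈ Pl p with ¬ l ∣ a, th F l)) with hfa
  set fj : ℕ → ℝ := fun j => th F (p ^ j) * ((p : ℝ) ^ σ) ^ j with hfj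
  have hfa0 : ∀ a, 0 ≤ fa a := fun a => mul_nonneg (wt_nonneg h0 a)
    (mul_nonneg (mul_nonneg (th_nonneg _ _) (by positivity)) (Real.exp_pos _).le)
  have hfj0 : ∀ j, 0 ≤ fj j := fun j => mul_nonneg (th_nonneg _ _) (by positivity)
  have c : ∑ x ∈ Bp z p, wt g x.1 * Nn F X Y (x.1 * p ^ x.2) {l ∈ Pl p | ¬ l ∣ x.1} ≤
      ∑ x ∈ Bp z p, (Cs * X * Y * Real.exp (-(σ * Real.log z)) * (fa x.1 * fj x.2) +
        3 * X * Y / z ^ 20 * wt g x.1) := by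
    refine sum_le_sum fun x hx => ?_
    obtain ⟨hx1, hx2, hx3⟩ := mem_filter.1 hx
    obtain ⟨ha0, haP, -⟩ := mem_Sm.1 (mem_product.1 hx1).1
    have hco : x.1.Coprime (p ^ x.2) := by
      refine Nat.Coprime.pow_right _ ((Nat.Prime.coprime_iff_not_dvd hp).2 fun h => ?_).symm
      exact lt_irrefl _ (mem_Pl.1 (haP (Nat.mem_primeFactors.2 ⟨hp, h, ha0⟩))).1
    have := hsv (x.1 * p ^ x.2) {l ∈ Pl p | ¬ l ∣ x.1}
      (mul_ne_zero ha0 (pow_ne_zero _ hp.ne_zero)) hx3 fun l hl => by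
        obtain ⟨hl1, hl2⟩ := mem_filter.1 hl
        obtain ⟨hl3, hl4⟩ := mem_Pl.1 hl1
        refine ⟨hl4, le_trans (by exact_mod_cast hl3.le) hpz, fun h => ?_⟩
        rcases (Nat.Prime.dvd_mul hl4).1 h with h | h
        · exact hl2 h
        · have := (Nat.prime_dvd_prime_iff_eq hl4 hp).1 (hl4.dvd_of_dvd_pow h)
          omega
    refine (mul_le_mul_of_nonneg_left this (wt_nonneg h0 _)).trans ?_
    have r1 : z ^ σ ≤ (x.1 : ℝ) ^ σ * ((p : ℝ) ^ σ) ^ x.2 := by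
      rw [Real.rpow_pow_comm (by positivity), ← Real.mul_rpow (by positivity) (by positivity)]
      refine Real.rpow_le_rpow hz0.le ?_ hσ0
      exact_mod_cast hx2.le
    have r2 : 1 ≤ Real.exp (-(σ * Real.log z)) * ((x.1 : ℝ) ^ σ * ((p : ℝ) ^ σ) ^ x.2) := by
      refine le_trans (le_of_eq ?_) (mul_le_mul_of_nonneg_left r1 (Real.exp_pos _).le)
      rw [Real.rpow_def_of_pos hz0, ← Real.exp_add, mul_comm]; simp
    rw [hm _ _ hco]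
    have r3 : 0 ≤ Cs * X * Y * (wt g x.1 * (th F x.1 * th F (p ^ x.2) *
        Real.exp (-∑ l ∈ Pl p with ¬ l ∣ x.1, th F l))) :=
      mul_nonneg (by positivity) (mul_nonneg (wt_nonneg h0 _)
        (mul_nonneg (mul_nonneg (th_nonneg _ _) (th_nonneg _ _)) (Real.exp_pos _).le))
    have r4 := mul_le_mul_of_nonneg_left r2 r3
    simp only [hfa, hfj]
    linarith
  rw [sum_add_distrib, ← mul_sum, ← mul_sum] at c
  have c1 : ∑ x ∈ Bp z p, fa x.1 * fj x.2 ≤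
      (∑ a ∈ Sm (Pl p) ⌊z ^ 2⌋₊, fa a) * ∑ j ∈ Icc 1 ⌊z ^ 2⌋₊, fj j := by
    rw [sum_mul_sum, ← sum_product']
    exact sum_le_sum_of_subset_of_nonneg (filter_subset _ _)
      fun x _ _ => mul_nonneg (hfa0 _) (hfj0 _)
  have c2 : ∑ x ∈ Bp z p, wt g x.1 ≤ z ^ 4 * z ^ 2 := by
    have e1 : ∑ x ∈ Bp z p, wt g x.1 ≤ ∑ x ∈ Sm (Pl p) ⌊z ^ 2⌋₊ ×ˢ Icc 1 ⌊z ^ 2⌋₊, wt g x.1 :=
      sum_le_sum_of_subset_of_nonneg (filter_subset _ _) fun x _ _ => wt_nonneg h0 _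
    refine e1.trans ?_
    rw [sum_product]
    simp only [sum_const, nsmul_eq_mul, Nat.card_Icc, Nat.add_sub_cancel]
    rw [← mul_sum, mul_comm]
    exact mul_le_mul (sum_wt_le h0 hz0.le _) hJ (by positivity) (by positivity)
  have c3 := mul_le_mul b b' (sum_nonneg fun j _ => hfj0 j) (Real.exp_pos _).le
  have d1 := mul_le_mul_of_nonneg_left (c1.trans c3)
    (show 0 ≤ Cs * X * Y * Real.exp (-(σ * Real.log z)) by positivity)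
  have d2 := mul_le_mul_of_nonneg_left c2 (show 0 ≤ 3 * (X : ℝ) * Y / z ^ 20 by positivity)
  have d3 : 3 * (X : ℝ) * Y / z ^ 20 * (z ^ 4 * z ^ 2) = 3 * X * Y / z ^ 14 := by field_simp
  linarith

end sums

end SV1

end Pool.Agent.Lib.MP_9177b7_ag.EQ
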