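import Pool.Agent.Lib.MP_9177b7_ag.EQ.StN
import Pool.Agent.Shared.SelbergUpper

/-!
An abstract form of Selberg's upper bound sieve.
-/

open Finset
open Pool.Agent.Shared Pool.Agent.Shared.SelbergUpper

noncomputable section

namespace Pool.Agent.Lib.MP_9177b7_ag.EQ

namespace Sel

open Classical in
theorem expand {ι : Type} (S : Finset ι) (U : Finset ℕ) (e : ℕ → ι → Prop) (ν a b : ℕ → ℝ)
    (M E : ℝ) (h : ∀ T ⊆ U, |(#{i ∈ S | ∀ l ∈ T, e l i} : ℝ) - M * ∏ l ∈ T, ν l| ≤ E) :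
    ∑ i ∈ S, ∏ l ∈ U, (b l * (if e l i then 1 else 0) + a l) ≤
      M * ∏ l ∈ U, (b l * ν l + a l) + E * ∏ l ∈ U, (|b l| + |a l|) := by
  simp only [prod_add]
  rw [sum_comm, mul_sum, mul_sum, ← sum_add_distrib]
  refine sum_le_sum fun T hT => ?_
  have h1 := h T (mem_powerset.1 hT)
  have h2 : ∑ i ∈ S, (∏ l ∈ T, b l * (if e l i then 1 else 0)) * ∏ l ∈ U \ T, a l =
      ((∏ l ∈ T, b l) * ∏ l ∈ U \ T, a l) * (#{i ∈ S | ∀ l ∈ T, e l i} : ℝ) := by
    rw [← sum_boole, mul_sum]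
    refine sum_congr rfl fun i _ => ?_
    rw [prod_mul_distrib, prod_boole]
    split_ifs <;> ring
  rw [h2, prod_mul_distrib, ← abs_prod, ← abs_prod, ← abs_mul]
  set c := (∏ l ∈ T, b l) * ∏ l ∈ U \ T, a l with hc
  have h3 : c * ((#{i ∈ S | ∀ l ∈ T, e l i} : ℝ) - M * ∏ l ∈ T, ν l) ≤ E * |c| := by
    refine (le_abs_self _).trans ?_
    rw [abs_mul, mul_comm]
    exact mul_le_mul_of_nonneg_right h1 (abs_nonneg _)
  have h4 : M * (((∏ l ∈ T, b l) * ∏ l ∈ T, ν l) * ∏ l ∈ U \ T, a l) = c * (M * ∏ l ∈ T, ν l) := by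
    rw [hc]; ring
  rw [h4]
  linarith

open Classical in
/-- Selberg's sieve in orthogonal form. -/
theorem selberg {ι : Type} (S : Finset ι) (P : Finset ℕ) (hP : ∀ p ∈ P, p.Prime)
    (h3 : ∀ p ∈ P, (3 : ℝ) ≤ p) (e : ℕ → ι → Prop) (ν : ℕ → ℝ) (a0 : ∀ p ∈ P, 0 ≤ ν p)
    (a2 : ∀ p ∈ P, ν p ≤ 1 / 2) {M E z : ℝ} (hE : 0 ≤ E) (hz : 1 ≤ z)
    (h : ∀ T ⊆ P, ∏ l ∈ T, (l : ℝ) ≤ z ^ 2 →
      |(#{i ∈ S | ∀ l ∈ T, e l i} : ℝ) - M * ∏ l ∈ T, ν l| ≤ E) :
    (#{i ∈ S | ∀ l ∈ P, ¬ e l i} : ℝ) * SelbergUpper.G P (fun p => ν p / (1 - ν p)) z ^ 2 ≤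
      M * SelbergUpper.G P (fun p => ν p / (1 - ν p)) z + E * z ^ 4 := by
  have a1 : ∀ p ∈ P, 0 < 1 - ν p := fun p hp => by linarith [a2 p hp]
  set g : ℕ → ℝ := fun p => ν p / (1 - ν p) with hg
  let η : ℕ → ι → ℝ := fun p i => (ν p - if e p i then 1 else 0) / (1 - ν p)
  have sub : ∀ A ∈ Sm P z, A ⊆ P := fun A hA => mem_powerset.1 (mem_filter.1 hA).1
  have key : ∀ A ∈ Sm P z, ∀ B ∈ Sm P z, ∑ i ∈ S, (∏ p ∈ A, η p i) * ∏ p ∈ B, η p i ≤
      M * (if A = B then ∏ p ∈ A, g p else 0) + E * z ^ 2 := fun A hA B hB => by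
    have u : A ∪ B ⊆ P := union_subset (sub A hA) (sub B hB)
    let a : ℕ → ℝ := fun p => if p ∈ A ∧ p ∈ B then (ν p / (1 - ν p)) ^ 2 else ν p / (1 - ν p)
    let b : ℕ → ℝ := fun p =>
      if p ∈ A ∧ p ∈ B then (1 - 2 * ν p) / (1 - ν p) ^ 2 else -1 / (1 - ν p)
    have e1 : ∀ i, (∏ p ∈ A, η p i) * ∏ p ∈ B, η p i =
        ∏ p ∈ A ∪ B, (b p * (if e p i then 1 else 0) + a p) := fun i => by
      have : (∏ p ∈ A, η p i) * ∏ p ∈ B, η p i =
          ∏ p ∈ A ∪ B, (if p ∈ A then η p i else 1) * if p ∈ B then η p i else 1 := by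
        rw [prod_mul_distrib, prod_ite_mem, prod_ite_mem, union_inter_cancel_left,
          union_inter_cancel_right]
      rw [this]
      refine prod_congr rfl fun p hp => ?_
      have h1 := (a1 p (u hp)).ne'
      have h2 := mem_union.1 hp
      by_cases p1 : p ∈ A <;> by_cases p2 : p ∈ B <;> by_cases p3 : e p i <;>
        simp only [a, b, η, p1, p2, p3, if_true, if_false, and_true, and_false, or_self,
          and_self] at h2 ⊢ <;> field_simp <;> ring
    have D1 : ∏ p ∈ A ∪ B, (p : ℝ) ≤ z ^ 2 := by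
      have h1 : ∏ p ∈ A ∪ B, (p : ℝ) ≤ (∏ p ∈ A, (p : ℝ)) * ∏ p ∈ B, (p : ℝ) := by
        rw [← prod_union_inter]
        exact le_mul_of_one_le_right (by positivity) (one_le_prod fun p hp => by
          linarith [h3 p (sub A hA (mem_inter.1 hp).1)])
      refine h1.trans ?_
      rw [sq]
      exact mul_le_mul (mem_filter.1 hA).2 (mem_filter.1 hB).2 (by positivity) (by linarith)
    have h4 := expand S (A ∪ B) e ν a b M E fun T hT => h T (hT.trans u)
      ((prod_le_prod_of_subset_of_one_le hT (fun p _ => Nat.cast_nonneg p) fun p hp _ => by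
        linarith [h3 p (u hp)]).trans D1)
    simp only [e1]
    refine h4.trans (add_le_add (le_of_eq ?_) (mul_le_mul_of_nonneg_left ?_ hE))
    · congr 1
      split_ifs with hAB
      · subst hAB
        rw [union_self]
        refine prod_congr rfl fun p hp => ?_
        have h1 := (a1 p (sub A hA hp)).ne'
        simp only [a, b, hg, hp, and_self, if_true]
        field_simp
        ring
      · obtain ⟨p, hp⟩ : ∃ p, ¬ (p ∈ A ↔ p ∈ B) := not_forall.1 fun h' => hAB (Finset.ext h')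
        have hp' : p ∈ A ∪ B := by rw [mem_union]; tauto
        refine prod_eq_zero hp' ?_
        have h1 : ¬ (p ∈ A ∧ p ∈ B) := by tauto
        simp only [a, b, if_neg h1]
        ring
    · refine le_trans (prod_le_prod (fun p _ => by positivity) fun p hp => ?_) D1
      refine le_trans ?_ (h3 p (u hp))
      have h1 := a1 p (u hp)
      have h2 := a0 p (u hp)
      have h5 := a2 p (u hp)
      simp only [a, b]
      split_ifs
      · rw [abs_of_nonneg (div_nonneg (by linarith) (by positivity)), abs_of_nonneg (sq_nonneg _),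
          div_pow, ← add_div, div_le_iff₀ (by positivity)]
        nlinarith
      · rw [abs_div, abs_neg, abs_one, abs_of_pos h1, abs_of_nonneg (div_nonneg h2 h1.le),
          ← add_div, div_le_iff₀ h1]
        linarith
  have cnt : (#(Sm P z) : ℝ) ≤ z := by
    have := inj_sum (A := Sm P z) (fun A hA p hp => hP p (sub A hA hp)) (B := Icc 1 ⌊z⌋₊)
      (fun A hA => mem_Icc.2 ⟨prod_pos fun p hp => (hP p (sub A hA hp)).pos,
        Nat.le_floor (by simpa using (mem_filter.1 hA).2)⟩) (F := fun _ => 1) fun _ => zero_le_one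
    simpa using this.trans (by simpa using Nat.floor_le (by linarith))
  have up : ∑ i ∈ S, (∑ A ∈ Sm P z, ∏ p ∈ A, η p i) ^ 2 ≤ M * SelbergUpper.G P g z + E * z ^ 4 := by
    simp only [sq (∑ A ∈ Sm P z, _), sum_mul_sum]
    rw [sum_comm]
    refine (sum_le_sum fun A hA => (sum_comm.trans_le (sum_le_sum (key A hA)))).trans ?_
    simp only [sum_add_distrib, ← mul_sum, sum_ite_eq, sum_const, nsmul_eq_mul]
    rw [sum_congr rfl fun A hA => if_pos hA]
    have h1 := mul_le_mul cnt cnt (Nat.cast_nonneg _) (by linarith)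
    have h2 := mul_le_mul_of_nonneg_right h1 (mul_nonneg hE (sq_nonneg z))
    unfold SelbergUpper.G
    nlinarith
  refine le_trans ?_ up
  rw [← nsmul_eq_mul, ← sum_const]
  refine (le_of_eq (sum_congr rfl fun i hi => ?_)).trans
    (sum_le_sum_of_subset_of_nonneg (filter_subset _ _) fun _ _ _ => sq_nonneg _)
  congr 1
  refine sum_congr rfl fun A hA => prod_congr rfl fun p hp => ?_
  simp only [η, if_neg ((mem_filter.1 hi).2 p (sub A hA hp)), sub_zero, hg]

theorem moment (P : Finset ℕ) (g L : ℕ → ℝ) (hg : ∀ p ∈ P, 0 ≤ g p) :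
    ∑ S ∈ P.powerset, (∏ p ∈ S, g p) * ∑ p ∈ S, L p =
      (∏ p ∈ P, (1 + g p)) * ∑ p ∈ P, g p / (1 + g p) * L p := by
  induction P using Finset.induction_on with
  | empty => simp
  | insert q P hq ih =>
    have h0 := hg q (mem_insert_self _ _)
    rw [sum_powerset_insert hq, ih fun p hp => hg p (mem_insert_of_mem hp), prod_insert hq,
      sum_insert hq]
    have e : ∑ S ∈ P.powerset, (∏ p ∈ insert q S, g p) * ∑ p ∈ insert q S, L p =
        g q * L q * (∑ S ∈ P.powerset, ∏ p ∈ S, g p) +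
          g q * ∑ S ∈ P.powerset, (∏ p ∈ S, g p) * ∑ p ∈ S, L p := by
      rw [mul_sum, mul_sum, ← sum_add_distrib]
      refine sum_congr rfl fun S hS => ?_
      have : q ∉ S := fun h => hq (mem_powerset.1 hS h)
      rw [prod_insert this, sum_insert this]
      ring
    rw [e, ih fun p hp => hg p (mem_insert_of_mem hp), ← prod_one_add]
    field_simp
    ring

theorem G_low (P : Finset ℕ) (hP : ∀ p ∈ P, p.Prime) (g : ℕ → ℝ) (hg : ∀ p ∈ P, 0 ≤ g p) {z : ℝ}
    (hz : 1 < z) (h : ∑ p ∈ P, g p / (1 + g p) * Real.log p ≤ Real.log z / 2) :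
    ∏ p ∈ P, (1 + g p) ≤ 2 * SelbergUpper.G P g z := by
  have hl := Real.log_pos hz
  have q0 : 0 ≤ ∏ p ∈ P, (1 + g p) := prod_nonneg fun p hp => by linarith [hg p hp]
  have h1 := moment P g (fun p => Real.log p) hg
  have h2 : (∏ p ∈ P, (1 + g p)) * Real.log z ≤ SelbergUpper.G P g z * Real.log z +
      ∑ S ∈ P.powerset, (∏ p ∈ S, g p) * ∑ p ∈ S, Real.log p := by
    rw [prod_one_add, SelbergUpper.G, Sm, sum_filter, sum_mul, sum_mul, ← sum_add_distrib]
    refine sum_le_sum fun S hS => ?_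
    have s1 : S ⊆ P := mem_powerset.1 hS
    have w0 : 0 ≤ ∏ p ∈ S, g p := prod_nonneg fun p hp => hg p (s1 hp)
    have w1 : 0 ≤ ∑ p ∈ S, Real.log p := sum_nonneg fun p _ => Real.log_natCast_nonneg p
    split_ifs with h3
    · nlinarith [mul_nonneg w0 w1]
    · rw [zero_mul, zero_add]
      refine mul_le_mul_of_nonneg_left ?_ w0
      rw [← Real.log_prod fun p hp => by exact_mod_cast (hP p (s1 hp)).pos.ne']
      exact Real.log_le_log (by linarith) (not_le.1 h3).le
  have h3 := mul_le_mul_of_nonneg_left h q0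
  refine le_of_mul_le_mul_right ?_ hl
  nlinarith

end Sel

open Sel in
theorem sel (hd : DivStmt) : SelStmt := by
  classical
  intro κ hκ
  obtain ⟨c, hc⟩ := hd.2.1
  set k := max κ 2 with hk
  have k2 : 2 ≤ k := le_max_right _ _
  set v : ℕ := ⌈2 * k * (1 + 2 * |c|)⌉₊ with hv
  have c0 := abs_nonneg c
  have v1 : 2 * k * (1 + 2 * |c|) ≤ v := Nat.le_ceil _
  have v2 : 1 ≤ v := by
    have : (1 : ℝ) ≤ v := by nlinarith
    exact_mod_cast this
  refine ⟨2 * Real.exp ((2 * k + 1) * k), 4 * v, by positivity, by omega,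
    fun ι S P e ν M E y hy hP hM hE hden => ?_⟩
  have q0 : ∀ q ∈ P, (1 : ℝ) ≤ q := fun q hq => by exact_mod_cast (hP q hq).1.pos
  have ρ0 : ∀ q ∈ P, 0 ≤ ν q := fun q hq => (hP q hq).2.2.1
  have ρ1 : ∀ q ∈ P, ν q ≤ k / q := fun q hq =>
    (hP q hq).2.2.2.trans (div_le_div_of_nonneg_right (le_max_left _ _) (by linarith [q0 q hq]))
  set P₁ := P.filter fun q : ℕ => 2 * k < q with hP₁
  have s1 : ∀ q ∈ P₁, q ∈ P := fun q hq => (mem_filter.1 hq).1
  have ρ2 : ∀ q ∈ P₁, ν q ≤ 1 / 2 := fun q hq => by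
    have h1 := (mem_filter.1 hq).2
    refine (ρ1 q (s1 q hq)).trans ?_
    rw [div_le_iff₀ (by linarith)]
    linarith
  have small : ∑ q ∈ P, ν q ≤ ∑ q ∈ P₁, ν q + (2 * k + 1) * k := by
    rw [← sum_filter_add_sum_filter_not P fun q : ℕ => 2 * k < q]
    refine add_le_add le_rfl ((sum_le_card_nsmul _ _ k fun q hq => ?_).trans ?_)
    · have hq' := (mem_filter.1 hq).1
      exact (ρ1 q hq').trans (div_le_self (by linarith) (q0 q hq'))
    · rw [nsmul_eq_mul]
      refine mul_le_mul_of_nonneg_right ?_ (by linarith)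
      have : (P.filter fun q : ℕ => ¬ 2 * k < q) ⊆ range (⌊2 * k⌋₊ + 1) := fun q hq =>
        mem_range.2 (Nat.lt_succ_of_le (Nat.le_floor (not_lt.1 (mem_filter.1 hq).2)))
      have h2 := card_le_card this
      rw [card_range] at h2
      have h3 : ((P.filter fun q : ℕ => ¬ 2 * k < q).card : ℝ) ≤ ⌊2 * k⌋₊ + 1 := by
        exact_mod_cast h2
      linarith [Nat.floor_le (show 0 ≤ 2 * k by linarith)]
  set z := y ^ v with hz
  have z1 : 1 < z := one_lt_pow₀ (by linarith) (by omega)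
  have z4 : z ^ 4 = y ^ (4 * v) := by rw [hz, ← pow_mul, mul_comm]
  have main := selberg S P₁ (fun p hp => (hP p (s1 p hp)).1)
    (fun p hp => by linarith [(mem_filter.1 hp).2]) e ν (fun p hp => ρ0 p (s1 p hp)) ρ2 (M := M)
    hE z1.le fun T hT h => hden T (hT.trans (filter_subset _ _))
      (h.trans (z4 ▸ pow_le_pow_right₀ z1.le (by norm_num)))
  rw [z4] at main
  set g : ℕ → ℝ := fun p => ν p / (1 - ν p) with hg
  have g0 : ∀ p ∈ P₁, 0 ≤ g p := fun p hp =>
    div_nonneg (ρ0 p (s1 p hp)) (by linarith [ρ2 p hp])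
  have low : Real.exp (∑ q ∈ P₁, ν q) ≤ 2 * SelbergUpper.G P₁ g z := by
    have l2 : 1 / 2 ≤ Real.log y := by
      have h4 : Real.log 2 ≤ Real.log y := Real.log_le_log (by norm_num) hy
      linarith [Real.log_two_gt_d9]
    have h1 : ∑ p ∈ P₁, Real.log p / p ≤ (1 + 2 * |c|) * Real.log y := by
      have h2 := (abs_le.1 (hc y hy).2.1).2
      have h3 : ∑ p ∈ P₁, Real.log p / p ≤ ∑ p ∈ Pr y, Real.log p / (p : ℝ) :=
        sum_le_sum_of_subset_of_nonneg (fun p hp => mem_filter.2 ⟨mem_range.2 (Nat.lt_succ_of_le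
          (Nat.le_floor (hP p (s1 p hp)).2.1)), (hP p (s1 p hp)).1⟩) fun n _ _ =>
            div_nonneg (Real.log_natCast_nonneg n) (Nat.cast_nonneg n)
      nlinarith [le_abs_self c]
    refine le_trans ?_ (G_low P₁ (fun p hp => (hP p (s1 p hp)).1) g g0 z1 ?_)
    · rw [Real.exp_sum]
      refine prod_le_prod (fun p _ => (Real.exp_pos _).le) fun p hp => ?_
      have h2 : 0 < 1 - ν p := by linarith [ρ2 p hp]
      have h3 := Real.add_one_le_exp (-ν p)
      have h4 : 1 + g p = (1 - ν p)⁻¹ := by simp only [hg]; field_simp; ring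
      rw [h4, ← inv_inv (Real.exp (ν p)), ← Real.exp_neg]
      exact inv_anti₀ h2 (by linarith)
    · rw [hz, Real.log_pow]
      have h2 : ∑ p ∈ P₁, g p / (1 + g p) * Real.log p ≤ k * ∑ p ∈ P₁, Real.log p / p := by
        rw [mul_sum]
        refine sum_le_sum fun p hp => ?_
        have h2 : 0 < 1 - ν p := by linarith [ρ2 p hp]
        have h4 : g p / (1 + g p) = ν p := by simp only [hg]; field_simp; ring
        rw [h4]
        refine (mul_le_mul_of_nonneg_right (ρ1 p (s1 p hp)) (Real.log_natCast_nonneg p)).trans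
          (le_of_eq (by ring))
      refine h2.trans ((mul_le_mul_of_nonneg_left h1 (by linarith)).trans ?_)
      nlinarith [mul_le_mul_of_nonneg_right v1 (show 0 ≤ Real.log y by linarith)]
  have G1 : 1 ≤ SelbergUpper.G P₁ g z := one_le_G g0 z1.le
  have cnt : (#{i ∈ S | ∀ l ∈ P, ¬ e l i} : ℝ) ≤ #{i ∈ S | ∀ l ∈ P₁, ¬ e l i} := by
    refine Nat.cast_le.2 (card_le_card fun i hi => ?_)
    rw [mem_filter] at hi ⊢
    exact ⟨hi.1, fun p hp => hi.2 p (s1 p hp)⟩
  have h7 : 1 ≤ 2 * Real.exp ((2 * k + 1) * k) * Real.exp (-∑ q ∈ P, ν q) * SelbergUpper.G P₁ g z := by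
    have h8 : 1 ≤ Real.exp ((2 * k + 1) * k) * Real.exp (-∑ q ∈ P, ν q) *
        Real.exp (∑ q ∈ P₁, ν q) := by
      rw [← Real.exp_add, ← Real.exp_add]
      exact Real.one_le_exp (by linarith)
    have h9 := mul_le_mul_of_nonneg_left low
      (show 0 ≤ Real.exp ((2 * k + 1) * k) * Real.exp (-∑ q ∈ P, ν q) by positivity)
    linarith
  have G2 : 0 < SelbergUpper.G P₁ g z ^ 2 := by positivity
  have y0 : 0 ≤ E * y ^ (4 * v) := by positivity
  have goal : (#{i ∈ S | ∀ l ∈ P₁, ¬ e l i} : ℝ) ≤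
      2 * Real.exp ((2 * k + 1) * k) * M * Real.exp (-∑ q ∈ P, ν q) + E * y ^ (4 * v) := by
    refine le_of_mul_le_mul_right (le_trans (by convert main) ?_) G2
    have h1 := mul_le_mul_of_nonneg_left h7 (show 0 ≤ M * SelbergUpper.G P₁ g z by positivity)
    have h2 := mul_le_mul_of_nonneg_left (one_le_pow₀ (n := 2) G1) y0
    nlinarith
  convert cnt.trans goal

end Pool.Agent.Lib.MP_9177b7_ag.EQ
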