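import Pool.Agent.Lib.MP_9177b7_ag.EQ.Defs

/-!
Equidistribution of special points: arithmetic definitions and the statements of the arithmetic
pieces.
-/

open UpperHalfPlane Finset
open scoped MatrixGroups

noncomputable section

namespace Pool.Agent.Lib.MP_9177b7_ag.EQ

open Pool.Agent.Lib.MP_9177b7_ag.CM

/-! ### Definitions -/

/-- `t ^ 2 - 4 n` is a negative fundamental discriminant. -/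
def Fund (t n : ℤ) : Prop :=
  t ^ 2 - 4 * n < 0 ∧ ∀ e t' n' : ℤ, t ^ 2 - 4 * n = e ^ 2 * (t' ^ 2 - 4 * n') → e ^ 2 = 1

/-- The content of the quadratic form of a matrix. -/
def cont (W : M2) : ℕ := Int.gcd (Int.gcd (W 0 1) (W 1 0)) (W 0 0 - W 1 1)

/-- The greatest common divisor of the entries. -/
def cont0 (W : M2) : ℕ := Int.gcd (Int.gcd (W 0 0) (W 0 1)) (Int.gcd (W 1 0) (W 1 1))

/-- Matrices of `f ω` on oriented bases of proper lattices of conductor `f`. -/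
def WW (t n : ℤ) (f : ℕ) : Set M2 :=
  {W | W.trace = f * t ∧ W.det = (f : ℤ) ^ 2 * n ∧ 0 < W 1 0 ∧ cont W = 1}

/-- The root of `X ^ 2 - t X + n` in the upper half plane. -/
def om (t n : ℤ) : ℂ := (t + Complex.I * Real.sqrt (4 * n - t ^ 2)) / 2

/-- The fixed point of an elliptic matrix. -/
def rt (W : M2) : ℍ :=
  ofComplex ((W 0 0 - W 1 1 + Complex.I * Real.sqrt (4 * W.det - W.trace ^ 2)) / (2 * W 1 0))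

/-- The singular moduli of discriminant `f ^ 2 (t ^ 2 - 4 n)`. -/
def JJ (t n : ℤ) (f : ℕ) : Set ℂ := (fun W => jH (rt W)) '' WW t n f

/-- The number of roots of `X ^ 2 - t X + n` modulo `m`. -/
def rho (t n : ℤ) (m : ℕ) : ℕ := #{x ∈ range m | (m : ℤ) ∣ ((x : ℕ) : ℤ) ^ 2 - t * (x : ℕ) + n}

/-- The order of magnitude of the class number. -/
def hh (t n : ℤ) (f : ℕ) : ℝ := f * Real.exp (∑ l ∈ f.primeFactors, (1 - (rho t n l : ℝ)) / l)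

/-- `p` splits. -/
def SplitMod (p : ℕ) (t n : ℤ) : Prop := ∃ r : ℤ, (p : ℤ) ∣ r ^ 2 - t * r + n ∧ ¬ (p : ℤ) ∣ 2 * r - t

/-- The Moebius action of an integer matrix of positive determinant. -/
def mob (g : M2) (τ : ℍ) : ℍ := ofComplex ((g 0 0 * (τ : ℂ) + g 0 1) / (g 1 0 * (τ : ℂ) + g 1 1))

/-- All entries are at most `R`. -/
def Bdd (W : M2) (R : ℝ) : Prop := ∀ i j, |(W i j : ℝ)| ≤ R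

/-- All entries are divisible by `a`. -/
def Dv (a : ℤ) (W : M2) : Prop := ∀ i j, a ∣ W i j

/-- A function of integer matrices bounded by one and periodic modulo `q`. -/
def Per (q : ℕ) (ψ : M2 → ℝ) : Prop := (∀ g, |ψ g| ≤ 1) ∧ ∀ g g', Dv q (g - g') → ψ g = ψ g'

/-- The scalar matrix. -/
def sc (b : ℤ) : M2 := b • (1 : M2)

/-- The second lattice is the product of the first with the ideal `[B, b + f ω]`. -/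
def Rel (B b : ℤ) (W₁ W₂ : M2) : Prop :=
  ∃ g h : M2, g.det = B ∧ W₂ * g = g * W₁ ∧ h * g = sc b + W₁

/-- The norm of `x B + y (b + f ω)`. -/
def Nf (t n : ℤ) (f : ℕ) (B b x y : ℤ) : ℤ :=
  (x * B + y * b) ^ 2 + f * t * (x * B + y * b) * y + (f : ℤ) ^ 2 * n * y ^ 2

/-- The norm form of the ideal `[B, b + f ω]` has minimum at least `B₀`. -/
def MinDeg (t n : ℤ) (f : ℕ) (B b : ℤ) (B₀ : ℝ) : Prop :=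
  ∀ x y : ℤ, (x ≠ 0 ∨ y ≠ 0) → B₀ * B ≤ (Nf t n f B b x y : ℝ)

/-- The special points that are `p`-adically close to the graph of `γ`. -/
def BadW (t n : ℤ) (f : ℕ) (B b : ℤ) (p N : ℕ) (γ : M2) (R : ℝ) : Set M2 :=
  {W₁ | W₁ ∈ WW t n f ∧ Bdd W₁ (R * f) ∧ ∃ W₂ ∈ WW t n f, Bdd W₂ (R * f) ∧ Rel B b W₁ W₂ ∧
    Dv ((p : ℤ) ^ N) (W₁ * γ - γ * W₂)}

/-- The sum of the divisors. -/
def sg (m : ℕ) : ℕ := ∑ d ∈ m.divisors, d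

/-- The number of divisors. -/
def tau (m : ℕ) : ℕ := #m.divisors

/-- The quadratic form `r ↦ det (r ; r W)`, with the sign that makes it positive on `WW`. -/
def Qw (W : M2) (r : ℤ × ℤ) : ℤ :=
  W 1 0 * r.2 ^ 2 + (W 0 0 - W 1 1) * r.1 * r.2 - W 0 1 * r.1 ^ 2

/-- The density of the zeros of `F` modulo `a`. -/
def th (F : ℤ → ℤ → ℤ) (a : ℕ) : ℝ :=
  (#{w ∈ range a ×ˢ range a | (a : ℤ) ∣ F w.1 w.2} : ℝ) / (a : ℝ) ^ 2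

/-- `F` respects congruences. -/
def Cong (F : ℤ → ℤ → ℤ) : Prop :=
  ∀ a x y x' y' : ℤ, a ∣ x - x' → a ∣ y - y' → a ∣ F x y - F x' y'

/-- The multiplicative function with local values `g l k`. -/
def wt (g : ℕ → ℕ → ℝ) (m : ℕ) : ℝ := ∏ l ∈ m.primeFactors, g l (m.factorization l)

/-- The primes up to `Z`. -/
def Pr (Z : ℝ) : Finset ℕ := (range (⌊Z⌋₊ + 1)).filter Nat.Prime

/-- Hermite normal form. -/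
def HNF (g : M2) : Prop := g 1 0 = 0 ∧ 0 < g 0 0 ∧ 0 < g 1 1 ∧ 0 ≤ g 0 1 ∧ g 0 1 < g 1 1

/-- The proper sublattices of index `f` that are stable under `Ψ / f`. -/
def Adm (t n : ℤ) (f : ℕ) (V Ψ : M2) : Set M2 :=
  {g | HNF g ∧ g.det = f ∧ g * V * g.adjugate ∈ WW t n f ∧ ∃ M : M2, g * Ψ = (f : ℤ) • (M * g)}

/-- Data at the level of the maximal order. -/
def Dat (t n : ℤ) (f : ℕ) (B b : ℤ) (d : M2 × M2 × M2 × M2) : Prop :=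
  d.1 ∈ WW t n 1 ∧ d.2.1 ∈ WW t n 1 ∧ d.1 * d.2.2.1 = d.2.2.1 * d.2.1 ∧
    d.1 * d.2.2.2 = d.2.2.2 * d.2.1 ∧ d.2.2.1.det = B ∧
    d.2.2.2 * d.2.2.1.adjugate = sc b + (f : ℤ) • d.1

/-- The pairs that are counted for large isogeny degree. -/
def Pairs (t n : ℤ) (f : ℕ) (p N : ℕ) (n₀ : ℤ) (R : ℝ) (d : M2 × M2 × M2 × M2) : Set (M2 × M2) :=
  {z | Bdd z.1 (R * f) ∧ z.1.det = n₀ * (f : ℤ) ^ 2 ∧ Dv ((p : ℤ) ^ N) (d.1 * z.1 - z.1 * d.2.1) ∧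
    z.2 ∈ Adm t n f d.1 (z.1 * d.2.2.1.adjugate)}

/-- The pairs of content `c`. -/
def PairsC (t n : ℤ) (f : ℕ) (p N : ℕ) (n₀ : ℤ) (R : ℝ) (d : M2 × M2 × M2 × M2) (c : ℕ) :
    Set (M2 × M2) :=
  {z | z ∈ Pairs t n f p N n₀ R d ∧ Nat.gcd (cont0 (z.1 * d.2.2.1.adjugate)) f = c}

/-- The local weights of the sieve for large isogeny degree. -/
def gw (t n : ℤ) (e s : ℕ) (l k : ℕ) : ℝ :=
  if l ∣ e then 0 else if k = 1 ∧ ¬ l ∣ s then rho t n l else k + 1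

/-! ### Elementary estimates -/

/-- Divisor bounds, Mertens' theorems, a Chebyshev bound, finiteness of boxes. -/
def DivStmt : Prop :=
  (∀ A ε : ℝ, 0 < ε → ∃ C : ℝ, 0 < C ∧ ∀ m : ℕ, 1 ≤ m → (tau m : ℝ) ≤ C * (m : ℝ) ^ ε ∧
    (sg m : ℝ) ≤ C * (m : ℝ) ^ (1 + ε) ∧ |A| ^ #m.primeFactors ≤ C * (m : ℝ) ^ ε ∧
    Real.exp (A * ∑ l ∈ m.primeFactors, 1 / (l : ℝ)) ≤ C * (m : ℝ) ^ ε) ∧
  (∃ C : ℝ, ∀ x : ℝ, 2 ≤ x → |∑ l ∈ Pr x, 1 / (l : ℝ) - Real.log (Real.log x)| ≤ C ∧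
    |∑ l ∈ Pr x, Real.log l / (l : ℝ) - Real.log x| ≤ C ∧ ∑ l ∈ Pr x, Real.log l ≤ C * x) ∧
  (∀ R : ℝ, {W : M2 | Bdd W R}.Finite) ∧
  (∀ a b : ℕ, sg (a * b) ≤ sg a * sg b ∧ tau (a * b) ≤ tau a * tau b ∧
    Nat.totient a * sg a ≤ a ^ 2) ∧
  (∀ m : ℕ, 1 ≤ m → {g : M2 | HNF g ∧ g.det = m}.Finite ∧
    {g : M2 | HNF g ∧ g.det = m}.ncard = sg m) ∧
  (∀ g : M2, 0 < g.det → ∃! h : M2, HNF h ∧ ∃ k : SL(2, ℤ), h = k.1 * g) ∧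
  (∀ (q : ℕ) (k : SL(2, ℤ)), 1 ≤ q → ∃ x : Fin 4 → ℕ, (∀ i, x i < q) ∧
    Dv q (k.1 - !![1, (x 0 : ℤ); 0, 1] * !![1, 0; (x 1 : ℤ), 1] * !![1, (x 2 : ℤ); 0, 1] *
      !![1, 0; (x 3 : ℤ), 1])) ∧
  (∀ (q : ℕ), 1 ≤ q → ∀ k : SL(2, ZMod q), ∃ k' : SL(2, ℤ),
    Matrix.SpecialLinearGroup.map (Int.castRingHom (ZMod q)) k' = k)

/-- Roots of quadratic congruences and points on conics. -/
def ConStmt : Prop :=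
  (∀ (l k : ℕ) (a b c : ℤ), l.Prime → ¬ ((l : ℤ) ∣ a ∧ (l : ℤ) ∣ b ∧ (l : ℤ) ∣ c) →
    #{x ∈ range (l ^ k) | (l : ℤ) ^ k ∣ a * ((x : ℕ) : ℤ) ^ 2 + b * (x : ℕ) + c} ≤ 2 * l ^ (k / 2)) ∧
  (∀ (m : ℕ) (b c : ℤ), 1 ≤ m →
    (#{x ∈ range m | (m : ℤ) ∣ ((x : ℕ) : ℤ) ^ 2 + b * (x : ℕ) + c} : ℝ) ≤
      2 ^ #m.primeFactors * Real.sqrt m) ∧
  (∀ (l k : ℕ) (a b c d e g : ℤ), l.Prime → ¬ ((l : ℤ) ∣ a ∧ (l : ℤ) ∣ b ∧ (l : ℤ) ∣ c) →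
    th (fun x y => a * x ^ 2 + b * x * y + c * y ^ 2 + d * x + e * y + g) (l ^ k) ≤
      2 / (l : ℝ) ^ ((k + 1) / 2)) ∧
  (∀ (l : ℕ) (a b c g : ℤ), l.Prime → ¬ (l : ℤ) ∣ 2 * (b ^ 2 - 4 * a * c) * g →
    |th (fun x y => a * x ^ 2 + b * x * y + c * y ^ 2 - g) l - 1 / l| ≤ 1 / (l : ℝ) ^ 2 ∧
    th (fun x y => a * x ^ 2 + b * x * y + c * y ^ 2 - g) (l ^ 2) ≤ 2 / (l : ℝ) ^ 2) ∧
  (∀ (l : ℕ) (a b c : ℤ), l.Prime → l ≠ 2 → (l : ℤ) ∣ b ^ 2 - 4 * a * c →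
    1 / (l : ℝ) ≤ th (fun x y => a * x ^ 2 + b * x * y + c * y ^ 2) l) ∧
  (∀ (F : ℤ → ℤ → ℤ), Cong F → (∀ a b : ℕ, a.Coprime b → th F (a * b) = th F a * th F b) ∧
    (∀ a b : ℕ, 1 ≤ b → a ∣ b → th F b ≤ th F a) ∧
    (∀ (a : ℕ) (c x₀ y₀ : ℤ), IsCoprime c a →
      th (fun x y => F (x₀ + c * x) (y₀ + c * y)) a = th F a) ∧
    ∀ a X Y : ℕ, 1 ≤ a →
      |(#{w ∈ range X ×ˢ range Y | (a : ℤ) ∣ F w.1 w.2} : ℝ) - X * Y * th F a| ≤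
        ((X : ℝ) * a + Y * a + a ^ 2) * th F a)

/-- The roots of the minimal polynomial of `ω`. -/
def RhoStmt : Prop :=
  ∀ t n : ℤ, Fund t n →
    (∀ a b : ℕ, a.Coprime b → rho t n (a * b) = rho t n a * rho t n b) ∧
    (∀ l k : ℕ, l.Prime → rho t n (l ^ k) ≤ 2) ∧
    (∃ C : ℝ, ∀ x : ℝ, ∑ l ∈ Pr x, ((rho t n l : ℝ) - 1) / l ≤ C) ∧
    (∀ V ∈ WW t n 1, ∀ m : ℕ, 1 ≤ m → {r : ℤ × ℤ | Qw V r = m}.Finite ∧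
      ({r : ℤ × ℤ | Qw V r = m}.ncard : ℝ) ≤ 6 * wt (fun l k => if k = 1 then rho t n l else k + 1) m)

/-- Counting matrices of given determinant in a box. -/
def MCStmt : Prop :=
  ∀ R : ℝ, 0 < R → ∃ C : ℝ, ∀ m : ℤ, m ≠ 0 →
    ({M : M2 | M.det = m ∧ Bdd M (R * Real.sqrt |(m : ℝ)|)}.ncard : ℝ) ≤ C * sg m.natAbs ∧
    ∀ p i : ℕ, p.Prime →
      ({M : M2 | M.det = m ∧ Bdd M (R * Real.sqrt |(m : ℝ)|) ∧ (p : ℤ) ^ i ∣ M 0 1}.ncard : ℝ) ≤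
        C * ((i + 2) * sg m.natAbs / (p : ℝ) ^ i + tau m.natAbs * Real.sqrt |(m : ℝ)|)

/-- Basic facts on the matrices `WW`. -/
def WStmt : Prop :=
  ∀ t n : ℤ, t ^ 2 - 4 * n < 0 →
    (om t n ^ 2 = t * om t n - n ∧ 0 < (om t n).im) ∧
    (∀ f : ℕ, 1 ≤ f → ∀ W ∈ WW t n f,
      (W 1 0 : ℂ) * rt W + W 1 1 = f * om t n ∧ (W 0 0 : ℂ) * rt W + W 0 1 = f * om t n * rt W ∧
      W 0 1 < 0 ∧ W * W = ((f : ℤ) * t) • W - sc ((f : ℤ) ^ 2 * n) ∧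
      (∀ k : SL(2, ℤ), k.1 * W * (k⁻¹).1 ∈ WW t n f ∧ rt (k.1 * W * (k⁻¹).1) = k • rt W) ∧
      (∀ W' ∈ WW t n f, rt W' = rt W → W' = W) ∧
      (∀ W' ∈ WW t n f, ∀ g : M2, g ≠ 0 → W' * g = g * W → 0 < g.det ∧ mob g (rt W) = rt W') ∧
      (∀ W' ∈ WW t n f, jH (rt W') = jH (rt W) → ∃ k : SL(2, ℤ), W' = k.1 * W * (k⁻¹).1) ∧
      ({k : SL(2, ℤ) | k • rt W = rt W}.Finite ∧ {k : SL(2, ℤ) | k • rt W = rt W}.ncard ≤ 6) ∧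
      (2 ≤ f → ∀ k : SL(2, ℤ), k • rt W = rt W → k = 1 ∨ k = -1)) ∧
    (∀ f : ℕ, 1 ≤ f → (JJ t n f).Finite ∧ (JJ t n f).Nonempty) ∧
    (∀ Ω : Set ℍ, IsCompact Ω → ∃ R : ℝ, 0 < R ∧ ∀ f : ℕ, 1 ≤ f →
      (∀ W ∈ WW t n f, rt W ∈ Ω → Bdd W (R * f)) ∧
      (∀ c : ℂ, ({W | W ∈ WW t n f ∧ rt W ∈ Ω ∧ jH (rt W) = c}.ncard : ℝ) ≤ R) ∧
      ({W | W ∈ WW t n f ∧ rt W ∈ Ω}.ncard : ℝ) ≤ R * (JJ t n f).ncard) ∧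
    (∀ R : ℝ, ∃ Ω : Set ℍ, IsCompact Ω ∧ ∀ f : ℕ, 1 ≤ f → ∀ W ∈ WW t n f, Bdd W (R * f) →
      rt W ∈ Ω) ∧
    (∀ (f : ℕ) (V g : M2), 1 ≤ f → V ∈ WW t n 1 → g.det = f → cont (g * V * g.adjugate) = 1 →
      g * V * g.adjugate ∈ WW t n f ∧ rt (g * V * g.adjugate) = mob g (rt V)) ∧
    (∀ f : ℕ, 1 ≤ f → Fund t n → ∀ W ∈ WW t n f, ∃ V ∈ WW t n 1, ∃ g U U' : M2, g.det = f ∧
      W = g * V * g.adjugate ∧ rt V ∈ ModularGroup.fd ∧ g.adjugate = (f : ℤ) • U + U' * W ∧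
      ∀ V' ∈ WW t n 1, ∀ g' : M2, g'.det = f → W = g' * V' * g'.adjugate →
        ∃ k : SL(2, ℤ), g' = g * k.1 ∧ V' = (k⁻¹).1 * V * k.1) ∧
    {V | V ∈ WW t n 1 ∧ rt V ∈ ModularGroup.fd}.Finite ∧
    (∀ (Ω Ω' : Set ℍ), IsCompact Ω → IsCompact Ω' → ∃ R : ℝ, 0 < R ∧ ∀ g : M2, 0 < g.det →
      ∀ τ ∈ Ω, mob g τ ∈ Ω' → Bdd g (R * Real.sqrt g.det))

/-- Lower bound for the class number. -/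
def JLowStmt : Prop :=
  ∀ t n : ℤ, Fund t n → (∃ c : ℝ, 0 < c ∧ ∀ f : ℕ, 1 ≤ f → c * hh t n f ≤ (JJ t n f).ncard) ∧
    ∀ ε : ℝ, 0 < ε → ∃ c : ℝ, 0 < c ∧ ∀ f : ℕ, 1 ≤ f → c * (f : ℝ) ^ (1 - ε) ≤ hh t n f

/-- No escape of mass. -/
def TightStmt : Prop :=
  ∀ t n : ℤ, Fund t n → ∃ C : ℝ, ∀ f : ℕ, 1 ≤ f → ∀ Y : ℝ, 1 ≤ Y → Y ^ 2 ≤ f →
    ({c | ∃ W ∈ WW t n f, jH (rt W) = c ∧ Y < (rt W).im}.ncard : ℝ) ≤ C * hh t n f / Y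

/-! ### Kloosterman sums -/

/-- Kloosterman's bound for a prime modulus. -/
def KPStmt : Prop :=
  ∀ (l : ℕ) [Fact l.Prime] (h k : ZMod l), (h ≠ 0 ∨ k ≠ 0) →
    ‖∑ x : (ZMod l)ˣ, ZMod.stdAddChar (h * (x : ZMod l) + k * ((x⁻¹ : (ZMod l)ˣ) : ZMod l))‖ ≤
      2 * (l : ℝ) ^ (3 / 4 : ℝ)

/-- Points of a modular hyperbola in a box. -/
def KLStmt : Prop :=
  ∀ ε : ℝ, 0 < ε → ∃ C : ℝ, ∀ (c : ℕ) (m a₀ d₀ : ℤ) (L₁ L₂ : ℕ), Squarefree c → IsCoprime m c →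
    L₁ ≤ c + 1 → L₂ ≤ c + 1 →
    |(#{w ∈ Ico a₀ (a₀ + L₁) ×ˢ Ico d₀ (d₀ + L₂) | (c : ℤ) ∣ w.1 * w.2 - m} : ℝ) -
      L₁ * L₂ * Nat.totient c / (c : ℝ) ^ 2| ≤ C * (c : ℝ) ^ (3 / 4 + ε)

/-- The sum of `ψ` over matrices of determinant `m` with fixed lower left entry and diagonal in a
box. -/
def boxSum (ψ : M2 → ℝ) (m c a₀ d₀ : ℤ) (L : ℕ) : ℝ :=
  ∑ w ∈ Ico a₀ (a₀ + L) ×ˢ Ico d₀ (d₀ + L) with c ∣ w.1 * w.2 - m,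
    ψ !![w.1, (w.1 * w.2 - m) / c; c, w.2]

/-- Translation invariance of the box sums. -/
def K0Stmt : Prop :=
  ∀ ε : ℝ, 0 < ε → ∃ C : ℝ, ∀ m q : ℕ, 1 ≤ m → 1 ≤ q → ∃ E : ℕ → ℝ,
    (∀ x : ℕ, 1 ≤ x → ∑ c ∈ Icc 1 x, E c ≤ C * (q : ℝ) ^ 3 * (m : ℝ) ^ ε * (x : ℝ) ^ (7 / 4 + ε)) ∧
    ∀ (ψ : M2 → ℝ), Per q ψ → ∀ (c a₀ a₁ d₀ : ℤ) (L : ℕ), c ≠ 0 → L ≤ c.natAbs →
      |boxSum ψ m c a₀ d₀ L - boxSum ψ m c a₁ d₀ L| ≤ E c.natAbs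

/-- Horocycle invariance of Hecke points, with a power saving and uniform in the level. -/
def K1Stmt : Prop :=
  ∃ (κ : ℝ) (A : ℕ), 0 < κ ∧ ∀ (φ : ℍ → ℝ) (Kφ : NNReal), LipschitzWith Kφ φ →
    HasCompactSupport φ → ∀ Ω : Set ℍ, IsCompact Ω → ∃ C : ℝ, ∀ τ ∈ Ω, ∀ m q : ℕ, 1 ≤ m → 1 ≤ q →
      ∀ ψ : M2 → ℝ, Per q ψ → ∀ s : ℝ, |s| ≤ 1 →
        |∑' g : {g : M2 // g.det = m}, (φ (s +ᵥ mob g τ) - φ (mob g τ)) * ψ g| ≤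
          C * (q : ℝ) ^ A * (m : ℝ) ^ (1 - κ)

/-- The same for special points. -/
def K2Stmt : Prop :=
  ∃ (κ : ℝ) (A : ℕ), 0 < κ ∧ ∀ t n : ℤ, Fund t n → ∀ (φ : ℍ → ℝ) (Kφ : NNReal),
    LipschitzWith Kφ φ → HasCompactSupport φ → ∃ C : ℝ, ∀ f q : ℕ, 1 ≤ f → 1 ≤ q →
      ∀ ψ : M2 → ℝ, Per q ψ →
        (∀ s : ℝ, |s| ≤ 1 → |∑' W : WW t n f, (φ (s +ᵥ rt W) - φ (rt W)) * ψ W| ≤
          C * (q : ℝ) ^ A * (f : ℝ) ^ (1 - κ)) ∧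
        ∀ k : SL(2, ℤ), |∑' W : WW t n f, φ (rt W) * (ψ (k.1 * W * (k⁻¹).1) - ψ W)| ≤
          C * (q : ℝ) ^ A * (f : ℝ) ^ (1 - κ)

/-! ### Small isogeny degree -/

/-- The local conditions for small isogeny degree. -/
def Cnd (B b : ℤ) (p N : ℕ) (M W : M2) : Prop :=
  Dv B (M * (sc b + W).adjugate) ∧ Dv ((p : ℤ) ^ N) (W * M - M * W)

open Classical in
/-- The density of the local conditions. -/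
def DensStmt : Prop :=
  ∀ (B p N : ℕ), 1 ≤ B → p.Prime → ∃ S : Finset SL(2, ℤ), S.Nonempty ∧
    ∀ (t n : ℤ) (f : ℕ) (b n₀ : ℤ) (W M : M2), SplitMod p t n → ¬ p ∣ f → W ∈ WW t n f →
      (B : ℤ) ∣ (sc b + W).det → n₀ ≠ 0 → cont0 M ∣ n₀.natAbs →
      (#{k ∈ S | Cnd B b p N M (k.1 * W * (k⁻¹).1)} : ℝ) ≤ 2 * (n₀ : ℝ) ^ 2 / sg B * #S ∧
      ∀ i : ℕ, ¬ p ^ (i + 1) ∣ cont M →
        (#{k ∈ S | Cnd B b p N M (k.1 * W * (k⁻¹).1)} : ℝ) ≤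
          2 * (n₀ : ℝ) ^ 2 / sg B * (2 * Real.sqrt ((p : ℝ) ^ (N + i)) / (p : ℝ) ^ N) * #S

/-- Small isogeny degree. -/
def ESStmt : Prop :=
  ∃ η : ℝ, 0 < η ∧ ∀ (t n : ℤ) (p : ℕ) (γ : M2) (R ε : ℝ), Fund t n → p.Prime → SplitMod p t n →
    γ.det ≠ 0 → 0 < R → 0 < ε → ∃ N₀ : ℕ, ∀ N, N₀ ≤ N → ∃ B₀ f₀ : ℕ, ∀ f : ℕ, f₀ ≤ f → ¬ p ∣ f →
      ∀ B b : ℤ, (B₀ : ℤ) ≤ B → (B : ℝ) ≤ (f : ℝ) ^ η →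
        ((BadW t n f B b p N γ R).ncard : ℝ) ≤ ε * (JJ t n f).ncard

/-! ### The sieve -/

open Classical in
/-- An upper bound sieve. -/
def SelStmt : Prop :=
  ∀ C₁ : ℝ, 0 < C₁ → ∃ (C : ℝ) (u : ℕ), 0 < C ∧ 1 ≤ u ∧
    ∀ (ι : Type) (S : Finset ι) (P : Finset ℕ) (e : ℕ → ι → Prop) (ν : ℕ → ℝ) (M E z : ℝ),
      2 ≤ z → (∀ l ∈ P, l.Prime ∧ (l : ℝ) ≤ z ∧ 0 ≤ ν l ∧ ν l ≤ C₁ / l) → 0 ≤ M → 0 ≤ E →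
      (∀ T ⊆ P, ∏ l ∈ T, (l : ℝ) ≤ z ^ u →
        |(#{i ∈ S | ∀ l ∈ T, e l i} : ℝ) - M * ∏ l ∈ T, ν l| ≤ E) →
      (#{i ∈ S | ∀ l ∈ P, ¬ e l i} : ℝ) ≤ C * M * Real.exp (-∑ l ∈ P, ν l) + E * z ^ u

/-- The hypotheses of the bounds for multiplicative functions at values of `F`. -/
def SVHyp (η C₁ Z : ℝ) (X Y : ℕ) (F : ℤ → ℤ → ℤ) (g : ℕ → ℕ → ℝ) (T : Finset ℕ) : Prop :=
  2 ≤ Z ∧ Z ^ η ≤ X ∧ Z ^ η ≤ Y ∧ Cong F ∧ (∀ x < X, ∀ y < Y, |(F x y : ℝ)| ≤ Z) ∧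
    (∀ l k, 0 ≤ g l k ∧ g l k ≤ k + 1) ∧
    (∀ l k : ℕ, l.Prime → 1 ≤ k → th F (l ^ k) ≤ C₁ / (l : ℝ) ^ ((k + 1) / 2)) ∧
    ∀ l : ℕ, l.Prime → l ∉ T → (∀ k, 2 ≤ k → g l k = 0) ∨ th F (l ^ 2) ≤ C₁ / (l : ℝ) ^ 2

/-- A two-dimensional Shiu bound. -/
def SV1Stmt : Prop :=
  ∀ η C₁ : ℝ, 0 < η → 1 ≤ C₁ → ∃ C η' : ℝ, 0 < C ∧ 0 < η' ∧
    ∀ (Z : ℝ) (X Y : ℕ) (F : ℤ → ℤ → ℤ) (g : ℕ → ℕ → ℝ) (T : Finset ℕ), SVHyp η C₁ Z X Y F g T →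
      ∑ w ∈ range X ×ˢ range Y with F w.1 w.2 ≠ 0, wt g (F w.1 w.2).natAbs ≤
        C * X * Y * (Real.exp (∑ l ∈ Pr Z, (g l 1 - 1) * th F l + C * ∑ l ∈ T, 1 / (l : ℝ)) +
          Z ^ (-η'))

/-- The same with a fixed divisor. -/
def SVStmt : Prop :=
  ∀ η C₁ : ℝ, 0 < η → 1 ≤ C₁ → ∃ C η' : ℝ, 0 < C ∧ 0 < η' ∧
    ∀ (Z : ℝ) (X Y : ℕ) (F : ℤ → ℤ → ℤ) (g : ℕ → ℕ → ℝ) (T : Finset ℕ), SVHyp η C₁ Z X Y F g T →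
      ∀ a : ℕ, 1 ≤ a → (a : ℝ) ≤ Z ^ η' →
      ∑ w ∈ range X ×ˢ range Y with F w.1 w.2 ≠ 0 ∧ (a : ℤ) ∣ F w.1 w.2, wt g (F w.1 w.2).natAbs ≤
        C * X * Y * (Real.exp (∑ l ∈ Pr Z with ¬ l ∣ a, (g l 1 - 1) * th F l +
            C * ∑ l ∈ T, 1 / (l : ℝ)) *
          ∏ l ∈ a.primeFactors, C * (a.factorization l + 1) / (l : ℝ) ^ ((a.factorization l + 1) / 2) +
          Z ^ (-η'))

/-! ### Large isogeny degree -/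

/-- The sieve applied to a shifted binary quadratic form on a coset. -/
def ELCStmt : Prop :=
  ∀ (t n n₀ : ℤ) (p s : ℕ) (R η : ℝ), Fund t n → n₀ ≠ 0 → p.Prime → 1 ≤ s → 0 < R → 0 < η →
    ∃ (C η' : ℝ) (f₀ : ℕ), 0 < C ∧ 0 < η' ∧ ∀ f : ℕ, f₀ ≤ f → ¬ p ∣ f → ∀ a b c : ℤ,
      Int.gcd (Int.gcd a b) c = 1 → b ^ 2 - 4 * a * c = (f : ℤ) ^ 2 * (t ^ 2 - 4 * n) →
      |b| ≤ a → a ≤ c → (f : ℝ) ^ η ≤ a → ∀ d θ N : ℕ, d ∣ f → (d : ℝ) ≤ (f : ℝ) ^ η' → θ ∣ d →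
      θ.Coprime (f / d) → (p : ℝ) ^ (2 * N) ≤ (f : ℝ) ^ η' → ∀ x₀ y₀ : ℤ,
      (d : ℤ) ∣ 2 * a * x₀ + b * y₀ → (d : ℤ) ∣ b * x₀ + 2 * c * y₀ →
      (d : ℤ) ^ 2 ∣ a * x₀ ^ 2 + b * x₀ * y₀ + c * y₀ ^ 2 →
      ∀ (S : Finset (ℤ × ℤ)) (m : ℤ × ℤ → ℕ),
        (∀ w ∈ S, (d : ℤ) ∣ w.1 - x₀ ∧ (d : ℤ) ∣ w.2 - y₀ ∧
          ((a * w.1 ^ 2 + b * w.1 * w.2 + c * w.2 ^ 2 : ℤ) : ℝ) ≤ R * (f : ℝ) ^ 2 ∧ 1 ≤ m w ∧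
          a * w.1 ^ 2 + b * w.1 * w.2 + c * w.2 ^ 2 - n₀ * (4 * n - t ^ 2) * (f : ℤ) ^ 2 =
            (d : ℤ) ^ 2 * m w ∧ p ^ (2 * N) * θ ^ 2 ∣ m w) →
        ∑ w ∈ S, wt (gw t n (f / d) (s * d * p)) (m w) ≤
          C * (f / (d : ℝ) ^ 2) *
            (Real.exp (-∑ l ∈ f.primeFactors, (rho t n l : ℝ) / l +
                C * ∑ l ∈ d.primeFactors, 1 / (l : ℝ)) * ((2 * N + 1) / (p : ℝ) ^ N) *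
              ∏ l ∈ θ.primeFactors, C * (2 * θ.factorization l + 1) / (l : ℝ) ^ θ.factorization l +
              (f : ℝ) ^ (-η'))

/-- Reduction to the maximal order. -/
def ML1Stmt : Prop :=
  ∀ (t n : ℤ) (γ : M2) (R : ℝ), Fund t n → γ.det ≠ 0 → 0 < R → ∃ C R' : ℝ, 0 < C ∧ 0 < R' ∧
    ∀ (f p N : ℕ) (B b : ℤ), 1 ≤ f → p.Prime → ¬ p ∣ f → IsCoprime B f →
      ∃ D : Finset (M2 × M2 × M2 × M2), (#D : ℝ) ≤ C ∧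
        (∀ d ∈ D, Dat t n f B b d ∧ Bdd d.1 R' ∧ Bdd d.2.1 R') ∧
        ((BadW t n f B b p N γ R).ncard : ℝ) ≤
          C * ∑ d ∈ D, ((Pairs t n f p N γ.det R' d).ncard : ℝ)

open Classical in
/-- Local multiplicities. -/
def ML2Stmt : Prop :=
  ∀ (t n m : ℤ) (f c : ℕ) (V Ψ : M2), t ^ 2 - 4 * n < 0 → 1 ≤ f → V ∈ WW t n 1 →
    Ψ.det = m * (f : ℤ) ^ 2 → Nat.gcd (cont0 Ψ) f = c →
    (Adm t n f V Ψ).Finite ∧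
    (Adm t n f V Ψ).ncard ≤ ∑ θ ∈ c.divisors with θ.Coprime (f / c), sg θ *
      #{k ∈ range c ×ˢ range c | (c : ℤ) ∣ (k.1 : ℤ) * k.2 - m ∧
        (f : ℤ) * c ∣ f * ((k.1 : ℤ) + k.2) - Ψ.trace ∧ (θ : ℤ) ∣ (k.1 : ℤ) - k.2 ∧
        Dv (c * θ) (Ψ - sc (f * k.1))} ∧
    ((Adm t n f V Ψ).Nonempty → (f : ℤ) ∣ Ψ.trace ∧
      (∀ l : ℕ, l.Prime → l ∣ f / c → ¬ (l : ℤ) * (c : ℤ) ^ 2 ∣ (V * Ψ - Ψ * V).det) ∧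
      (V * Ψ = Ψ * V → ∃ x y : ℤ, Ψ = (f : ℤ) • (sc x + (f * y) • V)))

/-- Pairs of small content. -/
def ELSStmt : Prop :=
  ∀ (t n n₀ : ℤ) (p : ℕ) (R η : ℝ), Fund t n → n₀ ≠ 0 → p.Prime → 0 < R → 0 < η →
    ∃ (C η' : ℝ) (f₀ : ℕ), 0 < C ∧ 0 < η' ∧ ∀ (f N c : ℕ) (B b : ℤ) (d : M2 × M2 × M2 × M2),
      f₀ ≤ f → ¬ p ∣ f → (p : ℝ) ^ (2 * N) ≤ (f : ℝ) ^ η' → 0 < B → IsCoprime B f →
      MinDeg t n f B b ((f : ℝ) ^ η) → Dat t n f B b d → Bdd d.1 R → Bdd d.2.1 R → c ∣ f →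
      (c : ℝ) ≤ (f : ℝ) ^ η' →
      ((PairsC t n f p N n₀ R d c).ncard : ℝ) ≤ C * (f / (c : ℝ)) *
        (Real.exp (-∑ l ∈ f.primeFactors, (rho t n l : ℝ) / l) * ((2 * N + 1) / (p : ℝ) ^ N) *
          ∏ l ∈ c.primeFactors, (1 + C / Real.sqrt l) + (f : ℝ) ^ (-η'))

/-- Pairs of large content. -/
def ELLStmt : Prop :=
  ∀ (t n n₀ : ℤ) (R ε : ℝ), Fund t n → n₀ ≠ 0 → 0 < R → 0 < ε →
    ∃ C : ℝ, ∀ (f p N c : ℕ) (B b : ℤ) (d : M2 × M2 × M2 × M2), 1 ≤ f → 0 < B → IsCoprime B f →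
      MinDeg t n f B b (|(n₀ : ℝ)| + 1) → Dat t n f B b d → Bdd d.1 R → Bdd d.2.1 R → c ∣ f →
      ((PairsC t n f p N n₀ R d c).ncard : ℝ) ≤ C * (f : ℝ) ^ (1 + ε) / (c : ℝ) ^ (1 / 4 : ℝ)

/-- Large isogeny degree. -/
def ELStmt : Prop :=
  ∀ (η : ℝ) (t n : ℤ) (p : ℕ) (γ : M2) (R ε : ℝ), 0 < η → Fund t n → p.Prime → γ.det ≠ 0 →
    0 < R → 0 < ε → ∃ N₀ : ℕ, ∀ N, N₀ ≤ N → ∃ f₀ : ℕ, ∀ f : ℕ, f₀ ≤ f → ¬ p ∣ f →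
      ∀ B b : ℤ, 0 < B → IsCoprime B f → MinDeg t n f B b ((f : ℝ) ^ η) →
        ((BadW t n f B b p N γ R).ncard : ℝ) ≤ ε * (JJ t n f).ncard

/-- Changing the representative of the ideal class. -/
def RelStmt : Prop :=
  ∀ (t n : ℤ) (f : ℕ) (B b : ℤ), t ^ 2 - 4 * n < 0 → 1 ≤ f →
    (∀ W₁ ∈ WW t n f, ∀ W₂ ∈ WW t n f, Rel B b W₁ W₂ → 0 < B ∧
      (∃ c : ℤ, b ^ 2 + f * t * b + (f : ℤ) ^ 2 * n = B * c ∧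
        Int.gcd (Int.gcd B (2 * b + f * t)) c = 1) ∧
      (∀ k₁ k₂ : SL(2, ℤ), Rel B b (k₁.1 * W₁ * (k₁⁻¹).1) (k₂.1 * W₂ * (k₂⁻¹).1)) ∧
      ∀ x y m : ℤ, Nf t n f B b x y = B * m → ∃ g : M2, g.det = m ∧ W₂ * g = g * W₁) ∧
    (∀ x y B' : ℤ, IsCoprime x y → 0 < B → Nf t n f B b x y = B * B' → ∃ b' : ℤ,
      (∀ W₁ ∈ WW t n f, ∀ W₂ ∈ WW t n f, Rel B b W₁ W₂ → Rel B' b' W₁ W₂) ∧
      ((∃ W₁ ∈ WW t n f, ∃ W₂ ∈ WW t n f, Rel B b W₁ W₂) →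
        ∀ B₀ : ℝ, MinDeg t n f B b B₀ → MinDeg t n f B' b' B₀)) ∧
    ((∃ W₁ ∈ WW t n f, ∃ W₂ ∈ WW t n f, Rel B b W₁ W₂) → ∃ x y B' : ℤ, IsCoprime x y ∧
      Nf t n f B b x y = B * B' ∧ IsCoprime B' f) ∧
    ∀ B₀ : ℝ, MinDeg t n f B b B₀ → MinDeg t n f B (-b - f * t) B₀

/-- Few special points are `p`-adically close to the graph of a rational matrix. -/
def EStmt : Prop :=
  ∀ (t n : ℤ) (p : ℕ) (γ : M2) (R ε : ℝ), Fund t n → p.Prime → SplitMod p t n → γ.det ≠ 0 →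
    0 < R → 0 < ε → ∃ N B₀ f₀ : ℕ, ∀ f : ℕ, f₀ ≤ f → ¬ p ∣ f → ∀ B b : ℤ,
      MinDeg t n f B b B₀ → ((BadW t n f B b p N γ R).ncard : ℝ) ≤ ε * (JJ t n f).ncard

end Pool.Agent.Lib.MP_9177b7_ag.EQ
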