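import Pool.Agent.Lib.MP_9177b7_ag.EQ.Tight1
import Pool.Agent.Lib.MP_9177b7_ag.CM.Eis
import Pool.Agent.Shared.BrunSieve

/-!
No escape of mass for special points.
-/

open UpperHalfPlane Finset
open scoped MatrixGroups

noncomputable section

namespace Pool.Agent.Lib.MP_9177b7_ag.EQ

open Pool.Agent.Lib.MP_9177b7_ag.CM

namespace Tight

lemma per (t n : ℤ) (a : ℕ) :
    Function.Periodic (fun x : ℕ => (a : ℤ) ∣ ((x : ℕ) : ℤ) ^ 2 - t * (x : ℕ) + n) a := by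
  intro x
  have e : (((x + a : ℕ) : ℤ)) ^ 2 - t * (x + a : ℕ) + n =
      ((x : ℤ) ^ 2 - t * x + n) + a * (2 * x + a - t) := by
    push_cast
    ring
  simp only [e]
  exact propext (dvd_add_left (dvd_mul_right _ _))

lemma rho_mul (t n : ℤ) (a b : ℕ) (h : a.Coprime b) : rho t n (a * b) = rho t n a * rho t n b := by
  rcases Nat.eq_zero_or_pos a with rfl | ha
  · simp [rho]
  rcases Nat.eq_zero_or_pos b with rfl | hb
  · simp [rho]
  rw [rho, rho, rho, ← Pool.Agent.Shared.BrunSieve.count_mul_coprime ha hb h _ _ (per t n a)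
    (per t n b)]
  congr 1
  refine filter_congr fun x _ => ?_
  push_cast
  exact ⟨fun hx => ⟨(dvd_mul_right _ _).trans hx, (dvd_mul_left _ _).trans hx⟩,
    fun hx => (Nat.isCoprime_iff_coprime.2 h).mul_dvd hx.1 hx.2⟩

lemma rho_prod (t n : ℤ) {A : ℕ} (hA : A ≠ 0) :
    rho t n A = ∏ l ∈ A.primeFactors, rho t n (l ^ A.factorization l) := by
  have := Nat.multiplicative_factorization (rho t n) (rho_mul t n) (by simp [rho]) hA
  rwa [Finsupp.prod, Nat.support_factorization] at this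

lemma rho_scale (t n : ℤ) (f A : ℕ) (hA : 0 < A) (h : f.Coprime A) :
    rho (f * t) ((f : ℤ) ^ 2 * n) A ≤ rho t n A := by
  obtain ⟨u, v, huv⟩ := Nat.isCoprime_iff_coprime.2 h
  have hA' : (0 : ℤ) < A := by exact_mod_cast hA
  refine card_le_card_of_injOn (fun x => (((x : ℤ) * u) % A).toNat) ?_ ?_
  · intro x hx
    obtain ⟨-, c, hc⟩ := mem_filter.1 (mem_coe.1 hx)
    have h0 := Int.emod_nonneg ((x : ℤ) * u) hA'.ne'
    have h1 := Int.emod_lt_of_pos ((x : ℤ) * u) hA'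
    dsimp only
    refine mem_coe.2 (mem_filter.2 ⟨mem_range.2 (by omega), ?_⟩)
    rw [Int.toNat_of_nonneg h0, Int.emod_def]
    generalize (x : ℤ) * u / A = q
    refine ⟨c * u ^ 2 - q * (2 * (x * u) - A * q - t) - t * (x * u) * v + n * v * (1 + u * f), ?_⟩
    linear_combination u ^ 2 * hc + (t * (x * u) - n * (1 + u * f)) * huv
  · intro x hx y hy e
    have hx' := mem_range.1 (mem_filter.1 (mem_coe.1 hx)).1
    have hy' := mem_range.1 (mem_filter.1 (mem_coe.1 hy)).1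
    have h0 := Int.emod_nonneg ((x : ℤ) * u) hA'.ne'
    have h1 := Int.emod_nonneg ((y : ℤ) * u) hA'.ne'
    have e' : ((x : ℤ) * u) % A = ((y : ℤ) * u) % A := by
      dsimp only at e
      omega
    obtain ⟨c, hc⟩ := Int.dvd_of_emod_eq_zero (Int.emod_eq_emod_iff_emod_sub_eq_zero.1 e')
    have : (A : ℤ) ∣ (x : ℤ) - y := ⟨c * f + (x - y) * v, by
      linear_combination (f : ℤ) * hc - ((x : ℤ) - y) * huv⟩
    have := Int.eq_zero_of_abs_lt_dvd this (by rw [abs_lt]; constructor <;> omega)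
    omega

lemma rho_sq (t n : ℤ) {f l : ℕ} (hp : l.Prime) (h : l ∣ f) :
    rho (f * t) ((f : ℤ) ^ 2 * n) (l ^ 2) ≤ l := by
  obtain ⟨e, rfl⟩ := h
  have : (range (l ^ 2)).filter (fun x : ℕ => ((l ^ 2 : ℕ) : ℤ) ∣ ((x : ℕ) : ℤ) ^ 2 -
      ((l * e : ℕ) * t) * (x : ℕ) + ((l * e : ℕ) : ℤ) ^ 2 * n) ⊆ (range l).image fun y => l * y := by
    intro x hx
    obtain ⟨h1, c, hc⟩ := mem_filter.1 hx
    have h2 : (l : ℤ) ∣ (x : ℤ) ^ 2 := ⟨l * c + e * t * x - l * e ^ 2 * n, by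
      push_cast at hc
      linear_combination hc⟩
    have h3 : l ∣ x := hp.dvd_of_dvd_pow (n := 2) (by exact_mod_cast h2)
    obtain ⟨y, rfl⟩ := h3
    refine mem_image.2 ⟨y, mem_range.2 ?_, rfl⟩
    have := mem_range.1 h1
    rw [sq] at this
    exact Nat.lt_of_mul_lt_mul_left this
  exact (card_le_card this).trans (card_image_le.trans (card_range l).le)

/-- The local values. -/
def gl (t n : ℤ) (f : ℕ) (l k : ℕ) : ℝ :=
  if l ∣ f ∧ k = 1 then 0 else rho (f * t) ((f : ℤ) ^ 2 * n) (l ^ k)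

lemma gl_loc (hc : ConStmt) (t n : ℤ) (f : ℕ) : Loc (gl t n f) := by
  refine ⟨fun l k => ?_, fun l k hp => ?_⟩
  · rw [gl]
    split_ifs <;> positivity
  · rw [gl]
    split_ifs
    · positivity
    have h := hc.1 l k 1 (-(f * t)) ((f : ℤ) ^ 2 * n) hp fun h =>
      hp.one_lt.ne' (by exact_mod_cast Int.eq_one_of_dvd_one (by positivity) h.1)
    have e : rho (f * t) ((f : ℤ) ^ 2 * n) (l ^ k) = #{x ∈ range (l ^ k) | (l : ℤ) ^ k ∣
        1 * ((x : ℕ) : ℤ) ^ 2 + -(f * t) * (x : ℕ) + (f : ℤ) ^ 2 * n} := by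
      rw [rho]
      congr 1
      refine filter_congr fun x _ => ?_
      push_cast
      rw [one_mul, neg_mul, ← sub_eq_add_neg]
    rw [e]
    exact_mod_cast h

lemma gl_le {t n : ℤ} (h2 : ∀ l k : ℕ, l.Prime → rho t n (l ^ k) ≤ 2) (f : ℕ) {l : ℕ}
    (hp : l.Prime) : gl t n f l 1 / l + gl t n f l 2 / (l : ℝ) ^ 2 ≤
      ((rho t n l : ℝ) - 1) / l + 1 / l + (if l ∣ f then (1 - (rho t n l : ℝ)) / l else 0) +
        4 * (Real.log l / (l : ℝ) ^ 2) := by
  have hl0 : (2 : ℝ) ≤ l := by exact_mod_cast hp.two_le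
  have b4 : 1 ≤ 2 * Real.log l := by
    have := Real.log_le_log (by norm_num) hl0
    have := Real.log_two_gt_d9
    linarith
  have b5 : 2 / (l : ℝ) ^ 2 ≤ 4 * (Real.log l / (l : ℝ) ^ 2) := by
    rw [← mul_div_assoc]
    exact div_le_div_of_nonneg_right (by linarith) (by positivity)
  have b6 : (0 : ℝ) ≤ 2 / (l : ℝ) ^ 2 := by positivity
  by_cases h : l ∣ f
  · have h1 : (rho (f * t) ((f : ℤ) ^ 2 * n) (l ^ 2) : ℝ) ≤ l := by exact_mod_cast rho_sq t n hp h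
    have h3 : (rho (f * t) ((f : ℤ) ^ 2 * n) (l ^ 2) : ℝ) / (l : ℝ) ^ 2 ≤ 1 / l := by
      rw [div_le_div_iff₀ (by positivity) (by positivity)]
      nlinarith
    have e : ((rho t n l : ℝ) - 1) / l + (1 - (rho t n l : ℝ)) / l = 0 := by ring
    rw [gl, gl, if_pos ⟨h, rfl⟩, if_neg (by omega), if_pos h, zero_div]
    linarith
  · have hc : ∀ k, f.Coprime (l ^ k) := fun k =>
      ((hp.coprime_iff_not_dvd.2 h).symm).pow_right k
    have h1 : (rho (f * t) ((f : ℤ) ^ 2 * n) (l ^ 1) : ℝ) ≤ rho t n l := by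
      have := rho_scale t n f (l ^ 1) (pow_pos hp.pos 1) (hc 1)
      rw [pow_one l] at this ⊢
      exact_mod_cast this
    have h3 : (rho (f * t) ((f : ℤ) ^ 2 * n) (l ^ 2) : ℝ) ≤ 2 := by
      exact_mod_cast (rho_scale t n f (l ^ 2) (pow_pos hp.pos 2) (hc 2)).trans (h2 l 2 hp)
    have h4 := div_le_div_of_nonneg_right h1 (by positivity : (0 : ℝ) ≤ l)
    have h5 := div_le_div_of_nonneg_right h3 (by positivity : (0 : ℝ) ≤ (l : ℝ) ^ 2)
    have e : ((rho t n l : ℝ) - 1) / l + 1 / l = rho t n l / l := by ring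
    rw [gl, gl, if_neg (fun h' => h h'.1), if_neg (fun h' => h h'.1), if_neg h]
    linarith

/-- No prime factor of `f` divides `A` exactly once. -/
def Good (f A : ℕ) : Prop := ∀ l ∈ A.primeFactors, ¬ (l ∣ f ∧ A.factorization l = 1)

open Classical in
/-- The parameters of the classes. -/
def par (t n : ℤ) (f X : ℕ) : Finset (Σ _ : ℕ, ℕ) :=
  (Icc 1 X).sigma fun A => (range A).filter fun d : ℕ =>
    (A : ℤ) ∣ (d : ℤ) ^ 2 - f * t * d + (f : ℤ) ^ 2 * n ∧ Good f A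

lemma card_par (hc : ConStmt) (t n : ℤ) (f X : ℕ) :
    (#(par t n f X) : ℝ) ≤ ∑ A ∈ Icc 1 X, wt (gl t n f) A := by
  rw [par, card_sigma]
  push_cast
  refine sum_le_sum fun A hA => ?_
  have hA1 := (mem_Icc.1 hA).1
  by_cases h : Good f A
  · simp only [h, and_true]
    have e := rho_prod (f * t) ((f : ℤ) ^ 2 * n) (by omega : A ≠ 0)
    rw [rho] at e
    simp only [wt, gl]
    rw [prod_congr rfl fun l hl => if_neg (h l hl)]
    rw [← Nat.cast_prod, ← e]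
  · simp only [h, and_false, filter_false, card_empty, Nat.cast_zero]
    exact wt_nonneg (gl_loc hc t n f).1 A

/-- The matrix with given bottom row. -/
def mat (t n : ℤ) (f : ℕ) (z : Σ _ : ℕ, ℕ) : M2 :=
  !![f * t - z.2, -((z.2 : ℤ) ^ 2 - f * t * z.2 + (f : ℤ) ^ 2 * n) / z.1; z.1, z.2]

lemma good_of {t n : ℤ} {f : ℕ} {W : M2} (hW : W ∈ WW t n f) {A : ℕ} (hA : W 1 0 = A) :
    Good f A := by
  rintro l hl ⟨⟨e, rfl⟩, hv⟩
  obtain ⟨h1, h2, h3, h4⟩ := hW
  have hp := Nat.prime_of_mem_primeFactors hl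
  have hp' : Prime (l : ℤ) := Nat.prime_iff_prime_int.1 hp
  have hA0 : A ≠ 0 := (Nat.mem_primeFactors.1 hl).2.2
  rw [Matrix.trace_fin_two] at h1
  rw [Matrix.det_fin_two] at h2
  push_cast at h1 h2
  obtain ⟨A', rfl⟩ := Nat.dvd_of_mem_primeFactors hl
  have hn : ¬ l ∣ A' := fun h => by
    have : l ^ 2 ∣ l * A' := by rw [sq]; exact Nat.mul_dvd_mul_left l h
    have := (hp.pow_dvd_iff_le_factorization hA0).1 this
    omega
  push_cast at hA
  have d1 : (l : ℤ) ∣ W 1 1 := hp'.dvd_of_dvd_pow (n := 2)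
    ⟨e * t * W 1 1 - W 0 1 * A' - l * e ^ 2 * n, by
      rw [hA] at h2
      linear_combination W 1 1 * h1 - h2⟩
  obtain ⟨d, hd⟩ := d1
  have l0 : (l : ℤ) ≠ 0 := hp'.ne_zero
  have d2 : (l : ℤ) ∣ W 0 1 * A' := ⟨(e * t - d) * d - e ^ 2 * n, mul_left_cancel₀ l0 (by
    rw [hA, hd] at h2
    rw [hd] at h1
    linear_combination (l * d) * h1 - h2)⟩
  have d3 : (l : ℤ) ∣ W 0 1 := (hp'.dvd_or_dvd d2).resolve_right fun h =>
    hn (by exact_mod_cast h)
  have d4 : (l : ℤ) ∣ W 1 0 := ⟨A', hA⟩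
  have d5 : (l : ℤ) ∣ W 0 0 - W 1 1 := ⟨e * t - 2 * d, by linear_combination h1 - 2 * hd⟩
  have d6 : (l : ℤ) ∣ (cont W : ℤ) := Int.dvd_coe_gcd (Int.dvd_coe_gcd d3 d4) d5
  rw [h4] at d6
  exact hp.one_lt.ne' (by exact_mod_cast Int.eq_one_of_dvd_one (by positivity) d6)

lemma cover (hw : WStmt) {t n : ℤ} (hD : t ^ 2 - 4 * n < 0) {f : ℕ} (hf : 1 ≤ f) {Y : ℝ}
    (hY : 0 < Y) {X : ℕ} (hX : f * (om t n).im / Y ≤ X) :
    {c | ∃ W ∈ WW t n f, jH (rt W) = c ∧ Y < (rt W).im} ⊆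
      (fun z => jH (rt (mat t n f z))) '' (par t n f X : Set (Σ _ : ℕ, ℕ)) := by
  rintro c ⟨W, hW, rfl, hy⟩
  obtain ⟨h1, -, -, -, h5, -⟩ := (hw t n hD).2.1 f hf W hW
  have hA := hW.2.2.1
  obtain ⟨A, hA'⟩ := Int.eq_ofNat_of_zero_le hA.le
  have hA0 : (0 : ℤ) < A := hA' ▸ hA
  have him : (A : ℝ) * (rt W).im = f * (om t n).im := by
    have := congrArg Complex.im h1
    rw [hA'] at this
    simpa using this
  have hAX : A ≤ X := by
    have : (A : ℝ) ≤ f * (om t n).im / Y := by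
      rw [le_div_iff₀ hY, ← him]
      exact mul_le_mul_of_nonneg_left hy.le (by positivity)
    exact_mod_cast this.trans hX
  let k : SL(2, ℤ) := ⟨!![1, W 1 1 / A; 0, 1], by simp [Matrix.det_fin_two]⟩
  obtain ⟨h6, h7⟩ := h5 k
  have e10 : (k.1 * W * (k⁻¹).1) 1 0 = A := by
    simp [k, Matrix.SpecialLinearGroup.SL2_inv_expl, Matrix.mul_apply, Fin.sum_univ_two, hA',
      Matrix.vecMul, dotProduct]
  have e11 : (k.1 * W * (k⁻¹).1) 1 1 = W 1 1 % A := by
    simp [k, Matrix.SpecialLinearGroup.SL2_inv_expl, Matrix.mul_apply, Fin.sum_univ_two, hA',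
      Int.emod_def, Matrix.vecMul, dotProduct]
    ring
  have hj : jH (rt (k.1 * W * (k⁻¹).1)) = jH (rt W) := by rw [h7, Eis.jH_smul]
  generalize k.1 * W * (k⁻¹).1 = V at h6 e10 e11 hj
  obtain ⟨d, hd⟩ := Int.eq_ofNat_of_zero_le (Int.emod_nonneg (W 1 1) hA0.ne')
  have hdA := Int.emod_lt_of_pos (W 1 1) hA0
  rw [hd] at e11 hdA
  have t1 := h6.1
  have t2 := h6.2.1
  rw [Matrix.trace_fin_two, e11] at t1
  rw [Matrix.det_fin_two, e11, e10] at t2
  have t3 : -((d : ℤ) ^ 2 - f * t * d + (f : ℤ) ^ 2 * n) = A * V 0 1 := by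
    linear_combination t2 - (d : ℤ) * t1
  refine ⟨⟨A, d⟩, mem_coe.2 (mem_sigma.2 ⟨mem_Icc.2 ⟨by exact_mod_cast hA0, hAX⟩, ?_⟩), ?_⟩
  · classical
    exact mem_filter.2 ⟨mem_range.2 (by exact_mod_cast hdA), (dvd_neg.1 ⟨_, t3⟩), good_of hW hA'⟩
  · have : mat t n f ⟨A, d⟩ = V := by
      ext i j
      fin_cases i <;> fin_cases j
      · simp only [mat]
        simp
        linear_combination -t1
      · simp only [mat, t3]
        simp [Int.mul_ediv_cancel_left _ hA0.ne']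
      · simp [mat, e10]
      · simp [mat, e11]
    simp only [this, hj]

lemma large {t n : ℤ} (h2 : ∀ l k : ℕ, l.Prime → rho t n (l ^ k) ≤ 2) {f X : ℕ} (hf : 1 ≤ f)
    (hX : 0 < X) : ∑ l ∈ Pr X, (if l ∣ f then (1 - (rho t n l : ℝ)) / l else 0) ≤
      ∑ l ∈ f.primeFactors, (1 - (rho t n l : ℝ)) / l + #f.primeFactors / X := by
  rw [← sum_filter, ← sum_filter_add_sum_filter_not f.primeFactors (fun l => l ≤ X)]
  have e : (Pr X).filter (fun l => l ∣ f) = f.primeFactors.filter fun l => l ≤ X := by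
    ext l
    simp only [mem_filter, mem_Pr, Nat.mem_primeFactors]
    constructor
    · rintro ⟨⟨a, b⟩, c⟩
      exact ⟨⟨b, c, by omega⟩, a⟩
    · rintro ⟨⟨a, b, -⟩, c⟩
      exact ⟨⟨c, a⟩, b⟩
  have x0 : (0 : ℝ) < X := by exact_mod_cast hX
  have h : ∑ _l ∈ f.primeFactors.filter (fun l => ¬ l ≤ X), -(1 / (X : ℝ)) ≤
      ∑ l ∈ f.primeFactors.filter (fun l => ¬ l ≤ X), (1 - (rho t n l : ℝ)) / l := by
    refine sum_le_sum fun l hl => ?_
    obtain ⟨h3, h4⟩ := mem_filter.1 hl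
    have h5 := h2 l 1 (Nat.prime_of_mem_primeFactors h3)
    rw [pow_one] at h5
    have h6 : (rho t n l : ℝ) ≤ 2 := by exact_mod_cast h5
    have h7 : (X : ℝ) ≤ l := by exact_mod_cast (not_le.1 h4).le
    have h8 := one_div_le_one_div_of_le x0 h7
    have h9 : (-1 : ℝ) / l ≤ (1 - (rho t n l : ℝ)) / l :=
      div_le_div_of_nonneg_right (by linarith) (by positivity)
    rw [neg_div] at h9
    linarith
  rw [sum_const, nsmul_eq_mul] at h
  have h' : (#(f.primeFactors.filter (fun l => ¬ l ≤ X)) : ℝ) ≤ #f.primeFactors := by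
    exact_mod_cast card_filter_le _ _
  have h'' := div_le_div_of_nonneg_right h' x0.le
  rw [mul_neg, mul_one_div] at h
  rw [e]
  linarith

end Tight

open Tight in
theorem tight (hd : DivStmt) (hc : ConStmt) (hw : WStmt) (hr : RhoStmt) (_hj : JLowStmt) :
    TightStmt := by
  intro t n hF
  obtain ⟨-, h2, ⟨C1, h3⟩, -⟩ := hr t n hF
  obtain ⟨C2, p2, hC2⟩ := ht
  obtain ⟨C3, p3, hC3⟩ := sumlog
  obtain ⟨C4, p4, hC4⟩ := hd.1 2 (1 / 2) (by norm_num)
  obtain ⟨C5, hC5⟩ := hd.2.1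
  have hδ := (hw t n hF.1).1.2
  set δ := (om t n).im with hδ'
  refine ⟨C2 * Real.exp (C1 + C5 + C4 / δ + 4 * C3) * (δ + 2), fun f hf Y hY hYf => ?_⟩
  have f0 : (1 : ℝ) ≤ f := by exact_mod_cast hf
  have Y0 : 0 < Y := by linarith
  have hs : Y ≤ √f := Real.le_sqrt_of_sq_le hYf
  have hs0 : 0 < √(f : ℝ) := by linarith
  have hss : √(f : ℝ) * √f = f := Real.mul_self_sqrt (by positivity)
  have hfY : √(f : ℝ) ≤ f / Y := by
    rw [le_div_iff₀ Y0]
    nlinarith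
  have hfY1 : 1 ≤ (f : ℝ) / Y := hY.trans (hs.trans hfY)
  set X : ℕ := ⌊f * δ / Y⌋₊ + 2 with hX
  have x1 : f * δ / Y ≤ X := by
    have := Nat.lt_floor_add_one (f * δ / Y)
    rw [hX]
    push_cast
    linarith
  have x2 : (X : ℝ) ≤ (δ + 2) * (f / Y) := by
    have := Nat.floor_le (by positivity : 0 ≤ f * δ / Y)
    have e : f * δ / Y = δ * (f / Y) := by ring
    rw [hX]
    push_cast
    nlinarith
  have x3 : (2 : ℝ) ≤ X := by exact_mod_cast (by omega : 2 ≤ X)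
  have x4 : δ * √f ≤ X := by
    have e : f * δ / Y = δ * (f / Y) := by ring
    have := mul_le_mul_of_nonneg_left hfY hδ.le
    linarith
  have hL : 0 < Real.log X := Real.log_pos (by linarith)
  have c1 : ({c | ∃ W ∈ WW t n f, jH (rt W) = c ∧ Y < (rt W).im}.ncard : ℝ) ≤
      ∑ A ∈ Icc 1 X, wt (gl t n f) A := by
    refine le_trans ?_ (card_par hc t n f X)
    have := (Set.ncard_le_ncard (cover hw hF.1 hf Y0 x1)
      ((par t n f X).finite_toSet.image _)).trans (Set.ncard_image_le (par t n f X).finite_toSet)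
    rw [Set.ncard_coe_finset] at this
    exact_mod_cast this
  have c2 := hC2 _ (gl_loc hc t n f) X
  have c3 := sum_le_sum fun l (hl : l ∈ Pr X) => gl_le h2 f (mem_Pr.1 hl).2
  rw [sum_add_distrib (f := fun l => ((rho t n l : ℝ) - 1) / l + 1 / l +
    (if l ∣ f then (1 - (rho t n l : ℝ)) / l else 0)), sum_add_distrib (f := fun l =>
    ((rho t n l : ℝ) - 1) / l + 1 / l), sum_add_distrib (f := fun l => ((rho t n l : ℝ) - 1) / l),
    ← mul_sum] at c3
  have c4 := large h2 hf (by omega : 0 < X)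
  have c5 : (#f.primeFactors : ℝ) / X ≤ C4 / δ := by
    have a1 := (hC4 f hf).2.2.1
    rw [abs_two, ← Real.sqrt_eq_rpow] at a1
    have a2 : (#f.primeFactors : ℝ) ≤ 2 ^ #f.primeFactors := by
      exact_mod_cast Nat.lt_two_pow_self.le
    rw [div_le_div_iff₀ (by linarith) hδ]
    have a3 := mul_le_mul_of_nonneg_right (a2.trans a1) hδ.le
    have a4 := mul_le_mul_of_nonneg_left x4 p4.le
    linarith
  have c6 := (abs_le.1 (hC5 X x3).1).2
  have c7 : ∑ l ∈ Pr X, (gl t n f l 1 / l + gl t n f l 2 / (l : ℝ) ^ 2) ≤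
      (C1 + C5 + C4 / δ + 4 * C3) + Real.log (Real.log X) +
        ∑ l ∈ f.primeFactors, (1 - (rho t n l : ℝ)) / l := by
    have := h3 X
    have := hC3 (Pr X)
    linarith
  have c8 := c2.trans (mul_le_mul_of_nonneg_left (Real.exp_le_exp.2 c7) (by positivity))
  rw [Real.exp_add, Real.exp_add (C1 + C5 + C4 / δ + 4 * C3), Real.exp_log hL] at c8
  rw [hh]
  have hE := Real.exp_pos (∑ l ∈ f.primeFactors, (1 - (rho t n l : ℝ)) / l)
  have hE' := Real.exp_pos (C1 + C5 + C4 / δ + 4 * C3)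
  generalize Real.exp (∑ l ∈ f.primeFactors, (1 - (rho t n l : ℝ)) / l) = E at c8 hE ⊢
  generalize Real.exp (C1 + C5 + C4 / δ + 4 * C3) = E' at c8 hE' ⊢
  have c9 : ∑ A ∈ Icc 1 X, wt (gl t n f) A ≤ C2 * E' * E * X := by
    refine le_of_mul_le_mul_left (c8.trans (le_of_eq ?_)) hL
    ring
  calc _ ≤ _ := c1
    _ ≤ _ := c9
    _ ≤ C2 * E' * E * ((δ + 2) * (f / Y)) := mul_le_mul_of_nonneg_left x2 (by positivity)
    _ = _ := by ring

end Pool.Agent.Lib.MP_9177b7_ag.EQ
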