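import Pool.Agent.Lib.MP_9177b7_ag.EQ.StN

/-!
The Hall-Tenenbaum bound for sums of multiplicative functions.
-/

open Finset

noncomputable section

namespace Pool.Agent.Lib.MP_9177b7_ag.EQ

namespace Tight

lemma sum_inj {α β : Type*} [DecidableEq β] (s : Finset α) (t : Finset β) (φ : α → β)
    (F : α → ℝ) (G : β → ℝ) (hi : Set.InjOn φ s) (hm : ∀ a ∈ s, φ a ∈ t) (hG : ∀ b ∈ t, 0 ≤ G b)
    (h : ∀ a ∈ s, F a ≤ G (φ a)) : ∑ a ∈ s, F a ≤ ∑ b ∈ t, G b := by
  refine (sum_le_sum h).trans ?_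
  rw [← sum_image (f := G) hi]
  refine sum_le_sum_of_subset_of_nonneg ?_ fun b hb _ => hG b hb
  intro b hb
  obtain ⟨a, ha, rfl⟩ := mem_image.1 hb
  exact hm a ha

lemma tailk : ∃ C : ℝ, 0 ≤ C ∧ ∀ l : ℕ, 2 ≤ l → ∀ s : Finset ℕ,
    ∑ k ∈ s, (if 3 ≤ k then (k : ℝ) * (l : ℝ) ^ (k / 2) / (l : ℝ) ^ k else 0) ≤ C / (l : ℝ) ^ 2 := by
  have hs : Summable fun k : ℕ => (k : ℝ) ^ 1 * (3 / 4 : ℝ) ^ k :=
    summable_pow_mul_geometric_of_norm_lt_one 1 (by rw [Real.norm_eq_abs, abs_of_pos] <;> norm_num)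
  refine ⟨4 * ∑' k : ℕ, (k : ℝ) ^ 1 * (3 / 4 : ℝ) ^ k, by positivity, fun l hl s => ?_⟩
  have hl' : (2 : ℝ) ≤ l := by exact_mod_cast hl
  have h1 : ∀ k ∈ s, (if 3 ≤ k then (k : ℝ) * (l : ℝ) ^ (k / 2) / (l : ℝ) ^ k else 0) ≤
      4 / (l : ℝ) ^ 2 * ((k : ℝ) ^ 1 * (3 / 4 : ℝ) ^ k) := by
    intro k _
    split_ifs with hk
    · obtain ⟨j, hj⟩ : ∃ j, k = k / 2 + 2 + j := ⟨k - k / 2 - 2, by omega⟩
      have e : (l : ℝ) ^ k = (l : ℝ) ^ (k / 2) * (l : ℝ) ^ 2 * (l : ℝ) ^ j := by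
        rw [← pow_add, ← pow_add, ← hj]
      have h2 : (2 : ℝ) ^ j ≤ (l : ℝ) ^ j := pow_le_pow_left₀ (by norm_num) hl' j
      have h3 : (3 / 4 : ℝ) ^ (2 * j + 4) ≤ (3 / 4 : ℝ) ^ k :=
        pow_le_pow_of_le_one (by norm_num) (by norm_num) (by omega)
      have h4 : (1 / 2 : ℝ) ^ j ≤ ((3 / 4 : ℝ) ^ 2) ^ j := pow_le_pow_left₀ (by norm_num) (by norm_num) j
      rw [pow_add, pow_mul] at h3
      have h5 : (1 / 2 : ℝ) ^ j * 2 ^ j = 1 := by rw [← mul_pow]; norm_num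
      have h6 : 1 ≤ 4 * (3 / 4 : ℝ) ^ k * (l : ℝ) ^ j := by
        have : (1 / 2 : ℝ) ^ j ≤ 4 * (3 / 4 : ℝ) ^ k := by
          have : (0 : ℝ) ≤ ((3 / 4 : ℝ) ^ 2) ^ j := by positivity
          nlinarith
        calc (1 : ℝ) = (1 / 2 : ℝ) ^ j * 2 ^ j := h5.symm
          _ ≤ _ := mul_le_mul this h2 (by positivity) (by positivity)
      rw [e, pow_one, div_le_iff₀ (by positivity)]
      have : 4 / (l : ℝ) ^ 2 * ((k : ℝ) * (3 / 4 : ℝ) ^ k) * ((l : ℝ) ^ (k / 2) * (l : ℝ) ^ 2 * (l : ℝ) ^ j) =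
          (k : ℝ) * (l : ℝ) ^ (k / 2) * (4 * (3 / 4 : ℝ) ^ k * (l : ℝ) ^ j) := by
        field_simp
      rw [this]
      exact le_mul_of_one_le_right (by positivity) h6
    · positivity
  refine (sum_le_sum h1).trans ?_
  rw [← mul_sum]
  have := hs.sum_le_tsum s fun k _ => by positivity
  calc _ ≤ 4 / (l : ℝ) ^ 2 * ∑' k : ℕ, (k : ℝ) ^ 1 * (3 / 4 : ℝ) ^ k :=
        mul_le_mul_of_nonneg_left this (by positivity)
    _ = _ := by ring

lemma sumlog : ∃ C : ℝ, 0 ≤ C ∧ ∀ s : Finset ℕ, ∑ l ∈ s, Real.log l / (l : ℝ) ^ 2 ≤ C := by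
  have hs : Summable fun n : ℕ => 1 / (n : ℝ) ^ (3 / 2 : ℝ) :=
    Real.summable_one_div_nat_rpow.2 (by norm_num)
  refine ⟨2 * ∑' n : ℕ, 1 / (n : ℝ) ^ (3 / 2 : ℝ), by positivity, fun s => ?_⟩
  have h1 : ∀ l ∈ s, Real.log l / (l : ℝ) ^ 2 ≤ 2 * (1 / (l : ℝ) ^ (3 / 2 : ℝ)) := by
    intro l _
    rcases Nat.eq_zero_or_pos l with rfl | hl
    · simp
    have hl' : (0 : ℝ) < l := by exact_mod_cast hl
    have h2 := Real.log_le_rpow_div hl'.le (ε := 1 / 2) (by norm_num)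
    have e : (l : ℝ) ^ 2 = (l : ℝ) ^ (1 / 2 : ℝ) * (l : ℝ) ^ (3 / 2 : ℝ) := by
      rw [← Real.rpow_add hl']; norm_num
    have p1 : 0 < (l : ℝ) ^ (1 / 2 : ℝ) := by positivity
    have p2 : 0 < (l : ℝ) ^ (3 / 2 : ℝ) := by positivity
    rw [e, div_le_iff₀ (by positivity)]
    calc _ ≤ _ := h2
      _ = _ := by field_simp
  refine (sum_le_sum h1).trans ?_
  rw [← mul_sum]
  exact mul_le_mul_of_nonneg_left (hs.sum_le_tsum s fun k _ => by positivity) (by norm_num)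

lemma mem_Pr {l y : ℕ} : l ∈ Pr y ↔ l ≤ y ∧ l.Prime := by
  simp [Pr]

lemma theta_le (s : Finset ℕ) (x : ℝ) (hx : 0 ≤ x) (h : ∀ l ∈ s, l.Prime ∧ (l : ℝ) ≤ x) :
    ∑ l ∈ s, Real.log l ≤ Real.log 4 * x := by
  refine le_trans ?_ (Chebyshev.theta_le_log4_mul_x hx)
  rw [Chebyshev.theta]
  refine sum_le_sum_of_subset_of_nonneg (fun l hl => ?_) fun l _ _ => Real.log_natCast_nonneg l
  exact mem_filter.2 ⟨mem_Ioc.2 ⟨(h l hl).1.pos, Nat.le_floor (h l hl).2⟩, (h l hl).1⟩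

/-- The hypothesis on the local values. -/
def Loc (g : ℕ → ℕ → ℝ) : Prop :=
  (∀ l k, 0 ≤ g l k) ∧ ∀ l k : ℕ, l.Prime → g l k ≤ 2 * (l : ℝ) ^ (k / 2)

lemma cheb : ∃ K : ℝ, 0 ≤ K ∧ ∀ g, Loc g → ∀ y : ℕ,
    ∑ l ∈ Pr y, ∑ k ∈ Icc 1 y with l ^ k ≤ y, g l k * (k * Real.log l) ≤ K * y := by
  obtain ⟨C1, p1, h1⟩ := tailk
  obtain ⟨C2, p2, h2⟩ := sumlog
  have l4 : 0 ≤ Real.log 4 := Real.log_nonneg (by norm_num)
  refine ⟨6 * Real.log 4 + 2 * C1 * C2, by positivity, fun g hg y => ?_⟩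
  have key : ∀ l ∈ Pr y, ∑ k ∈ Icc 1 y with l ^ k ≤ y, g l k * (k * Real.log l) ≤
      2 * Real.log l + (if l ^ 2 ≤ y then 4 * √y * Real.log l else 0) +
        2 * y * C1 * (Real.log l / (l : ℝ) ^ 2) := by
    intro l hl
    have hp := (mem_Pr.1 hl).2
    have hL := Real.log_natCast_nonneg l
    have hl0 : (0 : ℝ) < l := by exact_mod_cast hp.pos
    have t : ∀ k ∈ (Icc 1 y).filter (fun k => l ^ k ≤ y), g l k * (k * Real.log l) ≤
        (if k = 1 then 2 * Real.log l else 0) +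
        (if k = 2 then (if l ^ 2 ≤ y then 4 * √y * Real.log l else 0) else 0) +
        2 * y * Real.log l * (if 3 ≤ k then (k : ℝ) * (l : ℝ) ^ (k / 2) / (l : ℝ) ^ k else 0) := by
      intro k hk
      obtain ⟨hk1, hk2⟩ := mem_filter.1 hk
      have hk3 := (mem_Icc.1 hk1).1
      have hb := hg.2 l k hp
      refine (mul_le_mul_of_nonneg_right hb (by positivity)).trans ?_
      rcases (by omega : k = 1 ∨ k = 2 ∨ 3 ≤ k) with rfl | rfl | h3
      · simp
      · have : (l : ℝ) ≤ √y := Real.le_sqrt_of_sq_le (by exact_mod_cast hk2)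
        simp only [if_pos hk2]
        norm_num
        nlinarith
      · rw [if_neg (by omega), if_neg (by omega), if_pos h3, zero_add, zero_add]
        have hy : (l : ℝ) ^ k ≤ y := by exact_mod_cast hk2
        have : 2 * y * Real.log l * ((k : ℝ) * (l : ℝ) ^ (k / 2) / (l : ℝ) ^ k) =
            2 * (l : ℝ) ^ (k / 2) * (k * Real.log l) * (y / (l : ℝ) ^ k) := by
          field_simp
        rw [this]
        exact le_mul_of_one_le_right (by positivity) ((one_le_div (by positivity)).2 hy)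
    refine (sum_le_sum t).trans ?_
    rw [sum_add_distrib, sum_add_distrib, sum_ite_eq', sum_ite_eq', ← mul_sum]
    refine add_le_add (add_le_add ?_ ?_) ?_
    · split_ifs <;> first | exact le_rfl | positivity
    · split_ifs <;> first | exact le_rfl | positivity
    · calc _ ≤ 2 * y * Real.log l * (C1 / (l : ℝ) ^ 2) :=
            mul_le_mul_of_nonneg_left (h1 l hp.two_le _) (by positivity)
        _ = _ := by ring
  refine (sum_le_sum key).trans ?_
  rw [sum_add_distrib, sum_add_distrib, ← mul_sum, ← mul_sum, ← sum_filter, ← mul_sum]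
  have a1 := theta_le (Pr y) y (by positivity) fun l hl =>
    ⟨(mem_Pr.1 hl).2, by exact_mod_cast (mem_Pr.1 hl).1⟩
  have a2 := theta_le ((Pr y).filter fun l => l ^ 2 ≤ y) √y (by positivity) fun l hl =>
    ⟨(mem_Pr.1 (mem_filter.1 hl).1).2,
      Real.le_sqrt_of_sq_le (by exact_mod_cast (mem_filter.1 hl).2)⟩
  have a3 := mul_le_mul_of_nonneg_left (h2 (Pr y)) (by positivity : (0 : ℝ) ≤ 2 * y * C1)
  have a4 := mul_le_mul_of_nonneg_left a2 (by positivity : (0 : ℝ) ≤ 4 * √y)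
  have a5 : √(y : ℝ) * √y = y := Real.mul_self_sqrt (by positivity)
  have a6 : 4 * √(y : ℝ) * (Real.log 4 * √y) = 4 * Real.log 4 * y := by
    linear_combination 4 * Real.log 4 * a5
  nlinarith

lemma wt_nonneg {g : ℕ → ℕ → ℝ} (hg : ∀ l k, 0 ≤ g l k) (m : ℕ) : 0 ≤ wt g m :=
  prod_nonneg fun _ _ => hg _ _

lemma wt_split (g : ℕ → ℕ → ℝ) {A l : ℕ} (hl : l ∈ A.primeFactors) :
    wt g A = g l (A.factorization l) * wt g (ordCompl[l] A) := by
  have e := Nat.factorization_ordCompl A l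
  have e2 : (ordCompl[l] A).primeFactors = A.primeFactors.erase l := by
    rw [← Nat.support_factorization, e, Finsupp.support_erase, Nat.support_factorization]
  rw [wt, wt, e2, ← mul_prod_erase _ _ hl, e]
  congr 1
  refine prod_congr rfl fun p hp => ?_
  rw [Finsupp.erase_ne (ne_of_mem_erase hp)]

lemma logsum : ∃ K : ℝ, 0 ≤ K ∧ ∀ g, Loc g → ∀ X : ℕ,
    ∑ A ∈ Icc 1 X, wt g A * Real.log A ≤ K * X * ∑ A ∈ Icc 1 X, wt g A / A := by
  obtain ⟨K, pK, hK⟩ := cheb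
  refine ⟨K, pK, fun g hg X => ?_⟩
  have e1 : ∑ A ∈ Icc 1 X, wt g A * Real.log A =
      ∑ z ∈ (Icc 1 X).sigma fun A => A.primeFactors,
        wt g z.1 * (z.1.factorization z.2 * Real.log z.2) := by
    rw [sum_sigma]
    refine sum_congr rfl fun A _ => ?_
    rw [Real.log_nat_eq_sum_factorization, Finsupp.sum, Nat.support_factorization, mul_sum]
  have e2 := sum_inj ((Icc 1 X).sigma fun A => A.primeFactors)
    ((Icc 1 X).sigma fun m => (Pr (X / m : ℕ)).sigma fun l => (Icc 1 (X / m)).filter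
      fun k => l ^ k ≤ X / m)
    (fun z => ⟨ordCompl[z.2] z.1, z.2, z.1.factorization z.2⟩)
    (fun z => wt g z.1 * (z.1.factorization z.2 * Real.log z.2))
    (fun w => wt g w.1 * (g w.2.1 w.2.2 * (w.2.2 * Real.log w.2.1))) ?_ ?_ ?_ ?_
  · rw [e1]
    refine e2.trans ?_
    rw [sum_sigma, mul_sum]
    refine sum_le_sum fun m hm => ?_
    dsimp only
    rw [← mul_sum, sum_sigma]
    have h1 := hK g hg (X / m)
    have h2 : ((X / m : ℕ) : ℝ) ≤ X / m := Nat.cast_div_le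
    have h3 := wt_nonneg hg.1 m
    calc _ ≤ wt g m * (K * (X / m)) :=
          mul_le_mul_of_nonneg_left (h1.trans (mul_le_mul_of_nonneg_left h2 pK)) h3
      _ = _ := by ring
  · rintro ⟨A, l⟩ _ ⟨A', l'⟩ _ e
    simp only [Sigma.mk.injEq, heq_eq_eq] at e
    obtain ⟨e1, rfl, e2⟩ := e
    have := Nat.ordProj_mul_ordCompl_eq_self A l
    rw [e1, e2, Nat.ordProj_mul_ordCompl_eq_self] at this
    subst this
    rfl
  · rintro ⟨A, l⟩ hz
    obtain ⟨hA, hl⟩ := mem_sigma.1 hz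
    dsimp only at hA hl ⊢
    obtain ⟨hA1, hA2⟩ := mem_Icc.1 hA
    have hp := Nat.prime_of_mem_primeFactors hl
    have e := Nat.ordProj_mul_ordCompl_eq_self A l
    have hm : 0 < ordCompl[l] A := Nat.ordCompl_pos l (by omega)
    have hv : 0 < A.factorization l :=
      hp.factorization_pos_of_dvd (by omega) (Nat.dvd_of_mem_primeFactors hl)
    have h1 : l ^ A.factorization l ≤ X / ordCompl[l] A :=
      (Nat.le_div_iff_mul_le hm).2 (by rw [e]; exact hA2)
    have h2 : A.factorization l < l ^ A.factorization l := Nat.lt_pow_self hp.one_lt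
    have h3 : l ≤ l ^ A.factorization l := Nat.le_self_pow hv.ne' l
    refine mem_sigma.2 ⟨mem_Icc.2 ⟨hm, (Nat.ordCompl_le A l).trans hA2⟩, mem_sigma.2 ⟨?_, ?_⟩⟩
    · exact mem_Pr.2 ⟨h3.trans h1, hp⟩
    · exact mem_filter.2 ⟨mem_Icc.2 ⟨hv, h2.le.trans h1⟩, h1⟩
  · intro w _
    have := wt_nonneg hg.1 w.1
    have := hg.1 w.2.1 w.2.2
    have := Real.log_natCast_nonneg w.2.1
    positivity
  · rintro ⟨A, l⟩ hz
    dsimp only
    rw [wt_split g (mem_sigma.1 hz).2]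
    exact le_of_eq (by ring)

lemma euler (g : ℕ → ℕ → ℝ) (hg : ∀ l k, 0 ≤ g l k) (X : ℕ) :
    ∑ A ∈ Icc 1 X, wt g A / A ≤
      ∏ l ∈ Pr X, ∑ k ∈ range (X + 1), (if k = 0 then 1 else g l k / (l : ℝ) ^ k) := by
  rw [prod_sum]
  have sub : ∀ A ∈ Icc 1 X, A.primeFactors ⊆ Pr X := fun A hA l hl =>
    mem_Pr.2 ⟨(Nat.le_of_mem_primeFactors hl).trans (mem_Icc.1 hA).2,
      Nat.prime_of_mem_primeFactors hl⟩
  classical
  refine sum_inj _ _ (fun A l _ => A.factorization l) _ _ ?_ ?_ ?_ ?_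
  · intro A hA B hB e
    have hA' := mem_Icc.1 (mem_coe.1 hA)
    have hB' := mem_Icc.1 (mem_coe.1 hB)
    refine Nat.eq_of_factorization_eq (by omega) (by omega) fun l => ?_
    by_cases hl : l ∈ Pr X
    · exact congrFun (congrFun e l) hl
    · rw [Finsupp.notMem_support_iff.1 fun h => hl (sub A hA h),
        Finsupp.notMem_support_iff.1 fun h => hl (sub B hB h)]
  · intro A hA
    have hA' := mem_Icc.1 hA
    refine mem_pi.2 fun l _ => mem_range.2 ?_
    have := Nat.factorization_lt l (by omega : A ≠ 0)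
    omega
  · intro b _
    refine prod_nonneg fun l _ => ?_
    have := hg l.1 (b l.1 l.2)
    split_ifs <;> positivity
  · intro A hA
    have hA' := mem_Icc.1 hA
    rw [prod_attach (Pr X) fun l => if A.factorization l = 0 then (1 : ℝ) else
      g l (A.factorization l) / (l : ℝ) ^ A.factorization l]
    rw [← prod_subset (sub A hA) fun l _ hl => if_pos (Finsupp.notMem_support_iff.1 hl)]
    rw [prod_congr rfl fun l (hl : l ∈ A.primeFactors) =>
      if_neg (Finsupp.mem_support_iff.1 (show l ∈ A.factorization.support from hl)),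
      prod_div_distrib, wt]
    have e := Nat.prod_factorization_pow_eq_self (by omega : A ≠ 0)
    rw [Finsupp.prod, Nat.support_factorization] at e
    have e' : (∏ l ∈ A.primeFactors, (l : ℝ) ^ A.factorization l) = A := by
      conv_rhs => rw [← e]
      push_cast
      rfl
    rw [e']

theorem ht : ∃ C : ℝ, 0 ≤ C ∧ ∀ g, Loc g → ∀ X : ℕ,
    Real.log X * ∑ A ∈ Icc 1 X, wt g A ≤
      C * X * Real.exp (∑ l ∈ Pr X, (g l 1 / l + g l 2 / (l : ℝ) ^ 2)) := by
  obtain ⟨K, pK, hK⟩ := logsum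
  obtain ⟨C1, p1, h1⟩ := tailk
  obtain ⟨C2, p2, h2⟩ := sumlog
  refine ⟨(K + 1) * Real.exp (4 * C1 * C2), by positivity, fun g hg X => ?_⟩
  have s1 : Real.log X * ∑ A ∈ Icc 1 X, wt g A ≤ (K + 1) * X * ∑ A ∈ Icc 1 X, wt g A / A := by
    have : Real.log X * ∑ A ∈ Icc 1 X, wt g A ≤
        ∑ A ∈ Icc 1 X, wt g A * Real.log A + X * ∑ A ∈ Icc 1 X, wt g A / A := by
      rw [mul_sum, mul_sum, ← sum_add_distrib]
      refine sum_le_sum fun A hA => ?_
      obtain ⟨hA1, hA2⟩ := mem_Icc.1 hA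
      have a0 : (0 : ℝ) < A := by exact_mod_cast hA1
      have x0 : (0 : ℝ) < X := by exact_mod_cast hA1.trans hA2
      have := Real.log_le_sub_one_of_pos (div_pos x0 a0)
      rw [Real.log_div x0.ne' a0.ne'] at this
      have h3 := mul_le_mul_of_nonneg_left
        (by linarith : Real.log X ≤ Real.log A + X / A) (wt_nonneg hg.1 A)
      calc _ = wt g A * Real.log X := mul_comm _ _
        _ ≤ _ := h3
        _ = _ := by ring
    have := hK g hg X
    linarith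
  have s2 : ∀ l ∈ Pr X, ∑ k ∈ range (X + 1), (if k = 0 then 1 else g l k / (l : ℝ) ^ k) ≤
      Real.exp ((g l 1 / l + g l 2 / (l : ℝ) ^ 2) + 4 * C1 * (Real.log l / (l : ℝ) ^ 2)) := by
    intro l hl
    have hp := (mem_Pr.1 hl).2
    have hl0 : (2 : ℝ) ≤ l := by exact_mod_cast hp.two_le
    have g1 := hg.1 l 1
    have g2 := hg.1 l 2
    have t : ∀ k ∈ range (X + 1), (if k = 0 then 1 else g l k / (l : ℝ) ^ k) ≤
        (if k = 0 then 1 else 0) + (if k = 1 then g l 1 / l else 0) +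
        (if k = 2 then g l 2 / (l : ℝ) ^ 2 else 0) +
        2 * (if 3 ≤ k then (k : ℝ) * (l : ℝ) ^ (k / 2) / (l : ℝ) ^ k else 0) := by
      intro k _
      rcases (by omega : k = 0 ∨ k = 1 ∨ k = 2 ∨ 3 ≤ k) with rfl | rfl | rfl | h3
      · simp
      · simp
      · simp
      · rw [if_neg (by omega), if_neg (by omega), if_neg (by omega), if_neg (by omega), if_pos h3,
          zero_add, zero_add, zero_add, ← mul_div_assoc]
        refine div_le_div_of_nonneg_right ((hg.2 l k hp).trans ?_) (by positivity)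
        have : (1 : ℝ) ≤ k := by exact_mod_cast (by omega : 1 ≤ k)
        have : (0 : ℝ) ≤ (l : ℝ) ^ (k / 2) := by positivity
        nlinarith
    refine (sum_le_sum t).trans (le_trans ?_ (Real.add_one_le_exp _))
    rw [sum_add_distrib, sum_add_distrib, sum_add_distrib, sum_ite_eq', sum_ite_eq', sum_ite_eq',
      ← mul_sum]
    have b0 : (if 0 ∈ range (X + 1) then (1 : ℝ) else 0) ≤ 1 := by split_ifs <;> norm_num
    have b1 : (if 1 ∈ range (X + 1) then g l 1 / l else 0) ≤ g l 1 / l := by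
      split_ifs <;> first | exact le_rfl | positivity
    have b2 : (if 2 ∈ range (X + 1) then g l 2 / (l : ℝ) ^ 2 else 0) ≤ g l 2 / (l : ℝ) ^ 2 := by
      split_ifs <;> first | exact le_rfl | positivity
    have b3 := h1 l hp.two_le (range (X + 1))
    have b4 : 1 ≤ 2 * Real.log l := by
      have := Real.log_le_log (by norm_num) hl0
      have := Real.log_two_gt_d9
      linarith
    have b5 : C1 / (l : ℝ) ^ 2 ≤ 2 * C1 * (Real.log l / (l : ℝ) ^ 2) := by
      rw [← mul_div_assoc]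
      exact div_le_div_of_nonneg_right (by nlinarith) (by positivity)
    linarith
  have s3 := (euler g hg.1 X).trans (prod_le_prod (fun l _ => sum_nonneg fun k _ => by
    have := hg.1 l k
    split_ifs <;> positivity) s2)
  rw [← Real.exp_sum, sum_add_distrib, ← mul_sum] at s3
  have s4 := s3.trans (Real.exp_le_exp.2 (add_le_add le_rfl
    (mul_le_mul_of_nonneg_left (h2 (Pr X)) (by positivity))))
  rw [Real.exp_add] at s4
  calc _ ≤ _ := s1
    _ ≤ _ := mul_le_mul_of_nonneg_left s4 (by positivity)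
    _ = _ := by ring

end Tight

end Pool.Agent.Lib.MP_9177b7_ag.EQ
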