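import Pool.Agent.Lib.MP_9177b7_ag.EQ.W1
import Pool.Agent.Lib.MP_9177b7_ag.CM.Main

/-!
Basic facts on CM matrices.
-/

open UpperHalfPlane Finset
open scoped MatrixGroups

noncomputable section

namespace Pool.Agent.Lib.MP_9177b7_ag.EQ

open Pool.Agent.Lib.MP_9177b7_ag.CM

namespace W

variable {t n : ℤ} {f : ℕ} {W W' V g : M2}

theorem s_pos (hD : t ^ 2 - 4 * n < 0) : 0 < Real.sqrt (4 * n - t ^ 2) := by
  rw [Real.sqrt_pos]
  have : (0 : ℤ) < 4 * n - t ^ 2 := by linarith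
  exact_mod_cast this

theorem s_sq (hD : t ^ 2 - 4 * n < 0) : Real.sqrt (4 * n - t ^ 2) ^ 2 = 4 * n - t ^ 2 :=
  Real.sq_sqrt (Real.sqrt_pos.1 (s_pos hD)).le

theorem om_sq (hD : t ^ 2 - 4 * n < 0) : om t n ^ 2 = t * om t n - n := by
  have h : ((Real.sqrt (4 * n - t ^ 2) : ℝ) : ℂ) ^ 2 = 4 * n - t ^ 2 := by exact_mod_cast s_sq hD
  rw [om]
  linear_combination (Real.sqrt (4 * n - t ^ 2) : ℂ) ^ 2 / 4 * Complex.I_sq - h / 4

theorem om_im (t n : ℤ) : (om t n).im = Real.sqrt (4 * n - t ^ 2) / 2 := by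
  simp [om]

theorem tr_eq (hW : W ∈ WW t n f) : W 0 0 + W 1 1 = f * t := by
  rw [← hW.1, Matrix.trace_fin_two]

theorem det_eq (hW : W ∈ WW t n f) : W 0 0 * W 1 1 - W 0 1 * W 1 0 = (f : ℤ) ^ 2 * n := by
  rw [← hW.2.1, Matrix.det_fin_two]

theorem disc (hD : t ^ 2 - 4 * n < 0) (hf : 1 ≤ f) (hW : W ∈ WW t n f) :
    W.trace ^ 2 < 4 * W.det := by
  rw [hW.1, hW.2.1]
  have : (0 : ℤ) < (f : ℤ) ^ 2 := by positivity
  nlinarith

theorem coe_rt (hD : t ^ 2 - 4 * n < 0) (hf : 1 ≤ f) (hW : W ∈ WW t n f) :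
    (rt W : ℂ) = (W 0 0 - W 1 1 + Complex.I * (f * Real.sqrt (4 * n - t ^ 2) : ℝ)) / (2 * W 1 0) := by
  have h : Real.sqrt (4 * W.det - W.trace ^ 2) = f * Real.sqrt (4 * n - t ^ 2) := by
    rw [hW.1, hW.2.1, show (4 * (((f : ℤ) ^ 2 * n : ℤ) : ℝ) - (((f : ℤ) * t : ℤ) : ℝ) ^ 2) =
      (f : ℝ) ^ 2 * (4 * n - t ^ 2) by push_cast; ring, Real.sqrt_mul (sq_nonneg _),
      Real.sqrt_sq (Nat.cast_nonneg (α := ℝ) f)]
  rw [rt, h, ofComplex_apply_of_im_pos]
  have h1 : (0 : ℝ) < W 1 0 := by exact_mod_cast hW.2.2.1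
  have h2 := s_pos hD
  have h3 : (0 : ℝ) < f := by exact_mod_cast hf
  rw [show (2 * W 1 0 : ℂ) = ((2 * W 1 0 : ℝ) : ℂ) by push_cast; rfl, Complex.div_ofReal_im]
  simp only [Complex.add_im, Complex.sub_im, Complex.intCast_im, sub_self, Complex.mul_im,
    Complex.I_re, Complex.ofReal_im, mul_zero, Complex.I_im, Complex.ofReal_re, one_mul, zero_add]
  positivity

theorem row1 (hD : t ^ 2 - 4 * n < 0) (hf : 1 ≤ f) (hW : W ∈ WW t n f) :
    (W 1 0 : ℂ) * rt W + W 1 1 = f * om t n := by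
  have h1 : (W 1 0 : ℂ) ≠ 0 := by exact_mod_cast hW.2.2.1.ne'
  have h2 : (W 0 0 : ℂ) + W 1 1 = f * t := by exact_mod_cast tr_eq hW
  rw [coe_rt hD hf hW, om]
  push_cast
  field_simp
  linear_combination h2

theorem row0 (hD : t ^ 2 - 4 * n < 0) (hf : 1 ≤ f) (hW : W ∈ WW t n f) :
    (W 0 0 : ℂ) * rt W + W 0 1 = f * om t n * rt W := by
  have h1 : (W 1 0 : ℂ) ≠ 0 := by exact_mod_cast hW.2.2.1.ne'
  have h2 : (W 0 0 : ℂ) + W 1 1 = f * t := by exact_mod_cast tr_eq hW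
  have h3 : (W 0 0 : ℂ) * W 1 1 - W 0 1 * W 1 0 = (f : ℂ) ^ 2 * n := by exact_mod_cast det_eq hW
  refine mul_left_cancel₀ h1 ?_
  linear_combination (W 0 0 - f * om t n) * row1 hD hf hW - h3 - (f : ℂ) ^ 2 * om_sq hD +
    f * om t n * h2

theorem neg01 (hD : t ^ 2 - 4 * n < 0) (hf : 1 ≤ f) (hW : W ∈ WW t n f) : W 0 1 < 0 := by
  have h := disc hD hf hW
  rw [Matrix.trace_fin_two, Matrix.det_fin_two] at h
  have := hW.2.2.1
  by_contra h0
  nlinarith [sq_nonneg (W 0 0 - W 1 1), mul_nonneg (not_lt.1 h0) this.le]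

theorem sq_eq (hW : W ∈ WW t n f) : W * W = ((f : ℤ) * t) • W - sc ((f : ℤ) ^ 2 * n) := by
  rw [← tr_eq hW, ← det_eq hW]
  ext i j
  simp only [sc, Matrix.sub_apply, Matrix.smul_apply, smul_eq_mul, Matrix.mul_apply,
    Fin.sum_univ_two, Matrix.one_apply]
  fin_cases i <;> fin_cases j <;> simp <;> ring

theorem inter (hD : t ^ 2 - 4 * n < 0) (hf : 1 ≤ f) (hW : W' ∈ WW t n f) {X : M2} {τ : ℍ}
    (h1 : (X 1 0 : ℂ) * τ + X 1 1 = f * om t n) (h0 : (X 0 0 : ℂ) * τ + X 0 1 = f * om t n * τ)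
    (hg : g ≠ 0) (h : W' * g = g * X) : 0 < g.det ∧ mob g τ = rt W' := by
  refine mob_eq hg ?_
  have c0 : (W' 1 0 : ℂ) ≠ 0 := by exact_mod_cast hW.2.2.1.ne'
  have e0 := congrFun (congrFun h 1) 0
  have e1 := congrFun (congrFun h 1) 1
  simp only [Matrix.mul_apply, Fin.sum_univ_two] at e0 e1
  have e0' : (W' 1 0 : ℂ) * g 0 0 + W' 1 1 * g 1 0 = g 1 0 * X 0 0 + g 1 1 * X 1 0 := by
    exact_mod_cast e0
  have e1' : (W' 1 0 : ℂ) * g 0 1 + W' 1 1 * g 1 1 = g 1 0 * X 0 1 + g 1 1 * X 1 1 := by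
    exact_mod_cast e1
  refine mul_left_cancel₀ c0 ?_
  linear_combination (τ : ℂ) * e0' + e1' + g 1 0 * h0 + g 1 1 * h1 -
    (g 1 0 * (τ : ℂ) + g 1 1) * row1 hD hf hW

theorem ne_zero_of_det (h : g.det ≠ 0) : g ≠ 0 := fun e => h (by rw [e]; simp)

theorem conj_adj (k : SL(2, ℤ)) (W : M2) : k.1.adjugate * (k.1 * W * k.1.adjugate) * k.1 = W := by
  rw [← Matrix.mul_assoc, ← Matrix.mul_assoc, Matrix.adjugate_mul, Matrix.mul_assoc,
    Matrix.adjugate_mul, k.2]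
  simp

theorem conj_mem (hD : t ^ 2 - 4 * n < 0) (hf : 1 ≤ f) (hW : W ∈ WW t n f) (k : SL(2, ℤ)) :
    k.1 * W * (k⁻¹).1 ∈ WW t n f ∧ rt (k.1 * W * (k⁻¹).1) = k • rt W := by
  rw [Matrix.SpecialLinearGroup.coe_inv]
  have h1 : k.1 * W * k.1.adjugate ∈ WW t n f := by
    refine ⟨by rw [trace_conj, k.2, hW.1, one_mul], by rw [det_conj, k.2, hW.2.1]; ring,
      conj_pos (by rw [k.2]; exact one_ne_zero) hW.2.2.1 (disc hD hf hW), ?_⟩
    have := (dvd_cont.1 (dvd_refl (cont (k.1 * W * k.1.adjugate) : ℤ))).conj k.1.adjugate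
    rw [adj_adj, conj_adj, ← dvd_cont, hW.2.2.2] at this
    exact Nat.dvd_one.1 (by exact_mod_cast this)
  refine ⟨h1, ?_⟩
  rw [← mob_sl]
  refine (inter hD hf h1 (row1 hD hf hW) (row0 hD hf hW)
    (ne_zero_of_det (by rw [k.2]; exact one_ne_zero)) ?_).2.symm
  rw [Matrix.mul_assoc, Matrix.adjugate_mul, k.2]
  simp

theorem rt_inj (hD : t ^ 2 - 4 * n < 0) (hf : 1 ≤ f) (hW : W ∈ WW t n f) (hW' : W' ∈ WW t n f)
    (h : rt W' = rt W) : W' = W := by
  have h1 := row1 hD hf hW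
  have h2 := row1 hD hf hW'
  have h3 := row0 hD hf hW
  have h4 := row0 hD hf hW'
  rw [h] at h2 h4
  obtain ⟨a, b⟩ := lin_zero (x := W' 1 0 - W 1 0) (y := W' 1 1 - W 1 1) (τ := rt W)
    (by push_cast; linear_combination h2 - h1)
  obtain ⟨c, d⟩ := lin_zero (x := W' 0 0 - W 0 0) (y := W' 0 1 - W 0 1) (τ := rt W)
    (by push_cast; linear_combination h4 - h3)
  ext i j
  fin_cases i <;> fin_cases j
  exacts [sub_eq_zero.1 c, sub_eq_zero.1 d, sub_eq_zero.1 a, sub_eq_zero.1 b]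

theorem of_jH (hD : t ^ 2 - 4 * n < 0) (hf : 1 ≤ f) (hW : W ∈ WW t n f) (hW' : W' ∈ WW t n f)
    (h : jH (rt W') = jH (rt W)) : ∃ k : SL(2, ℤ), W' = k.1 * W * (k⁻¹).1 := by
  obtain ⟨k, hk⟩ := hyp.jH_eq_iff.1 h.symm
  obtain ⟨h1, h2⟩ := conj_mem hD hf hW k
  exact ⟨k, rt_inj hD hf h1 hW' (hk.trans h2.symm)⟩

theorem stab_two (hD : t ^ 2 - 4 * n < 0) (hf : 2 ≤ f) (hW : W ∈ WW t n f) {k : SL(2, ℤ)}
    (hk : k • rt W = rt W) : k = 1 ∨ k = -1 := by
  have hf1 : 1 ≤ f := by omega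
  obtain ⟨h1, h2⟩ := conj_mem hD hf1 hW k
  have h3 := rt_inj hD hf1 hW h1 (h2.trans hk)
  have h4 : k.1 * W = W * k.1 := by
    conv_rhs => rw [← h3, Matrix.mul_assoc, ← Matrix.SpecialLinearGroup.coe_mul, inv_mul_cancel]
    simp
  have e00 := congrFun (congrFun h4 0) 0
  have e01 := congrFun (congrFun h4 0) 1
  have e10 := congrFun (congrFun h4 1) 0
  simp only [Matrix.mul_apply, Fin.sum_univ_two] at e00 e01 e10
  obtain ⟨u, v, w, hb⟩ := bezout hW.2.2.2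
  have hd := k.2
  rw [Matrix.det_fin_two] at hd
  have ht := tr_eq hW
  have hn := det_eq hW
  obtain ⟨y, hy⟩ : ∃ y, y = u * k.1 0 1 + v * k.1 1 0 + w * (k.1 0 0 - k.1 1 1) := ⟨_, rfl⟩
  have y1 : k.1 0 1 = y * W 0 1 := by
    rw [hy]; linear_combination (-k.1 0 1) * hb + v * e00 - w * e01
  have y2 : k.1 1 0 = y * W 1 0 := by
    rw [hy]; linear_combination (-k.1 1 0) * hb - u * e00 + w * e10
  have y3 : k.1 0 0 - k.1 1 1 = y * (W 0 0 - W 1 1) := by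
    rw [hy]; linear_combination (-(k.1 0 0 - k.1 1 1)) * hb + u * e01 - v * e10
  have key : (k.1 0 0 + k.1 1 1) ^ 2 + y ^ 2 * (f : ℤ) ^ 2 * (4 * n - t ^ 2) = 4 := by
    have : k.1 0 0 = k.1 1 1 + y * (W 0 0 - W 1 1) := by linarith
    rw [y1, y2, this] at hd
    rw [this]
    linear_combination 4 * hd - 4 * y ^ 2 * hn + y ^ 2 * (W 0 0 + W 1 1 + f * t) * ht
  have h2D : 2 ≤ 4 * n - t ^ 2 := by
    by_contra hh
    have e : t ^ 2 = 4 * n - 1 := by omega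
    rcases Int.even_or_odd' t with ⟨m, rfl | rfl⟩
    · have : 4 * (n - m ^ 2) = 1 := by linear_combination -e
      omega
    · have : 4 * (n - m ^ 2 - m) = 2 := by linear_combination -e
      omega
  have y0 : y = 0 := by
    by_contra hy0
    have a1 : 1 ≤ y ^ 2 := by have := pow_pos (abs_pos.2 hy0) 2; rw [sq_abs] at this; omega
    have a2 : (4 : ℤ) ≤ (f : ℤ) ^ 2 := by
      have : (2 : ℤ) ≤ f := by exact_mod_cast hf
      nlinarith
    have a3 : 4 ≤ y ^ 2 * (f : ℤ) ^ 2 := by nlinarith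
    nlinarith [sq_nonneg (k.1 0 0 + k.1 1 1)]
  rw [y0, zero_mul] at y1 y2 y3
  have y4 : k.1 1 1 = k.1 0 0 := by linarith
  rw [y1, y4, zero_mul, sub_zero] at hd
  rcases mul_self_eq_one_iff.1 hd with e | e
  · left
    ext i j
    fin_cases i <;> fin_cases j <;> simp [y1, y2, y4, e]
  · right
    ext i j
    fin_cases i <;> fin_cases j <;> simp [y1, y2, y4, e]

theorem rt_mem_ball (hD : t ^ 2 - 4 * n < 0) (hf : 1 ≤ f) (hW : W ∈ WW t n f) {R : ℝ}
    (h : Bdd W (R * f)) : rt W ∈ Metric.closedBall I (2 * R / Real.sqrt (4 * n - t ^ 2)) := by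
  have hs := s_pos hD
  have hf' : (0 : ℝ) < f := by exact_mod_cast hf
  have r1 := row1 hD hf hW
  have r0 := row0 hD hf hW
  rw [← r1] at r0
  have i1 := congrArg Complex.im r1
  have i0 := congrArg Complex.im r0
  have p0 := congrArg Complex.re r0
  simp only [Complex.add_im, Complex.mul_im, Complex.intCast_re, Complex.intCast_im, coe_im, coe_re,
    zero_mul, add_zero, Complex.natCast_re, Complex.natCast_im, om_im, Complex.add_re,
    Complex.mul_re, sub_zero] at i1 i0 p0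
  have hy := (rt W).im_pos
  have e1 : (W 0 0 : ℝ) = 2 * W 1 0 * (rt W).re + W 1 1 :=
    mul_right_cancel₀ hy.ne' (by linear_combination i0)
  have e2 : (W 1 0 : ℝ) * ((rt W).re ^ 2 + (rt W).im ^ 2) = -W 0 1 := by
    rw [e1] at p0; linear_combination p0
  have hc : (0 : ℝ) < W 1 0 := by exact_mod_cast hW.2.2.1
  have b1 := (le_abs_self _).trans (h 1 0)
  have b2 := (neg_le_abs _).trans (h 0 1)
  rw [Metric.mem_closedBall]
  refine le_trans (Real.self_le_sinh_iff.2 dist_nonneg) ((Real.sinh_lt_cosh _).le.trans ?_)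
  rw [cosh_dist', div_le_div_iff₀ (by have := I.im_pos; positivity) hs]
  simp only [I_re, sub_zero, I_im, one_pow, mul_one]
  refine le_of_mul_le_mul_left ?_ hc
  calc _ = (-W 0 1 + W 1 0) * Real.sqrt (4 * n - t ^ 2) := by rw [← e2]; ring
    _ ≤ (R * f + R * f) * Real.sqrt (4 * n - t ^ 2) := by gcongr
    _ = _ := by linear_combination (-4 * R) * i1

theorem bdd_of_mem (hD : t ^ 2 - 4 * n < 0) {Ω : Set ℍ} (h : IsCompact Ω) :
    ∃ R : ℝ, 0 < R ∧ ∀ f : ℕ, 1 ≤ f → ∀ W ∈ WW t n f, rt W ∈ Ω → Bdd W (R * f) := by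
  obtain ⟨R, hR, H⟩ := bdd_of_mob h h
  have hn : (0 : ℤ) < n := by nlinarith [sq_nonneg t]
  have hn' : (0 : ℝ) < n := by exact_mod_cast hn
  refine ⟨R * Real.sqrt n, by positivity, fun f hf W hW hΩ => ?_⟩
  obtain ⟨h1, h2⟩ := inter hD hf hW (row1 hD hf hW) (row0 hD hf hW)
    (g := W) (fun e => by simpa [e] using hW.2.2.1) rfl
  have := H W h1 _ hΩ (h2.symm ▸ hΩ)
  rw [hW.2.1] at this
  push_cast at this
  rw [Real.sqrt_mul (sq_nonneg _), Real.sqrt_sq (Nat.cast_nonneg f)] at this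
  convert this using 1
  ring

theorem finite_fd (hD : t ^ 2 - 4 * n < 0) (hf : 1 ≤ f) :
    {W | W ∈ WW t n f ∧ rt W ∈ ModularGroup.fd}.Finite := by
  obtain ⟨R, -, H⟩ := bdd_of_mem hD
    (ModularGroup.isCompact_truncatedFundamentalDomain (f * (om t n).im))
  refine (finite_bdd (R * f)).subset fun W hW => H f hf W hW.1 ⟨hW.2, ?_⟩
  have i1 := congrArg Complex.im (row1 hD hf hW.1)
  simp only [Complex.add_im, Complex.mul_im, Complex.intCast_re, Complex.intCast_im, coe_im,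
    zero_mul, add_zero, Complex.natCast_re, Complex.natCast_im] at i1
  have hc : (1 : ℝ) ≤ W 1 0 := by exact_mod_cast hW.1.2.2.1
  have hy := (rt W).im_pos
  nlinarith

theorem finite_JJ (hD : t ^ 2 - 4 * n < 0) (hf : 1 ≤ f) : (JJ t n f).Finite := by
  refine ((finite_fd hD hf).image fun W => jH (rt W)).subset ?_
  rintro _ ⟨W, hW, rfl⟩
  obtain ⟨k, hk⟩ := ModularGroup.exists_smul_mem_fd (rt W)
  obtain ⟨h1, h2⟩ := conj_mem hD hf hW k
  exact ⟨_, ⟨h1, h2 ▸ hk⟩, by simp only [h2]; exact hyp.eis.2.2.2.2.1 k _⟩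

theorem nonempty_JJ (t n : ℤ) (f : ℕ) : (JJ t n f).Nonempty :=
  ⟨_, !![f * t, -((f : ℤ) ^ 2 * n); 1, 0], ⟨by simp [Matrix.trace_fin_two],
    by simp [Matrix.det_fin_two], by simp, by simp [cont]⟩, rfl⟩

theorem count (hD : t ^ 2 - 4 * n < 0) {Ω : Set ℍ} (h : IsCompact Ω) :
    ∃ R : ℝ, 0 < R ∧ ∀ f : ℕ, 1 ≤ f →
      (∀ W ∈ WW t n f, rt W ∈ Ω → Bdd W (R * f)) ∧
      (∀ c : ℂ, ({W | W ∈ WW t n f ∧ rt W ∈ Ω ∧ jH (rt W) = c}.ncard : ℝ) ≤ R) ∧
      ({W | W ∈ WW t n f ∧ rt W ∈ Ω}.ncard : ℝ) ≤ R * (JJ t n f).ncard := by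
  classical
  obtain ⟨R, hR, H⟩ := bdd_of_mem hD h
  obtain ⟨R', -, H'⟩ := bdd_of_mob h h
  obtain ⟨N, hN⟩ : ∃ N, N = {g : M2 | Bdd g R'}.ncard := ⟨_, rfl⟩
  have hN0 : (0 : ℝ) ≤ N := Nat.cast_nonneg N
  refine ⟨R + N, by positivity, fun f hf => ?_⟩
  have fib : ∀ c : ℂ, {W | W ∈ WW t n f ∧ rt W ∈ Ω ∧ jH (rt W) = c}.ncard ≤ N := fun c => by
    rcases Set.eq_empty_or_nonempty {W | W ∈ WW t n f ∧ rt W ∈ Ω ∧ jH (rt W) = c} with e | ⟨W₀, h0⟩
    · rw [e]; simp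
    rw [hN]
    refine le_trans (Set.ncard_le_ncard ?_ ((finite_bdd R').image fun g => g * W₀ * g.adjugate))
      (Set.ncard_image_le (finite_bdd R'))
    rintro W ⟨h1, h2, h3⟩
    obtain ⟨k, rfl⟩ := of_jH hD hf h0.1 h1 (h3.trans h0.2.2.symm)
    refine ⟨k.1, ?_, rfl⟩
    have := H' k.1 (by rw [k.2]; exact one_pos) _ h0.2.1
      (by rw [mob_sl, ← (conj_mem hD hf h0.1 k).2]; exact h2)
    simpa [k.2] using this
  refine ⟨fun W hW hΩ i j => (H f hf W hW hΩ i j).trans (by gcongr; linarith),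
    fun c => le_trans (by exact_mod_cast fib c) (le_add_of_nonneg_left hR.le), ?_⟩
  have hfin : {W | W ∈ WW t n f ∧ rt W ∈ Ω}.Finite :=
    (finite_bdd (R * f)).subset fun W hW => H f hf W hW.1 hW.2
  have h1 : {W | W ∈ WW t n f ∧ rt W ∈ Ω}.ncard ≤ N * (JJ t n f).ncard := by
    rw [Set.ncard_eq_toFinset_card _ hfin, Set.ncard_eq_toFinset_card _ (finite_JJ hD hf)]
    refine card_le_mul_card_image_of_maps_to (f := fun W => jH (rt W)) (fun W hW => ?_) N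
      fun c _ => le_trans (le_of_eq ?_) (fib c)
    · rw [Set.Finite.mem_toFinset] at hW ⊢
      exact ⟨W, hW.1, rfl⟩
    · rw [← Set.ncard_coe_finset]
      congr 1
      ext W
      simp [and_assoc]
  calc _ ≤ ((N * (JJ t n f).ncard : ℕ) : ℝ) := by exact_mod_cast h1
    _ ≤ _ := by push_cast; gcongr; linarith

theorem conj_one (hD : t ^ 2 - 4 * n < 0) (hf : 1 ≤ f) (hV : V ∈ WW t n 1) (hg : g.det = f)
    (hc : cont (g * V * g.adjugate) = 1) :
    g * V * g.adjugate ∈ WW t n f ∧ rt (g * V * g.adjugate) = mob g (rt V) := by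
  have h0 : g.det ≠ 0 := by rw [hg]; positivity
  have h1 : g * V * g.adjugate ∈ WW t n f :=
    ⟨by rw [trace_conj, hg, hV.1]; simp, by rw [det_conj, hg, hV.2.1]; simp,
      conj_pos h0 hV.2.2.1 (disc hD le_rfl hV), hc⟩
  refine ⟨h1, (inter hD hf h1 (X := (f : ℤ) • V) ?_ ?_ (ne_zero_of_det h0) ?_).2.symm⟩
  · simp only [Matrix.smul_apply, smul_eq_mul]
    push_cast
    linear_combination (norm := (push_cast; ring)) (f : ℂ) * row1 hD le_rfl hV
  · simp only [Matrix.smul_apply, smul_eq_mul]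
    push_cast
    linear_combination (norm := (push_cast; ring)) (f : ℂ) * row0 hD le_rfl hV
  · rw [Matrix.mul_assoc, Matrix.adjugate_mul, hg, Matrix.mul_smul, Matrix.mul_smul, Matrix.mul_one]

theorem exists_basis {m : ℤ} (hm : m ≠ 0) (W : M2) :
    ∃ h U U' X Y : M2, h = m • U + U' * W ∧ X * h = m • (1 : M2) ∧ Y * h = W := by
  let φ : (Fin 2 → ℤ) × (Fin 2 → ℤ) →ₗ[ℤ] Fin 2 → ℤ :=
    (m • LinearMap.id).coprod W.vecMulLinear
  have h1 : ∀ x, m • x ∈ LinearMap.range φ := fun x => ⟨(x, 0), by simp [φ]⟩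
  have h2 : Module.finrank ℤ (LinearMap.range φ) = 2 := by
    refine le_antisymm ((Submodule.finrank_le _).trans (by simp)) ?_
    have := LinearMap.finrank_le_finrank_of_injective
      (f := (m • LinearMap.id (R := ℤ) (M := Fin 2 → ℤ)).codRestrict (LinearMap.range φ) h1)
      fun x y e => smul_right_injective _ hm (congrArg Subtype.val e)
    simpa using this
  let B := Module.finBasisOfFinrankEq ℤ (LinearMap.range φ) h2
  choose u hu using fun i => (B i).2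
  have h3 : ∀ x ∈ LinearMap.range φ, ∃ c : Fin 2 → ℤ, ∀ j, ∑ i, c i * (B i).1 j = x j :=
    fun x hx => ⟨B.repr ⟨x, hx⟩, fun j => by
      have := congrFun (congrArg Subtype.val (B.sum_repr ⟨x, hx⟩)) j
      rw [Submodule.coe_sum, Finset.sum_apply] at this
      exact this⟩
  choose X hX using fun i => h3 _ (h1 (Pi.single i 1))
  choose Y hY using fun i => h3 (W i) ⟨(0, Pi.single i 1), by simp [φ, Matrix.row]⟩
  refine ⟨Matrix.of fun i => (B i).1, Matrix.of fun i => (u i).1, Matrix.of fun i => (u i).2,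
    Matrix.of X, Matrix.of Y, ?_, ?_, ?_⟩
  · ext i j
    rw [Matrix.of_apply, ← hu i]
    simp [φ, Matrix.mul_apply, Matrix.vecMul, dotProduct]
  · ext i j
    rw [Matrix.mul_apply]
    simp only [Matrix.of_apply, hX, Matrix.smul_apply, Matrix.one_apply, Pi.smul_apply,
      Pi.single_apply, eq_comm]
  · ext i j
    rw [Matrix.mul_apply]
    simp only [Matrix.of_apply, hY]

theorem exists_basis' (hf : 1 ≤ f) (hW : W ∈ WW t n f) :
    ∃ h U U' Y : M2, h.det = f ∧ h = (f : ℤ) • U + U' * W ∧ Y * h = W := by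
  obtain ⟨h, U, U', X, Y, h1, h2, h3⟩ := exists_basis (m := f) (by positivity) W
  have d1 : h.det ∣ f := by
    have e : (f : ℤ) • W = h.det • (Y * X.adjugate) := by
      have : (X * h).adjugate = (f : ℤ) • (1 : M2) := by
        rw [h2, Matrix.adjugate_smul]; simp
      rw [← Matrix.mul_one W, ← Matrix.mul_smul, ← this, Matrix.adjugate_mul_distrib, ← h3,
        Matrix.mul_assoc, ← Matrix.mul_assoc h, Matrix.mul_adjugate, Matrix.smul_mul,
        Matrix.one_mul, Matrix.mul_smul]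
    have e' : ∀ i j, f * W i j = h.det * (Y * X.adjugate) i j := fun i j =>
      congrFun (congrFun e i) j
    obtain ⟨u, v, w, hb⟩ := bezout hW.2.2.2
    exact ⟨u * (Y * X.adjugate) 0 1 + v * (Y * X.adjugate) 1 0 +
      w * ((Y * X.adjugate) 0 0 - (Y * X.adjugate) 1 1), by
      linear_combination (-f : ℤ) * hb + u * e' 0 1 + v * e' 1 0 + w * e' 0 0 - w * e' 1 1⟩
  have d2 : (f : ℤ) ∣ h.det := by
    have e : (U' * W).det = U'.det * ((f : ℤ) ^ 2 * n) := by rw [Matrix.det_mul, hW.2.1]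
    rw [h1]
    generalize U' * W = Z at e
    rw [Matrix.det_fin_two] at e
    refine ⟨f * U.det + U 0 0 * Z 1 1 + U 1 1 * Z 0 0 - U 0 1 * Z 1 0 - U 1 0 * Z 0 1 +
      U'.det * f * n, ?_⟩
    rw [Matrix.det_fin_two, Matrix.det_fin_two U]
    simp only [Matrix.add_apply, Matrix.smul_apply, smul_eq_mul]
    linear_combination e
  rcases Int.associated_iff.1 (associated_of_dvd_dvd d1 d2) with e | e
  · exact ⟨h, U, U', Y, e, h1, h3⟩
  · have hJ : (!![1, 0; 0, -1] : M2) * !![1, 0; 0, -1] = 1 := by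
      ext i j; fin_cases i <;> fin_cases j <;> simp
    refine ⟨!![1, 0; 0, -1] * h, !![1, 0; 0, -1] * U, !![1, 0; 0, -1] * U', Y * !![1, 0; 0, -1],
      by rw [Matrix.det_mul, e]; simp [Matrix.det_fin_two], ?_, ?_⟩
    · rw [h1, Matrix.mul_add, Matrix.mul_smul, Matrix.mul_assoc]
    · rw [Matrix.mul_assoc, ← Matrix.mul_assoc _ _ h, hJ, Matrix.one_mul, h3]

theorem cancel {m : ℤ} (hm : m ≠ 0) {A B : M2} (h : m • A = m • B) : A = B :=
  smul_right_injective _ hm h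

theorem decomp0 (hF : Fund t n) (hf : 1 ≤ f) (hW : W ∈ WW t n f) :
    ∃ V ∈ WW t n 1, ∃ g U U' : M2, g.det = f ∧ W = g * V * g.adjugate ∧
      g.adjugate = (f : ℤ) • U + U' * W := by
  obtain ⟨h, U, U', Y, h1, h2, h3⟩ := exists_basis' hf hW
  have f0 : (f : ℤ) ≠ 0 := by positivity
  have a1 : h * h.adjugate = (f : ℤ) • (1 : M2) := by rw [Matrix.mul_adjugate, h1]
  have a2 : h.adjugate * h = (f : ℤ) • (1 : M2) := by rw [Matrix.adjugate_mul, h1]
  have a3 : W * h.adjugate = (f : ℤ) • Y := by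
    rw [← h3, Matrix.mul_assoc, a1, Matrix.mul_smul, Matrix.mul_one]
  have a4 : W * Y = (f : ℤ) • (t • Y - n • h.adjugate) := by
    refine cancel f0 ?_
    rw [← Matrix.mul_smul, ← a3, ← Matrix.mul_assoc, sq_eq hW, Matrix.sub_mul, Matrix.smul_mul, a3,
      sc, Matrix.smul_mul, Matrix.one_mul]
    module
  obtain ⟨V, hV⟩ : ∃ V, V = U * Y + U' * (t • Y - n • h.adjugate) := ⟨_, rfl⟩
  have a5 : h * Y = (f : ℤ) • V := by
    conv_lhs => rw [h2]
    rw [Matrix.add_mul, Matrix.mul_assoc, a4, hV, Matrix.smul_mul, Matrix.mul_smul, smul_add]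
  have a6 : h * W * h.adjugate = ((f : ℤ) * f) • V := by
    rw [Matrix.mul_assoc, a3, Matrix.mul_smul, a5, smul_smul]
  have b1 := trace_conj h W
  have b2 := det_conj h W
  have b3 := conj_pos (g := h) (by rw [h1]; exact f0) hW.2.2.1 (disc hF.1 hf hW)
  rw [a6] at b1 b2 b3
  rw [Matrix.trace_smul, h1, hW.1, smul_eq_mul, ← mul_assoc] at b1
  rw [Matrix.det_smul, h1, hW.2.1, Fintype.card_fin] at b2
  rw [Matrix.smul_apply, smul_eq_mul, mul_pos_iff_of_pos_left (by positivity)] at b3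
  have c1 : V.trace = t := mul_left_cancel₀ (mul_ne_zero f0 f0) b1
  have c2 : V.det = n := mul_left_cancel₀ (pow_ne_zero 2 (mul_ne_zero f0 f0))
    (by linear_combination b2)
  refine ⟨V, ⟨by simpa using c1, by simpa using c2, b3, ?_⟩, h.adjugate, U, U',
    by rw [det_adj, h1], ?_, by rw [adj_adj]; exact h2⟩
  · obtain ⟨⟨x, hx⟩, ⟨y, hy⟩, ⟨z, hz⟩⟩ := dvd_cont.1 (dvd_refl (cont V : ℤ))
    rw [Matrix.trace_fin_two] at c1
    rw [Matrix.det_fin_two] at c2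
    have := hF.2 (cont V) z (-(x * y)) (by
      rw [← c1, ← c2]
      linear_combination (V 0 0 - V 1 1 + cont V * z) * hz + 4 * V 1 0 * hx + 4 * cont V * x * hy)
    exact_mod_cast (pow_eq_one_iff_of_nonneg (Nat.cast_nonneg _) two_ne_zero).1 this
  · refine cancel f0 ?_
    rw [adj_adj, ← Matrix.smul_mul, ← Matrix.mul_smul, ← a5, ← Matrix.mul_assoc, a2,
      Matrix.smul_mul, Matrix.smul_mul, Matrix.one_mul, h3]

theorem decomp_unique (hf : 1 ≤ f) {U U' V' g' : M2} (h1 : g.det = f) (h2 : W = g * V * g.adjugate)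
    (h3 : g.adjugate = (f : ℤ) • U + U' * W) (h4 : g'.det = f) (h5 : W = g' * V' * g'.adjugate) :
    ∃ k : SL(2, ℤ), g' = g * k.1 ∧ V' = (k⁻¹).1 * V * k.1 := by
  have f0 : (f : ℤ) ≠ 0 := by positivity
  obtain ⟨k, hk⟩ : ∃ k, k = U * g' + U' * (g' * V') := ⟨_, rfl⟩
  have a1 : g.adjugate = k * g'.adjugate := by
    rw [h3, hk, Matrix.add_mul, Matrix.mul_assoc, Matrix.mul_adjugate, h4, Matrix.mul_smul,
      Matrix.mul_one, Matrix.mul_assoc, ← h5]
  have a2 : k.det = 1 := by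
    have := congrArg Matrix.det a1
    rw [Matrix.det_mul, det_adj, det_adj, h1, h4] at this
    exact mul_right_cancel₀ f0 (by rw [← this, one_mul])
  have a3 : g = g' * k.adjugate := by
    rw [← adj_adj g, a1, Matrix.adjugate_mul_distrib, adj_adj]
  have a4 : k.adjugate * k = 1 := by rw [Matrix.adjugate_mul, a2, one_smul]
  refine ⟨⟨k, a2⟩, by rw [a3, Matrix.mul_assoc, a4, Matrix.mul_one], ?_⟩
  rw [Matrix.SpecialLinearGroup.coe_inv]
  change V' = k.adjugate * V * k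
  have a5 : ∀ X : M2, g'.adjugate * (g' * X * g'.adjugate) * g' = ((f : ℤ) * f) • X := fun X => by
    rw [← Matrix.mul_assoc, ← Matrix.mul_assoc, Matrix.adjugate_mul, Matrix.mul_assoc,
      Matrix.adjugate_mul, h4]
    simp only [Matrix.smul_mul, Matrix.mul_smul, Matrix.one_mul, Matrix.mul_one, smul_smul]
  refine cancel (mul_ne_zero f0 f0) ?_
  rw [← a5, ← a5, ← h5, h2, a1]
  congr 2
  rw [a3]
  simp only [Matrix.mul_assoc]

theorem decomp (hF : Fund t n) (hf : 1 ≤ f) (hW : W ∈ WW t n f) :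
    ∃ V ∈ WW t n 1, ∃ g U U' : M2, g.det = f ∧ W = g * V * g.adjugate ∧
      rt V ∈ ModularGroup.fd ∧ g.adjugate = (f : ℤ) • U + U' * W := by
  obtain ⟨V, hV, g, U, U', h1, h2, h3⟩ := decomp0 hF hf hW
  obtain ⟨k, hk⟩ := ModularGroup.exists_smul_mem_fd (rt V)
  obtain ⟨a1, a2⟩ := conj_mem hF.1 le_rfl hV k
  refine ⟨_, a1, g * k.1.adjugate, k.1 * U, k.1 * U', by rw [Matrix.det_mul, det_adj, k.2, h1, mul_one],
    ?_, a2 ▸ hk, ?_⟩
  · rw [Matrix.adjugate_mul_distrib, adj_adj, Matrix.SpecialLinearGroup.coe_inv, h2]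
    conv_lhs => rw [← conj_adj k V]
    simp only [Matrix.mul_assoc]
  · rw [Matrix.adjugate_mul_distrib, adj_adj, h3, Matrix.mul_add, Matrix.mul_smul, Matrix.mul_assoc]

end W

open W in
theorem w_all : WStmt := fun t n hD =>
  ⟨⟨om_sq hD, by rw [om_im]; exact half_pos (s_pos hD)⟩,
    fun _ hf W hW => ⟨row1 hD hf hW, row0 hD hf hW, neg01 hD hf hW, sq_eq hW, conj_mem hD hf hW,
      fun _ hW' => rt_inj hD hf hW hW',
      fun _ hW' _ hg h => inter hD hf hW' (row1 hD hf hW) (row0 hD hf hW) hg h,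
      fun _ hW' => of_jH hD hf hW hW', by
        obtain ⟨S, h1, h2⟩ := stab_le (rt W)
        exact ⟨S.finite_toSet.subset h2, (Set.ncard_le_ncard h2 S.finite_toSet).trans
          (by rwa [Set.ncard_coe_finset])⟩,
      fun h2 _ hk => stab_two hD h2 hW hk⟩,
    fun f hf => ⟨finite_JJ hD hf, nonempty_JJ t n f⟩,
    fun _ h => count hD h,
    fun _ => ⟨_, isCompact_closedBall _ _, fun _ hf _ hW h => rt_mem_ball hD hf hW h⟩,
    fun _ _ _ hf hV hg hc => conj_one hD hf hV hg hc,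
    fun _ hf hF _ hW => by
      obtain ⟨V, hV, g, U, U', h1, h2, h3, h4⟩ := decomp hF hf hW
      exact ⟨V, hV, g, U, U', h1, h2, h3, h4, fun _ _ _ h5 h6 => decomp_unique hf h1 h2 h4 h5 h6⟩,
    finite_fd hD le_rfl,
    fun _ _ h h' => bdd_of_mob h h'⟩

end Pool.Agent.Lib.MP_9177b7_ag.EQ
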