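import Pool.Agent.Lib.MP_9177b7_ag.EQ.StN

/-!
Basic facts on CM matrices: Moebius action and fixed points.
-/

open UpperHalfPlane Finset
open scoped MatrixGroups

noncomputable section

namespace Pool.Agent.Lib.MP_9177b7_ag.EQ

open Pool.Agent.Lib.MP_9177b7_ag.CM

namespace W

theorem lin_zero {x y : ℤ} {τ : ℍ} (h : (x : ℂ) * τ + y = 0) : x = 0 ∧ y = 0 := by
  have h1 := congrArg Complex.im h
  simp only [Complex.add_im, Complex.mul_im, Complex.intCast_re, Complex.intCast_im, zero_mul,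
    add_zero, Complex.zero_im, coe_im, mul_eq_zero, Int.cast_eq_zero, τ.im_ne_zero, or_false] at h1
  subst h1
  simpa using h

theorem im_div (g : M2) (τ : ℍ) :
    ((g 0 0 * (τ : ℂ) + g 0 1) / (g 1 0 * (τ : ℂ) + g 1 1)).im =
      g.det * τ.im / Complex.normSq (g 1 0 * (τ : ℂ) + g 1 1) := by
  rw [Complex.div_im, ← sub_div, Matrix.det_fin_two]
  congr 1
  simp
  ring

theorem den_ne {g : M2} (hg : g.det ≠ 0) (τ : ℍ) : (g 1 0 * (τ : ℂ) + g 1 1) ≠ 0 := fun h => by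
  obtain ⟨h1, h2⟩ := lin_zero h
  exact hg (by rw [Matrix.det_fin_two, h1, h2]; ring)

theorem coe_mob {g : M2} (hg : 0 < g.det) (τ : ℍ) :
    (mob g τ : ℂ) = (g 0 0 * (τ : ℂ) + g 0 1) / (g 1 0 * (τ : ℂ) + g 1 1) := by
  rw [mob, ofComplex_apply_of_im_pos]
  rw [im_div]
  have := Complex.normSq_pos.2 (den_ne hg.ne' τ)
  have := τ.im_pos
  have : (0 : ℝ) < g.det := by exact_mod_cast hg
  positivity

theorem mob_eq {g : M2} (hg : g ≠ 0) {τ τ' : ℍ}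
    (h : g 0 0 * (τ : ℂ) + g 0 1 = τ' * (g 1 0 * (τ : ℂ) + g 1 1)) : 0 < g.det ∧ mob g τ = τ' := by
  have h0 : (g 1 0 * (τ : ℂ) + g 1 1) ≠ 0 := fun e => by
    rw [e, mul_zero] at h
    obtain ⟨h1, h2⟩ := lin_zero e
    obtain ⟨h3, h4⟩ := lin_zero h
    refine hg ?_
    ext i j
    fin_cases i <;> fin_cases j <;> simp [h1, h2, h3, h4]
  have h1 : (g 0 0 * (τ : ℂ) + g 0 1) / (g 1 0 * (τ : ℂ) + g 1 1) = τ' := by
    rw [h, mul_div_assoc, div_self h0, mul_one]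
  refine ⟨?_, by rw [mob, h1, ofComplex_apply]⟩
  have h2 := im_div g τ
  rw [h1, coe_im] at h2
  have h3 := τ'.im_pos
  rw [h2, div_pos_iff_of_pos_right (Complex.normSq_pos.2 h0), mul_pos_iff_of_pos_right τ.im_pos] at h3
  exact_mod_cast h3

theorem mob_sl (k : SL(2, ℤ)) (τ : ℍ) : mob k.1 τ = k • τ := by
  rw [mob, ← ofComplex_apply (k • τ), coe_specialLinearGroup_apply]
  simp

theorem finite_bdd (R : ℝ) : {W : M2 | Bdd W R}.Finite := by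
  have h : {x : ℤ | |(x : ℝ)| ≤ R}.Finite := (Set.finite_Icc (-⌈R⌉) ⌈R⌉).subset fun x hx => by
    have h1 : |(x : ℝ)| ≤ (⌈R⌉ : ℤ) := le_trans hx (Int.le_ceil R)
    rw [← Int.cast_abs, Int.cast_le] at h1
    exact abs_le.1 h1
  exact Set.Finite.pi' fun _ => Set.Finite.pi' fun _ => h

theorem lin_bound {A B : ℝ} (hA : 1 ≤ A) {x y : ℤ} {τ : ℍ} (h1 : 1 / τ.im ≤ A) (h2 : ‖(τ : ℂ)‖ ≤ A)
    (h : ‖(x : ℂ) * τ + y‖ ≤ B) : |(x : ℝ)| ≤ 2 * A ^ 2 * B ∧ |(y : ℝ)| ≤ 2 * A ^ 2 * B := by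
  have hB : 0 ≤ B := (norm_nonneg _).trans h
  have h3 : |(x : ℝ)| * τ.im ≤ B := by
    refine le_trans ?_ ((Complex.abs_im_le_norm _).trans h)
    simp [abs_mul, abs_of_pos τ.im_pos]
  have h4 : |(x : ℝ)| ≤ A * B := by
    rw [div_le_iff₀ τ.im_pos] at h1
    have := abs_nonneg (x : ℝ)
    nlinarith
  have h5 : |(y : ℝ)| ≤ B + |(x : ℝ)| * A := by
    have e : (y : ℂ) = ((x : ℂ) * τ + y) - x * τ := by ring
    have : ‖(y : ℂ)‖ ≤ ‖(x : ℂ) * τ + y‖ + ‖(x : ℂ) * τ‖ := by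
      conv_lhs => rw [e]
      exact norm_sub_le _ _
    rw [norm_mul, Complex.norm_intCast, Complex.norm_intCast] at this
    have := abs_nonneg (x : ℝ)
    nlinarith
  have h6 : A * B ≤ A ^ 2 * B := by nlinarith [mul_nonneg (sub_nonneg.2 hA) (mul_nonneg (by linarith : 0 ≤ A) hB)]
  have h7 : B ≤ A * B := by nlinarith
  constructor <;> nlinarith

theorem compact_bound {Ω : Set ℍ} (h : IsCompact Ω) :
    ∃ A : ℝ, 1 ≤ A ∧ ∀ τ ∈ Ω, 1 / τ.im ≤ A ∧ ‖(τ : ℂ)‖ ≤ A := by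
  have hc : Continuous fun τ : ℍ => 1 / τ.im + ‖(τ : ℂ)‖ :=
    (continuous_const.div UpperHalfPlane.continuous_im fun τ => τ.im_ne_zero).add
      continuous_coe.norm
  obtain ⟨A, hA⟩ := h.bddAbove_image hc.continuousOn
  refine ⟨max A 1, le_max_right _ _, fun τ hτ => ?_⟩
  have h1 : 1 / τ.im + ‖(τ : ℂ)‖ ≤ A := hA ⟨τ, hτ, rfl⟩
  have h2 : 0 < 1 / τ.im := one_div_pos.2 τ.im_pos
  have h3 := norm_nonneg (τ : ℂ)
  have h4 := le_max_left A 1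
  constructor <;> linarith

theorem bdd_of_mob {Ω Ω' : Set ℍ} (h : IsCompact Ω) (h' : IsCompact Ω') :
    ∃ R : ℝ, 0 < R ∧ ∀ g : M2, 0 < g.det → ∀ τ ∈ Ω, mob g τ ∈ Ω' →
      Bdd g (R * Real.sqrt g.det) := by
  obtain ⟨A, hA, H⟩ := compact_bound (h.union h')
  refine ⟨2 * A ^ 2 * A ^ 2, by positivity, fun g hg τ hτ hτ' => ?_⟩
  obtain ⟨a1, a2⟩ := H τ (Or.inl hτ)
  obtain ⟨b1, b2⟩ := H _ (Or.inr hτ')
  have hd : (0 : ℝ) < g.det := by exact_mod_cast hg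
  have h0 := den_ne hg.ne' τ
  have h1 := im_div g τ
  rw [← coe_mob hg, coe_im, eq_div_iff (Complex.normSq_pos.2 h0).ne', Complex.normSq_eq_norm_sq] at h1
  have h2 : ‖g 1 0 * (τ : ℂ) + g 1 1‖ ≤ A * Real.sqrt g.det := by
    refine le_of_sq_le_sq ?_ (by positivity)
    rw [mul_pow, Real.sq_sqrt hd.le]
    rw [div_le_iff₀ (mob g τ).im_pos] at b1
    have h3 : τ.im ≤ A := le_trans (le_abs_self _) ((Complex.abs_im_le_norm (τ : ℂ)).trans a2)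
    have h4 := sq_nonneg ‖g 1 0 * (τ : ℂ) + g 1 1‖
    calc _ ≤ (A * (mob g τ).im) * ‖g 1 0 * (τ : ℂ) + g 1 1‖ ^ 2 := by nlinarith
      _ = A * (g.det * τ.im) := by rw [mul_assoc, h1]
      _ ≤ A * (g.det * A) := by gcongr
      _ = _ := by ring
  have h3 : ‖g 1 0 * (τ : ℂ) + g 1 1‖ ≤ A ^ 2 * Real.sqrt g.det :=
    h2.trans (by have := Real.sqrt_nonneg (g.det : ℝ); nlinarith [mul_nonneg (sub_nonneg.2 hA) (mul_nonneg (by linarith : 0 ≤ A) this)])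
  have h4 : ‖g 0 0 * (τ : ℂ) + g 0 1‖ ≤ A ^ 2 * Real.sqrt g.det := by
    rw [(eq_div_iff h0).1 (coe_mob hg τ) |>.symm, norm_mul, sq, mul_assoc]
    gcongr
  obtain ⟨c1, c2⟩ := lin_bound hA a1 a2 h3
  obtain ⟨d1, d2⟩ := lin_bound hA a1 a2 h4
  intro i j
  rw [mul_assoc]
  fin_cases i <;> fin_cases j
  exacts [d1, d2, c1, c2]

theorem stab_le (τ : ℍ) : ∃ S : Finset SL(2, ℤ), #S ≤ 6 ∧ ∀ k : SL(2, ℤ), k • τ = τ → k ∈ S := by
  classical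
  have tr : ∀ (g : SL(2, ℤ)) (z : ℍ),
      (∃ S : Finset SL(2, ℤ), #S ≤ 6 ∧ ∀ k : SL(2, ℤ), k • z = z → k ∈ S) →
      ∃ S : Finset SL(2, ℤ), #S ≤ 6 ∧ ∀ k : SL(2, ℤ), k • g • z = g • z → k ∈ S := by
    rintro g z ⟨S, h1, h2⟩
    refine ⟨S.image fun k => g * k * g⁻¹, card_image_le.trans h1, fun k hk => ?_⟩
    refine mem_image.2 ⟨g⁻¹ * k * g, h2 _ ?_, by group⟩
    rw [mul_smul, mul_smul, hk, inv_smul_smul]
  have hρ : ∃ S : Finset SL(2, ℤ), #S ≤ 6 ∧ ∀ k : SL(2, ℤ), k • ρ = ρ → k ∈ S :=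
    ⟨_, card_le_six, fun k hk => ModularGroup.stabilizer_ρ.1 hk⟩
  obtain ⟨g, hg⟩ := ModularGroup.exists_smul_mem_fd τ
  rw [← inv_smul_smul g τ]
  refine tr _ _ ?_
  by_cases h1 : g • τ = I
  · rw [h1]
    exact ⟨_, card_le_four.trans (by norm_num), fun k hk => ModularGroup.stabilizer_I.1 hk⟩
  by_cases h2 : g • τ = ρ
  · rw [h2]; exact hρ
  by_cases h3 : g • τ = (1 : ℝ) +ᵥ ρ
  · rw [h3, ← modular_T_smul]; exact tr _ _ hρ
  exact ⟨{1, -1}, card_le_two.trans (by norm_num), fun k hk => by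
    simpa using ModularGroup.stabilizer_of_ne hg hk h1 h2 h3⟩

/-- The matrix is scalar modulo `e`. -/
def Sc (e : ℤ) (W : M2) : Prop := e ∣ W 0 1 ∧ e ∣ W 1 0 ∧ e ∣ W 0 0 - W 1 1

theorem dvd_cont {e : ℤ} {W : M2} : e ∣ cont W ↔ Sc e W := by
  rw [cont, Int.dvd_coe_gcd_iff, Int.dvd_coe_gcd_iff, and_assoc, Sc]

theorem Sc.conj {e : ℤ} {W : M2} (h : Sc e W) (g : M2) : Sc e (g * W * g.adjugate) := by
  obtain ⟨⟨x, hx⟩, ⟨y, hy⟩, ⟨z, hz⟩⟩ := h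
  have hz' : W 0 0 = e * z + W 1 1 := by linarith
  refine ⟨⟨x * g 0 0 ^ 2 - y * g 0 1 ^ 2 - z * g 0 0 * g 0 1, ?_⟩,
    ⟨y * g 1 1 ^ 2 - x * g 1 0 ^ 2 + z * g 1 0 * g 1 1, ?_⟩,
    ⟨z * (g 0 0 * g 1 1 + g 0 1 * g 1 0) + 2 * y * g 0 1 * g 1 1 - 2 * x * g 0 0 * g 1 0, ?_⟩⟩ <;>
  simp [Matrix.mul_apply, Fin.sum_univ_two, Matrix.adjugate_fin_two, hx, hy, hz'] <;> ring

theorem bezout {W : M2} (h : cont W = 1) :
    ∃ u v w : ℤ, u * W 0 1 + v * W 1 0 + w * (W 0 0 - W 1 1) = 1 := by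
  have h1 := Int.gcd_eq_gcd_ab (Int.gcd (W 0 1) (W 1 0)) (W 0 0 - W 1 1)
  have h2 := Int.gcd_eq_gcd_ab (W 0 1) (W 1 0)
  rw [show Int.gcd (Int.gcd (W 0 1) (W 1 0)) (W 0 0 - W 1 1) = 1 from h] at h1
  generalize Int.gcdA (Int.gcd (W 0 1) (W 1 0)) (W 0 0 - W 1 1) = p at h1
  generalize Int.gcdB (Int.gcd (W 0 1) (W 1 0)) (W 0 0 - W 1 1) = q at h1
  rw [h2] at h1
  exact ⟨Int.gcdA (W 0 1) (W 1 0) * p, Int.gcdB (W 0 1) (W 1 0) * p, q, by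
    push_cast at h1; linear_combination -h1⟩

theorem adj_adj (g : M2) : g.adjugate.adjugate = g := by
  ext i j
  fin_cases i <;> fin_cases j <;> simp [Matrix.adjugate_fin_two]

theorem det_adj (g : M2) : g.adjugate.det = g.det := by
  simp [Matrix.adjugate_fin_two, Matrix.det_fin_two]; ring

theorem trace_conj (g W : M2) : (g * W * g.adjugate).trace = g.det * W.trace := by
  rw [Matrix.trace_mul_cycle, Matrix.adjugate_mul, Matrix.smul_mul, Matrix.one_mul,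
    Matrix.trace_smul, smul_eq_mul]

theorem det_conj (g W : M2) : (g * W * g.adjugate).det = g.det ^ 2 * W.det := by
  rw [Matrix.det_mul, Matrix.det_mul, det_adj]; ring

theorem conj_pos {g W : M2} (hg : g.det ≠ 0) (h1 : 0 < W 1 0) (h2 : W.trace ^ 2 < 4 * W.det) :
    0 < (g * W * g.adjugate) 1 0 := by
  have e : 4 * W 1 0 * (g * W * g.adjugate) 1 0 =
      (2 * W 1 0 * g 1 1 + (W 0 0 - W 1 1) * g 1 0) ^ 2 + (4 * W.det - W.trace ^ 2) * g 1 0 ^ 2 := by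
    simp [Matrix.mul_apply, Fin.sum_univ_two, Matrix.adjugate_fin_two, Matrix.det_fin_two,
      Matrix.trace_fin_two]
    ring
  refine (mul_pos_iff_of_pos_left (show 0 < 4 * W 1 0 by positivity)).1 ?_
  rw [e]
  by_cases h : g 1 0 = 0
  · have : g 1 1 ≠ 0 := fun e' => hg (by rw [Matrix.det_fin_two, h, e']; ring)
    rw [h]
    have : 2 * W 1 0 * g 1 1 ≠ 0 := by positivity
    simp only [mul_zero, add_zero, ne_eq, OfNat.ofNat_ne_zero, not_false_eq_true, zero_pow]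
    positivity
  · have : 0 < 4 * W.det - W.trace ^ 2 := by linarith
    positivity

end W

end Pool.Agent.Lib.MP_9177b7_ag.EQ
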